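import Pool.Agent.TH95.SD.VHsys
import Pool.Agent.TH95.DI.JobA

/-!
# Groups of one-vertex square complexes with vertical and horizontal edges are torsion-free
-/

set_option autoImplicit false
set_option linter.unusedSectionVars false

namespace Pool.Agent.TH95

open Pool.Agent.W387 Pool.Agent.W387.SqSys

namespace TF

variable {V H : Type} (T : VH V H)

/-- number of vertical darts -/
def nv : List (VH.Da V H) → ℕ
  | [] => 0
  | Sum.inl _ :: l => nv l + 1
  | Sum.inr _ :: l => nv l

/-- the subgroup generated by the horizontal darts -/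
def HH : Subgroup T.Grp := Subgroup.closure (Set.range T.gh)

theorem gh_mem (h : H) : T.gh h ∈ HH T := Subgroup.subset_closure ⟨h, rfl⟩

theorem inr_mem (h : H) : T.sys.gn (Sum.inr h) ∈ HH T := gh_mem T h

/-- the first vertical edge of a word, as a coset -/
noncomputable def fC : List (VH.Da V H) → T.Grp ⧸ HH T
  | [] => ((1 : T.Grp) : T.Grp ⧸ HH T)
  | Sum.inl p :: _ => ((T.sys.gn (Sum.inl p) : T.Grp) : T.Grp ⧸ HH T)
  | Sum.inr h :: l => (T.sys.gn (Sum.inr h) : T.Grp) • fC l

theorem coe_mul_mem (a b : T.Grp) (hb : b ∈ HH T) :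
    ((a * b : T.Grp) : T.Grp ⧸ HH T) = ((a : T.Grp) : T.Grp ⧸ HH T) := by
  rw [QuotientGroup.eq]
  have : (a * b)⁻¹ * a = b⁻¹ := by group
  rw [this]
  exact (HH T).inv_mem hb

theorem nv_fl {l l' : List (VH.Da V H)} (h : T.sys.Fl l l') :
    nv l = nv l' ∧ fC T l = fC T l' := by
  induction h with
  | head l h =>
    rename_i a b p q
    have hg : T.sys.gn a * T.sys.gn p = T.sys.gn b * T.sys.gn q := gn_sq h
    obtain ⟨v, h1, h2, v', _, hc⟩ := (T.sq_iff _ _ _ _).mp h
    rcases hc with ⟨rfl, rfl, rfl, rfl⟩ | ⟨rfl, rfl, rfl, rfl⟩ | ⟨rfl, rfl, rfl, rfl⟩ |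
      ⟨rfl, rfl, rfl, rfl⟩
    · refine ⟨rfl, ?_⟩
      show ((T.sys.gn _ : T.Grp) : T.Grp ⧸ HH T) =
        (T.sys.gn _ : T.Grp) • ((T.sys.gn _ : T.Grp) : T.Grp ⧸ HH T)
      rw [MulAction.Quotient.smul_coe, smul_eq_mul, ← hg, coe_mul_mem T _ _ (inr_mem T _)]
    · refine ⟨rfl, ?_⟩
      show (T.sys.gn _ : T.Grp) • ((T.sys.gn _ : T.Grp) : T.Grp ⧸ HH T) =
        ((T.sys.gn _ : T.Grp) : T.Grp ⧸ HH T)
      rw [MulAction.Quotient.smul_coe, smul_eq_mul, hg, coe_mul_mem T _ _ (inr_mem T _)]
    · refine ⟨rfl, ?_⟩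
      show ((T.sys.gn _ : T.Grp) : T.Grp ⧸ HH T) =
        (T.sys.gn _ : T.Grp) • ((T.sys.gn _ : T.Grp) : T.Grp ⧸ HH T)
      rw [MulAction.Quotient.smul_coe, smul_eq_mul, ← hg, coe_mul_mem T _ _ (inr_mem T _)]
    · refine ⟨rfl, ?_⟩
      show (T.sys.gn _ : T.Grp) • ((T.sys.gn _ : T.Grp) : T.Grp ⧸ HH T) =
        ((T.sys.gn _ : T.Grp) : T.Grp ⧸ HH T)
      rw [MulAction.Quotient.smul_coe, smul_eq_mul, hg, coe_mul_mem T _ _ (inr_mem T _)]
  | cons c _ ih =>
    rcases c with c | c
    · exact ⟨by show nv _ + 1 = nv _ + 1; rw [ih.1], rfl⟩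
    · exact ⟨ih.1, by
        show (T.sys.gn _ : T.Grp) • fC T _ = (T.sys.gn _ : T.Grp) • fC T _
        rw [ih.2]⟩

theorem nv_E {l l' : List (VH.Da V H)} (h : T.sys.E l l') :
    nv l = nv l' ∧ fC T l = fC T l' := by
  induction h with
  | refl => exact ⟨rfl, rfl⟩
  | tail _ h2 ih => exact ⟨ih.1.trans (nv_fl T h2).1, ih.2.trans (nv_fl T h2).2⟩

/-- number of vertical edges of a group element -/
noncomputable def vl (g : T.Grp) : ℕ := nv (exists_red g).choose

/-- first vertical edge of a group element -/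
noncomputable def FC (g : T.Grp) : T.Grp ⧸ HH T := fC T (exists_red g).choose

theorem vl_evL {m : List (VH.Da V H)} (h : T.sys.Red m) : vl T (evL (S := T.sys) m) = nv m := by
  have h2 := (exists_red (evL (S := T.sys) m)).choose_spec
  exact (nv_E T (E_of_evL_eq h2.1 h h2.2)).1

theorem FC_evL {m : List (VH.Da V H)} (h : T.sys.Red m) :
    FC T (evL (S := T.sys) m) = fC T m := by
  have h2 := (exists_red (evL (S := T.sys) m)).choose_spec
  exact (nv_E T (E_of_evL_eq h2.1 h h2.2)).2

theorem two (a : VH.Da V H) (x : T.Grp) :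
    (∃ m, T.sys.Red (a :: m) ∧ evL (S := T.sys) m = x) ∨
      ∃ m, T.sys.Red (T.sys.inv a :: m) ∧ evL (S := T.sys) (T.sys.inv a :: m) = x := by
  obtain ⟨m, hm, rfl⟩ := exists_red x
  by_cases h : T.sys.Red (a :: m)
  · exact Or.inl ⟨m, h, rfl⟩
  · obtain ⟨m', hm'⟩ := exists_tail hm h
    exact Or.inr ⟨m', hm.congr hm', (evL_E hm').symm⟩

theorem horiz (h : H) (x : T.Grp) :
    vl T (T.sys.gn (Sum.inr h) * x) = vl T x ∧
      FC T (T.sys.gn (Sum.inr h) * x) = (T.sys.gn (Sum.inr h) : T.Grp) • FC T x := by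
  rcases two T (Sum.inr h) x with ⟨m, hm, rfl⟩ | ⟨m, hm, rfl⟩
  · rw [← evL_cons, vl_evL T hm, vl_evL T hm.tail, FC_evL T hm, FC_evL T hm.tail]
    exact ⟨rfl, rfl⟩
  · have e1 : T.sys.gn (Sum.inr h) * evL (S := T.sys) (T.sys.inv (Sum.inr h) :: m) =
        evL (S := T.sys) m := by
      rw [evL_cons, gn_inv, mul_inv_cancel_left]
    rw [e1, vl_evL T hm, vl_evL T hm.tail, FC_evL T hm, FC_evL T hm.tail]
    refine ⟨rfl, ?_⟩
    show fC T m = (T.sys.gn (Sum.inr h) : T.Grp) •
      ((T.sys.gn (T.sys.inv (Sum.inr h)) : T.Grp) • fC T m)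
    rw [gn_inv, smul_inv_smul]

theorem vert (p : V × Bool) (x : T.Grp) :
    (vl T (T.sys.gn (Sum.inl p) * x) = vl T x + 1 ∧
      FC T (T.sys.gn (Sum.inl p) * x) = ((T.sys.gn (Sum.inl p) : T.Grp) : T.Grp ⧸ HH T)) ∨
    FC T x = (((T.sys.gn (Sum.inl p))⁻¹ : T.Grp) : T.Grp ⧸ HH T) := by
  rcases two T (Sum.inl p) x with ⟨m, hm, rfl⟩ | ⟨m, hm, rfl⟩
  · left
    rw [← evL_cons, vl_evL T hm, vl_evL T hm.tail, FC_evL T hm]
    exact ⟨rfl, rfl⟩
  · right
    rw [FC_evL T hm, ← gn_inv]
    rfl

theorem hor_mul {u : T.Grp} (hu : u ∈ HH T) : ∀ x : T.Grp,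
    vl T (u * x) = vl T x ∧ FC T (u * x) = u • FC T x := by
  unfold HH at hu
  induction hu using Subgroup.closure_induction with
  | mem y hy =>
    obtain ⟨h, rfl⟩ := hy
    exact horiz T h
  | one => intro x; simp
  | mul a b _ _ iha ihb =>
    intro x
    rw [mul_assoc, (iha _).1, (iha _).2, (ihb _).1, (ihb _).2, mul_smul]
    exact ⟨rfl, rfl⟩
  | inv a _ ih =>
    intro x
    have h1 := ih (a⁻¹ * x)
    rw [mul_inv_cancel_left] at h1
    exact ⟨h1.1.symm, by rw [h1.2, inv_smul_smul]⟩

theorem vl_one : vl T 1 = 0 := vl_evL T (m := []) red_nil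

theorem vl_mem {u : T.Grp} (hu : u ∈ HH T) : vl T u = 0 := by
  have := (hor_mul T hu 1).1
  rw [mul_one] at this
  rw [this, vl_one]

theorem evL_mem : ∀ m : List (VH.Da V H), nv m = 0 → evL (S := T.sys) m ∈ HH T := by
  intro m
  induction m with
  | nil => intro _; exact (HH T).one_mem
  | cons a m ih =>
    intro h
    rcases a with a | a
    · exact absurd h (Nat.succ_ne_zero _)
    · rw [evL_cons]
      exact (HH T).mul_mem (inr_mem T a) (ih h)

theorem mem_of_vl {u : T.Grp} (h : vl T u = 0) : u ∈ HH T := by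
  obtain ⟨m, hm, rfl⟩ := exists_red u
  rw [vl_evL T hm] at h
  exact evL_mem T m h

/-- splitting off the first vertical edge -/
theorem split (x : T.Grp) (h : 1 ≤ vl T x) : ∃ u ∈ HH T, ∃ (p : V × Bool) (r : T.Grp),
    x = u * T.sys.gn (Sum.inl p) * r ∧ vl T r + 1 = vl T x ∧
      FC T x = ((u * T.sys.gn (Sum.inl p) : T.Grp) : T.Grp ⧸ HH T) := by
  obtain ⟨m, hm, rfl⟩ := exists_red x
  induction m with
  | nil =>
    exfalso
    have := vl_one T
    rw [evL_nil] at h
    omega
  | cons a m ih =>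
    rcases a with p | q
    · refine ⟨1, (HH T).one_mem, p, evL m, by rw [one_mul, evL_cons], ?_, ?_⟩
      · rw [vl_evL T hm, vl_evL T hm.tail]; rfl
      · rw [FC_evL T hm, one_mul]; rfl
    · have h1 := horiz T q (evL m)
      rw [evL_cons, h1.1] at h
      obtain ⟨u, hu, p, r, e1, e2, e3⟩ := ih hm.tail h
      refine ⟨T.sys.gn (Sum.inr q) * u, (HH T).mul_mem (inr_mem T q) hu, p, r, ?_, ?_, ?_⟩
      · rw [evL_cons, e1]; simp only [mul_assoc]
      · rw [evL_cons, h1.1]; exact e2
      · rw [evL_cons, h1.2, e3, MulAction.Quotient.smul_coe, smul_eq_mul, mul_assoc]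

theorem FC_one {c : T.Grp} (hc : vl T c = 1) : FC T c = ((c : T.Grp) : T.Grp ⧸ HH T) := by
  obtain ⟨u, hu, p, r, e1, e2, e3⟩ := split T c (by omega)
  have h1 := coe_mul_mem T (u * T.sys.gn (Sum.inl p)) r (mem_of_vl T (by omega))
  rw [← e1] at h1
  rw [e3]
  exact h1.symm

theorem A2 {c x : T.Grp} (hx : 1 ≤ vl T x) (h : FC T x = ((c : T.Grp) : T.Grp ⧸ HH T)) :
    vl T (c⁻¹ * x) + 1 = vl T x := by
  obtain ⟨u, hu, p, r, e1, e2, e3⟩ := split T x hx
  rw [e3, eq_comm, QuotientGroup.eq] at h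
  have e4 : c⁻¹ * x = (c⁻¹ * (u * T.sys.gn (Sum.inl p))) * r := by
    rw [e1]; simp only [mul_assoc]
  rw [e4, (hor_mul T h r).1]
  exact e2

theorem A3 {c x : T.Grp} (hc : vl T c = 1) (h : FC T x ≠ ((c : T.Grp) : T.Grp ⧸ HH T)) :
    vl T (c⁻¹ * x) = vl T x + 1 ∧
      FC T (c⁻¹ * x) = ((c⁻¹ : T.Grp) : T.Grp ⧸ HH T) := by
  obtain ⟨u, hu, p, r, e1, e2, e3⟩ := split T c (by omega)
  have hr : r ∈ HH T := mem_of_vl T (by omega)
  have hu' : u⁻¹ ∈ HH T := (HH T).inv_mem hu
  have hr' : r⁻¹ ∈ HH T := (HH T).inv_mem hr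
  have h1 := hor_mul T hu' x
  have hinv : T.sys.gn (T.sys.inv (Sum.inl p)) = (T.sys.gn (Sum.inl p))⁻¹ := gn_inv _
  have hp : T.sys.inv (Sum.inl p) = Sum.inl (p.1, !p.2) := rfl
  rw [hp] at hinv
  have e4 : c⁻¹ * x = r⁻¹ * (T.sys.gn (Sum.inl (p.1, !p.2)) * (u⁻¹ * x)) := by
    rw [e1, hinv]; group
  rcases vert T (p.1, !p.2) (u⁻¹ * x) with ⟨h2, h3⟩ | h2
  · have h4 := hor_mul T hr' (T.sys.gn (Sum.inl (p.1, !p.2)) * (u⁻¹ * x))
    rw [e4, h4.1, h4.2, h2, h3, h1.1]
    refine ⟨rfl, ?_⟩
    rw [MulAction.Quotient.smul_coe, smul_eq_mul]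
    have e5 : c⁻¹ = r⁻¹ * T.sys.gn (Sum.inl (p.1, !p.2)) * u⁻¹ := by
      rw [e1, hinv]; group
    rw [e5, coe_mul_mem T _ _ hu']
  · exfalso
    apply h
    rw [hinv, _root_.inv_inv, h1.2] at h2
    have h3 : FC T x = u • ((T.sys.gn (Sum.inl p) : T.Grp) : T.Grp ⧸ HH T) := by
      rw [← h2, smul_inv_smul]
    rw [h3, MulAction.Quotient.smul_coe, smul_eq_mul, e1, coe_mul_mem T _ _ hr]

/-- every dart raises the number of vertical edges by at most its own contribution -/
theorem vl_le : ∀ m : List (VH.Da V H), vl T (evL (S := T.sys) m) ≤ nv m := by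
  intro m
  induction m with
  | nil => rw [evL_nil, vl_one]; exact Nat.zero_le _
  | cons a m ih =>
    rcases a with p | q
    · have hvp : vl T (T.sys.gn (Sum.inl p)) = 1 := by
        rcases vert T p 1 with ⟨h1, _⟩ | h1
        · rw [mul_one, vl_one] at h1; exact h1
        · exfalso
          have h2 : FC T 1 = ((1 : T.Grp) : T.Grp ⧸ HH T) := FC_evL T (m := []) red_nil
          rw [h2, QuotientGroup.eq, inv_one, one_mul] at h1
          have h3 := (HH T).inv_mem h1
          rw [_root_.inv_inv] at h3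
          have h4 := vl_mem T h3
          rcases two T (Sum.inl p) 1 with ⟨m', hm', e⟩ | ⟨m', hm', e⟩
          · have h5 := vl_evL T hm'
            rw [evL_cons, e, mul_one, h4] at h5
            exact absurd h5.symm (Nat.succ_ne_zero _)
          · have h5 := vl_evL T hm'
            rw [e, vl_one] at h5
            exact absurd h5.symm (Nat.succ_ne_zero _)
      rw [evL_cons]
      show _ ≤ nv m + 1
      have hinv : T.sys.gn (T.sys.inv (Sum.inl p)) = (T.sys.gn (Sum.inl p))⁻¹ := gn_inv _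
      rcases vert T p (evL m) with ⟨h1, _⟩ | h1
      · omega
      · by_cases h2 : 1 ≤ vl T (evL (S := T.sys) m)
        · have h3 := A2 T h2 h1
          rw [_root_.inv_inv] at h3
          omega
        · have h3 : evL (S := T.sys) m ∈ HH T := mem_of_vl T (by omega)
          exfalso
          have h4 := (hor_mul T h3 1).2
          rw [mul_one, h1] at h4
          have h5 : FC T 1 = ((1 : T.Grp) : T.Grp ⧸ HH T) := FC_evL T (m := []) red_nil
          rw [h5, MulAction.Quotient.smul_coe, smul_eq_mul, mul_one, QuotientGroup.eq,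
            _root_.inv_inv] at h4
          have h6 := (HH T).mul_mem h4 ((HH T).inv_mem h3)
          rw [mul_inv_cancel_right] at h6
          have h7 := vl_mem T h6
          omega
    · rw [evL_cons, (horiz T q _).1]
      exact ih

/-- the inverse word -/
def iw (m : List (VH.Da V H)) : List (VH.Da V H) := (m.map T.sys.inv).reverse

theorem evL_append (l l' : List (VH.Da V H)) :
    evL (S := T.sys) (l ++ l') = evL l * evL l' := by
  induction l with
  | nil => simp
  | cons a l ih => rw [List.cons_append, evL_cons, evL_cons, ih, mul_assoc]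

theorem nv_append (l l' : List (VH.Da V H)) : nv (l ++ l') = nv l + nv l' := by
  induction l with
  | nil => simp [nv]
  | cons a l ih =>
    rcases a with a | a
    · show nv (l ++ l') + 1 = nv l + 1 + nv l'
      omega
    · exact ih

theorem iw_spec (m : List (VH.Da V H)) :
    evL (S := T.sys) (iw T m) = (evL m)⁻¹ ∧ nv (iw T m) = nv m := by
  induction m with
  | nil => simp [iw, nv]
  | cons a m ih =>
    have e : iw T (a :: m) = iw T m ++ [T.sys.inv a] := by simp [iw]
    rw [e, evL_append, nv_append, ih.1, ih.2, evL_cons, evL_cons, evL_nil, mul_one, gn_inv,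
      mul_inv_rev]
    refine ⟨rfl, ?_⟩
    rcases a with ⟨v, s⟩ | a
    · rfl
    · rfl

theorem vl_inv (x : T.Grp) : vl T x⁻¹ = vl T x := by
  have key : ∀ y : T.Grp, vl T y⁻¹ ≤ vl T y := by
    intro y
    obtain ⟨m, hm, rfl⟩ := exists_red y
    have h1 := vl_le T (iw T m)
    rw [(iw_spec T m).1, (iw_spec T m).2] at h1
    rw [vl_evL T hm]
    exact h1
  apply le_antisymm (key x)
  have := key x⁻¹
  rwa [_root_.inv_inv] at this

/-- concatenation -/
theorem concat (k : ℕ) : ∀ x : T.Grp, vl T x = k → 1 ≤ k → ∀ y : T.Grp,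
    FC T y ≠ FC T x⁻¹ → vl T (x * y) = vl T x + vl T y ∧ FC T (x * y) = FC T x := by
  induction k using Nat.strong_induction_on with
  | _ k IH =>
  intro x hx hk y hy
  rcases Nat.lt_or_ge 1 k with h1 | h1
  · obtain ⟨u, hu, p, r, e1, e2, e3⟩ := split T x (by omega)
    obtain ⟨c, hc⟩ : ∃ c, c = u * T.sys.gn (Sum.inl p) := ⟨_, rfl⟩
    rw [← hc] at e1 e3
    have hc1 : vl T c = 1 := by
      rw [hc, (hor_mul T hu _).1]
      have := vl_le T [Sum.inl p]
      rw [evL_cons, evL_nil, mul_one] at this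
      have h2 : nv [(Sum.inl p : VH.Da V H)] = 1 := rfl
      rcases Nat.eq_zero_or_pos (vl T (T.sys.gn (Sum.inl p))) with h3 | h3
      · exfalso
        have h4 := mem_of_vl T h3
        have h5 := (hor_mul T ((HH T).mul_mem hu h4) r).1
        rw [← hc, ← e1] at h5
        omega
      · omega
    have hcr : FC T r ≠ ((c⁻¹ : T.Grp) : T.Grp ⧸ HH T) := by
      intro hcon
      have h2 := A2 T (by omega) hcon
      rw [_root_.inv_inv, ← e1] at h2
      omega
    have hci : vl T c⁻¹ = 1 := by rw [vl_inv, hc1]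
    have hFi : FC T x⁻¹ = FC T r⁻¹ := by
      have h2 := IH (k - 1) (by omega) r⁻¹ (by rw [vl_inv]; omega) (by omega) c⁻¹ (by
        rw [_root_.inv_inv, FC_one T hci]
        exact fun h => hcr h.symm)
      rw [← h2.2, e1, mul_inv_rev]
    rw [hFi] at hy
    have h3 := IH (k - 1) (by omega) r (by omega) (by omega) y hy
    have h4 := A3 T (x := r * y) hci (by rw [h3.2]; exact hcr)
    rw [_root_.inv_inv, ← mul_assoc, ← e1] at h4
    rw [h4.1, h4.2, e3, h3.1]
    exact ⟨by omega, rfl⟩
  · have hk1 : k = 1 := by omega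
    have hxi : vl T x⁻¹ = 1 := by rw [vl_inv]; omega
    rw [FC_one T hxi] at hy
    have h4 := A3 T (x := y) hxi hy
    rw [_root_.inv_inv] at h4
    rw [h4.1, h4.2, FC_one T (by omega : vl T x = 1)]
    exact ⟨by omega, rfl⟩

/-- the sign homomorphism -/
noncomputable def sgn : T.Grp →* Multiplicative ℤ :=
  T.lift (fun _ => Multiplicative.ofAdd 1) (fun _ => 1) (fun _ => by simp) (fun _ _ _ _ _ => by simp)

theorem sgn_HH {u : T.Grp} (hu : u ∈ HH T) : sgn T u = 1 := by
  unfold HH at hu
  induction hu using Subgroup.closure_induction with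
  | mem y hy =>
    obtain ⟨h, rfl⟩ := hy
    exact T.lift_gh _ _ _ _ h
  | one => exact map_one _
  | mul a b _ _ iha ihb => rw [map_mul, iha, ihb, one_mul]
  | inv a _ ih => rw [map_inv, ih, inv_one]

theorem sgn_inl (p : V × Bool) : sgn T (T.sys.gn (Sum.inl p)) = Multiplicative.ofAdd 1 ∨
    sgn T (T.sys.gn (Sum.inl p)) = Multiplicative.ofAdd (-1) := by
  obtain ⟨v, s⟩ := p
  rcases s with _ | _
  · right
    have h1 : T.sys.gn (T.sys.inv (Sum.inl (v, true))) = (T.sys.gn (Sum.inl (v, true)))⁻¹ :=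
      gn_inv _
    have h2 : T.sys.inv (Sum.inl (v, true)) = (Sum.inl (v, false) : VH.Da V H) := rfl
    rw [h2] at h1
    rw [h1, map_inv]
    have h3 : sgn T (T.sys.gn (Sum.inl (v, true))) = Multiplicative.ofAdd 1 :=
      T.lift_gv _ _ _ _ v
    rw [h3]
    rfl
  · left
    exact T.lift_gv _ _ _ _ v

theorem no_inversion {c : T.Grp} (hc : vl T c = 1) : c * c ∉ HH T := by
  intro hcon
  obtain ⟨u, hu, p, r, e1, e2, e3⟩ := split T c (by omega)
  have hr : r ∈ HH T := mem_of_vl T (by omega)
  have h1 := sgn_HH T hcon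
  have h2 : sgn T c = sgn T (T.sys.gn (Sum.inl p)) := by
    rw [e1, map_mul, map_mul, sgn_HH T hu, sgn_HH T hr, one_mul, mul_one]
  rw [map_mul, h2] at h1
  rcases sgn_inl T p with h3 | h3
  · rw [h3] at h1
    have h4 := congrArg Multiplicative.toAdd h1
    simp at h4
  · rw [h3] at h1
    have h4 := congrArg Multiplicative.toAdd h1
    simp at h4

/-- elements of finite order are conjugate to elements of `HH` -/
theorem conj_HH (n : ℕ) (hn : 0 < n) (k : ℕ) : ∀ g : T.Grp, vl T g = k → g ^ n = 1 →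
    ∃ t : T.Grp, t⁻¹ * g * t ∈ HH T := by
  induction k using Nat.strong_induction_on with
  | _ k IH =>
  intro g hg hgn
  rcases Nat.eq_zero_or_pos k with h0 | h0
  · exact ⟨1, by simpa using mem_of_vl T (by omega : vl T g = 0)⟩
  by_cases hF : FC T g = FC T g⁻¹
  · rcases Nat.lt_or_ge 1 k with h1 | h1
    · obtain ⟨u, hu, p, r, e1, e2, e3⟩ := split T g (by omega)
      obtain ⟨c, hc⟩ : ∃ c, c = u * T.sys.gn (Sum.inl p) := ⟨_, rfl⟩
      rw [← hc] at e1 e3
      have hcg : vl T (c⁻¹ * g) + 1 = vl T g := A2 T (by omega) e3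
      have hx : vl T (g⁻¹ * c) = k - 1 := by
        have : g⁻¹ * c = (c⁻¹ * g)⁻¹ := by group
        rw [this, vl_inv]; omega
      have hc1 : vl T c = 1 := by
        rw [hc, (hor_mul T hu _).1]
        have := vl_le T [Sum.inl p]
        rw [evL_cons, evL_nil, mul_one] at this
        have h2 : nv [(Sum.inl p : VH.Da V H)] = 1 := rfl
        rcases Nat.eq_zero_or_pos (vl T (T.sys.gn (Sum.inl p))) with h3 | h3
        · exfalso
          have h4 := mem_of_vl T h3
          have h5 := (hor_mul T ((HH T).mul_mem hu h4) r).1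
          rw [← hc, ← e1] at h5
          omega
        · omega
      have hci : vl T c⁻¹ = 1 := by rw [vl_inv, hc1]
      have hFx : FC T (g⁻¹ * c) = ((c : T.Grp) : T.Grp ⧸ HH T) := by
        have hne : FC T c⁻¹ ≠ FC T (g⁻¹ * c)⁻¹ := by
          intro hcon
          have e5 : (g⁻¹ * c)⁻¹ = c⁻¹ * g := by group
          rw [FC_one T hci, e5] at hcon
          have h2 := A2 T (by omega) hcon.symm
          rw [_root_.inv_inv, mul_inv_cancel_left] at h2
          omega
        have h2 := concat T (k - 1) (g⁻¹ * c) hx (by omega) c⁻¹ hne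
        rw [mul_inv_cancel_right] at h2
        rw [← h2.2, ← hF, e3]
      have h3 := A2 T (by omega) hFx
      have e6 : c⁻¹ * (g⁻¹ * c) = (c⁻¹ * g * c)⁻¹ := by group
      rw [e6, vl_inv] at h3
      obtain ⟨t, ht⟩ := IH (k - 2) (by omega) (c⁻¹ * g * c) (by omega) (by
        have : (c⁻¹ * g * c) ^ n = c⁻¹ * g ^ n * c := by
          have := conj_pow (i := n) (a := c⁻¹) (b := g)
          rwa [_root_.inv_inv] at this
        rw [this, hgn]; group)
      refine ⟨c * t, ?_⟩
      have e7 : (c * t)⁻¹ * g * (c * t) = t⁻¹ * (c⁻¹ * g * c) * t := by group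
      rw [e7]; exact ht
    · exfalso
      have hk1 : vl T g = 1 := by omega
      have hki : vl T g⁻¹ = 1 := by rw [vl_inv]; omega
      rw [FC_one T hk1, FC_one T hki, eq_comm, QuotientGroup.eq, _root_.inv_inv] at hF
      exact no_inversion T hk1 hF
  · exfalso
    have key : ∀ j : ℕ, vl T (g ^ (j + 1)) = (j + 1) * k ∧ FC T (g ^ (j + 1)) = FC T g := by
      intro j
      induction j with
      | zero => simp [hg]
      | succ j ih =>
        have h1 := concat T k g hg h0 (g ^ (j + 1)) (by rw [ih.2]; exact hF)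
        rw [pow_succ', h1.1, h1.2, ih.1, hg]
        exact ⟨by ring, rfl⟩
    have h1 := (key (n - 1)).1
    rw [Nat.sub_add_cancel hn, hgn, vl_one] at h1
    have : 0 < n * k := Nat.mul_pos hn h0
    omega

/-! ### Horizontal words -/

/-- reduced horizontal words -/
def Ch (l : List H) : Prop := List.IsChain (fun x y => y ≠ T.inv x) l

theorem no_fl (l : List H) (w : List (VH.Da V H)) : ¬ T.sys.Fl (l.map Sum.inr) w := by
  intro h
  generalize hm : (l.map Sum.inr : List (VH.Da V H)) = m at h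
  induction h generalizing l with
  | head l' h =>
    rename_i a b p q
    rcases l with _ | ⟨x, _ | ⟨y, l⟩⟩
    · simp at hm
    · simp at hm
    · simp only [List.map_cons, List.cons.injEq] at hm
      obtain ⟨rfl, rfl, _⟩ := hm
      obtain ⟨v, h1, h2, v', _, hc⟩ := (T.sq_iff _ _ _ _).mp h
      simp at hc
  | cons c _ ih =>
    rcases l with _ | ⟨x, l⟩
    · simp at hm
    · simp only [List.map_cons, List.cons.injEq] at hm
      exact ih l hm.2

theorem E_hor (l : List H) (w : List (VH.Da V H)) (h : T.sys.E (l.map Sum.inr) w) :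
    w = l.map Sum.inr := by
  induction h with
  | refl => rfl
  | tail _ h2 ih =>
    rw [ih] at h2
    exact absurd h2 (no_fl T l _)

theorem no_back (l : List H) (hl : Ch T l) : ¬ T.sys.HasBack (l.map Sum.inr) := by
  intro h
  generalize hm : (l.map Sum.inr : List (VH.Da V H)) = m at h
  induction h generalizing l with
  | here x l' =>
    rcases l with _ | ⟨a, _ | ⟨b, l⟩⟩
    · simp at hm
    · simp at hm
    · simp only [List.map_cons, List.cons.injEq] at hm
      obtain ⟨rfl, h2, _⟩ := hm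
      have h3 : (Sum.inr b : VH.Da V H) = Sum.inr (T.inv a) := h2
      have h4 := Sum.inr.inj h3
      unfold Ch at hl
      rw [List.isChain_cons_cons] at hl
      exact hl.1 h4
  | there a h ih =>
    rcases l with _ | ⟨x, l⟩
    · simp at hm
    · simp only [List.map_cons, List.cons.injEq] at hm
      exact ih l hl.tail hm.2

theorem red_hor (l : List H) (hl : Ch T l) : T.sys.Red (l.map Sum.inr) := by
  intro w hw
  rw [E_hor T l w hw]
  exact no_back T l hl

/-- value of a horizontal word -/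
noncomputable def hv (l : List H) : T.Grp := evL (S := T.sys) (l.map Sum.inr)

theorem hv_nil : hv T [] = 1 := rfl

theorem hv_cons (x : H) (l : List H) : hv T (x :: l) = T.gh x * hv T l := by
  unfold hv
  rw [List.map_cons, evL_cons]
  rfl

theorem hv_append (l l' : List H) : hv T (l ++ l') = hv T l * hv T l' := by
  unfold hv
  rw [List.map_append, evL_append]

theorem exists_chain (l : List H) : ∃ l', Ch T l' ∧ hv T l' = hv T l ∧
    l'.length ≤ l.length := by
  induction l with
  | nil => exact ⟨[], List.isChain_nil, rfl, le_refl _⟩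
  | cons x l ih =>
    obtain ⟨l', h1, h2, h3⟩ := ih
    rcases l' with _ | ⟨y, l'⟩
    · exact ⟨[x], List.isChain_singleton x, by rw [hv_cons, hv_cons, h2], by simp⟩
    · by_cases hxy : y = T.inv x
      · refine ⟨l', h1.tail, ?_, ?_⟩
        · rw [hv_cons T x, ← h2, hv_cons, hxy, T.gh_inv, mul_inv_cancel_left]
        · simp only [List.length_cons] at h3 ⊢
          omega
      · refine ⟨x :: y :: l', ?_, ?_, ?_⟩
        · unfold Ch at h1 ⊢
          rw [List.isChain_cons_cons]
          exact ⟨hxy, h1⟩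
        · rw [hv_cons, h2, hv_cons]
        · simp only [List.length_cons] at h3 ⊢
          omega

theorem hv_flatten (l : List H) (n : ℕ) : hv T (List.replicate n l).flatten = hv T l ^ n := by
  induction n with
  | zero => simp [hv_nil]
  | succ n ih => rw [List.replicate_succ, List.flatten_cons, hv_append, ih, pow_succ']

theorem len_hv (l : List H) (hl : Ch T l) : len (hv T l) = l.length := by
  unfold hv
  rw [len_evL _ (red_hor T l hl), List.length_map]

theorem tf_hor (hT : ∀ h, T.inv h ≠ h) (n : ℕ) (hn : 0 < n) (k : ℕ) : ∀ l : List H,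
    l.length = k → hv T l ^ n = 1 → hv T l = 1 := by
  induction k using Nat.strong_induction_on with
  | _ k IH =>
  intro l0 hl0 hp
  obtain ⟨l, h1, h2, h3⟩ := exists_chain T l0
  rw [← h2] at hp ⊢
  rcases Nat.lt_or_ge l.length k with h4 | h4
  · exact IH l.length h4 l rfl hp
  rcases l.eq_nil_or_concat' with rfl | ⟨l1, y, rfl⟩
  · rfl
  rcases l1 with _ | ⟨x, l2⟩
  · exfalso
    have hch : Ch T (List.replicate n ([] ++ [y])).flatten := by
      unfold Ch
      rw [List.isChain_flatten (by simp)]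
      refine ⟨?_, ?_⟩
      · intro l hl
        rw [List.eq_of_mem_replicate hl]
        exact h1
      · apply List.isChain_replicate_of_rel
        intro a ha b hb
        simp at ha hb
        rw [← ha, ← hb]
        exact (hT y).symm
    have h5 := len_hv T _ hch
    rw [hv_flatten, hp, len_one] at h5
    simp at h5
    omega
  · by_cases hxy : x = T.inv y
    · have e1 : hv T (x :: l2 ++ [y]) = T.gh x * hv T l2 * (T.gh x)⁻¹ := by
        rw [List.cons_append, hv_cons, hv_append, hv_cons, hv_nil, mul_one, hxy, T.gh_inv,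
          _root_.inv_inv, mul_assoc]
      have e2 : hv T l2 ^ n = 1 := by
        rw [e1, conj_pow] at hp
        have := congrArg (fun z => (T.gh x)⁻¹ * z * T.gh x) hp
        simpa [mul_assoc] using this
      have e3 := IH l2.length (by
        simp only [List.length_append, List.length_cons, List.length_nil] at h3 h4
        omega) l2 rfl e2
      rw [e1, e3]; group
    · exfalso
      have hch : Ch T (List.replicate n (x :: l2 ++ [y])).flatten := by
        unfold Ch
        rw [List.isChain_flatten (by simp)]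
        refine ⟨?_, ?_⟩
        · intro l hl
          rw [List.eq_of_mem_replicate hl]
          exact h1
        · apply List.isChain_replicate_of_rel
          intro a ha b hb
          rw [List.getLast?_append] at ha
          simp at ha hb
          rw [← ha, ← hb]
          exact hxy
      have h5 := len_hv T _ hch
      rw [hv_flatten, hp, len_one] at h5
      simp at h5
      omega

theorem hv_inv (l : List H) : hv T (l.map T.inv).reverse = (hv T l)⁻¹ := by
  induction l with
  | nil => simp [hv_nil]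
  | cons x l ih =>
    rw [List.map_cons, List.reverse_cons, hv_append, ih, hv_cons, hv_nil, mul_one, hv_cons,
      T.gh_inv, mul_inv_rev]

/-- elements of finite order of the subgroup of the horizontal edges are trivial -/
theorem tf_HH (hT : ∀ h, T.inv h ≠ h) (n : ℕ) (hn : 0 < n) (g : T.Grp) (hg : g ∈ HH T)
    (hp : g ^ n = 1) : g = 1 := by
  have hex : ∃ l : List H, hv T l = g := by
    clear hp
    unfold HH at hg
    induction hg using Subgroup.closure_induction with
    | mem y hy =>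
      obtain ⟨h, rfl⟩ := hy
      exact ⟨[h], by rw [hv_cons, hv_nil, mul_one]⟩
    | one => exact ⟨[], rfl⟩
    | mul a b _ _ iha ihb =>
      obtain ⟨l, rfl⟩ := iha
      obtain ⟨l', rfl⟩ := ihb
      exact ⟨l ++ l', hv_append T l l'⟩
    | inv a _ ih =>
      obtain ⟨l, rfl⟩ := ih
      exact ⟨(l.map T.inv).reverse, hv_inv T l⟩
  obtain ⟨l, rfl⟩ := hex
  exact tf_hor T hT n hn l.length l rfl hp

end TF

/-- the group of a one-vertex square complex with vertical and horizontal edges is torsion-free -/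
theorem VH.torsion_free {V H : Type} (T : VH V H) (hT : ∀ h, T.inv h ≠ h) (g : T.Grp) (n : ℕ)
    (hn : 0 < n) (h : g ^ n = 1) : g = 1 := by
  obtain ⟨t, ht⟩ := TF.conj_HH T n hn (TF.vl T g) g rfl h
  have h1 : (t⁻¹ * g * t) ^ n = 1 := by
    have := conj_pow (i := n) (a := t⁻¹) (b := g)
    rw [_root_.inv_inv] at this
    rw [this, h]
    group
  have h2 := TF.tf_HH T hT n hn _ ht h1
  have h3 : g = t * (t⁻¹ * g * t) * t⁻¹ := by group
  rw [h3, h2]
  group

end Pool.Agent.TH95
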