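import Mathlib

/-!
An elementary inequality: a double Fibonacci number beats the exponential of a cubic.
-/

set_option autoImplicit false

namespace Pool.Agent.TH95

/-- `f ⪯ g`: there is `C > 0` with `f n ≤ C * g (C n + C) + C n + C` for all `n`. -/
def Pre (f g : ℕ → ℝ) : Prop :=
  ∃ C : ℕ, 0 < C ∧ ∀ n : ℕ, f n ≤ C * g (C * n + C) + C * n + C

theorem pow_le_fib (m : ℕ) : 2 ^ (m / 2) ≤ Nat.fib (m + 1) := by
  induction m using Nat.strong_induction_on with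
  | _ m ih =>
    match m, ih with
    | 0, _ => simp
    | 1, _ => simp
    | m + 2, ih =>
      have h1 := ih m (by omega)
      have h2 : Nat.fib (m + 2 + 1) = Nat.fib (m + 1) + Nat.fib (m + 1 + 1) := Nat.fib_add_two
      have h3 : Nat.fib (m + 1) ≤ Nat.fib (m + 1 + 1) := Nat.fib_le_fib_succ
      have h4 : (m + 2) / 2 = m / 2 + 1 := by omega
      rw [h4, pow_succ, h2]
      omega

theorem exists_big (A : ℕ) : ∃ k : ℕ, A * (k + 1) ^ 3 < 2 ^ k := by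
  have h := tendsto_pow_const_div_const_pow_of_one_lt 3 (one_lt_two : (1 : ℝ) < 2)
  have h2 : ∀ᶠ n : ℕ in Filter.atTop, (n : ℝ) ^ 3 / 2 ^ n < 1 / (2 * (A + 1)) :=
    h.eventually_lt_const (by positivity)
  obtain ⟨N, hN⟩ := Filter.eventually_atTop.mp h2
  refine ⟨N, ?_⟩
  have h3 := hN (N + 1) (by omega)
  rw [div_lt_div_iff₀ (by positivity) (by positivity)] at h3
  have h4 : ((N + 1 : ℕ) : ℝ) ^ 3 * (2 * ((A : ℝ) + 1)) < 2 * 2 ^ N := by
    rw [one_mul] at h3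
    calc _ < (2 : ℝ) ^ (N + 1) := h3
      _ = 2 * 2 ^ N := by ring
  have h5 : (N + 1) ^ 3 * (2 * (A + 1)) < 2 * 2 ^ N := by exact_mod_cast h4
  nlinarith [Nat.zero_le ((N + 1) ^ 3)]

theorem exp_le_two_pow (m : ℕ) : Real.exp m ≤ 2 ^ (2 * m) := by
  have h1 : Real.exp 1 ≤ 4 := by
    have := Real.exp_one_lt_d9
    linarith
  have h2 : Real.exp m = Real.exp 1 ^ m := by
    rw [← Real.exp_nat_mul, mul_one]
  rw [h2, pow_mul]
  have h3 : (2 : ℝ) ^ 2 = 4 := by norm_num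
  rw [h3]
  exact pow_le_pow_left₀ (Real.exp_pos 1).le h1 m

theorem superexp_of_fib (f : ℕ → ℕ) (C : ℕ)
    (hf : ∀ n : ℕ, Nat.fib (Nat.fib (n + 1) + 1) ≤ f (C * (n + 1) ^ 3)) :
    ¬ Pre (fun n => (f n : ℝ)) (fun n => Real.exp n) := by
  rintro ⟨D, hD, h⟩
  obtain ⟨k, hk⟩ := exists_big (64 * D * C + 8 * D + 2)
  set N := C * (2 * k + 1) ^ 3 with hN
  set M := D * N + D with hM
  have h1 := hf (2 * k)
  have h2 := h N
  simp only at h2
  have h3 : 8 * M + 2 ≤ 2 ^ k := by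
    have e1 : (2 * k + 1) ^ 3 ≤ 8 * (k + 1) ^ 3 := by
      have : (2 * k + 1) ^ 3 ≤ (2 * (k + 1)) ^ 3 := Nat.pow_le_pow_left (by omega) 3
      calc (2 * k + 1) ^ 3 ≤ (2 * (k + 1)) ^ 3 := this
        _ = 8 * (k + 1) ^ 3 := by ring
    have e2 : N ≤ C * (8 * (k + 1) ^ 3) := Nat.mul_le_mul_left _ e1
    have e3 : D * N ≤ D * (C * (8 * (k + 1) ^ 3)) := Nat.mul_le_mul_left _ e2
    have e4 : 1 ≤ (k + 1) ^ 3 := Nat.one_le_pow _ _ (by omega)
    have e5 : D ≤ D * (k + 1) ^ 3 := Nat.le_mul_of_pos_right _ (by positivity)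
    have e6 : (64 * D * C + 8 * D + 2) * (k + 1) ^ 3 =
        8 * (D * (C * (8 * (k + 1) ^ 3))) + 8 * (D * (k + 1) ^ 3) + 2 * (k + 1) ^ 3 := by ring
    omega
  have h4 : 2 ^ k ≤ Nat.fib (2 * k + 1) := by
    have := pow_le_fib (2 * k)
    rwa [Nat.mul_div_cancel_left _ (by norm_num : 0 < 2)] at this
  have h5 : 4 * M + 1 ≤ Nat.fib (2 * k + 1) / 2 := by omega
  have h6 : 2 ^ (4 * M + 1) ≤ Nat.fib (Nat.fib (2 * k + 1) + 1) :=
    (Nat.pow_le_pow_right (by norm_num) h5).trans (pow_le_fib _)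
  have h7 : 2 ^ (4 * M + 1) ≤ f N := h6.trans h1
  have h8 : ((2 : ℝ) ^ (4 * M + 1)) ≤ f N := by exact_mod_cast h7
  have h9 : (D : ℝ) * Real.exp ((D * N + D : ℕ) : ℝ) + D * N + D ≤ Real.exp ((2 * M : ℕ) : ℝ) := by
    have e1 : ((D * N + D : ℕ) : ℝ) = (M : ℝ) := by rw [hM]
    have e2 : (D : ℝ) * N + D = M := by rw [hM]; push_cast; ring
    rw [e1, add_assoc, e2]
    have e3 : (M : ℝ) ≤ Real.exp M := by
      have := Real.add_one_le_exp (M : ℝ)
      linarith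
    have e4 : (D : ℝ) + 1 ≤ Real.exp D := Real.add_one_le_exp _
    have e5 : (D : ℝ) ≤ M := by
      have : D ≤ M := by omega
      exact_mod_cast this
    calc (D : ℝ) * Real.exp M + M ≤ D * Real.exp M + Real.exp M := by linarith
      _ = (D + 1) * Real.exp M := by ring
      _ ≤ Real.exp D * Real.exp M := by gcongr
      _ = Real.exp (D + M) := by rw [Real.exp_add]
      _ ≤ Real.exp ((2 * M : ℕ) : ℝ) := by
        apply Real.exp_le_exp.mpr
        push_cast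
        linarith
  have h10 := exp_le_two_pow (2 * M)
  have h11 : (2 : ℝ) ^ (4 * M + 1) ≤ 2 ^ (4 * M) := by
    calc (2 : ℝ) ^ (4 * M + 1) ≤ f N := h8
      _ ≤ _ := h2
      _ ≤ _ := h9
      _ ≤ _ := h10
      _ = 2 ^ (4 * M) := by ring_nf
  have h12 : (0 : ℝ) < 2 ^ (4 * M) := by positivity
  rw [pow_succ] at h11
  linarith

end Pool.Agent.TH95
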