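import Pool.Agent.TH95.SD.Len

/-!
The test sequences: short identity sequences with a prescribed chain.
-/

set_option autoImplicit false

set_option linter.unusedSectionVars false

noncomputable section

namespace Pool.Agent.TH95

/-- the words centralized by `y` -/
def Hy (o : Option L1) : FreeGroup Lx := pw (yl o)

/-- the indices of the relators with top letter `y` -/
def iy (o : Option L1) : Kx := ⟨Lx.y, o⟩

theorem trel_iy (o : Option L1) : trel hx kx (iy o) =
    FreeGroup.of Lx.y * Hy o * (FreeGroup.of Lx.y)⁻¹ * (Hy o)⁻¹ := rfl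

/-- values of formal products without relators of top letter `y`, with the length of the lift
bounded -/
def Fl (w : FreeGroup Lx) (N : ℕ) : Prop :=
  ∃ c : Seq Lx Kx, rho (trel hx kx) c = w ∧
    (∀ j : Option L1, chn gx c (iy j) = 0) ∧
    Bd (zhat c : FreeGroup (Lt Lx Kx)) N

theorem hat_bd {g : FreeGroup Lx} {M : ℕ} (h : Bd g M) : Bd (hat g : FreeGroup (Lt Lx Kx)) M :=
  h.map _

namespace Fl

variable {w v : FreeGroup Lx} {M N : ℕ}

theorem one : Fl 1 0 := ⟨1, by simp, by simp, by simpa using Bd.one⟩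

theorem mono (h : Fl w N) (hN : N ≤ M) : Fl w M := by
  obtain ⟨c, h1, h2, h3⟩ := h
  exact ⟨c, h1, h2, h3.mono hN⟩

theorem mul (h : Fl w N) (h' : Fl v M) : Fl (w * v) (N + M) := by
  obtain ⟨c, h1, h2, h3⟩ := h
  obtain ⟨d, h4, h5, h6⟩ := h'
  refine ⟨c * d, by rw [map_mul, h1, h4], fun j => ?_, ?_⟩
  · rw [chn_mul, Pi.add_apply, h2, h5, add_zero]
  · rw [map_mul]
    exact h3.mul h6

theorem inv (h : Fl w N) : Fl w⁻¹ N := by
  obtain ⟨c, h1, h2, h3⟩ := h
  refine ⟨c⁻¹, by rw [map_inv, h1], fun j => ?_, ?_⟩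
  · rw [chn_inv, Pi.neg_apply, h2, neg_zero]
  · rw [map_inv]
    exact h3.inv

theorem conj (h : Fl w N) {g : FreeGroup Lx} (hg : Bd g M) : Fl (g * w * g⁻¹) (N + 2 * M) := by
  obtain ⟨c, h1, h2, h3⟩ := h
  refine ⟨cj g c, by rw [rho_cj, h1], fun j => ?_, ?_⟩
  · rw [chn_cj, Pi.smul_apply, h2, smul_zero]
  · unfold zhat
    rw [zP_cj]
    exact (hat_bd hg).conj h3

end Fl

/-- the letters commuting with the first group -/
inductive LB
  | u (i : Fin 2)
  | p
  | v
  deriving DecidableEq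

/-- as letters -/
def LB.x : LB → Lx
  | .u i => .u i
  | .p => .p
  | .v => .v

/-- the index of the commutator relator -/
def qba : LB → L1 → Kx
  | .u i, a => ⟨Lx.u i, a⟩
  | .p, a => ⟨Lx.p, a⟩
  | .v, a => ⟨Lx.v, Sum.inl a⟩

theorem pw_single {α : Type} (a : α) : pw [a] = FreeGroup.of a := rfl

theorem trel_qba (b : LB) (a : L1) : trel hx kx (qba b a) =
    FreeGroup.of b.x * FreeGroup.of a.x * (FreeGroup.of b.x)⁻¹ * (FreeGroup.of a.x)⁻¹ := by
  cases b <;> rfl

theorem qba_ne (b : LB) (a : L1) (j : Option L1) : iy j ≠ qba b a := by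
  intro h
  have := congrArg Sigma.fst h
  cases b <;> simp [qba, iy] at this

theorem iy_inj {i j : Option L1} (h : iy i = iy j) : i = j := by
  unfold iy at h
  exact eq_of_heq (Sigma.mk.inj_iff.mp h).2

/-- a letter or its inverse -/
def ltr {α : Type} (x : α) (s : Bool) : FreeGroup α :=
  if s then FreeGroup.of x else (FreeGroup.of x)⁻¹

theorem ltr_bd {α : Type} (x : α) (s : Bool) : Bd (ltr x s) 1 := by
  cases s
  · simpa [ltr] using (Bd.of x).inv
  · simpa [ltr] using Bd.of x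

theorem mk_cons_ltr {α : Type} (x : α) (s : Bool) (L : List (α × Bool)) :
    FreeGroup.mk ((x, s) :: L) = ltr x s * FreeGroup.mk L := by
  cases s
  · simp [ltr, FreeGroup.of, FreeGroup.invRev]
  · simp [ltr, FreeGroup.of]

theorem Fl_rel (b : LB) (a : L1) : Fl
    (FreeGroup.of b.x * FreeGroup.of a.x * (FreeGroup.of b.x)⁻¹ * (FreeGroup.of a.x)⁻¹) 1 := by
  refine ⟨FreeGroup.of (1, qba b a), ?_, fun j => ?_, ?_⟩
  · rw [rho_of, trel_qba]
    group
  · classical
    rw [chn_of]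
    simp [qba_ne b a j]
  · unfold zhat
    rw [zP_of]
    simp only [map_one, one_mul, inv_one, mul_one]
    exact Bd.of _

theorem Fl_ltr (b : LB) (a : L1) (ε δ : Bool) : Fl
    (ltr b.x ε * ltr a.x δ * (ltr b.x ε)⁻¹ * (ltr a.x δ)⁻¹) 5 := by
  have h := Fl_rel b a
  cases ε <;> cases δ
  · -- both inverse
    have h1 := h.conj (((Bd.of b.x).inv).mul ((Bd.of a.x).inv))
    refine Fl.mono (N := 1 + 2 * (1 + 1)) ?_ (by norm_num)
    convert h1 using 1
    simp only [ltr]
    simp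
    group
  · have h1 := h.inv.conj ((Bd.of b.x).inv)
    refine Fl.mono (N := 1 + 2 * 1) ?_ (by norm_num)
    convert h1 using 1
    simp only [ltr]
    simp
    group
  · have h1 := h.inv.conj ((Bd.of a.x).inv)
    refine Fl.mono (N := 1 + 2 * 1) ?_ (by norm_num)
    convert h1 using 1
    simp only [ltr]
    simp
    group
  · refine Fl.mono (N := 1) ?_ (by norm_num)
    simpa [ltr] using h

/-- the free group on the letters different from `y` -/
abbrev FB : Type := FreeGroup (L1 ⊕ LB)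

/-- the letters as letters -/
def jx : L1 ⊕ LB → Lx
  | Sum.inl a => a.x
  | Sum.inr b => b.x

/-- the inclusion -/
def io : FB →* FreeGroup Lx := FreeGroup.map jx

/-- the first projection -/
def q1 : FB →* FB := FreeGroup.lift (fun x => match x with
  | Sum.inl a => FreeGroup.of (Sum.inl a)
  | Sum.inr _ => 1)

/-- the second projection -/
def q2 : FB →* FB := FreeGroup.lift (fun x => match x with
  | Sum.inl _ => 1
  | Sum.inr b => FreeGroup.of (Sum.inr b))

theorem q1_bd {w : FB} {N : ℕ} (h : Bd w N) : Bd (q1 w) N := by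
  have := h.lift (M := 1) (fun x : L1 ⊕ LB => match x with
    | Sum.inl a => FreeGroup.of (Sum.inl a)
    | Sum.inr _ => (1 : FB)) (by
      rintro (a | b)
      · exact Bd.of _
      · exact Bd.one.mono (Nat.zero_le _))
  simpa [q1] using this

theorem q2_ltr_inl (a : L1) (s : Bool) : q2 (ltr (Sum.inl a) s) = 1 := by
  cases s <;> simp [ltr, q2]

theorem q2_ltr_inr (b : LB) (s : Bool) : q2 (ltr (Sum.inr b) s) = ltr (Sum.inr b) s := by
  cases s <;> simp [ltr, q2]

theorem q1_ltr_inl (a : L1) (s : Bool) : q1 (ltr (Sum.inl a) s) = ltr (Sum.inl a) s := by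
  cases s <;> simp [ltr, q1]

theorem q1_ltr_inr (b : LB) (s : Bool) : q1 (ltr (Sum.inr b) s) = 1 := by
  cases s <;> simp [ltr, q1]

theorem io_ltr (x : L1 ⊕ LB) (s : Bool) : io (ltr x s) = ltr (jx x) s := by
  cases s <;> simp [ltr, io]

theorem Fl_comm (L : List ((L1 ⊕ LB) × Bool)) (a : L1) (δ : Bool) : Fl
    (io (q2 (FreeGroup.mk L)) * ltr a.x δ * (io (q2 (FreeGroup.mk L)))⁻¹ * (ltr a.x δ)⁻¹)
    (7 * L.length) := by
  induction L with
  | nil =>
    have : (FreeGroup.mk [] : FB) = 1 := FreeGroup.one_eq_mk.symm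
    rw [this]
    simpa using Fl.one
  | cons p L ih =>
    obtain ⟨x, s⟩ := p
    rw [mk_cons_ltr, map_mul]
    rcases x with a' | b
    · rw [q2_ltr_inl, one_mul]
      exact ih.mono (by simp only [List.length_cons]; omega)
    · rw [q2_ltr_inr, map_mul, io_ltr]
      have h1 := (ih.conj (ltr_bd (jx (Sum.inr b)) s)).mul (Fl_ltr b a s δ)
      refine Fl.mono (N := 7 * L.length + 2 * 1 + 5) ?_ (by
        simp only [List.length_cons]; omega)
      convert h1 using 1
      have : jx (Sum.inr b) = b.x := rfl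
      rw [this]
      group

theorem mk_append_ltr {α : Type} (L : List (α × Bool)) (x : α) (s : Bool) :
    FreeGroup.mk (L ++ [(x, s)]) = FreeGroup.mk L * ltr x s := by
  rw [← FreeGroup.mul_mk, mk_cons_ltr, ← FreeGroup.one_eq_mk, mul_one]

theorem Fl_fill (L : List ((L1 ⊕ LB) × Bool)) : Fl
    (io (FreeGroup.mk L) * (io (q1 (FreeGroup.mk L)) * io (q2 (FreeGroup.mk L)))⁻¹)
    (9 * L.length ^ 2) := by
  induction L using List.reverseRecOn with
  | nil =>
    have : (FreeGroup.mk [] : FB) = 1 := FreeGroup.one_eq_mk.symm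
    rw [this]
    simpa using Fl.one
  | append_singleton L p ih =>
    obtain ⟨x, s⟩ := p
    rw [mk_append_ltr, map_mul q1, map_mul q2, map_mul io, map_mul io, map_mul io]
    have hlen : (L ++ [(x, s)]).length = L.length + 1 := by simp
    rw [hlen]
    rcases x with a | b
    · rw [q1_ltr_inl, q2_ltr_inl, map_one, mul_one, io_ltr]
      have h1 : Bd (io (q1 (FreeGroup.mk L))) L.length :=
        Bd.map (q1_bd ⟨L, le_rfl, rfl⟩) _
      have h2 := ih.mul ((Fl_comm L a s).conj h1)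
      refine Fl.mono (N := 9 * L.length ^ 2 + (7 * L.length + 2 * L.length)) ?_ (by nlinarith)
      convert h2 using 1
      have : jx (Sum.inl a) = a.x := rfl
      rw [this]
      group
    · rw [q1_ltr_inr, q2_ltr_inr, map_one, mul_one, io_ltr]
      refine Fl.mono (N := 9 * L.length ^ 2) ?_ (by nlinarith)
      convert ih using 1
      group

/-- the words centralized by `y` as elements of the free group without `y` -/
def th : FreeGroup (Option L1) →* FB := FreeGroup.lift (fun o => match o with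
  | none => FreeGroup.of (Sum.inr LB.p)
  | some (L1.a j) => FreeGroup.of (Sum.inl (L1.a j))
  | some (L1.t i) => FreeGroup.of (Sum.inl (L1.t i)) * FreeGroup.of (Sum.inr (LB.u i))
  | some L1.s => FreeGroup.of (Sum.inl L1.s) * FreeGroup.of (Sum.inr LB.v))

theorem io_th (w : FreeGroup (Option L1)) : io (th w) = FreeGroup.lift Hy w := by
  have : io.comp th = FreeGroup.lift Hy := by
    ext o
    rcases o with _ | ⟨j | i | _⟩
    · simp [th, io, Hy, yl, pw_single, jx, LB.x]
    · simp [th, io, Hy, yl, pw_single, jx, L1.x]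
    · simp [th, io, Hy, yl, pw_cons, jx, L1.x, LB.x, pw_nil]
    · simp [th, io, Hy, yl, pw_cons, jx, L1.x, LB.x, pw_nil]
  exact DFunLike.congr_fun this w

theorem th_bd {w : FreeGroup (Option L1)} {N : ℕ} (h : Bd w N) : Bd (th w) (N * 2) := by
  unfold th
  apply h.lift
  intro o
  rcases o with _ | ⟨j | i | _⟩
  · exact (Bd.of _).mono (by norm_num)
  · exact (Bd.of _).mono (by norm_num)
  · exact (Bd.of _).mul (Bd.of _)
  · exact (Bd.of _).mul (Bd.of _)

theorem Vy_bd (n : ℕ) : Bd (Vy n) (4 * n + 3) := by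
  have hS : Bd (Sy ^ n) (n * 1) := (Bd.of _).pow n
  have hT : Bd Ty 1 := Bd.of _
  have hA : Bd Ay 1 := Bd.of _
  have hX := (hS.mul hT).mul hS.inv
  exact ((hX.mul hA).mul hX.inv).mono (by omega)

theorem gam_bd (n : ℕ) : Bd (gam n) (8 * n + 8) := by
  have hp : Bd py 1 := Bd.of _
  exact (((hp.mul (Vy_bd n)).mul hp.inv).mul (Vy_bd n).inv).mono (by omega)

theorem q1_th_gam (n : ℕ) : q1 (th (gam n)) = 1 := by
  have h : q1 (th py) = 1 := by simp [py, th, q1]
  unfold gam
  simp only [map_mul, map_inv, h]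
  group

theorem q2_th_gam (n : ℕ) : q2 (th (gam n)) = 1 := by
  have h : q2 (th Ay) = 1 := by simp [Ay, th, q2]
  have h2 : q2 (th (Vy n)) = 1 := by
    unfold Vy
    simp only [map_mul, map_inv, h]
    group
  unfold gam
  simp only [map_mul, map_inv, h2]
  group

theorem Fl_gam (n : ℕ) : Fl (FreeGroup.lift Hy (gam n)) (9 * (16 * n + 16) ^ 2) := by
  obtain ⟨L, h1, h2⟩ := th_bd (gam_bd n)
  have h3 := Fl_fill L
  rw [h2, q1_th_gam, q2_th_gam, io_th] at h3
  simp only [map_one, mul_one, inv_one] at h3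
  refine h3.mono ?_
  have : L.length ≤ 16 * n + 16 := by omega
  gcongr

theorem Hy_bd (o : Option L1) : Bd (Hy o) 2 := by
  refine ⟨(yl o).map (fun z => (z, true)), ?_, rfl⟩
  rw [List.length_map]
  exact yl_len o

/-- the images of the words centralized by `y` -/
def ky (o : Option L1) : Qx := FreeGroup.lift gx (Hy o)

theorem lift_ky (w : FreeGroup (Option L1)) :
    FreeGroup.lift ky w = FreeGroup.lift gx (FreeGroup.lift Hy w) := by
  have : FreeGroup.lift ky = (FreeGroup.lift gx).comp (FreeGroup.lift Hy) := by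
    ext i
    simp [ky]
  rw [this]
  rfl

theorem strip_pos (o : Option L1) : ∃ d : Seq Lx Kx, rho (trel hx kx) d = FreeGroup.of Lx.y *
      FreeGroup.lift Hy (FreeGroup.of o) *
      (FreeGroup.of Lx.y)⁻¹ * (FreeGroup.lift Hy (FreeGroup.of o))⁻¹ ∧
    (∀ i : Option L1, chn gx d (iy i) = fox ky (FreeGroup.of o) i) ∧
    Bd (zhat d : FreeGroup (Lt Lx Kx)) 1 := by
  classical
  refine ⟨FreeGroup.of (1, iy o), ?_, ?_, ?_⟩
  · rw [rho_of, trel_iy, FreeGroup.lift_apply_of]
    group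
  · intro j
    rw [chn_of, fox_of]
    by_cases hj : j = o
    · subst hj
      simp
    · have : iy j ≠ iy o := fun h => hj (iy_inj h)
      simp [this, hj]
  · unfold zhat
    rw [zP_of]
    simp only [map_one, one_mul, inv_one, mul_one]
    exact Bd.of _

theorem strip_ltr (o : Option L1) (s : Bool) : ∃ d : Seq Lx Kx,
    rho (trel hx kx) d = FreeGroup.of Lx.y * FreeGroup.lift Hy (ltr o s) *
      (FreeGroup.of Lx.y)⁻¹ * (FreeGroup.lift Hy (ltr o s))⁻¹ ∧
    (∀ i : Option L1, chn gx d (iy i) = fox ky (ltr o s) i) ∧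
    Bd (zhat d : FreeGroup (Lt Lx Kx)) 5 := by
  obtain ⟨d, h1, h2, h3⟩ := strip_pos o
  cases s
  · refine ⟨cj (FreeGroup.lift Hy (FreeGroup.of o))⁻¹ d⁻¹, ?_, ?_, ?_⟩
    · rw [rho_cj, map_inv, h1]
      simp only [ltr, Bool.false_eq_true, if_false, map_inv]
      group
    · intro j
      simp only [ltr, Bool.false_eq_true, if_false]
      rw [chn_cj, chn_inv, fox_inv, Pi.smul_apply, Pi.neg_apply, Pi.neg_apply, Pi.smul_apply,
        h2, lift_ky, map_inv, smul_neg]
    · unfold zhat at h3 ⊢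
      rw [zP_cj, map_inv (zP hat lz)]
      have : Bd (FreeGroup.lift Hy (FreeGroup.of o))⁻¹ 2 := by
        rw [FreeGroup.lift_apply_of]
        exact (Hy_bd o).inv
      exact (hat_bd this).conj h3.inv
  · refine ⟨d, ?_, ?_, h3.mono (by norm_num)⟩
    · simpa [ltr] using h1
    · simpa [ltr] using h2

/-- the strip with the length of its lift bounded -/
theorem strip_bd (L : List (Option L1 × Bool)) :
    ∃ d : Seq Lx Kx, rho (trel hx kx) d = FreeGroup.of Lx.y *
        FreeGroup.lift Hy (FreeGroup.mk L) *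
      (FreeGroup.of Lx.y)⁻¹ * (FreeGroup.lift Hy (FreeGroup.mk L))⁻¹ ∧
      (∀ i : Option L1, chn gx d (iy i) = fox ky (FreeGroup.mk L) i) ∧
      Bd (zhat d : FreeGroup (Lt Lx Kx)) (9 * L.length) := by
  induction L with
  | nil =>
    refine ⟨1, ?_, ?_, ?_⟩
    · rw [← FreeGroup.one_eq_mk]
      simp
    · intro i
      rw [← FreeGroup.one_eq_mk]
      simp
    · simpa using Bd.one
  | cons p L ih =>
    obtain ⟨o, s⟩ := p
    obtain ⟨c, h1, h2, h3⟩ := strip_ltr o s
    obtain ⟨d, h4, h5, h6⟩ := ih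
    rw [mk_cons_ltr]
    refine ⟨c * cj (FreeGroup.lift Hy (ltr o s)) d, ?_, ?_, ?_⟩
    · rw [map_mul, rho_cj, h1, h4, map_mul]
      group
    · intro j
      rw [chn_mul, chn_cj, fox_mul, Pi.add_apply, Pi.add_apply, Pi.smul_apply, Pi.smul_apply, h2,
        h5, lift_ky]
    · rw [map_mul]
      have hb : Bd (FreeGroup.lift Hy (ltr o s)) 2 := by
        cases s
        · simpa [ltr] using (Hy_bd o).inv
        · simpa [ltr] using Hy_bd o
      have h7 : Bd (zhat (cj (FreeGroup.lift Hy (ltr o s)) d) : FreeGroup (Lt Lx Kx))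
          (9 * L.length + 2 * 2) := by
        unfold zhat at h6 ⊢
        rw [zP_cj]
        exact (hat_bd hb).conj h6
      exact (h3.mul h7).mono (by simp only [List.length_cons]; omega)

theorem fox_Vy (n : ℕ) : fox ky (Vy n) none = 0 := by
  apply fox_eq_zero _ {o : Option L1 | o ≠ none} none (by simp)
  have hS : Sy ∈ Subgroup.closure (FreeGroup.of '' {o : Option L1 | o ≠ none}) :=
    Subgroup.subset_closure ⟨some L1.s, by simp, rfl⟩
  have hT : Ty ∈ Subgroup.closure (FreeGroup.of '' {o : Option L1 | o ≠ none}) :=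
    Subgroup.subset_closure ⟨some (L1.t 1), by simp, rfl⟩
  have hA : Ay ∈ Subgroup.closure (FreeGroup.of '' {o : Option L1 | o ≠ none}) :=
    Subgroup.subset_closure ⟨some (L1.a 1), by simp, rfl⟩
  have hX := Subgroup.mul_mem _ (Subgroup.mul_mem _ (Subgroup.pow_mem _ hS n) hT)
    (Subgroup.inv_mem _ (Subgroup.pow_mem _ hS n))
  exact Subgroup.mul_mem _ (Subgroup.mul_mem _ hX hA) (Subgroup.inv_mem _ hX)

theorem exists_test' : ∃ C : ℕ, ∀ n : ℕ, ∃ u : Seq Lx Kx, rho (trel hx kx) u = 1 ∧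
    Bd (zhat u : FreeGroup (Lt Lx Kx)) (C * (n + 1) ^ 3) ∧
    chn gx u (iy none) = el (FreeGroup.lift gx (FreeGroup.lift Hy (Vy n))) - 1 := by
  refine ⟨2 * (9 * 256) + 2 + 72, fun n => ?_⟩
  obtain ⟨c, c1, c2, c3⟩ := Fl_gam n
  obtain ⟨L, l1, l2⟩ := gam_bd n
  obtain ⟨d, d1, d2, d3⟩ := strip_bd L
  rw [l2] at d1 d2
  refine ⟨cj (FreeGroup.of Lx.y) c * c⁻¹ * d⁻¹, ?_, ?_, ?_⟩
  · rw [map_mul, map_mul, map_inv, map_inv, rho_cj, c1, d1]
    group
  · rw [map_mul, map_mul, map_inv, map_inv]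
    have h1 : Bd (zhat (cj (FreeGroup.of Lx.y) c) : FreeGroup (Lt Lx Kx))
        (9 * (16 * n + 16) ^ 2 + 2 * 1) := by
      unfold zhat at c3 ⊢
      rw [zP_cj]
      exact (hat_bd (Bd.of _)).conj c3
    refine ((h1.mul c3.inv).mul d3.inv).mono ?_
    have h2 : 9 * L.length ≤ 72 * (n + 1) := by omega
    have h3 : (n + 1) ≤ (n + 1) ^ 3 := by
      calc n + 1 = (n + 1) ^ 1 := (pow_one _).symm
        _ ≤ (n + 1) ^ 3 := Nat.pow_le_pow_right (by omega) (by norm_num)
    have h4 : (n + 1) ^ 2 ≤ (n + 1) ^ 3 := Nat.pow_le_pow_right (by omega) (by norm_num)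
    have h5 : 9 * (16 * n + 16) ^ 2 = 9 * 256 * (n + 1) ^ 2 := by ring
    have h6 : 1 ≤ (n + 1) ^ 3 := Nat.one_le_pow _ _ (by omega)
    calc 9 * (16 * n + 16) ^ 2 + 2 * 1 + 9 * (16 * n + 16) ^ 2 + 9 * L.length
        ≤ 9 * 256 * (n + 1) ^ 2 + 2 * 1 + 9 * 256 * (n + 1) ^ 2 + 72 * (n + 1) := by
          rw [h5]; omega
      _ ≤ (2 * (9 * 256) + 2 + 72) * (n + 1) ^ 3 := by nlinarith
  · have hrho : ∀ u : Seq Lx Kx, FreeGroup.lift gx (rho (trel hx kx) u) = 1 := by
      intro u
      have : (FreeGroup.lift gx).comp (rho (trel hx kx)) = 1 := by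
        ext p
        simp [gx_rel]
      exact DFunLike.congr_fun this u
    have hg : FreeGroup.lift ky (gam n) = 1 := by
      rw [lift_ky, ← c1, hrho]
    have hgam : gam n = py * Vy n * py⁻¹ * (Vy n)⁻¹ := rfl
    have h1 : FreeGroup.lift ky (py * Vy n * py⁻¹) =
        FreeGroup.lift gx (FreeGroup.lift Hy (Vy n)) := by
      rw [hgam, map_mul, map_inv, mul_inv_eq_one] at hg
      rw [hg, lift_ky]
    have h2 : fox ky py none = 1 := fox_of_self _ _
    rw [chn_mul, chn_mul, chn_inv, chn_inv, chn_cj, Pi.add_apply, Pi.add_apply, Pi.neg_apply,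
      Pi.neg_apply, Pi.smul_apply, c2, d2, smul_zero, neg_zero, zero_add, zero_add]
    rw [hgam, fox_mul, fox_mul, fox_mul, fox_inv, fox_inv]
    simp only [Pi.add_apply, Pi.smul_apply, Pi.neg_apply, fox_Vy, h2,
      smul_neg, smul_smul, smul_eq_mul, mul_one, mul_zero]
    rw [← el_mul, ← map_inv, ← map_mul, h1]
    abel

theorem exists_test : ∃ C : ℕ, ∀ n : ℕ, ∃ u : Seq Lx Kx, rho (trel hx kx) u = 1 ∧
    Bd (zhat u : FreeGroup (Lt Lx Kx)) (C * (n + 1) ^ 3) ∧
    chn gx u (⟨Lx.y, (none : Option L1)⟩ : Kx) =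
      el (FreeGroup.lift gx (FreeGroup.lift (hx Lx.y) (Vy n))) - 1 := exists_test'

end Pool.Agent.TH95
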