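import Pool.Agent.TH95.SD.QDef

/-!
Lengths of words and the test words.
-/

set_option autoImplicit false

set_option linter.unusedSectionVars false

noncomputable section

namespace Pool.Agent.TH95

/-- `w` is the value of a word of length at most `N` -/
def Bd {α : Type} (w : FreeGroup α) (N : ℕ) : Prop :=
  ∃ L : List (α × Bool), L.length ≤ N ∧ FreeGroup.mk L = w

namespace Bd

variable {α β : Type} {w v : FreeGroup α} {M N : ℕ}

theorem one : Bd (1 : FreeGroup α) 0 := ⟨[], by simp, FreeGroup.one_eq_mk.symm⟩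

theorem of (a : α) : Bd (FreeGroup.of a) 1 := ⟨[(a, true)], by simp, rfl⟩

theorem mono (h : Bd w N) (hN : N ≤ M) : Bd w M := by
  obtain ⟨L, h1, h2⟩ := h
  exact ⟨L, h1.trans hN, h2⟩

theorem mul (h : Bd w N) (h' : Bd v M) : Bd (w * v) (N + M) := by
  obtain ⟨L, h1, rfl⟩ := h
  obtain ⟨L', h1', rfl⟩ := h'
  refine ⟨L ++ L', ?_, FreeGroup.mul_mk⟩
  rw [List.length_append]
  omega

theorem inv (h : Bd w N) : Bd w⁻¹ N := by
  obtain ⟨L, h1, rfl⟩ := h
  refine ⟨FreeGroup.invRev L, ?_, FreeGroup.inv_mk⟩
  rw [FreeGroup.invRev_length]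
  exact h1

theorem conj (h : Bd w N) (h' : Bd v M) : Bd (w * v * w⁻¹) (M + 2 * N) :=
  ((h.mul h').mul h.inv).mono (by omega)

theorem pow (h : Bd w N) (n : ℕ) : Bd (w ^ n) (n * N) := by
  induction n with
  | zero => simpa using Bd.one
  | succ n ih =>
    rw [pow_succ]
    exact (ih.mul h).mono (by ring_nf; omega)

theorem map (h : Bd w N) (f : α → β) : Bd (FreeGroup.map f w) N := by
  obtain ⟨L, h1, rfl⟩ := h
  refine ⟨L.map (fun p => (f p.1, p.2)), by simpa using h1, ?_⟩
  rw [FreeGroup.map.mk]

theorem lift (h : Bd w N) (f : α → FreeGroup β) (hf : ∀ a, Bd (f a) M) :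
    Bd (FreeGroup.lift f w) (N * M) := by
  obtain ⟨L, h1, rfl⟩ := h
  have key : Bd (FreeGroup.lift f (FreeGroup.mk L)) (L.length * M) := by
    clear h1
    induction L with
    | nil => simpa [← FreeGroup.one_eq_mk] using Bd.one
    | cons a L ih =>
      obtain ⟨a, s⟩ := a
      have e : FreeGroup.mk ((a, s) :: L) = (if s then FreeGroup.of a else (FreeGroup.of a)⁻¹) *
          FreeGroup.mk L := by
        cases s
        · simp [FreeGroup.of, FreeGroup.invRev]
        · simp [FreeGroup.of]
      rw [e, map_mul]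
      have h2 : Bd (FreeGroup.lift f (if s then FreeGroup.of a else (FreeGroup.of a)⁻¹)) M := by
        cases s
        · simpa using (hf a).inv
        · simpa using hf a
      exact (h2.mul ih).mono (by simp only [List.length_cons]; ring_nf; omega)
  exact key.mono (Nat.mul_le_mul_right _ h1)

end Bd

/-- the letters of the subgroup centralized by `y` -/
def Sy : FreeGroup (Option L1) := FreeGroup.of (some L1.s)
/-- the letters of the subgroup centralized by `y` -/
def Ty : FreeGroup (Option L1) := FreeGroup.of (some (L1.t 1))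
/-- the letters of the subgroup centralized by `y` -/
def Ay : FreeGroup (Option L1) := FreeGroup.of (some (L1.a 1))
/-- the letters of the subgroup centralized by `y` -/
def py : FreeGroup (Option L1) := FreeGroup.of none

/-- the test words -/
def Vy (n : ℕ) : FreeGroup (Option L1) :=
  Sy ^ n * Ty * (Sy ^ n)⁻¹ * Ay * (Sy ^ n * Ty * (Sy ^ n)⁻¹)⁻¹

/-- the commutators of the test words with `p` -/
def gam (n : ℕ) : FreeGroup (Option L1) := py * Vy n * py⁻¹ * (Vy n)⁻¹

end Pool.Agent.TH95
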