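import Pool.Agent.TH95.SD.Low
import Pool.Agent.TH95.SD.Len

/-!
The value of the functional on the test words.
-/

set_option autoImplicit false

set_option linter.unusedSectionVars false

noncomputable section

namespace Pool.Agent.TH95

theorem actS_pow (n : ℕ) (w : F2) : actS ^ n * actT w = actT ((fbE ^ n) w) * actS ^ n := by
  induction n generalizing w with
  | zero => simp
  | succ n ih =>
    rw [pow_succ, mul_assoc, actS_T, ← mul_assoc, ih, pow_succ, MulAut.mul_apply, mul_assoc]

theorem val_V (A : Qx →* Equiv.Perm Om)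
    (hA : ∀ w, A (FreeGroup.lift gx w) = FreeGroup.lift xi w) (n : ℕ) :
    La A (el (FreeGroup.lift gx (FreeGroup.lift hy (Vy n))) - 1) =
      (Nat.fib (Nat.fib (n + 1) + 1) : ℤ) := by
  have e1 : La A 1 = 0 := by
    rw [← el_one, La_el, MonoidHom.map_one A]
    simp [fO]
  rw [map_sub, e1, sub_zero, La_el, hA, lift_lift]
  have hS : FreeGroup.lift xi (hy (some L1.s)) = actS := by
    rw [hy_apply, lift_pw]
    simp [yl, xi]
  have hT : FreeGroup.lift xi (hy (some (L1.t 1))) = actT (FreeGroup.of 1) := by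
    rw [hy_apply, lift_pw]
    simp [yl, xi]
  have hAA : FreeGroup.lift xi (hy (some (L1.a 1))) = actA (FreeGroup.of 1) := by
    rw [hy_apply, lift_pw]
    simp [yl, xi]
  have hV : FreeGroup.lift (fun b => FreeGroup.lift xi (hy b)) (Vy n) =
      actT ((fbE ^ n) (FreeGroup.of 1)) * actA (FreeGroup.of 1) *
        (actT ((fbE ^ n) (FreeGroup.of 1)))⁻¹ := by
    have h1 : actS ^ n * actT (FreeGroup.of 1) * (actS ^ n)⁻¹ =
        actT ((fbE ^ n) (FreeGroup.of 1)) := by
      rw [actS_pow, mul_inv_cancel_right]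
    rw [← h1]
    simp only [Vy, Sy, Ty, Ay, map_mul, map_inv, map_pow, FreeGroup.lift_apply_of, hS, hT, hAA]
  rw [hV]
  set τ := (fbE ^ n) (FreeGroup.of 1) with hτ
  have hex : exZ τ = Nat.fib (n + 1) := (fib_of n).2
  have h2 : (actT τ * actA (FreeGroup.of 1) * (actT τ)⁻¹) ((1, 1) : Om) =
      ((1, (fbE ^ Nat.fib (n + 1)) (FreeGroup.of 1)) : Om) := by
    rw [← map_inv]
    show actT τ (actA (FreeGroup.of 1) (actT τ⁻¹ (1, 1))) = _
    rw [actT_apply, actA_apply, actT_apply]
    simp only [mul_one, exZ_inv, neg_neg, hex, zpow_natCast, mul_inv_cancel]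
  rw [h2]
  exact (fib_of _).2

end Pool.Agent.TH95
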