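import Pool.Agent.TH95.SD.QDef

/-!
A free abelian subgroup of rank three.
-/

set_option autoImplicit false

set_option linter.unusedSectionVars false

noncomputable section

namespace Pool.Agent.TH95

/-- the exponent sum of `y` -/
def Ey : FreeGroup Lx →* Multiplicative ℤ :=
  FreeGroup.lift (fun x => if x = Lx.y then Multiplicative.ofAdd 1 else 1)

theorem Ey_rW (k : Kx) : Ey (rW rl k) = 1 := by
  have h : rW rl k = trel hx kx k := by rw [rW_rl]
  obtain ⟨x, i⟩ := k
  have hn : ∀ S : FreeGroup Lx, S ∈ Subgroup.closure (FreeGroup.of '' {z | rkx z < rkx x}) →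
      Ey S = 1 := by
    intro S hS
    induction hS using Subgroup.closure_induction with
    | mem z hz =>
      obtain ⟨z, hz, rfl⟩ := hz
      have : z ≠ .y := by
        rintro rfl
        have h1 : rkx Lx.y < rkx x := hz
        cases x <;> simp [rkx] at h1
      simp [Ey, this]
    | one => simp
    | mul a b _ _ ha hb => rw [map_mul, ha, hb, one_mul]
    | inv a _ ha => rw [map_inv, ha, inv_one]
  rw [h]
  unfold trel
  rw [map_mul, map_mul, map_mul, map_inv, map_inv, hn _ (hx_mem x i), hn _ (kx_mem x i)]
  simp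

/-- the exponent sum of `y` on the group `A` -/
def EA : AG goodx →* Multiplicative ℤ :=
  (ripsVH goodx).lift (fun v => Ey (pF rl (lv v))) (fun h => Ey (hX h))
    (fun h => by
      show Ey (hX (hinv h)) = _
      rw [hX_hinv, map_inv])
    (fun v h' h v' hs => by
      have h1 : ∀ {v v' : Vt Lx Kx} {h h' : HD Lx}, Sq0 rl v h' h v' →
          Ey (pF rl (lv v)) * Ey (hX h) = Ey (hX h') * Ey (pF rl (lv v')) := by
        intro v v' h h' hs
        cases hs with
        | p1 l x => simp
        | p2 l x => simp [hX]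
        | s l i =>
          have h2 := congrArg Ey (pF_rel rl rl_len _ (RelT.s (r := rl) l i))
          have h3 : Ey (pF rl (if i = 7 then corr l else 1)) = 1 := by
            split_ifs
            · cases l with
              | cj x β => simp [corr]
              | rel k => simp [corr, Ey_rW]
            · simp
          simp only [map_mul, map_inv, pF_hw, map_one, h3, mul_one] at h2
          exact mul_inv_eq_one.mp h2
      rcases sr_sq ((ripsVH_up goodx _ _ _ _).mp hs) with hs | hs
      · exact h1 hs
      · have h2 := h1 hs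
        rw [hX_hinv, hX_hinv, map_inv, map_inv, eq_inv_mul_iff_mul_eq, ← mul_assoc,
          mul_inv_eq_iff_eq_mul] at h2
        exact h2.symm)

/-- the exponent sum of the vertical letters -/
def EV : AG goodx →* Multiplicative ℤ :=
  (ripsVH goodx).lift (fun _ => Multiplicative.ofAdd 1) (fun _ => 1)
    (fun h => by simp) (fun v h' h v' _ => by simp)

/-- a vertical letter -/
def zc : AG goodx := (ripsVH goodx).gv (Vt.c (Ci.cj (Lx.y, true) Bt.g))

/-- a horizontal element -/
def zy : AG goodx := (ripsVH goodx).gh (Sum.inl Lx.y, true) *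
  (ripsVH goodx).gh (Sum.inr (Bt.b (Lx.y, true)), true)

theorem zc_zy : Commute zc zy := by
  have h1 := pA_sq goodx (Sq0.p1 (r := rl) (Ci.cj (Lx.y, true) Bt.g) (Lx.y, true))
  have h2 := pA_sq goodx (Sq0.p2 (r := rl) (Ci.cj (Lx.y, true) Bt.g) (Lx.y, true))
  show zc * zy = zy * zc
  unfold zc zy
  rw [← mul_assoc, h1, mul_assoc, h2, mul_assoc]

/-- a free abelian subgroup of rank three -/
def zzz : Multiplicative (Fin 3 → ℤ) →* AG goodx × FreeGroup Lx :=
  MonoidHom.mk' (fun v => (zc ^ (Multiplicative.toAdd v 0) * zy ^ (Multiplicative.toAdd v 1),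
    FreeGroup.of Lx.y ^ (Multiplicative.toAdd v 2))) (by
    intro v w
    have h := zc_zy
    simp only [toAdd_mul, Pi.add_apply, zpow_add]
    ext1
    · show zc ^ _ * zc ^ _ * (zy ^ _ * zy ^ _) = zc ^ _ * zy ^ _ * (zc ^ _ * zy ^ _)
      rw [mul_assoc, mul_assoc]
      congr 1
      rw [← mul_assoc, ← mul_assoc, ((h.zpow_zpow _ _).eq)]
    · rfl)

theorem zzz_inj : Function.Injective zzz := by
  rw [injective_iff_map_eq_one]
  intro v hv
  have h1 : zc ^ (Multiplicative.toAdd v 0) * zy ^ (Multiplicative.toAdd v 1) = 1 :=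
    congrArg Prod.fst hv
  have h2 : (FreeGroup.of Lx.y : FreeGroup Lx) ^ (Multiplicative.toAdd v 2) = 1 :=
    congrArg Prod.snd hv
  have c1 : EV zc = Multiplicative.ofAdd 1 := by simp [EV, zc]
  have c2 : EV zy = 1 := by simp [EV, zy]
  have c3 : EA zy = Multiplicative.ofAdd 1 := by
    simp [EA, zy, hX, Ey]
  have e1 := congrArg EV h1
  rw [map_mul, map_zpow, map_zpow, c1, c2, one_zpow, mul_one, MonoidHom.map_one] at e1
  have a1 : Multiplicative.toAdd v 0 = 0 := by
    have := congrArg Multiplicative.toAdd e1
    simpa using this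
  rw [a1, zpow_zero, one_mul] at h1
  have e2 := congrArg EA h1
  rw [map_zpow, c3, MonoidHom.map_one] at e2
  have a2 : Multiplicative.toAdd v 1 = 0 := by
    have := congrArg Multiplicative.toAdd e2
    simpa using this
  have e3 := congrArg Ey h2
  have c4 : Ey (FreeGroup.of Lx.y) = Multiplicative.ofAdd 1 := by simp [Ey]
  rw [map_zpow, c4, MonoidHom.map_one] at e3
  have a3 : Multiplicative.toAdd v 2 = 0 := by
    have := congrArg Multiplicative.toAdd e3
    simpa using this
  apply Multiplicative.toAdd.injective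
  funext i
  fin_cases i
  · exact a1
  · exact a2
  · exact a3

end Pool.Agent.TH95
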