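import Pool.Agent.TH95.SD.Geom
import Pool.Agent.TH95.SD.Val
import Pool.Agent.TH95.SD.Test
import Pool.Agent.TH95.SD.Num
import Pool.Agent.TH95.SD.Zcube

/-!
The finitely presented subgroup with large Dehn function.
-/

set_option autoImplicit false

set_option linter.unusedSectionVars false

noncomputable section

namespace Pool.Agent.TH95

instance instFintypeBt {X : Type} [Fintype X] : Finite (Bt X) := by
  have : Function.Surjective (fun z : (X × Bool) ⊕ Fin 3 => match z with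
    | Sum.inl x => (Bt.b x : Bt X)
    | Sum.inr i => if i = 0 then Bt.e else if i = 1 then Bt.f else Bt.g) := by
    rintro (x | _ | _ | _)
    · exact ⟨Sum.inl x, rfl⟩
    · exact ⟨Sum.inr 0, rfl⟩
    · exact ⟨Sum.inr 1, rfl⟩
    · exact ⟨Sum.inr 2, rfl⟩
  exact Finite.of_surjective _ this

instance instFiniteCi {X K : Type} [Fintype X] [Fintype K] : Finite (Ci X K) := by
  have : Function.Surjective (fun z : ((X × Bool) × Bt X) ⊕ K => match z with
    | Sum.inl x => (Ci.cj x.1 x.2 : Ci X K)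
    | Sum.inr k => Ci.rel k) := by
    rintro (⟨x, β⟩ | k)
    · exact ⟨Sum.inl (x, β), rfl⟩
    · exact ⟨Sum.inr k, rfl⟩
  exact Finite.of_surjective _ this

instance instFiniteVt {X K : Type} [Fintype X] [Fintype K] : Finite (Vt X K) := by
  have : Function.Surjective (fun z : Ci X K ⊕ (Ci X K × (X × Bool)) ⊕ (Ci X K × Fin 7) =>
    match z with
    | Sum.inl l => (Vt.c l : Vt X K)
    | Sum.inr (Sum.inl p) => Vt.d p.1 p.2
    | Sum.inr (Sum.inr p) => Vt.w p.1 p.2) := by
    rintro (l | ⟨l, x⟩ | ⟨l, i⟩)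
    · exact ⟨Sum.inl l, rfl⟩
    · exact ⟨Sum.inr (Sum.inl (l, x)), rfl⟩
    · exact ⟨Sum.inr (Sum.inr (l, i)), rfl⟩
  exact Finite.of_surjective _ this

/-- the set of relators is finite -/
theorem relT_finite : {ρ : FreeGroup (Lt Lx Kx) | RelT rl ρ}.Finite := by
  have h : {ρ : FreeGroup (Lt Lx Kx) | RelT rl ρ} ⊆
      Set.range (fun p : Ci Lx Kx × (Lx × Bool) => lv (Vt.c p.1) * hw (Sum.inl p.2.1, p.2.2) *
        (hw (Sum.inl p.2.1, p.2.2) * lv (Vt.d p.1 p.2))⁻¹) ∪
      (Set.range (fun p : Ci Lx Kx × (Lx × Bool) => lv (Vt.d p.1 p.2) * lh (Sum.inr (Bt.b p.2)) *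
        (lh (Sum.inr (Bt.b p.2)) * lv (Vt.c p.1))⁻¹) ∪
      (Set.range (fun p : Ci Lx Kx × Fin 8 => lv (pos p.1 p.2.castSucc) * hw (top rl p.1 p.2) *
        (hw (bot p.2) * lv (pos p.1 p.2.succ) * (if p.2 = 7 then corr p.1 else 1))⁻¹) ∪
      (Set.range (fun p : Kx × Bt Lx => lz p.1 * lh (Sum.inr p.2) *
        (lh (Sum.inr p.2) * lz p.1)⁻¹) ∪
      Set.range (fun p : Kx × Ci Lx Kx => lz p.1 * lv (Vt.c p.2) *
        (lv (Vt.c p.2) * lz p.1)⁻¹)))) := by
    intro ρ hρ
    cases hρ with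
    | p1 l x => exact Or.inl ⟨(l, x), rfl⟩
    | p2 l x => exact Or.inr (Or.inl ⟨(l, x), rfl⟩)
    | s l i => exact Or.inr (Or.inr (Or.inl ⟨(l, i), rfl⟩))
    | zb k β => exact Or.inr (Or.inr (Or.inr (Or.inl ⟨(k, β), rfl⟩)))
    | zc k l => exact Or.inr (Or.inr (Or.inr (Or.inr ⟨(k, l), rfl⟩)))
  refine Set.Finite.subset ?_ h
  exact (Set.finite_range _).union ((Set.finite_range _).union ((Set.finite_range _).union
    ((Set.finite_range _).union (Set.finite_range _))))

theorem R1_finite {α : Type} (c : L1 → FreeGroup α) : (Set.range (R1 c)).Finite :=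
  Set.finite_range _

theorem Wx_finite : ∀ x : Lx, (Wx x).Finite
  | .a _ => Set.finite_empty
  | .t _ => Set.finite_empty
  | .s => Set.finite_empty
  | .u _ => R1_finite _
  | .p => R1_finite _
  | .v => by
    show Wv.Finite
    unfold Wv
    refine (R1_finite _).union ?_
    have : {w : FreeGroup (L1 ⊕ L3) | ∃ (z : L3) (x : L1),
        w = cm (FreeGroup.of (Sum.inr z)) (FreeGroup.of (Sum.inl x))} ⊆
        Set.range (fun p : L3 × L1 =>
          (cm (FreeGroup.of (Sum.inr p.1)) (FreeGroup.of (Sum.inl p.2)) :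
            FreeGroup (L1 ⊕ L3))) := by
      rintro _ ⟨z, x, rfl⟩
      exact ⟨(z, x), rfl⟩
    exact (Set.finite_range _).subset this
  | .y => by
    show Wy.Finite
    unfold Wy
    refine (R1_finite _).union (Set.Finite.union ?_ (Set.finite_singleton _))
    have : {w : FreeGroup (Option L1) | ∃ j : Fin 2,
        w = cm (FreeGroup.of none) (FreeGroup.of (some (L1.a j)))} ⊆
        Set.range (fun j : Fin 2 =>
          (cm (FreeGroup.of none) (FreeGroup.of (some (L1.a j))) : FreeGroup (Option L1))) := by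
      rintro _ ⟨j, rfl⟩
      exact ⟨j, rfl⟩
    exact (Set.finite_range _).subset this

/-- the two projections together -/
def pp : FreeGroup (Lt Lx Kx) →* AG goodx × FreeGroup Lx := (pA goodx).prod (pF rl)

/-- the main theorem in terms of the letters -/
theorem main : ∃ (R : Set (FreeGroup (Lt Lx Kx))), R.Finite ∧
    pp.ker = Subgroup.normalClosure R ∧
    ∃ C : ℕ, ∀ n : ℕ, ∃ w : FreeGroup (Lt Lx Kx), Bd w (C * (n + 1) ^ 3) ∧ pp w = 1 ∧
      ∀ N : ℕ, IsPr R N w → Nat.fib (Nat.fib (n + 1) + 1) ≤ N := by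
  obtain ⟨U, hU1, hU2⟩ := towerx
  obtain ⟨C, hC⟩ := exists_test
  obtain ⟨A, hA⟩ := exists_hom xi xi_rel
  set 𝒰 : Set (Seq Lx Kx) := {u | ∃ x, ∃ w ∈ Wx x, u = U x w} with h𝒰
  have hfin : 𝒰.Finite := by
    have : 𝒰 = ⋃ x : Lx, (U x) '' (Wx x) := by
      ext u
      rw [Set.mem_iUnion]
      constructor
      · rintro ⟨x, w, hw, rfl⟩
        exact ⟨x, w, hw, rfl⟩
      · rintro ⟨x, w, hw, rfl⟩
        exact ⟨x, w, hw, rfl⟩
    rw [this]
    exact Set.finite_iUnion (fun x => (Wx_finite x).image _)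
  have hrho : ∀ u ∈ 𝒰, rho (rW rl) u = 1 := by
    rintro _ ⟨x, w, hw, rfl⟩
    rw [rW_rl]
    exact (hU1 x w hw).1
  have hgen : ∀ β : Kx → ZR Qx, bd (rW rl) gx β = 0 →
      β ∈ Submodule.span (ZR Qx) (chn gx '' 𝒰) := by
    intro β hβ
    rw [rW_rl] at hβ
    have h1 := hU2 β hβ
    have h2 : {γ | ∃ x, ∃ w ∈ Wx x, γ = chn gx (U x w)} = chn gx '' 𝒰 := by
      ext γ
      constructor
      · rintro ⟨x, w, hw, rfl⟩
        exact ⟨U x w, ⟨x, w, hw, rfl⟩, rfl⟩
      · rintro ⟨_, ⟨x, w, hw, rfl⟩, rfl⟩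
        exact ⟨x, w, hw, rfl⟩
    rw [h2] at h1
    exact h1
  refine ⟨allRel rl 𝒰, relT_finite.union (hfin.image _), ?_, C, ?_⟩
  · apply le_antisymm
    · intro w hw
      have h1 : pA goodx w = 1 := congrArg Prod.fst (show pp w = 1 from hw)
      have h2 : pF rl w = 1 := congrArg Prod.snd (show pp w = 1 from hw)
      refine fibre 𝒰 gx gx_sur ?_ ?_ goodx rl_len hrho hgen w h1 h2
      · intro w hw
        rw [rW_rl]
        exact gx_ker w hw
      · intro k
        rw [rW_rl]
        exact gx_rel k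
    · apply Subgroup.normalClosure_le_normal
      rintro _ (h | ⟨u, hu, rfl⟩)
      · show pp _ = 1
        exact Prod.ext (pA_rel goodx _ h) (pF_rel rl rl_len _ h)
      · show pp _ = 1
        refine Prod.ext (pA_zhat goodx u) ?_
        show pF rl (zhat u) = 1
        rw [pF_zhat]
        exact hrho u hu
  · intro n
    obtain ⟨u, h1, h2, h3⟩ := hC n
    refine ⟨zhat u, h2, ?_, ?_⟩
    · refine Prod.ext (pA_zhat goodx u) ?_
      show pF rl (zhat u) = 1
      rw [pF_zhat, rW_rl]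
      exact h1
    · intro N hN
      have h4 := lower 𝒰 A hA ?_ u N hN
      · have h5 : chn gx u k0 = el (FreeGroup.lift gx (FreeGroup.lift hy (Vy n))) - 1 := h3
        rw [h5, val_V A hA n] at h4
        rw [Nat.abs_cast] at h4
        exact_mod_cast h4
      · rintro _ ⟨x, w, hw, rfl⟩ q
        obtain ⟨_, a2, a3⟩ := hU1 x w hw
        by_cases hx : x = Lx.y
        · subst hx
          have h5 : chn gx (U Lx.y w) k0 = fox (fun o => FreeGroup.lift gx (hy o)) w none :=
            a2 none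
          rw [h5]
          exact La_U A hA w hw q
        · have h5 : chn gx (U x w) k0 = 0 := by
            apply a3 Lx.y none (Ne.symm hx)
            cases x <;> simp [rkx]
          rw [h5, mul_zero, map_zero]
          simp

end Pool.Agent.TH95
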