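import Pool.Agent.TH95.SD.Tower

/-!
The central lemma of the fibre product theorem.
-/

set_option autoImplicit false

set_option linter.unusedSectionVars false

noncomputable section

namespace Pool.Agent.TH95

section cen

variable {X K Q P : Type} [Group Q] [Group P] (r : K → FreeGroup X)

/-- the value of a formal product in a group `P` -/
def zP (hat : FreeGroup X →* P) (z : K → P) : Seq X K →* P :=
  FreeGroup.lift (fun p => hat p.1 * z p.2 * (hat p.1)⁻¹)

@[simp] theorem zP_of (hat : FreeGroup X →* P) (z : K → P) (p : FreeGroup X × K) :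
    zP hat z (FreeGroup.of p) = hat p.1 * z p.2 * (hat p.1)⁻¹ := by
  simp [zP]

theorem zP_cj (hat : FreeGroup X →* P) (z : K → P) (g : FreeGroup X) (u : Seq X K) :
    zP hat z (cj g u) = hat g * zP hat z u * (hat g)⁻¹ := by
  induction u using FreeGroup.induction_on with
  | C1 => simp
  | of p => simp [cj, mul_assoc]
  | inv_of p ih => rw [map_inv, map_inv, ih, map_inv]; group
  | mul x y hx hy => rw [map_mul, map_mul, hx, hy, map_mul]; group

/-- sections of homomorphisms onto subgroups of free groups -/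
theorem exists_section {S F : Type} [Group S] [Group F] [IsFreeGroup F] (f : S →* F) :
    ∃ s : f.range →* S, ∀ y : f.range, f (s y) = (y : F) := by
  classical
  have : IsFreeGroup f.range := inferInstance
  have h1 : ∀ y : f.range, ∃ x : S, f x = (y : F) := fun y => y.2
  choose c hc using h1
  let s : f.range →* S := IsFreeGroup.lift (fun i => c (IsFreeGroup.of i))
  refine ⟨s, ?_⟩
  have h2 : (f.comp s) = f.range.subtype := by
    apply IsFreeGroup.ext_hom
    intro i
    simp only [MonoidHom.comp_apply, s, IsFreeGroup.lift_of, hc, Subgroup.coe_subtype]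
  intro y
  exact DFunLike.congr_fun h2 y

/-- homomorphisms to commutative groups factor through the chains -/
theorem factor {C : Type} [CommGroup C] [Fintype K] (g : X → Q) (τ : Seq X K →* C)
    (h : ∀ x x' k, FreeGroup.lift g x = FreeGroup.lift g x' →
      τ (FreeGroup.of (x, k)) = τ (FreeGroup.of (x', k)))
    (u : Seq X K) (hu : chn g u = 0) : τ u = 1 := by
  classical
  let T : Q → K → C := fun q k =>
    if hq : ∃ x, FreeGroup.lift g x = q then τ (FreeGroup.of (hq.choose, k)) else 1
  have hT : ∀ x k, T (FreeGroup.lift g x) k = τ (FreeGroup.of (x, k)) := by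
    intro x k
    have hq : ∃ x', FreeGroup.lift g x' = FreeGroup.lift g x := ⟨x, rfl⟩
    simp only [T, dif_pos hq]
    exact h _ _ k hq.choose_spec
  let t0 : K → (Q →₀ ℤ) →+ Additive C := fun k => Finsupp.liftAddHom (fun q =>
    AddMonoidHom.flip (smulAddHom ℤ (Additive C)) (Additive.ofMul (T q k)))
  let t : (K → ZR Q) →+ Additive C :=
    ∑ k, ((t0 k).comp MonoidAlgebra.coeffAddEquiv.toAddMonoidHom).comp (Pi.evalAddMonoidHom _ k)
  have ht : ∀ β : K → ZR Q, t β = ∑ k, t0 k (β k).coeff := by
    intro β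
    simp only [t, AddMonoidHom.finsetSum_apply]
    rfl
  have key : ∀ u, t (chn g u) = Additive.ofMul (τ u) := by
    intro u
    induction u using FreeGroup.induction_on with
    | C1 => simp
    | of p =>
      rw [ht, chn_of, Finset.sum_eq_single p.2]
      · rw [Pi.single_eq_same]
        unfold el
        rw [MonoidAlgebra.coeff_single]
        show Finsupp.liftAddHom _ (Finsupp.single _ 1) = _
        rw [Finsupp.liftAddHom_apply_single]
        show (1 : ℤ) • Additive.ofMul (T (FreeGroup.lift g p.1) p.2) = _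
        rw [one_smul, hT]
      · intro k _ hk
        rw [Pi.single_eq_of_ne hk]
        simp
      · simp
    | inv_of p ih => rw [chn_inv, map_neg, ih, map_inv]; rfl
    | mul x y hx hy => rw [chn_mul, map_add, hx, hy, map_mul]; rfl
  have h1 := key u
  rw [hu, map_zero] at h1
  exact (Additive.ofMul.injective h1).symm

/-- the central lemma -/
theorem central [Fintype K] (g : X → Q) (hg : Function.Surjective (FreeGroup.lift g))
    (hker : ∀ w, FreeGroup.lift g w = 1 → w ∈ Subgroup.normalClosure (Set.range r))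
    (hat : FreeGroup X →* P) (z : K → P) (N : Subgroup P) (φ : P →* FreeGroup X)
    (h1 : ∀ w, φ (hat w) = w) (h2 : ∀ k, φ (z k) = r k) (h3 : ∀ p, φ p = 1 → p ∈ N)
    (h4 : ∀ k, ∀ n ∈ N, z k * n = n * z k) (h5 : ∀ p, ∀ n ∈ N, p * n * p⁻¹ ∈ N)
    (𝒰 : Set (Seq X K)) (hU : ∀ u ∈ 𝒰, rho r u = 1 ∧ zP hat z u = 1)
    (u : Seq X K) (hu : rho r u = 1)
    (hs : chn g u ∈ Submodule.span (ZR Q) (chn g '' 𝒰)) : zP hat z u = 1 := by
  classical
  set Z := zP hat z with hZ
  -- `φ ∘ Z = rho`
  have hφZ : ∀ v, φ (Z v) = rho r v := by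
    intro v
    have : φ.comp Z = rho r := by
      ext p
      simp [hZ, h1, h2]
    exact DFunLike.congr_fun this v
  -- values of `Z` commute with `N`
  have hcom : ∀ v, ∀ n ∈ N, Z v * n = n * Z v := by
    intro v
    induction v using FreeGroup.induction_on with
    | C1 => simp
    | of p =>
      intro n hn
      rw [hZ, zP_of]
      have h6 := h5 (hat p.1)⁻¹ n hn
      rw [inv_inv] at h6
      have h7 := h4 p.2 _ h6
      calc hat p.1 * z p.2 * (hat p.1)⁻¹ * n
          = hat p.1 * (z p.2 * ((hat p.1)⁻¹ * n * hat p.1)) * (hat p.1)⁻¹ := by group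
        _ = hat p.1 * (((hat p.1)⁻¹ * n * hat p.1) * z p.2) * (hat p.1)⁻¹ := by rw [h7]
        _ = n * (hat p.1 * z p.2 * (hat p.1)⁻¹) := by group
    | inv_of p ih =>
      intro n hn
      rw [map_inv]
      have := ih n hn
      exact ((show Commute (Z (FreeGroup.of p)) n from this).inv_left).eq
    | mul x y hx hy =>
      intro n hn
      rw [map_mul, mul_assoc, hy n hn, ← mul_assoc, hx n hn, mul_assoc]
  obtain ⟨s, hs'⟩ := exists_section (rho r)
  let sr : Seq X K → Seq X K := fun v => s ⟨rho r v, v, rfl⟩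
  have hsr1 : ∀ v, rho r (sr v) = rho r v := fun v => hs' _
  have hsr2 : ∀ v w, rho r v = rho r w → sr v = sr w := by
    intro v w h
    simp only [sr]
    congr 1
    exact Subtype.ext h
  have hsr3 : ∀ v w, sr (v * w) = sr v * sr w := by
    intro v w
    simp only [sr]
    rw [← map_mul]
    congr 1
    exact Subtype.ext (map_mul _ _ _)
  -- the central part
  have hcen : ∀ v, rho r v = 1 → ∀ w, Z v * Z w = Z w * Z v := by
    intro v hv w
    have h6 : Z v ∈ N := h3 _ (by rw [hφZ, hv])
    exact (hcom w _ h6).symm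
  let τ0 : Seq X K → P := fun v => Z (v * (sr v)⁻¹)
  have hτN : ∀ v, rho r (v * (sr v)⁻¹) = 1 := by
    intro v
    rw [map_mul, map_inv, hsr1, mul_inv_cancel]
  have hτc : ∀ v w, τ0 v * Z w = Z w * τ0 v := fun v w => hcen _ (hτN v) w
  have hτm : ∀ v w, τ0 (v * w) = τ0 v * τ0 w := by
    intro v w
    have e : v * w * (sr (v * w))⁻¹ = v * (w * (sr w)⁻¹) * (sr v)⁻¹ := by
      rw [hsr3]
      group
    show Z (v * w * (sr (v * w))⁻¹) = _
    rw [e, map_mul, map_mul]
    show Z v * τ0 w * Z (sr v)⁻¹ = _
    rw [← hτc w v, mul_assoc, ← map_mul, hτc w]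
  -- independence of the representative
  have hind : ∀ (x x' : FreeGroup X) (k : K), FreeGroup.lift g x = FreeGroup.lift g x' →
      τ0 (FreeGroup.of (x, k)) = τ0 (FreeGroup.of (x', k)) := by
    intro x x' k hxx
    have h6 : x' * x⁻¹ ∈ Subgroup.normalClosure (Set.range r) := by
      apply hker
      rw [map_mul, map_inv, hxx, mul_inv_cancel]
    have h7 : x' * x⁻¹ ∈ Subgroup.normalClosure (r '' Set.univ) := by
      rw [Set.image_univ]
      exact h6
    obtain ⟨v, hv, _⟩ := exists_seq r g _ _ h7
    have h8 : hat (x' * x⁻¹) * (Z v)⁻¹ ∈ N := by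
      apply h3
      rw [map_mul, map_inv, h1, hφZ, hv, mul_inv_cancel]
    have h9 : Z (FreeGroup.of (x', k)) = Z (v * FreeGroup.of (x, k) * v⁻¹) := by
      have e1 : Z (FreeGroup.of (x', k)) = (hat (x' * x⁻¹) * (Z v)⁻¹) *
          Z (v * FreeGroup.of (x, k) * v⁻¹) * (hat (x' * x⁻¹) * (Z v)⁻¹)⁻¹ := by
        simp only [map_mul, map_inv, hZ, zP_of]
        group
      rw [e1, ← hcom _ _ h8, mul_inv_cancel_right]
    have h10 : rho r (FreeGroup.of (x', k)) = rho r (v * FreeGroup.of (x, k) * v⁻¹) := by
      rw [map_mul, map_mul, map_inv, hv, rho_of, rho_of]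
      group
    have h11 : τ0 (FreeGroup.of (x', k)) = τ0 (v * FreeGroup.of (x, k) * v⁻¹) := by
      show Z (_ * _) = Z (_ * _)
      rw [map_mul, map_mul, h9, hsr2 _ _ h10]
    have h12 : τ0 v * τ0 (FreeGroup.of (x, k)) = τ0 (FreeGroup.of (x, k)) * τ0 v :=
      hτc v _
    have h13 : τ0 v * τ0 v⁻¹ = 1 := by
      rw [← hτm, mul_inv_cancel]
      show Z (1 * (sr 1)⁻¹) = 1
      have : sr 1 = 1 := by
        have := hsr3 1 1
        rw [mul_one] at this
        exact (mul_eq_left.mp this.symm)
      rw [this]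
      simp
    rw [h11, hτm, hτm, h12, mul_assoc, h13, mul_one]
  -- the homomorphism `τ` to its commutative range
  let τh : Seq X K →* P := MonoidHom.mk' τ0 hτm
  have hrc : ∀ a b : τh.range, a * b = b * a := by
    rintro ⟨_, v, rfl⟩ ⟨_, w, rfl⟩
    exact Subtype.ext (hτc v _)
  let _ : CommGroup τh.range := { (inferInstance : Group τh.range) with mul_comm := hrc }
  have hfac := factor (C := τh.range) g τh.rangeRestrict (fun x x' k h => by
    apply Subtype.ext
    exact hind x x' k h)
  -- the product of conjugates of elements of `𝒰`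
  have hspan : ∀ β ∈ Submodule.span (ZR Q) (chn g '' 𝒰), ∃ v, chn g v = β ∧ rho r v = 1 ∧
      Z v = 1 := by
    intro β hβ
    induction hβ using Submodule.span_induction with
    | mem β hβ =>
      obtain ⟨v, hv, rfl⟩ := hβ
      exact ⟨v, rfl, hU v hv⟩
    | zero => exact ⟨1, by simp, by simp, by simp⟩
    | add a b _ _ ha hb =>
      obtain ⟨v, a1, a2, a3⟩ := ha
      obtain ⟨w, b1, b2, b3⟩ := hb
      exact ⟨v * w, by rw [chn_mul, a1, b1], by rw [map_mul, a2, b2, one_mul],
        by rw [map_mul, a3, b3, one_mul]⟩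
    | smul c a _ ha =>
      obtain ⟨v, a1, a2, a3⟩ := ha
      induction c using MonoidAlgebra.induction_linear with
      | zero => exact ⟨1, by simp, by simp, by simp⟩
      | add c d hc hd =>
        obtain ⟨w, c1, c2, c3⟩ := hc
        obtain ⟨w', d1, d2, d3⟩ := hd
        exact ⟨w * w', by rw [chn_mul, c1, d1, add_smul], by rw [map_mul, c2, d2, one_mul],
          by rw [map_mul, c3, d3, one_mul]⟩
      | single q n =>
        obtain ⟨x, hx⟩ := hg q
        refine ⟨(cj x v) ^ n, ?_, ?_, ?_⟩
        · have e1 : ∀ (w : Seq X K) (n : ℤ), chn g (w ^ n) = n • chn g w := by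
            intro w n
            simp [chn, map_zpow, toAdd_zpow]
          rw [e1, chn_cj, a1, hx, ← smul_assoc]
          congr 1
          unfold el
          rw [MonoidAlgebra.smul_single]
          simp
        · rw [map_zpow, rho_cj, a2]
          simp
        · rw [map_zpow]
          have := zP_cj hat z x v
          rw [← hZ] at this
          rw [this, a3]
          simp
  obtain ⟨v, hv1, hv2, hv3⟩ := hspan _ hs
  have h6 : chn g (u * v⁻¹) = 0 := by
    rw [chn_mul, chn_inv, hv1, add_neg_cancel]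
  have h7 := congrArg Subtype.val (hfac _ h6)
  have h8 : Z (u * v⁻¹ * (sr (u * v⁻¹))⁻¹) = 1 := h7
  have h9 : sr (u * v⁻¹) = 1 := by
    have h10 : sr 1 = 1 := by
      have := hsr3 1 1
      rw [mul_one] at this
      exact (mul_eq_left.mp this.symm)
    rw [← h10]
    apply hsr2
    rw [map_mul, map_inv, hu, hv2, map_one]
    simp
  rw [h9, inv_one, mul_one, map_mul, map_inv, hv3, inv_one, mul_one] at h8
  exact h8

end cen

end Pool.Agent.TH95
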