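import Mathlib

/-!
Group rings, Fox derivatives and chains of identity sequences.
-/

set_option autoImplicit false

set_option linter.unusedSectionVars false

noncomputable section

namespace Pool.Agent.TH95

/-- the integral group ring -/
abbrev ZR (Q : Type) [Group Q] : Type := MonoidAlgebra ℤ Q

/-- a group element in the group ring -/
noncomputable def el {Q : Type} [Group Q] (q : Q) : ZR Q := MonoidAlgebra.single q 1

section el

variable {Q : Type} [Group Q]

@[simp] theorem el_one : el (1 : Q) = 1 := rfl

theorem el_mul (a b : Q) : el (a * b) = el a * el b := by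
  unfold el
  rw [MonoidAlgebra.single_mul_single]
  simp

@[simp] theorem el_mul_inv (a : Q) : el a * el a⁻¹ = 1 := by
  rw [← el_mul]
  simp

@[simp] theorem el_inv_mul (a : Q) : el a⁻¹ * el a = 1 := by
  rw [← el_mul]
  simp

end el

/-- the affine group of a module over the group ring -/
@[ext] structure Cr (Q M : Type) where
  /-- the translation part -/
  m : M
  /-- the linear part -/
  q : Q

namespace Cr

variable {Q M : Type} [Group Q] [AddCommGroup M] [Module (ZR Q) M]

instance : Mul (Cr Q M) := ⟨fun a b => ⟨a.m + el a.q • b.m, a.q * b.q⟩⟩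
instance : One (Cr Q M) := ⟨⟨0, 1⟩⟩
instance : Inv (Cr Q M) := ⟨fun a => ⟨-(el a.q⁻¹ • a.m), a.q⁻¹⟩⟩

@[simp] theorem mul_m (a b : Cr Q M) : (a * b).m = a.m + el a.q • b.m := rfl
@[simp] theorem mul_q (a b : Cr Q M) : (a * b).q = a.q * b.q := rfl
@[simp] theorem one_m : (1 : Cr Q M).m = 0 := rfl
@[simp] theorem one_q : (1 : Cr Q M).q = 1 := rfl
@[simp] theorem inv_m (a : Cr Q M) : a⁻¹.m = -(el a.q⁻¹ • a.m) := rfl
@[simp] theorem inv_q (a : Cr Q M) : a⁻¹.q = a.q⁻¹ := rfl

instance : Group (Cr Q M) where
  mul_assoc a b c := by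
    ext
    · simp [el_mul, add_assoc, mul_smul]
    · simp [mul_assoc]
  one_mul a := by ext <;> simp
  mul_one a := by ext <;> simp
  inv_mul_cancel a := by ext <;> simp

/-- the linear part as a homomorphism -/
def lin : Cr Q M →* Q where
  toFun := Cr.q
  map_one' := rfl
  map_mul' := fun _ _ => rfl

end Cr

section Fox

variable {Q I : Type} [Group Q]

open Classical in
/-- the homomorphism to the affine group defining the Fox derivatives -/
noncomputable def foxHom (g : I → Q) : FreeGroup I →* Cr Q (I → ZR Q) :=
  FreeGroup.lift (fun i => ⟨Pi.single i 1, g i⟩)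

/-- the vector of Fox derivatives of a word, evaluated in `Q` through the map `g` of the
generators -/
noncomputable def fox (g : I → Q) (w : FreeGroup I) : I → ZR Q := (foxHom g w).m

theorem foxHom_q (g : I → Q) (w : FreeGroup I) : (foxHom g w).q = FreeGroup.lift g w := by
  have h : Cr.lin.comp (foxHom g) = FreeGroup.lift g := by
    ext i
    simp [foxHom, Cr.lin]
  exact DFunLike.congr_fun h w

@[simp] theorem fox_one (g : I → Q) : fox g 1 = 0 := by
  simp [fox]

theorem fox_mul (g : I → Q) (u v : FreeGroup I) :
    fox g (u * v) = fox g u + el (FreeGroup.lift g u) • fox g v := by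
  simp only [fox, map_mul, Cr.mul_m, foxHom_q]

theorem fox_inv (g : I → Q) (u : FreeGroup I) :
    fox g u⁻¹ = -(el (FreeGroup.lift g u)⁻¹ • fox g u) := by
  simp only [fox, map_inv, Cr.inv_m, foxHom_q]

open Classical in
theorem fox_of (g : I → Q) (i : I) : fox g (FreeGroup.of i) = Pi.single i 1 := by
  simp [fox, foxHom]

theorem fox_of_self (g : I → Q) (i : I) : fox g (FreeGroup.of i) i = 1 := by
  classical
  rw [fox_of]
  simp

theorem fox_of_ne (g : I → Q) {i j : I} (h : j ≠ i) : fox g (FreeGroup.of i) j = 0 := by
  classical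
  rw [fox_of]
  simp [h]

end Fox

/-! ### Identity sequences -/

section Seq

variable {X K Q : Type} [Group Q] (r : K → FreeGroup X)

/-- formal products of conjugates of relators -/
abbrev Seq (X K : Type) : Type := FreeGroup (FreeGroup X × K)

/-- the value of a formal product of conjugates of relators -/
def rho : Seq X K →* FreeGroup X := FreeGroup.lift (fun p => p.1 * r p.2 * p.1⁻¹)

open Classical in
/-- the chain of a formal product of conjugates of relators -/
noncomputable def chain (g : X → Q) : Seq X K →* Multiplicative (K → ZR Q) :=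
  FreeGroup.lift (fun p => Multiplicative.ofAdd (Pi.single p.2 (el (FreeGroup.lift g p.1))))

/-- the chain, additively -/
noncomputable def chn (g : X → Q) (u : Seq X K) : K → ZR Q := Multiplicative.toAdd (chain g u)

@[simp] theorem rho_of (p : FreeGroup X × K) : rho r (FreeGroup.of p) = p.1 * r p.2 * p.1⁻¹ := by
  simp [rho]

@[simp] theorem chn_one (g : X → Q) : chn (K := K) g 1 = 0 := by
  simp [chn]

theorem chn_mul (g : X → Q) (u v : Seq X K) : chn g (u * v) = chn g u + chn g v := by
  simp [chn]

theorem chn_inv (g : X → Q) (u : Seq X K) : chn g u⁻¹ = -chn g u := by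
  simp [chn]

open Classical in
theorem chn_of (g : X → Q) (p : FreeGroup X × K) :
    chn g (FreeGroup.of p) = Pi.single p.2 (el (FreeGroup.lift g p.1)) := by
  simp [chn, chain]

/-- the boundary of a chain -/
noncomputable def bd [Fintype K] (g : X → Q) (β : K → ZR Q) : X → ZR Q :=
  ∑ k, β k • fox g (r k)

theorem bd_add [Fintype K] (g : X → Q) (β γ : K → ZR Q) :
    bd r g (β + γ) = bd r g β + bd r g γ := by
  simp [bd, add_smul, Finset.sum_add_distrib]

theorem bd_neg [Fintype K] (g : X → Q) (β : K → ZR Q) : bd r g (-β) = -bd r g β := by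
  simp [bd, neg_smul, Finset.sum_neg_distrib]

theorem bd_sub [Fintype K] (g : X → Q) (β γ : K → ZR Q) :
    bd r g (β - γ) = bd r g β - bd r g γ := by
  rw [sub_eq_add_neg, bd_add, bd_neg, sub_eq_add_neg]

theorem bd_smul [Fintype K] (g : X → Q) (c : ZR Q) (β : K → ZR Q) :
    bd r g (c • β) = c • bd r g β := by
  simp [bd, Finset.smul_sum, mul_smul]

theorem bd_zero [Fintype K] (g : X → Q) : bd r g (0 : K → ZR Q) = 0 := by
  simp [bd]

/-- the fundamental formula: the Fox derivative of the value is the boundary of the chain -/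
theorem fox_rho [Fintype K] (g : X → Q) (hr : ∀ k, FreeGroup.lift g (r k) = 1) (u : Seq X K) :
    fox g (rho r u) = bd r g (chn g u) := by
  induction u using FreeGroup.induction_on with
  | C1 => simp [bd_zero]
  | of p =>
    classical
    rw [rho_of, chn_of, fox_mul, fox_mul, fox_inv, map_mul, hr, mul_one, smul_neg, smul_smul,
      el_mul_inv, one_smul]
    simp only [bd]
    rw [Finset.sum_eq_single p.2]
    · simp
    · intro b _ hb
      simp [hb]
    · simp
  | inv_of p ih =>
    rw [map_inv, fox_inv, chn_inv, bd_neg, ← ih, rho_of]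
    simp [hr]
  | mul x y hx hy =>
    have h1 : ∀ x : Seq X K, FreeGroup.lift g (rho r x) = 1 := by
      intro x
      have h : (FreeGroup.lift g).comp (rho r) = 1 := by
        ext p
        simp [hr]
      exact DFunLike.congr_fun h x
    rw [map_mul, fox_mul, chn_mul, bd_add, hx, hy, h1, el_one, one_smul]

end Seq

end Pool.Agent.TH95
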