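import Pool.Agent.TH95.SD.VHsys

/-!
The group of a finite `VH` square complex times a free group of finite rank acts freely and
cocompactly on a locally finite median graph without `4`-dimensional cubes.
-/

set_option autoImplicit false

namespace Pool.Agent.TH95

open Pool.Agent.W387

namespace GeomSD

open SqSys

section cube

variable {A : Type} {S : SqSys A}

/-- the square spanned by a diamond in the Cayley graph -/
theorem sq_of_diamond {u x y v : S.Grp} {a a' b b' : A} (hx : x = S.gn a * u)
    (hy : y = S.gn b * u) (h : v = S.gn a' * x) (h' : v = S.gn b' * y) (huv : u ≠ v)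
    (hxy : x ≠ y) : S.sq a' b' = some (a, b) := by
  subst hx hy
  have ua : dd u (S.gn a * u) = 1 := by
    unfold dd
    rw [mul_inv_cancel_right, len_gn]
  have huv' : dd u v ≠ 0 := by
    intro h
    have := len_eq_zero h
    rw [mul_inv_eq_one] at this
    exact huv this.symm
  have h2 : dd u v = 2 := by
    have h5 := dd_gn_mul u (S.gn a * u) a'
    rw [← h, ua] at h5
    omega
  have red2 : ∀ a a' : A, v = S.gn a' * (S.gn a * u) → S.Red [a', a] := by
    intro a a' h
    apply red_of_len
    have e : evL (S := S) [a', a] = v * u⁻¹ := by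
      rw [h]
      simp [mul_assoc]
    rw [e]
    exact h2
  have hE : S.E [a', a] [b', b] := by
    apply E_of_evL_eq (red2 _ _ h) (red2 _ _ h')
    simp only [evL_cons, evL_nil, mul_one]
    have := h.symm.trans h'
    rw [← mul_assoc, ← mul_assoc] at this
    exact mul_right_cancel this
  rcases key _ _ _ _ _ rfl hE with ⟨k1, _⟩ | ⟨p, e, f, k1, k2, k3⟩
  · exfalso
    subst k1
    exact hxy (mul_left_cancel (h.symm.trans h'))
  · have l1 := E.length k2
    simp only [List.length_cons, List.length_nil] at l1
    have l2 : p = [] := List.eq_nil_of_length_eq_zero (by omega)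
    subst l2
    rw [k1, E_single k2, E_single k3]

/-- no `4`-cubes in the Cayley graph of a square system whose darts have three colours -/
theorem no_cube4 (col : A → Fin 3)
    (hcol : ∀ a b p q, S.sq a b = some (p, q) → col a ≠ col b) :
    ¬ ∃ q : (Fin 4 → Bool) → S.Vx, Function.Injective q ∧
      ∀ (x : Fin 4 → Bool) (i : Fin 4), S.Cay.Adj (q x) (q (Function.update x i (!x i))) := by
  rintro ⟨q, hq, hadj⟩
  let z : Fin 4 → Bool := fun _ => false
  let e : Fin 4 → Fin 4 → Bool := fun i => Function.update z i true
  have h1 : ∀ i, ∃ a, (q (e i)).g = S.gn a * (q z).g := fun i => cay_adj.mp (hadj z i)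
  choose a ha using h1
  have h2 : ∀ i j, i ≠ j → ∃ b, (q (Function.update (e i) j true)).g = S.gn b * (q (e i)).g := by
    intro i j hij
    have h := hadj (e i) j
    have hz : (e i) j = false := by
      simp [e, z, Function.update_of_ne (Ne.symm hij)]
    rw [hz] at h
    exact cay_adj.mp h
  have hcomm : ∀ i j, i ≠ j → Function.update (e i) j true = Function.update (e j) i true := by
    intro i j hij
    exact Function.update_comm hij _ _ _
  have hinj : Function.Injective (fun i => col (S.inv (a i))) := by
    intro i j hc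
    by_contra hij
    obtain ⟨b, hb⟩ := h2 i j hij
    obtain ⟨b', hb'⟩ := h2 j i (Ne.symm hij)
    rw [← hcomm i j hij] at hb'
    have hne1 : (q z).g ≠ (q (Function.update (e i) j true)).g := by
      intro h
      have h3 := hq (Vx.ext h)
      have h4 := congrFun h3 j
      simp [z] at h4
    have hne2 : (q (e i)).g ≠ (q (e j)).g := by
      intro h
      have h3 := hq (Vx.ext h)
      have h4 := congrFun h3 i
      simp [e, z, Function.update_of_ne hij] at h4
    have hs := sq_of_diamond (ha i) (ha j) hb hb' hne1 hne2
    exact hcol _ _ _ _ (backs hs) hc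
  have := Fintype.card_le_of_injective _ hinj
  simp at this

theorem acts3 [Finite A] (col : A → Fin 3)
    (hcol : ∀ a b p q, S.sq a b = some (p, q) → col a ≠ col b) : ActsOnMedian3 S.Grp := by
  refine ⟨S.Vx, inferInstance, S.Cay, ⟨⟨1⟩⟩, cay_connected, ?_, ?_, ?_, ?_, ?_, ?_⟩
  · intro v
    apply Set.Finite.subset (Set.finite_range (fun a => (⟨S.gn a * v.g⟩ : S.Vx)))
    rintro w ⟨a, h⟩
    exact ⟨a, Vx.ext h.symm⟩
  · intro x y z
    simp only [cay_dist]
    obtain ⟨m, hm, hm2⟩ := medD.existsUnique x.g y.g z.g
    exact ⟨⟨m⟩, hm, fun m' hm' => Vx.ext (hm2 m'.g hm')⟩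
  · rintro g u v ⟨a, h⟩
    refine ⟨a, ?_⟩
    rw [smul_def, smul_def, h, mul_assoc]
  · intro g v h1
    rw [smul_def] at h1
    have h2 : v.g * g⁻¹ = v.g := congrArg Vx.g h1
    simpa using h2
  · refine ⟨{⟨1⟩}, fun v => ⟨v.g⁻¹, ⟨1⟩, by simp, ?_⟩⟩
    rw [smul_def]
    simp
  · exact no_cube4 col hcol

end cube

/-- transport of an action along an isomorphism -/
theorem acts3_congr {G G' : Type} [Group G] [Group G'] (e : G' ≃* G) (h : ActsOnMedian3 G) :
    ActsOnMedian3 G' := by
  obtain ⟨V, inst, Γ, h1, h2, h3, h4, h5, h6, ⟨s, hs⟩, h8⟩ := h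
  refine ⟨V, MulAction.compHom V e.toMonoidHom, Γ, h1, h2, h3, h4, ?_, ?_, ?_, h8⟩
  · intro g u v h
    exact h5 (e g) u v h
  · intro g v h
    have := h6 (e g) v h
    exact (map_eq_one_iff e e.injective).mp this
  · refine ⟨s, fun v => ?_⟩
    obtain ⟨g, t, ht, hg⟩ := hs v
    refine ⟨e.symm g, t, ht, ?_⟩
    have : e (e.symm g) • t = v := by rw [e.apply_symm_apply]; exact hg
    exact this

/-- the square system of a free group -/
def free (Y : Type) : SqSys (Y × Bool) where
  inv := fun y => (y.1, !y.2)
  inv_inv := by simp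
  sq := fun _ _ => none
  symm := by
    intro a b p q h
    cases h
  rot := by
    intro a b p q h
    cases h
  irrefl := fun _ => rfl
  cube := by
    intro a b c b1 a1 c1 b2 c2 a2 h1
    cases h1

/-- from the group of the free square system to the free group -/
def toFree (Y : Type) : (free Y).Grp →* FreeGroup Y :=
  lift (S := free Y) (fun y => if y.2 then FreeGroup.of y.1 else (FreeGroup.of y.1)⁻¹)
    (by
      rintro ⟨y, _ | _⟩ <;> simp [free])
    (by
      intro a b p q h
      cases h)

/-- from the free group to the group of the free square system -/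
def ofFree (Y : Type) : FreeGroup Y →* (free Y).Grp :=
  FreeGroup.lift (fun y => (free Y).gn (y, true))

theorem toFree_ofFree {Y : Type} (g : FreeGroup Y) : toFree Y (ofFree Y g) = g := by
  have h : (toFree Y).comp (ofFree Y) = MonoidHom.id _ := by
    apply FreeGroup.ext_hom
    intro y
    simp [toFree, ofFree]
  exact DFunLike.congr_fun h g

theorem hom_ext {A : Type} {S : SqSys A} {K : Type} [Group K] {f f' : S.Grp →* K}
    (h : ∀ a, f (S.gn a) = f' (S.gn a)) : f = f' := by
  refine MonoidHom.ext (fun g => ?_)
  induction g using grp_induction with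
  | h1 => simp
  | h2 a g ih => rw [map_mul, map_mul, h, ih]

theorem ofFree_toFree {Y : Type} (g : (free Y).Grp) : ofFree Y (toFree Y g) = g := by
  have h : (ofFree Y).comp (toFree Y) = MonoidHom.id _ := by
    apply hom_ext
    rintro ⟨y, _ | _⟩
    · have := gn_inv (S := free Y) (y, true)
      simp only [free, Bool.not_true] at this
      simp [toFree, ofFree]
      exact this.symm
    · simp [toFree, ofFree]
  exact DFunLike.congr_fun h g

/-- the free group as the group of a square system -/
def freeEquiv (Y : Type) : FreeGroup Y ≃* (free Y).Grp where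
  toFun := ofFree Y
  invFun := toFree Y
  left_inv := toFree_ofFree
  right_inv := ofFree_toFree
  map_mul' := map_mul _

section prod

variable {A B : Type} (S : SqSys A) (S' : SqSys B)

/-- the product of two square systems -/
abbrev pr : SqSys (A ⊕ B) := join S S' (fun _ => true) (fun _ => rfl) (fun _ _ _ _ _ _ _ => ⟨rfl, rfl⟩)

/-- the map to the product -/
def toProd : (pr S S').Grp →* S.Grp × S'.Grp :=
  joinLift (MonoidHom.inl _ _) (MonoidHom.inr _ _) (by intro a b _; simp)

theorem pr_comm (g : S.Grp) (h : S'.Grp) :
    Commute (jl S S' (fun _ => true) (fun _ => rfl) (fun _ _ _ _ _ _ _ => ⟨rfl, rfl⟩) g)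
      (jr S S' (fun _ => true) (fun _ => rfl) (fun _ _ _ _ _ _ _ => ⟨rfl, rfl⟩) h) := by
  induction g using grp_induction with
  | h1 => simp
  | h2 a g ih =>
    rw [map_mul]
    refine Commute.mul_left ?_ ih
    clear ih
    induction h using grp_induction with
    | h1 => simp
    | h2 b h ih =>
      rw [map_mul]
      refine Commute.mul_right ?_ ih
      exact j_comm a b rfl

/-- the map from the product -/
def ofProd : S.Grp × S'.Grp →* (pr S S').Grp :=
  MonoidHom.noncommCoprod _ _ (pr_comm S S')

theorem ofProd_toProd (g : (pr S S').Grp) : ofProd S S' (toProd S S' g) = g := by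
  have h : (ofProd S S').comp (toProd S S') = MonoidHom.id _ := by
    apply hom_ext
    rintro (a | a)
    · simp [ofProd, toProd]
    · simp [ofProd, toProd]
  exact DFunLike.congr_fun h g

theorem toProd_ofProd (g : S.Grp × S'.Grp) : toProd S S' (ofProd S S' g) = g := by
  have h : (toProd S S').comp (ofProd S S') = MonoidHom.id _ := by
    have h1 : ((toProd S S').comp (ofProd S S')).comp (MonoidHom.inl _ _) =
        (MonoidHom.id _).comp (MonoidHom.inl _ _) := by
      apply hom_ext
      intro a
      simp [ofProd, toProd]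
    have h2 : ((toProd S S').comp (ofProd S S')).comp (MonoidHom.inr _ _) =
        (MonoidHom.id _).comp (MonoidHom.inr _ _) := by
      apply hom_ext
      intro a
      simp [ofProd, toProd]
    refine MonoidHom.ext (fun g => ?_)
    have e : g = MonoidHom.inl _ _ g.1 * MonoidHom.inr _ _ g.2 := by simp
    rw [e, map_mul, map_mul]
    exact congrArg₂ (· * ·) (DFunLike.congr_fun h1 g.1) (DFunLike.congr_fun h2 g.2)
  exact DFunLike.congr_fun h g

/-- the product of the groups as the group of a square system -/
def prodEquiv : S.Grp × S'.Grp ≃* (pr S S').Grp where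
  toFun := ofProd S S'
  invFun := toProd S S'
  left_inv := toProd_ofProd S S'
  right_inv := ofProd_toProd S S'
  map_mul' := map_mul _

end prod

end GeomSD

open GeomSD in
/-- The group of a finite `VH` complex times a free group of finite rank acts freely with finitely
many orbits on a locally finite median graph without `4`-cubes. -/
theorem geom3 {V H Y : Type} [Finite V] [Finite H] [Finite Y] (T : VH V H) :
    ActsOnMedian3 (T.Grp × FreeGroup Y) := by
  let col : VH.Da V H ⊕ (Y × Bool) → Fin 3 := fun a =>
    match a with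
    | Sum.inl (Sum.inl _) => 0
    | Sum.inl (Sum.inr _) => 1
    | Sum.inr _ => 2
  refine acts3_congr ((MulEquiv.prodCongr (MulEquiv.refl T.Grp) (freeEquiv Y)).trans
    (prodEquiv T.sys (free Y))) (acts3 (S := pr T.sys (free Y)) col ?_)
  rintro (a | a) (b | b) p q hs
  · obtain ⟨p', q', k, rfl, rfl⟩ := (SqSys.jsq_ll (S := T.sys) (S' := free Y)
      (T := fun _ => true) (a := a) (b := b)).mp hs
    have k' : T.sq a b = some (p', q') := k
    rcases a with ⟨v, _ | _⟩ | h <;> rcases b with ⟨v2, _ | _⟩ | h2 <;>
      simp only [VH.sq, reduceCtorEq] at k' <;> simp [col]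
  · simp only [col]
    rcases a with a | a <;> simp
  · simp only [col]
    rcases b with b | b <;> simp
  · obtain ⟨p', q', k, rfl, rfl⟩ := (SqSys.jsq_rr (S := T.sys) (S' := free Y)
      (T := fun _ => true) (a := a) (b := b)).mp hs
    cases k

end Pool.Agent.TH95
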