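import Pool.Agent.TH95.SD.Rips

/-!
A representation of the Rips type group that detects the central module.
-/

set_option autoImplicit false

set_option linter.unusedSectionVars false

namespace Pool.Agent.TH95

namespace Theta

/-! ### Intertwiners -/

section inter

variable {G H : Type} [Group G] [Group H]

/-- the action of `H` on `H × ℕ` by translations of the first coordinate -/
def lam : H →* Equiv.Perm (H × ℕ) where
  toFun b := ⟨fun s => (s.1 * b⁻¹, s.2), fun s => (s.1 * b, s.2), fun s => by simp, fun s => by simp⟩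
  map_one' := by ext s <;> simp
  map_mul' a b := by
    ext s
    · show s.1 * (a * b)⁻¹ = s.1 * b⁻¹ * a⁻¹
      rw [mul_inv_rev, mul_assoc]
    · rfl

theorem lam_apply (b : H) (s : H × ℕ) : lam b s = (s.1 * b⁻¹, s.2) := rfl

theorem lam_injective : Function.Injective (lam : H → Equiv.Perm (H × ℕ)) := by
  intro a b h
  have h1 := congrArg (fun e : Equiv.Perm (H × ℕ) => (e (1, 0)).1) h
  simp only [lam_apply, one_mul] at h1
  exact inv_injective h1

/-- coordinates of `H × ℕ` adapted to an injective homomorphism -/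
noncomputable def coord (α : G →* H) (hα : Function.Injective α) :
    (H ⧸ α.range) × ℕ × G ≃ H × ℕ :=
  Equiv.ofBijective (fun p => (p.1.out * α p.2.2, p.2.1)) (by
    constructor
    · rintro ⟨q, n, γ⟩ ⟨q', n', γ'⟩ h
      simp only [Prod.mk.injEq] at h
      obtain ⟨h1, rfl⟩ := h
      have hq : q = q' := by
        have h2 := congrArg (fun x : H => (QuotientGroup.mk x : H ⧸ α.range)) h1
        have h3 : ∀ (p : H ⧸ α.range) (δ : G),
            (QuotientGroup.mk (p.out * α δ) : H ⧸ α.range) = p := by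
          intro p δ
          rw [QuotientGroup.mk_mul_of_mem _ (show α δ ∈ α.range from ⟨δ, rfl⟩), QuotientGroup.out_eq']
        exact (h3 q γ).symm.trans (h2.trans (h3 q' γ'))
      subst hq
      have h3 := hα (mul_left_cancel h1)
      rw [h3]
    · rintro ⟨s, n⟩
      have h1 : (QuotientGroup.mk s : H ⧸ α.range).out⁻¹ * s ∈ α.range := by
        rw [← QuotientGroup.eq, QuotientGroup.out_eq']
      obtain ⟨γ, hγ⟩ := h1
      refine ⟨(QuotientGroup.mk s, n, γ), ?_⟩
      simp only [hγ, mul_inv_cancel_left])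

theorem coord_apply (α : G →* H) (hα : Function.Injective α) (q : H ⧸ α.range) (n : ℕ) (γ : G) :
    coord α hα (q, n, γ) = (q.out * α γ, n) := rfl

theorem exists_inter [Countable H] (α α' : G →* H) (hα : Function.Injective α)
    (hα' : Function.Injective α') :
    ∃ C : Equiv.Perm (H × ℕ), ∀ γ, C * lam (α γ) = lam (α' γ) * C := by
  have c1 : Countable (H ⧸ α.range) := Quotient.countable
  have c2 : Countable (H ⧸ α'.range) := Quotient.countable
  obtain ⟨e⟩ : Nonempty ((H ⧸ α.range) × ℕ ≃ (H ⧸ α'.range) × ℕ) := nonempty_equiv_of_countable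
  let E : (H ⧸ α.range) × ℕ × G ≃ (H ⧸ α'.range) × ℕ × G :=
    (Equiv.prodAssoc _ _ _).symm.trans ((e.prodCongr (Equiv.refl G)).trans (Equiv.prodAssoc _ _ _))
  have hE : ∀ q n γ, E (q, n, γ) = ((e (q, n)).1, (e (q, n)).2, γ) := fun _ _ _ => rfl
  refine ⟨(coord α hα).symm.trans (E.trans (coord α' hα')), fun γ => ?_⟩
  ext1 s
  obtain ⟨⟨q, n, δ⟩, rfl⟩ := (coord α hα).surjective s
  have h1 : lam (α γ) (coord α hα (q, n, δ)) = coord α hα (q, n, δ * γ⁻¹) := by
    rw [coord_apply, coord_apply, lam_apply]
    simp only [map_mul, map_inv, mul_assoc]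
  have h2 : ∀ q' n' δ', lam (α' γ) (coord α' hα' (q', n', δ')) =
      coord α' hα' (q', n', δ' * γ⁻¹) := by
    intro q' n' δ'
    rw [coord_apply, coord_apply, lam_apply]
    simp only [map_mul, map_inv, mul_assoc]
  show (coord α hα).symm.trans (E.trans (coord α' hα')) (lam (α γ) (coord α hα (q, n, δ))) =
    lam (α' γ) ((coord α hα).symm.trans (E.trans (coord α' hα')) (coord α hα (q, n, δ)))
  rw [h1]
  simp only [Equiv.trans_apply, Equiv.symm_apply_apply, hE, h2]

end inter

/-! ### The module and the actions -/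

section act

variable {Ω : Type}

/-- permutations act on the free abelian group -/
noncomputable def act : Equiv.Perm Ω →* MulAut (Multiplicative (Ω →₀ ℤ)) where
  toFun π :=
    { toFun := fun m => Multiplicative.ofAdd (Finsupp.mapDomain π (Multiplicative.toAdd m))
      invFun := fun m => Multiplicative.ofAdd (Finsupp.mapDomain (π⁻¹ : Equiv.Perm Ω)
        (Multiplicative.toAdd m))
      left_inv := fun m => by
        simp only [toAdd_ofAdd, ← Finsupp.mapDomain_comp]
        have h : (⇑π⁻¹ ∘ ⇑π : Ω → Ω) = id := by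
          funext x
          simp
        rw [h, Finsupp.mapDomain_id]
        rfl
      right_inv := fun m => by
        simp only [toAdd_ofAdd, ← Finsupp.mapDomain_comp]
        have h : (⇑π ∘ ⇑π⁻¹ : Ω → Ω) = id := by
          funext x
          simp
        rw [h, Finsupp.mapDomain_id]
        rfl
      map_mul' := fun m n => by
        rw [toAdd_mul, Finsupp.mapDomain_add, ofAdd_add] }
  map_one' := by
    ext1 m
    show Multiplicative.ofAdd (Finsupp.mapDomain (id : Ω → Ω) (Multiplicative.toAdd m)) = m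
    rw [Finsupp.mapDomain_id]
    rfl
  map_mul' π σ := by
    ext1 m
    show Multiplicative.ofAdd (Finsupp.mapDomain (π ∘ σ) (Multiplicative.toAdd m)) =
      Multiplicative.ofAdd (Finsupp.mapDomain π (Finsupp.mapDomain σ (Multiplicative.toAdd m)))
    rw [Finsupp.mapDomain_comp]

theorem act_apply (π : Equiv.Perm Ω) (m : Ω →₀ ℤ) :
    act π (Multiplicative.ofAdd m) = Multiplicative.ofAdd (Finsupp.mapDomain π m) := rfl

/-- conjugation formulas extend from the generators -/
theorem conj_ext {J Γ : Type} [Group Γ] (ι : Multiplicative (Ω →₀ ℤ) →* Γ)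
    (β : FreeGroup J →* Γ) (κ : FreeGroup J →* Equiv.Perm Ω)
    (h : ∀ j m, β (FreeGroup.of j) * ι m * (β (FreeGroup.of j))⁻¹ =
      ι (act (κ (FreeGroup.of j)) m)) :
    ∀ u m, β u * ι m * (β u)⁻¹ = ι (act (κ u) m) := by
  intro u
  induction u using FreeGroup.induction_on with
  | C1 => intro m; simp
  | of j => exact h j
  | inv_of j _ =>
    intro m
    have h1 := h j (act (κ (FreeGroup.of j))⁻¹ m)
    have h2 : act (κ (FreeGroup.of j)) (act (κ (FreeGroup.of j))⁻¹ m) = m := by
      rw [← MulAut.mul_apply, ← map_mul, mul_inv_cancel, map_one, MulAut.one_apply]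
    rw [h2] at h1
    rw [map_inv, map_inv, ← h1]
    group
  | mul x y hx hy =>
    intro m
    rw [map_mul, map_mul, map_mul, MulAut.mul_apply, ← hx, ← hy]
    group

end act

/-! ### Words in the horizontal letters -/

section wds

variable {X K Ω : Type} (r : K → List (X × Bool)) (ξ : X → Equiv.Perm Ω)

/-- the element of the free group on the horizontal letters given by a dart -/
def hF (h : HD X) : FreeGroup (Ht X) := if h.2 then FreeGroup.of h.1 else (FreeGroup.of h.1)⁻¹

/-- the dart at position `n` of the top -/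
def topN (l : Ci X K) (n : ℕ) : HD X := if h : n < 8 then top r l ⟨n, h⟩ else (Sum.inr Bt.e, true)

/-- the dart at position `n` of the bottom -/
def botN (n : ℕ) : HD X := if n = 7 then (Sum.inr Bt.f, true) else (Sum.inr Bt.e, true)

/-- initial parts of the top word -/
def TW (l : Ci X K) : ℕ → FreeGroup (Ht X)
  | 0 => 1
  | n + 1 => TW l n * hF (topN r l n)

/-- initial parts of the bottom word -/
def BW : ℕ → FreeGroup (Ht X)
  | 0 => 1
  | n + 1 => BW n * hF (botN n)

theorem TW8 (l : Ci X K) : TW r l 8 = FreeGroup.of (Sum.inr Bt.e) *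
    (List.ofFn (fun i : Fin 6 => hF (inner r l i))).prod * FreeGroup.of (Sum.inr Bt.f) := by
  have h0 : topN r l 0 = (Sum.inr Bt.e, true) := rfl
  have h1 : topN r l 1 = inner r l 0 := rfl
  have h2 : topN r l 2 = inner r l 1 := rfl
  have h3 : topN r l 3 = inner r l 2 := rfl
  have h4 : topN r l 4 = inner r l 3 := rfl
  have h5 : topN r l 5 = inner r l 4 := rfl
  have h6 : topN r l 6 = inner r l 5 := rfl
  have h7 : topN r l 7 = (Sum.inr Bt.f, true) := rfl
  simp only [TW, h0, h1, h2, h3, h4, h5, h6, h7, List.ofFn_succ, List.ofFn_zero, List.prod_cons,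
    List.prod_nil, mul_one, one_mul, mul_assoc]
  rfl

theorem BW8 : (BW 8 : FreeGroup (Ht X)) = (FreeGroup.of (Sum.inr Bt.e)) ^ 7 *
    FreeGroup.of (Sum.inr Bt.f) := by
  simp [BW, botN, hF, pow_succ]

/-- the homomorphism to the permutations -/
def kF : FreeGroup (Ht X) →* Equiv.Perm Ω := FreeGroup.lift (Sum.elim ξ (fun _ => 1))

theorem kF_hF (p : X × Bool) : kF ξ (hF (Sum.inl p.1, p.2)) = if p.2 then ξ p.1 else (ξ p.1)⁻¹ := by
  unfold hF kF
  cases p.2 <;> simp

theorem kF_b (β : Bt X) : kF ξ (FreeGroup.of (Sum.inr β)) = 1 := by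
  simp [kF]

theorem inner_rel (k : K) (hlen : (r k).length ≤ 6) {A : Type} (f : HD X → A) :
    List.ofFn (fun i : Fin 6 => f (inner r (Ci.rel k) i)) =
      List.replicate (6 - (r k).length) (f (Sum.inr Bt.g, true)) ++
        (r k).map (fun p => f (Sum.inl p.1, p.2)) := by
  apply List.ext_getElem
  · simp
    omega
  · intro i h1 h2
    rw [List.getElem_ofFn]
    simp only [inner]
    by_cases h : i + (r k).length < 6
    · rw [if_pos h, List.getElem_append_left (by simp; omega), List.getElem_replicate]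
    · rw [if_neg h, List.getElem_append_right (by simp; omega)]
      have h3 : i < 6 := by simpa using h1
      have h4 : i + (r k).length - 6 < ((r k).map (fun p => ((Sum.inl p.1, p.2) : HD X))).length := by
        rw [List.length_map]
        omega
      rw [List.getElem_map, List.getD_eq_getElem _ _ h4, List.getElem_map]
      simp only [List.length_replicate]
      have h5 : i - (6 - (r k).length) = i + (r k).length - 6 := by omega
      simp only [h5]

theorem kF_TW8 (hlen : ∀ k, (r k).length ≤ 6)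
    (hξ : ∀ k, FreeGroup.lift ξ (FreeGroup.mk (r k)) = 1) (l : Ci X K) :
    kF ξ (TW r l 8) = 1 := by
  rw [TW8, map_mul, map_mul, kF_b, kF_b, one_mul, mul_one, map_list_prod, List.map_ofFn]
  cases l with
  | cj x β =>
    have hβ : kF ξ (hF (Sum.inr β, true)) = 1 := kF_b ξ β
    have hg : kF ξ (hF (Sum.inr Bt.g, true)) = 1 := kF_b ξ Bt.g
    simp only [List.ofFn_succ, List.ofFn_zero, inner, Function.comp_apply]
    obtain ⟨x, ε⟩ := x
    have h1 := kF_hF ξ (x, ε)
    have h2 := kF_hF ξ (x, !ε)
    simp only at h1 h2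
    simp [Fin.succ, hβ, hg, h1, h2]
    cases ε <;> simp
  | rel k =>
    have h1 := inner_rel r k (hlen k) (fun d => kF ξ (hF d))
    have h2 : (List.ofFn ((⇑(kF ξ)) ∘ fun i : Fin 6 => hF (inner r (Ci.rel k) i))) =
      List.ofFn (fun i : Fin 6 => kF ξ (hF (inner r (Ci.rel k) i))) := rfl
    have hg : kF ξ (hF (Sum.inr Bt.g, true)) = 1 := kF_b ξ Bt.g
    rw [h2, h1, List.prod_append, hg, List.prod_replicate, one_pow, one_mul, ← hξ k,
      FreeGroup.lift_mk]
    congr 1
    apply List.map_congr_left
    intro p _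
    rw [kF_hF]
    cases p.2 <;> rfl

/-- the letters of the free group of the subgroups -/
abbrev Ix (X : Type) : Type := (X × Bool) ⊕ Unit

/-- the homomorphism to the permutations -/
def kI : FreeGroup (Ix X) →* Equiv.Perm Ω :=
  FreeGroup.lift (Sum.elim (fun p => if p.2 then ξ p.1 else (ξ p.1)⁻¹) (fun _ => 1))

/-- values of the left inverse on the letters -/
def pB (l : Ci X K) : Bt X → FreeGroup (Ix X)
  | Bt.b x => FreeGroup.of (Sum.inl x)
  | Bt.g => 1
  | Bt.e => match l with
    | Ci.cj _ Bt.f => FreeGroup.of (Sum.inr ())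
    | _ => 1
  | Bt.f => match l with
    | Ci.cj _ Bt.f => 1
    | Ci.cj _ (Bt.b y) => (FreeGroup.of (Sum.inl y))⁻¹ * FreeGroup.of (Sum.inr ())
    | _ => FreeGroup.of (Sum.inr ())

/-- the left inverse -/
def pL (l : Ci X K) : FreeGroup (Ht X) →* FreeGroup (Ix X) :=
  FreeGroup.lift (Sum.elim (fun _ => 1) (pB l))

theorem pL_x (l : Ci X K) (p : X × Bool) : pL l (hF (Sum.inl p.1, p.2)) = 1 := by
  unfold hF pL
  cases p.2 <;> simp

theorem pL_b (l : Ci X K) (β : Bt X) : pL l (FreeGroup.of (Sum.inr β)) = pB l β := by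
  simp [pL]

theorem pL_TW8 (hlen : ∀ k, (r k).length ≤ 6) (l : Ci X K) :
    pL l (TW r l 8) = FreeGroup.of (Sum.inr ()) := by
  rw [TW8, map_mul, map_mul, pL_b, pL_b, map_list_prod, List.map_ofFn]
  cases l with
  | cj x β =>
    have hβ : pL (Ci.cj x β : Ci X K) (hF (Sum.inr β, true)) = pB (Ci.cj x β) β := pL_b _ β
    have hg : pL (Ci.cj x β : Ci X K) (hF (Sum.inr Bt.g, true)) = 1 := pL_b _ Bt.g
    simp only [List.ofFn_succ, List.ofFn_zero, inner, Function.comp_apply]
    obtain ⟨x, ε⟩ := x
    have h1 := pL_x (Ci.cj (x, ε) β : Ci X K) (x, ε)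
    have h2 := pL_x (Ci.cj (x, ε) β : Ci X K) (x, !ε)
    simp only at h1 h2
    simp [Fin.succ, hβ, hg, h1, h2]
    cases β <;> simp [pB]
  | rel k =>
    have h1 := inner_rel r k (hlen k) (fun d => pL (Ci.rel k : Ci X K) (hF d))
    have h2 : (List.ofFn ((⇑(pL (Ci.rel k : Ci X K))) ∘
        fun i : Fin 6 => hF (inner r (Ci.rel k) i))) =
      List.ofFn (fun i : Fin 6 => pL (Ci.rel k : Ci X K) (hF (inner r (Ci.rel k) i))) := rfl
    have hg : pL (Ci.rel k : Ci X K) (hF (Sum.inr Bt.g, true)) = 1 := pL_b _ Bt.g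
    have h3 : ((r k).map fun p => pL (Ci.rel k : Ci X K) (hF (Sum.inl p.1, p.2))).prod = 1 := by
      apply List.prod_eq_one
      intro x hx
      rw [List.mem_map] at hx
      obtain ⟨p, _, rfl⟩ := hx
      exact pL_x _ p
    rw [h2, h1, List.prod_append, hg, List.prod_replicate, one_pow, one_mul, h3]
    simp [pB]

end wds

/-! ### The representation -/

section main

variable {X K Ω : Type} (r : K → List (X × Bool)) (ξ : X → Equiv.Perm Ω)

/-- the module -/
abbrev Md (Ω : Type) : Type := Multiplicative (Ω →₀ ℤ)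

/-- the semidirect product of the module and the free group on the horizontal letters -/
abbrev B0 : Type := Md Ω ⋊[act.comp (kF ξ)] FreeGroup (Ht X)

/-- the semidirect product of the module and the free group `FreeGroup (Ix X)` -/
abbrev Gx : Type := Md Ω ⋊[act.comp (kI ξ)] FreeGroup (Ix X)

theorem conj_inl (b : B0 ξ) (m : Md Ω) :
    b * SemidirectProduct.inl m * b⁻¹ = SemidirectProduct.inl (act (kF ξ b.right) m) := by
  have h1 : b = SemidirectProduct.inl b.left * SemidirectProduct.inr b.right :=
    (SemidirectProduct.inl_left_mul_inr_right b).symm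
  have h2 : (SemidirectProduct.inl (act (kF ξ b.right) m) : B0 ξ) =
      SemidirectProduct.inr b.right * SemidirectProduct.inl m * (SemidirectProduct.inr b.right)⁻¹ := by
    rw [← map_inv]
    exact SemidirectProduct.inl_aut _ _
  have h3 : (SemidirectProduct.inl b.left : B0 ξ) * SemidirectProduct.inl (act (kF ξ b.right) m) *
      (SemidirectProduct.inl b.left)⁻¹ = SemidirectProduct.inl (act (kF ξ b.right) m) := by
    rw [← map_inv, ← map_mul, ← map_mul]
    congr 1
    exact mul_inv_cancel_comm _ _
  rw [← h3, h2]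
  nth_rewrite 1 [h1]
  nth_rewrite 3 [h1]
  group

theorem exists_hom (β : FreeGroup (Ix X) →* B0 ξ)
    (hβ : ∀ j, kF ξ (β (FreeGroup.of j)).right = kI ξ (FreeGroup.of j))
    (hinj : Function.Injective (fun u => (β u).right)) :
    ∃ α : Gx ξ →* B0 ξ, Function.Injective α ∧ (∀ m, α (SemidirectProduct.inl m) =
      SemidirectProduct.inl m) ∧ ∀ u, α (SemidirectProduct.inr u) = β u := by
  have h1 : (kF ξ).comp (SemidirectProduct.rightHom.comp β) = kI ξ := FreeGroup.ext_hom _ _ hβ
  have h2 : ∀ u, kF ξ (β u).right = kI ξ u := fun u => DFunLike.congr_fun h1 u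
  refine ⟨SemidirectProduct.lift SemidirectProduct.inl β ?_, ?_, ?_, ?_⟩
  · intro u
    apply MonoidHom.ext
    intro m
    show (SemidirectProduct.inl (act (kI ξ u) m) : B0 ξ) = β u * SemidirectProduct.inl m * (β u)⁻¹
    rw [conj_inl, h2]
  · rw [injective_iff_map_eq_one]
    intro x hx
    rw [← SemidirectProduct.inl_left_mul_inr_right x, map_mul, SemidirectProduct.lift_inl,
      SemidirectProduct.lift_inr] at hx
    have h3 : (β x.right).right = 1 := by
      have h4 := congrArg SemidirectProduct.right hx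
      simpa using h4
    have h5 : x.right = 1 := by
      apply hinj
      simp only [h3, map_one, SemidirectProduct.one_right]
    rw [h5, map_one, mul_one] at hx
    have h6 : x.left = 1 := by
      apply SemidirectProduct.inl_injective (φ := act.comp (kF ξ))
      rw [hx, map_one]
    rw [← SemidirectProduct.inl_left_mul_inr_right x, h5, h6, map_one, map_one, one_mul]
  · intro m
    exact SemidirectProduct.lift_inl _ _ _ m
  · intro u
    exact SemidirectProduct.lift_inr _ _ _ u

/-- the letters of the subgroups, other than the last one -/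
def hb (p : X × Bool) : FreeGroup (Ht X) :=
  hF (Sum.inl p.1, p.2) * FreeGroup.of (Sum.inr (Bt.b p))

/-- the first embedding -/
noncomputable def aL (l : Ci X K) : FreeGroup (Ix X) →* B0 ξ :=
  SemidirectProduct.inr.comp (FreeGroup.lift (Sum.elim hb (fun _ => TW r l 8)))

/-- the second embedding -/
noncomputable def aR (z : Md Ω) : FreeGroup (Ix X) →* B0 ξ :=
  FreeGroup.lift (Sum.elim (fun p => SemidirectProduct.inr (hb p))
    (fun _ => SemidirectProduct.inr (BW 8) * SemidirectProduct.inl z))

theorem aR_last (z : Md Ω) : (aR ξ z (FreeGroup.of (Sum.inr ()))).right = BW 8 := by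
  simp only [aR, FreeGroup.lift_apply_of, Sum.elim_inr, SemidirectProduct.mul_right,
    SemidirectProduct.right_inr, SemidirectProduct.right_inl, mul_one]

theorem countable_Bt [Finite X] : Countable (Bt X) := by
  have h : Function.Injective (fun β : Bt X => (match β with
      | Bt.b x => Sum.inl x
      | Bt.e => Sum.inr 0
      | Bt.f => Sum.inr 1
      | Bt.g => Sum.inr 2 : (X × Bool) ⊕ Fin 3)) := by
    intro a b h
    cases a <;> cases b <;> simp_all
  exact h.countable

theorem kF_hb (p : X × Bool) : kF ξ (hb p) = if p.2 then ξ p.1 else (ξ p.1)⁻¹ := by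
  rw [hb, map_mul, kF_hF, kF_b, mul_one]

theorem exists_C [Finite X] [Countable Ω] (hlen : ∀ k, (r k).length ≤ 6)
    (hξ : ∀ k, FreeGroup.lift ξ (FreeGroup.mk (r k)) = 1) (l : Ci X K) (z : Md Ω) :
    ∃ C : Equiv.Perm (B0 ξ × ℕ),
      (∀ m : Md Ω, C * lam (SemidirectProduct.inl m : B0 ξ) =
        lam (SemidirectProduct.inl m : B0 ξ) * C) ∧
      (∀ p : X × Bool, C * lam (SemidirectProduct.inr (hb p) : B0 ξ) =
        lam (SemidirectProduct.inr (hb p) : B0 ξ) * C) ∧
      C * lam (SemidirectProduct.inr (TW r l 8) : B0 ξ) =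
        lam (SemidirectProduct.inr (BW 8) : B0 ξ) * C *
          lam (SemidirectProduct.inl z : B0 ξ) := by
  have : Countable (B0 ξ) := by
    have e := (SemidirectProduct.equivProd : B0 ξ ≃ Md Ω × FreeGroup (Ht X))
    have : Countable (Md Ω) := inferInstanceAs (Countable (Ω →₀ ℤ))
    have : Countable (Bt X) := countable_Bt
    have : Countable (Md Ω × FreeGroup (Ht X)) := inferInstance
    exact e.injective.countable
  obtain ⟨α, hα, hαm, hαu⟩ := exists_hom ξ (aL r ξ l) (by
    rintro (p | _)
    · simp only [aL, MonoidHom.comp_apply, FreeGroup.lift_apply_of, Sum.elim_inl,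
        SemidirectProduct.right_inr, kF_hb, kI]
    · simp only [aL, MonoidHom.comp_apply, FreeGroup.lift_apply_of, Sum.elim_inr,
        SemidirectProduct.right_inr, kF_TW8 r ξ hlen hξ, kI]) (by
    apply Function.LeftInverse.injective (g := pL l)
    intro u
    have h : (pL l).comp (FreeGroup.lift (Sum.elim hb (fun _ => TW r l 8))) = MonoidHom.id _ := by
      apply FreeGroup.ext_hom
      rintro (p | _)
      · simp only [MonoidHom.comp_apply, FreeGroup.lift_apply_of, Sum.elim_inl, hb, map_mul, pL_x,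
          pL_b, one_mul, pB, MonoidHom.id_apply]
      · simp only [MonoidHom.comp_apply, FreeGroup.lift_apply_of, Sum.elim_inr, pL_TW8 r hlen,
          MonoidHom.id_apply]
    exact DFunLike.congr_fun h u)
  obtain ⟨α', hα', hαm', hαu'⟩ := exists_hom ξ (aR ξ z) (by
    rintro (p | _)
    · simp only [aR, FreeGroup.lift_apply_of, Sum.elim_inl,
        SemidirectProduct.right_inr, kF_hb, kI]
    · have h0 := aR_last ξ z
      rw [show FreeGroup.of (Sum.inr PUnit.unit) = FreeGroup.of (Sum.inr () : Ix X) from rfl, h0]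
      simp only [BW8, map_mul, map_pow, kF_b, one_pow, mul_one, kI, FreeGroup.lift_apply_of,
        Sum.elim_inr]) (by
    apply Function.LeftInverse.injective
      (g := FreeGroup.lift (Sum.elim (fun _ => 1) (fun β : Bt X => match β with
        | Bt.b x => FreeGroup.of (Sum.inl x)
        | Bt.g => 1
        | Bt.e => 1
        | Bt.f => FreeGroup.of (Sum.inr ()))))
    intro u
    have h : (FreeGroup.lift (Sum.elim (fun _ => 1) (fun β : Bt X => match β with
        | Bt.b x => FreeGroup.of (Sum.inl x)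
        | Bt.g => 1
        | Bt.e => 1
        | Bt.f => FreeGroup.of (Sum.inr ())))).comp
        (SemidirectProduct.rightHom.comp (aR ξ z)) = MonoidHom.id (FreeGroup (Ix X)) := by
      apply FreeGroup.ext_hom
      rintro (⟨x, ε⟩ | _)
      · cases ε <;> simp [aR, hb, hF]
      · have h0 := aR_last ξ z
        rw [MonoidHom.comp_apply, MonoidHom.comp_apply, SemidirectProduct.rightHom_eq_right, h0,
          BW8]
        simp
    exact DFunLike.congr_fun h u)
  obtain ⟨C, hC⟩ := exists_inter α α' hα hα'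
  have h1 : ∀ m : Md Ω, C * lam (SemidirectProduct.inl m : B0 ξ) =
        lam (SemidirectProduct.inl m : B0 ξ) * C := by
    intro m
    have h2 := hC (SemidirectProduct.inl m)
    rwa [hαm, hαm'] at h2
  refine ⟨C, h1, ?_, ?_⟩
  · intro p
    have h2 := hC (SemidirectProduct.inr (FreeGroup.of (Sum.inl p)))
    rw [hαu, hαu'] at h2
    simpa only [aL, aR, MonoidHom.comp_apply, FreeGroup.lift_apply_of, Sum.elim_inl] using h2
  · have h2 := hC (SemidirectProduct.inr (FreeGroup.of (Sum.inr ())))
    rw [hαu, hαu'] at h2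
    simp only [aL, aR, MonoidHom.comp_apply, FreeGroup.lift_apply_of, Sum.elim_inr] at h2
    rw [h2, map_mul, mul_assoc, mul_assoc, h1]

/-- the correction elements -/
noncomputable def zl (m0 : K → (Ω →₀ ℤ)) : Ci X K → Md Ω
  | Ci.cj _ _ => 1
  | Ci.rel k => Multiplicative.ofAdd (m0 k)

variable (C : Ci X K → Equiv.Perm (B0 ξ × ℕ))

/-- the elements of the strips -/
noncomputable def PP (l : Ci X K) (n : ℕ) : Equiv.Perm (B0 ξ × ℕ) :=
  (lam (SemidirectProduct.inr (BW n) : B0 ξ))⁻¹ * C l *
    lam (SemidirectProduct.inr (TW r l n) : B0 ξ)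

/-- the images of the vertical letters -/
noncomputable def tV : Vt X K → Equiv.Perm (B0 ξ × ℕ)
  | Vt.c l => C l
  | Vt.d l x => (lam (SemidirectProduct.inr (hF (Sum.inl x.1, x.2)) : B0 ξ))⁻¹ * C l *
      lam (SemidirectProduct.inr (hF (Sum.inl x.1, x.2)) : B0 ξ)
  | Vt.w l i => PP r ξ C l (i.val + 1)

/-- the permutations given by the vertical letters -/
def kV : Vt X K → Equiv.Perm Ω
  | Vt.c _ => 1
  | Vt.d _ _ => 1
  | Vt.w l i => kF ξ (TW r l (i.val + 1))

/-- the representation -/
noncomputable def TT (m0 : K → (Ω →₀ ℤ)) : FreeGroup (Lt X K) →* Equiv.Perm (B0 ξ × ℕ) :=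
  FreeGroup.lift (Sum.elim (tV r ξ C) (Sum.elim
    (fun h => lam (SemidirectProduct.inr (FreeGroup.of h) : B0 ξ))
    (fun k => lam (SemidirectProduct.inl (Multiplicative.ofAdd (m0 k)) : B0 ξ))))

/-- the action on the module -/
def kk : FreeGroup (Lt X K) →* Equiv.Perm Ω :=
  FreeGroup.lift (Sum.elim (kV r ξ) (Sum.elim (fun h => kF ξ (FreeGroup.of h)) (fun _ => 1)))

theorem TT_lv (m0 : K → (Ω →₀ ℤ)) (v : Vt X K) : TT r ξ C m0 (lv v) = tV r ξ C v := by
  simp only [TT, lv, FreeGroup.lift_apply_of, Sum.elim_inl]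

theorem TT_lh (m0 : K → (Ω →₀ ℤ)) (h : Ht X) : TT r ξ C m0 (lh h) =
    lam (SemidirectProduct.inr (FreeGroup.of h) : B0 ξ) := by
  simp only [TT, lh, FreeGroup.lift_apply_of, Sum.elim_inl, Sum.elim_inr]

theorem TT_lz (m0 : K → (Ω →₀ ℤ)) (k : K) : TT r ξ C m0 (lz k) =
    lam (SemidirectProduct.inl (Multiplicative.ofAdd (m0 k)) : B0 ξ) := by
  simp only [TT, lz, FreeGroup.lift_apply_of, Sum.elim_inr]

theorem TT_hw (m0 : K → (Ω →₀ ℤ)) (h : HD X) : TT r ξ C m0 (hw h) =
    lam (SemidirectProduct.inr (hF h) : B0 ξ) := by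
  unfold hw hF
  split
  · exact TT_lh r ξ C m0 h.1
  · rw [map_inv, map_inv, map_inv, TT_lh]

theorem PP_succ (l : Ci X K) (n : ℕ) : PP r ξ C l n *
    lam (SemidirectProduct.inr (hF (topN r l n)) : B0 ξ) =
      lam (SemidirectProduct.inr (hF (botN n)) : B0 ξ) * PP r ξ C l (n + 1) := by
  unfold PP
  simp only [TW, BW, map_mul]
  group

theorem tV_pos (l : Ci X K) (i : Fin 8) : tV r ξ C (pos l i.castSucc) = PP r ξ C l i.val := by
  have h0 : tV r ξ C (pos l (0 : Fin 8).castSucc) = PP r ξ C l (0 : Fin 8).val := by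
    show C l = (lam (SemidirectProduct.inr 1 : B0 ξ))⁻¹ * C l * lam (SemidirectProduct.inr 1 : B0 ξ)
    simp only [map_one, inv_one, one_mul, mul_one]
  fin_cases i
  · exact h0
  all_goals rfl

theorem tV_pos' (l : Ci X K) (i : Fin 8) (hi : i ≠ 7) :
    tV r ξ C (pos l i.succ) = PP r ξ C l (i.val + 1) := by
  fin_cases i
  all_goals first | rfl | exact absurd rfl hi

end main

end Theta

open Theta in
/-- A representation of the group of the strips which detects a free abelian module. -/
theorem exists_theta {X K Ω : Type} [Finite X] [Finite K] [Countable Ω]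
    (r : K → List (X × Bool)) (hlen : ∀ k, (r k).length ≤ 6)
    (ξ : X → Equiv.Perm Ω) (hξ : ∀ k, FreeGroup.lift ξ (FreeGroup.mk (r k)) = 1)
    (m0 : K → (Ω →₀ ℤ)) :
    ∃ (Γ : Type) (_ : Group Γ) (ι : Multiplicative (Ω →₀ ℤ) →* Γ)
      (Θ : FreeGroup (Lt X K) →* Γ) (κ : FreeGroup (Lt X K) →* Equiv.Perm Ω),
      Function.Injective ι ∧ (∀ ρ, RelT r ρ → Θ ρ = 1) ∧
      (∀ k, Θ (lz k) = ι (Multiplicative.ofAdd (m0 k))) ∧
      (∀ x : X, κ (lh (Sum.inl x)) = ξ x) ∧ (∀ k, κ (lz k) = 1) ∧
      ∀ (u : FreeGroup (Lt X K)) (m : Ω →₀ ℤ),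
        Θ u * ι (Multiplicative.ofAdd m) * (Θ u)⁻¹ =
          ι (Multiplicative.ofAdd (Finsupp.mapDomain (κ u) m)) := by
  choose C hC1 hC2 hC3 using fun l => exists_C r ξ hlen hξ l (zl m0 l)
  let ι : Multiplicative (Ω →₀ ℤ) →* Equiv.Perm (B0 ξ × ℕ) := lam.comp SemidirectProduct.inl
  have hι : ∀ m, ι m = lam (SemidirectProduct.inl m : B0 ξ) := fun _ => rfl
  have hconj : ∀ (b : B0 ξ) (m : Md Ω), lam b * ι m * (lam b)⁻¹ = ι (act (kF ξ b.right) m) := by
    intro b m
    rw [hι, hι, ← map_inv, ← map_mul, ← map_mul, conj_inl]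
  have hCι : ∀ l m, C l * ι m * (C l)⁻¹ = ι m := by
    intro l m
    rw [hι, hC1, mul_inv_cancel_right]
  have hcomm : ∀ m (β : Bt X), ι m * lam (SemidirectProduct.inr (FreeGroup.of (Sum.inr β)) : B0 ξ) =
      lam (SemidirectProduct.inr (FreeGroup.of (Sum.inr β)) : B0 ξ) * ι m := by
    intro m β
    have h := hconj (SemidirectProduct.inr (FreeGroup.of (Sum.inr β))) m
    rw [SemidirectProduct.right_inr, kF_b, map_one, MulAut.one_apply] at h
    rw [mul_inv_eq_iff_eq_mul] at h
    exact h.symm
  have hcorr : ∀ l, TT r ξ C m0 (corr l) = ι (zl m0 l) := by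
    intro l
    cases l with
    | cj x β => simp [corr, zl]
    | rel k => exact TT_lz r ξ C m0 k
  refine ⟨Equiv.Perm (B0 ξ × ℕ), inferInstance, ι, TT r ξ C m0, kk r ξ, ?_, ?_, ?_, ?_, ?_, ?_⟩
  · exact lam_injective.comp SemidirectProduct.inl_injective
  · intro ρ hρ
    cases hρ with
    | p1 l x =>
      rw [map_mul, map_inv, mul_inv_eq_one, map_mul, map_mul, TT_lv, TT_lv, TT_hw]
      simp only [tV]
      group
    | p2 l x =>
      rw [map_mul, map_inv, mul_inv_eq_one, map_mul, map_mul, TT_lv, TT_lv, TT_lh]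
      have h := hC2 l x
      simp only [hb, map_mul] at h
      simp only [tV]
      rw [mul_assoc, mul_assoc, ← map_mul]
      have h2 : C l * (lam (SemidirectProduct.inr (hF (Sum.inl x.1, x.2)) : B0 ξ) *
          lam (SemidirectProduct.inr (FreeGroup.of (Sum.inr (Bt.b x))) : B0 ξ)) =
          (lam (SemidirectProduct.inr (hF (Sum.inl x.1, x.2)) : B0 ξ) *
          lam (SemidirectProduct.inr (FreeGroup.of (Sum.inr (Bt.b x))) : B0 ξ)) * C l := h
      rw [map_mul, h2]
      group
    | s l i =>
      rw [map_mul, map_inv, mul_inv_eq_one, map_mul, map_mul, map_mul, TT_lv, TT_lv, TT_hw, TT_hw,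
        tV_pos]
      have ht : topN r l i.val = top r l i := by
        unfold topN
        rw [dif_pos i.isLt]
      have hb' : botN i.val = (bot i : HD X) := by
        unfold botN bot
        by_cases h : i = 7
        · rw [if_pos h, if_pos (by rw [h]; rfl)]
        · have h2 : ¬ (i.val = 7) := fun h1 => h (Fin.ext h1)
          rw [if_neg h2, if_neg h]
      rw [← ht, ← hb']
      by_cases h : i = 7
      · subst h
        rw [if_pos rfl, hcorr]
        have h3 := hC3 l
        have h4 : TW r l 8 = TW r l 7 * hF (topN r l 7) := rfl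
        have h5 : (BW 8 : FreeGroup (Ht X)) = BW 7 * hF (botN 7) := rfl
        rw [h4, h5, map_mul, map_mul, map_mul, map_mul] at h3
        have h6 : tV r ξ C (pos l (7 : Fin 8).succ) = C l := rfl
        rw [h6]
        show (lam (SemidirectProduct.inr (BW 7) : B0 ξ))⁻¹ * C l *
          lam (SemidirectProduct.inr (TW r l 7) : B0 ξ) *
          lam (SemidirectProduct.inr (hF (topN r l 7)) : B0 ξ) = _
        have h7 : C l * lam (SemidirectProduct.inr (TW r l 7) : B0 ξ) *
          lam (SemidirectProduct.inr (hF (topN r l 7)) : B0 ξ) =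
          lam (SemidirectProduct.inr (BW 7) : B0 ξ) *
            lam (SemidirectProduct.inr (hF (botN 7)) : B0 ξ) * C l * ι (zl m0 l) := by
          rw [mul_assoc]
          exact h3
        rw [mul_assoc, mul_assoc, ← mul_assoc (C l), h7]
        simp only [mul_assoc, inv_mul_cancel_left]
        rfl
      · rw [if_neg h, map_one, mul_one, tV_pos' r ξ C l i h]
        exact PP_succ r ξ C l i.val
    | zb k β =>
      rw [map_mul, map_inv, mul_inv_eq_one, map_mul, map_mul, TT_lz, TT_lh]
      exact hcomm _ β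
    | zc k l =>
      rw [map_mul, map_inv, mul_inv_eq_one, map_mul, map_mul, TT_lz, TT_lv]
      exact (hC1 l _).symm
  · exact fun k => TT_lz r ξ C m0 k
  · intro x
    simp [kk, lh, kF]
  · intro k
    simp [kk, lz]
  · intro u m
    have key := conj_ext ι (TT r ξ C m0) (kk r ξ) (by
      rintro (v | h | k) m
      · have h1 : TT r ξ C m0 (FreeGroup.of (Sum.inl v)) = tV r ξ C v := TT_lv r ξ C m0 v
        have h2 : kk r ξ (FreeGroup.of (Sum.inl v)) = kV r ξ v := by simp [kk]
        rw [h1, h2]
        have hBW : ∀ n, kF ξ (BW n : FreeGroup (Ht X)) = 1 := by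
          intro n
          induction n with
          | zero => exact map_one _
          | succ n ih =>
            show kF ξ (BW n * hF (botN n)) = 1
            rw [map_mul, ih, one_mul]
            unfold botN
            split
            · exact kF_b ξ Bt.f
            · exact kF_b ξ Bt.e
        have hpp : ∀ (l : Ci X K) (a b : FreeGroup (Ht X)) (m : Md Ω),
            ((lam (SemidirectProduct.inr a : B0 ξ))⁻¹ * C l * lam (SemidirectProduct.inr b : B0 ξ)) *
              ι m * ((lam (SemidirectProduct.inr a : B0 ξ))⁻¹ * C l *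
                lam (SemidirectProduct.inr b : B0 ξ))⁻¹ =
            ι (act ((kF ξ a)⁻¹ * kF ξ b) m) := by
          intro l a b m
          have e1 := hconj (SemidirectProduct.inr b) m
          have e2 := hCι l (act (kF ξ b) m)
          have e3 := hconj (SemidirectProduct.inr a)⁻¹ (act (kF ξ b) m)
          rw [SemidirectProduct.right_inr] at e1
          rw [SemidirectProduct.inv_right, SemidirectProduct.right_inr, map_inv, map_inv,
            inv_inv] at e3
          rw [map_mul, MulAut.mul_apply, ← e3]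
          nth_rewrite 1 [← e2]
          rw [← e1]
          group
        cases v with
        | c l =>
          show C l * ι m * (C l)⁻¹ = ι (act 1 m)
          rw [hCι, map_one, MulAut.one_apply]
        | d l x =>
          show _ = ι (act 1 m)
          refine (hpp l _ _ m).trans ?_
          rw [inv_mul_cancel]
        | w l i =>
          refine (hpp l _ _ m).trans ?_
          rw [hBW, inv_one, one_mul]
          rfl
      · have h1 : TT r ξ C m0 (FreeGroup.of (Sum.inr (Sum.inl h))) =
          lam (SemidirectProduct.inr (FreeGroup.of h) : B0 ξ) := TT_lh r ξ C m0 h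
        have h2 : kk r ξ (FreeGroup.of (Sum.inr (Sum.inl h)) : FreeGroup (Lt X K)) =
            kF ξ (FreeGroup.of h) := by simp [kk]
        rw [h1, h2]
        exact hconj _ m
      · have h1 : TT r ξ C m0 (FreeGroup.of (Sum.inr (Sum.inr k))) =
          lam (SemidirectProduct.inl (Multiplicative.ofAdd (m0 k)) : B0 ξ) := TT_lz r ξ C m0 k
        have h2 : kk r ξ (FreeGroup.of (Sum.inr (Sum.inr k)) : FreeGroup (Lt X K)) = 1 := by
          simp [kk]
        rw [h1, h2]
        have h3 := hconj (SemidirectProduct.inl (Multiplicative.ofAdd (m0 k))) m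
        rw [SemidirectProduct.right_inl, map_one] at h3
        exact h3)
    exact key u (Multiplicative.ofAdd m)

end Pool.Agent.TH95
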