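import Pool.Agent.TH95.SD.QW3
import Pool.Agent.TH95.SD.Theta

/-!
The lower bound for the number of relators.
-/

set_option autoImplicit false

set_option linter.unusedSectionVars false

noncomputable section

namespace Pool.Agent.TH95

/-- `w` is a product of at most `N` conjugates of relators and inverses of relators -/
def IsPr {α : Type} (R : Set (FreeGroup α)) (N : ℕ) (w : FreeGroup α) : Prop :=
  ∃ l : List (FreeGroup α × FreeGroup α), l.length ≤ N ∧
    (∀ p ∈ l, p.2 ∈ R ∨ p.2⁻¹ ∈ R) ∧
    w = (l.map (fun p : FreeGroup α × FreeGroup α => p.1 * p.2 * p.1⁻¹)).prod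

theorem chn_of_eq {X K Q : Type} [Group Q] (g : X → Q) (p : FreeGroup X × K) {k : K}
    (h : p.2 = k) : chn g (FreeGroup.of p) k = el (FreeGroup.lift g p.1) := by
  classical
  subst h
  rw [chn_of, Pi.single_eq_same]

theorem chn_of_neq {X K Q : Type} [Group Q] (g : X → Q) (p : FreeGroup X × K) {k : K}
    (h : p.2 ≠ k) : chn g (FreeGroup.of p) k = 0 := by
  classical
  rw [chn_of, Pi.single_eq_of_ne (Ne.symm h)]

/-- the special relator -/
def k0 : Kx := ⟨Lx.y, (none : Option L1)⟩

/-- the base vector -/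
def m0 (k : Kx) : Om →₀ ℤ := if k = k0 then Finsupp.single (1, 1) 1 else 0

/-- the weights -/
def fO (p : Om) : ℤ := exZ p.2

/-- the functional -/
def Fn : (Om →₀ ℤ) →+ ℤ := Finsupp.liftAddHom (fun p => AddMonoidHom.mulRight (fO p))

theorem Fn_single (p : Om) (n : ℤ) : Fn (Finsupp.single p n) = n * fO p := by
  simp [Fn]

/-- the functional on the group ring -/
def La (A : Qx →* Equiv.Perm Om) : ZR Qx →+ ℤ :=
  (Finsupp.liftAddHom (fun q : Qx => AddMonoidHom.mulRight (fO (A q (1, 1))))).comp
    MonoidAlgebra.coeffAddEquiv.toAddMonoidHom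

theorem La_el (A : Qx →* Equiv.Perm Om) (q : Qx) : La A (el q) = fO (A q (1, 1)) := by
  unfold La el
  show Finsupp.liftAddHom (fun q : Qx => AddMonoidHom.mulRight (fO (A q (1, 1))))
    (MonoidAlgebra.single q 1).coeff = _
  rw [MonoidAlgebra.coeff_single, Finsupp.liftAddHom_apply_single]
  simp

/-- the push-forward of a formal product -/
def push : Seq Lx Kx →* Multiplicative (Om →₀ ℤ) :=
  FreeGroup.lift (fun p => Multiplicative.ofAdd
    (Finsupp.mapDomain (FreeGroup.lift xi p.1) (m0 p.2)))

theorem Fn_push (A : Qx →* Equiv.Perm Om)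
    (hA : ∀ w, A (FreeGroup.lift gx w) = FreeGroup.lift xi w) (u : Seq Lx Kx) :
    Fn (Multiplicative.toAdd (push u)) = La A (chn gx u k0) := by
  classical
  induction u using FreeGroup.induction_on with
  | C1 => simp
  | of p =>
    by_cases hk : p.2 = k0
    · rw [chn_of_eq gx p hk, La_el, hA]
      simp only [push, FreeGroup.lift_apply_of, toAdd_ofAdd, hk, m0, ↓reduceIte,
        Finsupp.mapDomain_single, Fn_single, one_mul]
    · rw [chn_of_neq gx p hk, map_zero]
      simp [push, m0, hk]
  | inv_of p ih => rw [map_inv, toAdd_inv, map_neg, ih, chn_inv, Pi.neg_apply, map_neg]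
  | mul x y hx hy => rw [map_mul, toAdd_mul, map_add, hx, hy, chn_mul, Pi.add_apply, map_add]

/-- the actions commute with right translations -/
theorem xi_comm (w : FreeGroup Lx) (h : F2) (p : Om) :
    FreeGroup.lift xi w (p.1, p.2 * h) =
      ((FreeGroup.lift xi w p).1, (FreeGroup.lift xi w p).2 * h) := by
  have key : ∀ e : Equiv.Perm Om, e ∈ Subgroup.closure (Set.range xi) →
      ∀ p : Om, e (p.1, p.2 * h) = ((e p).1, (e p).2 * h) := by
    intro e he
    induction he using Subgroup.closure_induction with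
    | mem x hx =>
      obtain ⟨z, rfl⟩ := hx
      intro p
      cases z with
      | a j => simp [xi, actA_apply, mul_assoc]
      | t i => simp [xi, actT_apply]
      | s => simp [xi, actS_apply]
      | u i => simp [xi]
      | p => simp [xi]
      | v => simp [xi]
      | y => simp [xi]
    | one => intro p; rfl
    | mul a b _ _ ha hb =>
      intro p
      show a (b (p.1, p.2 * h)) = _
      rw [hb, ha]
      rfl
    | inv a _ ha =>
      intro p
      apply a.injective
      have h1 := ha (a⁻¹ p)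
      show a (a⁻¹ _) = _
      rw [h1]
      simp
  apply key
  induction w using FreeGroup.induction_on with
  | C1 => rw [map_one]; exact Subgroup.one_mem _
  | of a => rw [FreeGroup.lift_apply_of]; exact Subgroup.subset_closure ⟨a, rfl⟩
  | inv_of a ih => rw [map_inv]; exact Subgroup.inv_mem _ ih
  | mul a b ha hb => rw [map_mul]; exact Subgroup.mul_mem _ ha hb

section bound

variable (A : Qx →* Equiv.Perm Om) (hA : ∀ w, A (FreeGroup.lift gx w) = FreeGroup.lift xi w)

include hA

theorem A_comm (q : Qx) (h : F2) (p : Om) :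
    A q (p.1, p.2 * h) = ((A q p).1, (A q p).2 * h) := by
  obtain ⟨w, rfl⟩ := gx_sur q
  rw [hA]
  exact xi_comm w h p

theorem La_a (q : Qx) (j : Fin 2) :
    La A (el q * (1 - el (gx (.a j)))) = -1 := by
  rw [mul_sub, mul_one, ← el_mul, map_sub, La_el, La_el, map_mul]
  have h1 : A (gx (.a j)) = actA (FreeGroup.of j) := by
    have := hA (FreeGroup.of (.a j))
    rw [FreeGroup.lift_apply_of, FreeGroup.lift_apply_of] at this
    exact this
  have h2 : A (gx (.a j)) ((1, 1) : Om) = ((1, 1 * FreeGroup.of j) : Om) := by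
    rw [h1, actA_apply]
    simp
  show fO (A q (1, 1)) - fO (A q (A (gx (.a j)) (1, 1))) = -1
  rw [h2]
  have h3 := A_comm A hA q (FreeGroup.of j) (1, 1)
  rw [h3]
  simp [fO, exZ_mul]

theorem La_s (q : Qx) :
    La A (el q * (1 - el (gx .s * gx .v))) = 0 := by
  rw [mul_sub, mul_one, ← el_mul, map_sub, La_el, La_el, map_mul, map_mul]
  have h1 : A (gx .s) = actS := by
    have := hA (FreeGroup.of .s)
    rw [FreeGroup.lift_apply_of, FreeGroup.lift_apply_of] at this
    exact this
  have h2 : A (gx .v) = 1 := by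
    have := hA (FreeGroup.of .v)
    rw [FreeGroup.lift_apply_of, FreeGroup.lift_apply_of] at this
    exact this
  have h3 : (A (gx .s) * A (gx .v)) ((1, 1) : Om) = ((1, 1) : Om) := by
    rw [h1, h2, mul_one, actS_apply]
    simp
  show fO (A q (1, 1)) - fO (A q ((A (gx .s) * A (gx .v)) (1, 1))) = 0
  rw [h3, sub_self]

/-- the values on the identity sequences -/
theorem La_U (w : FreeGroup (Option L1)) (hw : w ∈ Wy) (q : Qx) :
    |La A (el q * fox (fun o => FreeGroup.lift gx (hy o)) w none)| ≤ 1 := by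
  have hcm : ∀ x : L1, cm (FreeGroup.of none) (FreeGroup.of (some x)) ∈ Wy →
      fox (fun o => FreeGroup.lift gx (hy o))
        (cm (FreeGroup.of none) (FreeGroup.of (some x))) none =
        1 - el (FreeGroup.lift gx (hy (some x))) := by
    intro x hx
    have h1 := kg_Wy _ hx
    unfold cm at h1 ⊢
    have h2 : fox (fun o => FreeGroup.lift gx (hy o)) (FreeGroup.of (some x)) none = 0 :=
      fox_of_ne _ (by simp)
    rw [fox_mul, fox_mul, fox_mul, fox_inv, fox_inv]
    simp only [Pi.add_apply, Pi.smul_apply, Pi.neg_apply, h2, smul_zero, neg_zero, add_zero,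
      fox_of_self]
    rw [map_mul, map_mul, map_mul, map_inv, map_inv, mul_inv_eq_one] at h1
    simp only [FreeGroup.lift_apply_of] at h1 ⊢
    simp only [smul_eq_mul, mul_one, mul_neg, map_mul, FreeGroup.lift_apply_of]
    rw [← el_mul, h1, sub_eq_add_neg]
  rcases hw with ⟨q', rfl⟩ | ⟨j, rfl⟩ | rfl
  · have h0 : fox (fun o => FreeGroup.lift gx (hy o))
        (R1 (fun x => FreeGroup.of (some x)) q') none = 0 := by
      apply fox_eq_zero _ {o | o ≠ none} none (by simp)
      have hm : ∀ x : L1, (FreeGroup.of (some x) : FreeGroup (Option L1)) ∈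
          Subgroup.closure (FreeGroup.of '' {o : Option L1 | o ≠ none}) :=
        fun x => Subgroup.subset_closure ⟨some x, by simp, rfl⟩
      cases q' with
      | t i j =>
        refine Subgroup.mul_mem _ (Subgroup.mul_mem _ (Subgroup.mul_mem _ (hm _) (hm _))
          (Subgroup.inv_mem _ (hm _))) (Subgroup.inv_mem _ ?_)
        unfold fb
        split_ifs
        · simpa using Subgroup.mul_mem _ (hm _) (hm _)
        · simpa using hm _
      | s i =>
        refine Subgroup.mul_mem _ (Subgroup.mul_mem _ (Subgroup.mul_mem _ (hm _) (hm _))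
          (Subgroup.inv_mem _ (hm _))) (Subgroup.inv_mem _ ?_)
        unfold fb
        split_ifs
        · simpa using Subgroup.mul_mem _ (hm _) (hm _)
        · simpa using hm _
    rw [h0, mul_zero, map_zero]
    simp
  · rw [hcm _ (Or.inr (Or.inl ⟨j, rfl⟩))]
    have e : FreeGroup.lift gx (hy (some (L1.a j))) = gx (.a j) := by
      rw [hy_apply, lift_pw]
      simp [yl]
    rw [e, La_a A hA]
    simp
  · rw [hcm _ (Or.inr (Or.inr rfl))]
    have e : FreeGroup.lift gx (hy (some L1.s)) = gx .s * gx .v := by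
      rw [hy_apply, lift_pw]
      simp [yl]
    rw [e, La_s A hA]
    simp

end bound

/-! ### The fundamental estimate -/

theorem xi_rl (k : Kx) : FreeGroup.lift xi (FreeGroup.mk (rl k)) = 1 := by
  have e : (FreeGroup.mk (rl k) : FreeGroup Lx) = trel hx kx k := by
    rw [← rW_rl]
    rfl
  rw [e]
  unfold trel
  rw [map_mul, map_mul, map_mul, map_inv, map_inv, FreeGroup.lift_apply_of, xi_rel,
    mul_inv_cancel]

/-- the estimate: a lower bound for the number of relators -/
theorem lower (𝒰 : Set (Seq Lx Kx)) (A : Qx →* Equiv.Perm Om)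
    (hA : ∀ w, A (FreeGroup.lift gx w) = FreeGroup.lift xi w)
    (hb : ∀ u ∈ 𝒰, ∀ q : Qx, |La A (el q * chn gx u k0)| ≤ 1)
    (u : Seq Lx Kx) (N : ℕ) (hN : IsPr (allRel rl 𝒰) N (zhat u)) :
    |La A (chn gx u k0)| ≤ N := by
  classical
  have : Countable Om := inferInstance
  obtain ⟨Γ, _, ι, Θ, κ, hι, hrel, hz, hκx, _, hconj⟩ :=
    exists_theta rl rl_len xi xi_rl m0
  -- the values on formal products
  have hκ : ∀ w : FreeGroup Lx, κ (hat w) = FreeGroup.lift xi w := by
    intro w
    have : κ.comp hat = FreeGroup.lift xi := by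
      ext1 x
      simp only [hat, MonoidHom.comp_apply, FreeGroup.map.of, FreeGroup.lift_apply_of]
      exact hκx x
    exact DFunLike.congr_fun this w
  have hval : ∀ v : Seq Lx Kx, Θ (zhat v) = ι (push v) := by
    intro v
    have : Θ.comp zhat = ι.comp push := by
      ext1 p
      simp only [MonoidHom.comp_apply, zhat, zP_of, map_mul, map_inv, hz, hconj, hκ, push,
        FreeGroup.lift_apply_of]
    exact DFunLike.congr_fun this v
  -- `Θ` only depends on the class modulo the relators of the strips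
  have hU0 : ∀ u ∈ (∅ : Set (Seq Lx Kx)), rho (rW rl) u = 1 := fun _ h => absurd h (Set.notMem_empty _)
  have hΘ : ∀ w w' : FreeGroup (Lt Lx Kx), mkP rl ∅ w = mkP rl ∅ w' → Θ w = Θ w' := by
    intro w w' h
    have h1 : w * w'⁻¹ ∈ Subgroup.normalClosure (allRel rl (∅ : Set (Seq Lx Kx))) := by
      apply PresentedGroup.mk_eq_one_iff.mp
      show mkP rl ∅ (w * w'⁻¹) = 1
      rw [map_mul, map_inv, h, mul_inv_cancel]
    have h2 : Θ (w * w'⁻¹) = 1 := by
      apply nc_one Θ _ _ _ h1
      rintro s (hs | ⟨u, hu, _⟩)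
      · exact hrel s hs
      · exact absurd hu (Set.notMem_empty _)
    rw [map_mul, map_inv, mul_inv_eq_one] at h2
    exact h2
  have hcj : ∀ (g : FreeGroup (Lt Lx Kx)) (v : Seq Lx Kx),
      Θ (g * zhat v * g⁻¹) = ι (push (cj (pF rl g) v)) := by
    intro g v
    rw [← hval]
    apply hΘ
    have h1 := zP_conj (r := rl) (∅ : Set (Seq Lx Kx)) rl_len hU0 (mkP rl ∅ g) v
    rw [phiP_mk] at h1
    have h2 : ∀ v : Seq Lx Kx, mkP rl ∅ (zhat v) =
        zP (hatP rl ∅) (fun k => mkP rl ∅ (lz k)) v := by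
      intro v
      unfold zhat
      rw [zP_map]
      rfl
    rw [map_mul, map_mul, map_inv, h2, h2]
    exact h1
  -- the values on conjugates of relators
  have hone : ∀ (g R : FreeGroup (Lt Lx Kx)), R ∈ allRel rl 𝒰 ∨ R⁻¹ ∈ allRel rl 𝒰 →
      ∃ m : Multiplicative (Om →₀ ℤ), Θ (g * R * g⁻¹) = ι m ∧
        |Fn (Multiplicative.toAdd m)| ≤ 1 := by
    have hpos : ∀ (g R : FreeGroup (Lt Lx Kx)), R ∈ allRel rl 𝒰 →
        ∃ m : Multiplicative (Om →₀ ℤ), Θ (g * R * g⁻¹) = ι m ∧
          |Fn (Multiplicative.toAdd m)| ≤ 1 := by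
      rintro g R (hR | ⟨v, hv, rfl⟩)
      · refine ⟨1, ?_, by simp⟩
        rw [map_mul, map_mul, hrel R hR, mul_one, ← map_mul, mul_inv_cancel, map_one, map_one]
      · refine ⟨push (cj (pF rl g) v), hcj g v, ?_⟩
        rw [Fn_push A hA, chn_cj, Pi.smul_apply, smul_eq_mul]
        exact hb v hv _
    rintro g R (hR | hR)
    · exact hpos g R hR
    · obtain ⟨m, h1, h2⟩ := hpos g _ hR
      refine ⟨m⁻¹, ?_, ?_⟩
      · rw [map_inv, ← h1, ← map_inv]
        congr 1
        group
      · rw [toAdd_inv, map_neg, abs_neg]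
        exact h2
  -- products
  have hprod : ∀ l : List (FreeGroup (Lt Lx Kx) × FreeGroup (Lt Lx Kx)),
      (∀ p ∈ l, p.2 ∈ allRel rl 𝒰 ∨ p.2⁻¹ ∈ allRel rl 𝒰) →
      ∃ m : Multiplicative (Om →₀ ℤ), Θ ((l.map (fun p => p.1 * p.2 * p.1⁻¹)).prod) = ι m ∧
        |Fn (Multiplicative.toAdd m)| ≤ l.length := by
    intro l
    induction l with
    | nil => intro _; exact ⟨1, by simp, by simp⟩
    | cons a l ih =>
      intro hl
      obtain ⟨m1, h1, h2⟩ := hone a.1 a.2 (hl a (by simp))
      obtain ⟨m2, h3, h4⟩ := ih (fun p hp => hl p (by simp [hp]))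
      refine ⟨m1 * m2, ?_, ?_⟩
      · rw [List.map_cons, List.prod_cons, map_mul, h1, h3, map_mul]
      · rw [toAdd_mul, map_add, List.length_cons]
        push_cast
        calc _ ≤ |Fn (Multiplicative.toAdd m1)| + |Fn (Multiplicative.toAdd m2)| := abs_add_le _ _
          _ ≤ 1 + (l.length : ℤ) := add_le_add h2 h4
          _ = _ := by ring
  obtain ⟨l, h1, h2, h3⟩ := hN
  obtain ⟨m, h4, h5⟩ := hprod l h2
  rw [← h3, hval] at h4
  rw [← Fn_push A hA, hι h4]
  exact h5.trans (by exact_mod_cast h1)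

/-! ### The value on the test words -/

theorem fib_of (n : ℕ) : exZ ((fbE ^ n) (FreeGroup.of 0)) = Nat.fib (n + 2) ∧
    exZ ((fbE ^ n) (FreeGroup.of 1)) = Nat.fib (n + 1) := by
  induction n with
  | zero => simp
  | succ n ih =>
    have e0 : fbE (FreeGroup.of 0) = FreeGroup.of 0 * FreeGroup.of 1 := by
      rw [fbE_of]
      simp [fb, pw_cons, pw_nil]
    have e1 : fbE (FreeGroup.of 1) = FreeGroup.of 0 := by
      rw [fbE_of]
      simp [fb, pw_cons, pw_nil]
    constructor
    · rw [pow_succ, MulAut.mul_apply, e0, map_mul, exZ_mul, ih.1, ih.2]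
      have := Nat.fib_add_two (n := n + 1)
      push_cast [this]
      ring
    · rw [pow_succ, MulAut.mul_apply, e1, ih.1]

end Pool.Agent.TH95
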