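import Pool.Agent.TH95.SD.RipsVH
import Pool.Agent.TH95.SD.Cen

/-!
The presentation of the fibre product.
-/

set_option autoImplicit false

set_option linter.unusedSectionVars false

noncomputable section

namespace Pool.Agent.TH95

variable {X K : Type} (r : K → List (X × Bool))

/-- the relators as elements of the free group -/
def rW (k : K) : FreeGroup X := FreeGroup.mk (r k)

/-- the inclusion of the letters `X` -/
def hat : FreeGroup X →* FreeGroup (Lt X K) := FreeGroup.map (fun x => Sum.inr (Sum.inl (Sum.inl x)))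

/-- values of formal products in the free group -/
def zhat : Seq X K →* FreeGroup (Lt X K) := zP hat lz

/-- the value of a dart in the free group on `X` -/
def hX : HD X → FreeGroup X
  | (Sum.inl x, s) => if s then FreeGroup.of x else (FreeGroup.of x)⁻¹
  | (Sum.inr _, _) => 1

/-- products of initial segments of the tops -/
def preN (l : Ci X K) : ℕ → FreeGroup X
  | 0 => 1
  | n + 1 => preN l n * (if h : n < 8 then hX (top r l ⟨n, h⟩) else 1)

/-- the second projection -/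
def pF : FreeGroup (Lt X K) →* FreeGroup X := FreeGroup.lift (fun a => match a with
  | Sum.inl (Vt.c _) => 1
  | Sum.inl (Vt.d _ _) => 1
  | Sum.inl (Vt.w l i) => preN r l (i.val + 1)
  | Sum.inr (Sum.inl (Sum.inl x)) => FreeGroup.of x
  | Sum.inr (Sum.inl (Sum.inr _)) => 1
  | Sum.inr (Sum.inr k) => rW r k)

@[simp] theorem pF_c (l : Ci X K) : pF r (lv (Vt.c l)) = 1 := by simp [pF, lv]
@[simp] theorem pF_d (l : Ci X K) (x : X × Bool) : pF r (lv (Vt.d l x)) = 1 := by simp [pF, lv]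
@[simp] theorem pF_w (l : Ci X K) (i : Fin 7) : pF r (lv (Vt.w l i)) = preN r l (i.val + 1) := by
  simp [pF, lv]
@[simp] theorem pF_x (x : X) : pF r (lh (Sum.inl x)) = FreeGroup.of x := by simp [pF, lh]
@[simp] theorem pF_b (β : Bt X) : pF r (lh (Sum.inr β)) = 1 := by simp [pF, lh]
@[simp] theorem pF_z (k : K) : pF r (lz k) = rW r k := by simp [pF, lz]

@[simp] theorem pF_hw (h : HD X) : pF r (hw h) = hX h := by
  obtain ⟨x | β, s⟩ := h <;> cases s <;> simp [hw, hX]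

@[simp] theorem hX_hinv (h : HD X) : hX (hinv h) = (hX h)⁻¹ := by
  obtain ⟨x | β, s⟩ := h <;> cases s <;> simp [hinv, hX]

@[simp] theorem hX_bot (i : Fin 8) : hX (bot (X := X) i) = 1 := by
  unfold bot
  split_ifs <;> rfl

theorem preN_succ (l : Ci X K) (i : Fin 8) :
    preN r l (i.val + 1) = preN r l i.val * hX (top r l i) := by
  simp [preN]

/-- the inner words of relators in terms of the word -/
def innerL (L : List (X × Bool)) (i : Fin 6) : HD X :=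
  if i.val + L.length < 6 then (Sum.inr Bt.g, true)
  else (L.map (fun p => ((Sum.inl p.1, p.2) : HD X))).getD (i.val + L.length - 6)
        (Sum.inr Bt.g, true)

theorem mk_cons' (a : X × Bool) (L : List (X × Bool)) : FreeGroup.mk (a :: L) =
    hX (Sum.inl a.1, a.2) * FreeGroup.mk L := by
  obtain ⟨a, s⟩ := a
  have : (FreeGroup.mk ((a, s) :: L) : FreeGroup X) = FreeGroup.mk [(a, s)] * FreeGroup.mk L := by
    rw [FreeGroup.mul_mk]
    rfl
  rw [this]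
  congr 1
  cases s
  · simp [hX, FreeGroup.of, FreeGroup.invRev]
  · simp [hX, FreeGroup.of]

theorem prod_innerL (L : List (X × Bool)) (h : L.length ≤ 6) :
    hX (innerL L 0) * hX (innerL L 1) * hX (innerL L 2) *
      hX (innerL L 3) * hX (innerL L 4) * hX (innerL L 5) = FreeGroup.mk L := by
  have e0 : (FreeGroup.mk [] : FreeGroup X) = 1 := FreeGroup.one_eq_mk.symm
  have eg : hX (X := X) (Sum.inr Bt.g, true) = 1 := rfl
  match L, h with
  | [], _ => simp [innerL, e0, eg]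
  | [a], _ => simp [innerL, mk_cons', e0, eg]
  | [a, b], _ => simp [innerL, mk_cons', e0, eg]
  | [a, b, c], _ => simp [innerL, mk_cons', e0, eg, mul_assoc]
  | [a, b, c, d], _ => simp [innerL, mk_cons', e0, eg, mul_assoc]
  | [a, b, c, d, e], _ => simp [innerL, mk_cons', e0, eg, mul_assoc]
  | [a, b, c, d, e, f], _ => simp [innerL, mk_cons', e0, mul_assoc]
  | _ :: _ :: _ :: _ :: _ :: _ :: _ :: _, h => exfalso; simp at h; omega

theorem prod_inner (hlen : ∀ k, (r k).length ≤ 6) (k : K) :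
    hX (inner r (Ci.rel k) 0) * hX (inner r (Ci.rel k) 1) * hX (inner r (Ci.rel k) 2) *
      hX (inner r (Ci.rel k) 3) * hX (inner r (Ci.rel k) 4) * hX (inner r (Ci.rel k) 5) =
      rW r k := prod_innerL (r k) (hlen k)

theorem preN_eight (hlen : ∀ k, (r k).length ≤ 6) (l : Ci X K) :
    preN r l 8 = pF r (corr l) := by
  have e1 : preN r l 8 = 1 * hX (top r l 0) * hX (top r l 1) * hX (top r l 2) * hX (top r l 3) *
      hX (top r l 4) * hX (top r l 5) * hX (top r l 6) * hX (top r l 7) := rfl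
  have e2 : top r l 0 = (Sum.inr Bt.e, true) := rfl
  have e3 : top r l 1 = inner r l 0 := rfl
  have e4 : top r l 2 = inner r l 1 := rfl
  have e5 : top r l 3 = inner r l 2 := rfl
  have e6 : top r l 4 = inner r l 3 := rfl
  have e7 : top r l 5 = inner r l 4 := rfl
  have e8 : top r l 6 = inner r l 5 := rfl
  have e9 : top r l 7 = (Sum.inr Bt.f, true) := rfl
  have f1 : hX (X := X) (Sum.inr Bt.e, true) = 1 := rfl
  have f2 : hX (X := X) (Sum.inr Bt.f, true) = 1 := rfl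
  have f3 : hX (X := X) (Sum.inr Bt.g, true) = 1 := rfl
  rw [e1, e2, e3, e4, e5, e6, e7, e8, e9, f1, f2, one_mul, one_mul, mul_one]
  cases l with
  | cj x β =>
    have g1 : inner r (Ci.cj x β) 0 = (Sum.inr Bt.g, true) := rfl
    have g2 : inner r (Ci.cj x β) 1 = (Sum.inr Bt.g, true) := rfl
    have g3 : inner r (Ci.cj x β) 2 = (Sum.inr Bt.g, true) := rfl
    have g4 : inner r (Ci.cj x β) 3 = (Sum.inl x.1, x.2) := rfl
    have g5 : inner r (Ci.cj x β) 4 = (Sum.inr β, true) := rfl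
    have g6 : inner r (Ci.cj x β) 5 = hinv (Sum.inl x.1, x.2) := rfl
    have g7 : hX (X := X) (Sum.inr β, true) = 1 := rfl
    rw [g1, g2, g3, g4, g5, g6, hX_hinv, f3, g7]
    simp [corr]
  | rel k =>
    rw [prod_inner r hlen k]
    simp [corr]

theorem pF_pos (l : Ci X K) (i : Fin 8) :
    pF r (lv (pos l i.castSucc)) = preN r l i.val := by
  fin_cases i
  · exact pF_c r l
  · exact pF_w r l 0
  · exact pF_w r l 1
  · exact pF_w r l 2
  · exact pF_w r l 3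
  · exact pF_w r l 4
  · exact pF_w r l 5
  · exact pF_w r l 6

/-- the second projection kills the relators -/
theorem pF_rel (hlen : ∀ k, (r k).length ≤ 6) (ρ : FreeGroup (Lt X K)) (h : RelT r ρ) :
    pF r ρ = 1 := by
  cases h with
  | p1 l x => simp
  | p2 l x => simp
  | s l i =>
    by_cases hi : i = 7
    · subst hi
      have e1 : pF r (lv (pos l (Fin.succ 7))) = 1 := pF_c r l
      rw [if_pos rfl]
      simp only [map_mul, map_inv, pF_pos, pF_hw, hX_bot, e1]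
      rw [← preN_succ, ← preN_eight r hlen]
      simp
    · obtain ⟨j, rfl⟩ : ∃ j : Fin 7, i = j.castSucc := by
        refine ⟨⟨i.val, ?_⟩, Fin.ext (by simp)⟩
        have h1 := i.2
        have h2 : i.val ≠ 7 := fun h => hi (Fin.ext h)
        omega
      have e1 : pF r (lv (pos l (Fin.succ j.castSucc))) = preN r l (j.val + 1) := by
        have := pF_pos r l j.succ
        simpa using this
      rw [if_neg hi, mul_one]
      simp only [map_mul, map_inv, pF_pos, pF_hw, hX_bot, e1]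
      rw [← preN_succ]
      simp
  | zb k β => simp
  | zc k l => simp

/-! ### The group of the square complex -/

variable {r}

/-- the group `A` -/
abbrev AG (hg : Good r) : Type := (ripsVH hg).Grp

/-- the first projection -/
def pA (hg : Good r) : FreeGroup (Lt X K) →* AG hg := FreeGroup.lift (fun a => match a with
  | Sum.inl v => (ripsVH hg).gv v
  | Sum.inr (Sum.inl h) => (ripsVH hg).gh (h, true)
  | Sum.inr (Sum.inr _) => 1)

@[simp] theorem pA_v (hg : Good r) (v : Vt X K) : pA hg (lv v) = (ripsVH hg).gv v := by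
  simp [pA, lv]
@[simp] theorem pA_z (hg : Good r) (k : K) : pA hg (lz k) = 1 := by simp [pA, lz]

@[simp] theorem pA_hw (hg : Good r) (h : HD X) : pA hg (hw h) = (ripsVH hg).gh h := by
  obtain ⟨x, s⟩ := h
  cases s
  · have h1 := (ripsVH hg).gh_inv (x, true)
    have h2 : (ripsVH hg).inv (x, true) = (x, false) := rfl
    rw [h2] at h1
    simp [hw, pA, lh, h1]
  · simp [hw, pA, lh]

theorem pA_b (hg : Good r) (β : Ht X) : pA hg (lh β) = (ripsVH hg).gh (β, true) := by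
  simp [pA, lh]

theorem pA_sq (hg : Good r) {v v' : Vt X K} {h h' : HD X} (hs : Sq0 r v h' h v') :
    (ripsVH hg).gv v * (ripsVH hg).gh h = (ripsVH hg).gh h' * (ripsVH hg).gv v' :=
  (ripsVH hg).gsq ((ripsVH_up hg _ _ _ _).mpr (sq_iff_sr.mp (Or.inl hs)))

/-- the first projection kills the relators -/
theorem pA_rel (hg : Good r) (ρ : FreeGroup (Lt X K)) (h : RelT r ρ) : pA hg ρ = 1 := by
  cases h with
  | p1 l x =>
    simp only [map_mul, map_inv, pA_v, pA_hw]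
    rw [pA_sq hg (Sq0.p1 l x), mul_inv_cancel]
  | p2 l x =>
    simp only [map_mul, map_inv, pA_v, pA_b]
    rw [pA_sq hg (Sq0.p2 l x), mul_inv_cancel]
  | s l i =>
    have hc : pA hg (if i = 7 then corr l else 1) = 1 := by
      split_ifs
      · cases l with
        | cj x β => simp [corr]
        | rel k => simp [corr]
      · simp
    simp only [map_mul, map_inv, pA_v, pA_hw, hc, mul_one]
    rw [pA_sq hg (Sq0.s l i), mul_inv_cancel]
  | zb k β => simp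
  | zc k l => simp

/-- the set of all relators -/
def allRel (r : K → List (X × Bool)) (𝒰 : Set (Seq X K)) : Set (FreeGroup (Lt X K)) :=
  {ρ | RelT r ρ} ∪ zhat '' 𝒰

/-- the group of the presentation -/
abbrev PP (r : K → List (X × Bool)) (𝒰 : Set (Seq X K)) : Type := PresentedGroup (allRel r 𝒰)

section PPs

variable (𝒰 : Set (Seq X K))

/-- the quotient map -/
def mkP (r : K → List (X × Bool)) (𝒰 : Set (Seq X K)) : FreeGroup (Lt X K) →* PP r 𝒰 :=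
  PresentedGroup.mk _

theorem mkP_rel {ρ : FreeGroup (Lt X K)} (h : RelT r ρ) : mkP r 𝒰 ρ = 1 :=
  PresentedGroup.one_of_mem (Or.inl h)

theorem mkP_U {u : Seq X K} (h : u ∈ 𝒰) : mkP r 𝒰 (zhat u) = 1 :=
  PresentedGroup.one_of_mem (Or.inr ⟨u, h, rfl⟩)

/-- the subgroup `N` -/
def NN (r : K → List (X × Bool)) (𝒰 : Set (Seq X K)) : Subgroup (PP r 𝒰) :=
  Subgroup.closure ({p | ∃ β : Bt X, p = mkP r 𝒰 (lh (Sum.inr β))} ∪
    {p | ∃ l : Ci X K, p = mkP r 𝒰 (lv (Vt.c l))})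

theorem NN_b (β : Bt X) : mkP r 𝒰 (lh (Sum.inr β)) ∈ NN r 𝒰 :=
  Subgroup.subset_closure (Or.inl ⟨β, rfl⟩)

theorem NN_c (l : Ci X K) : mkP r 𝒰 (lv (Vt.c l)) ∈ NN r 𝒰 :=
  Subgroup.subset_closure (Or.inr ⟨l, rfl⟩)

theorem NN_hb (β : Bt X) (s : Bool) : mkP r 𝒰 (hw (Sum.inr β, s)) ∈ NN r 𝒰 := by
  cases s
  · show mkP r 𝒰 (lh (Sum.inr β))⁻¹ ∈ _
    rw [map_inv]
    exact Subgroup.inv_mem _ (NN_b 𝒰 β)
  · exact NN_b 𝒰 β

theorem NN_bot (i : Fin 8) : mkP r 𝒰 (hw (bot i)) ∈ NN r 𝒰 := by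
  unfold bot
  split_ifs
  · exact NN_hb 𝒰 _ _
  · exact NN_hb 𝒰 _ _

/-- the strip relations -/
theorem strip (l : Ci X K) (i : Fin 8) : mkP r 𝒰 (lv (pos l i.castSucc)) * mkP r 𝒰 (hw (top r l i)) =
    mkP r 𝒰 (hw (bot i)) * mkP r 𝒰 (lv (pos l i.succ)) *
      mkP r 𝒰 (if i = 7 then corr l else 1) := by
  have h := mkP_rel (r := r) 𝒰 (RelT.s (r := r) l i)
  rw [map_mul, map_inv, mul_inv_eq_one] at h
  simpa only [map_mul] using h

theorem strip' (l : Ci X K) (i : Fin 8) (hi : i ≠ 7) : mkP r 𝒰 (lv (pos l i.succ)) =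
    (mkP r 𝒰 (hw (bot i)))⁻¹ * mkP r 𝒰 (lv (pos l i.castSucc)) * mkP r 𝒰 (hw (top r l i)) := by
  have h := strip (r := r) 𝒰 l i
  rw [if_neg hi, map_one, mul_one] at h
  rw [mul_assoc, h]
  group

/-- the vertical letters `d` -/
theorem d_eq (l : Ci X K) (x : X × Bool) : mkP r 𝒰 (lv (Vt.d l x)) =
    (mkP r 𝒰 (hw (Sum.inl x.1, x.2)))⁻¹ * mkP r 𝒰 (lv (Vt.c l)) *
      mkP r 𝒰 (hw (Sum.inl x.1, x.2)) := by
  have h := mkP_rel (r := r) 𝒰 (RelT.p1 (r := r) l x)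
  rw [map_mul, map_inv, mul_inv_eq_one] at h
  simp only [map_mul] at h
  rw [mul_assoc, h]
  group

theorem d_eq' (l : Ci X K) (x : X × Bool) : mkP r 𝒰 (lv (Vt.d l x)) =
    mkP r 𝒰 (lh (Sum.inr (Bt.b x))) * mkP r 𝒰 (lv (Vt.c l)) *
      (mkP r 𝒰 (lh (Sum.inr (Bt.b x))))⁻¹ := by
  have h := mkP_rel (r := r) 𝒰 (RelT.p2 (r := r) l x)
  rw [map_mul, map_inv, mul_inv_eq_one] at h
  simp only [map_mul] at h
  rw [← h]
  group

theorem d_mem (l : Ci X K) (x : X × Bool) : mkP r 𝒰 (lv (Vt.d l x)) ∈ NN r 𝒰 := by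
  rw [d_eq']
  exact Subgroup.mul_mem _ (Subgroup.mul_mem _ (NN_b 𝒰 _) (NN_c 𝒰 _))
    (Subgroup.inv_mem _ (NN_b 𝒰 _))

theorem hw_inv (h : HD X) : (hw (hinv h) : FreeGroup (Lt X K)) = (hw h)⁻¹ := by
  obtain ⟨x, s⟩ := h
  cases s <;> simp [hw, hinv]

/-- conjugation by the letters `x` preserves `N` -/
theorem conj_c (l : Ci X K) (x : X × Bool) : mkP r 𝒰 (hw (Sum.inl x.1, x.2)) *
    mkP r 𝒰 (lv (Vt.c l)) * (mkP r 𝒰 (hw (Sum.inl x.1, x.2)))⁻¹ ∈ NN r 𝒰 := by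
  have h1 := d_mem (r := r) 𝒰 l (x.1, !x.2)
  rw [d_eq] at h1
  have h2 : (hw (Sum.inl x.1, !x.2) : FreeGroup (Lt X K)) = (hw (Sum.inl x.1, x.2))⁻¹ :=
    hw_inv (K := K) (Sum.inl x.1, x.2)
  simp only [h2, map_inv, inv_inv] at h1
  exact h1

theorem conj_b (β : Bt X) (x : X × Bool) : mkP r 𝒰 (hw (Sum.inl x.1, x.2)) *
    mkP r 𝒰 (lh (Sum.inr β)) * (mkP r 𝒰 (hw (Sum.inl x.1, x.2)))⁻¹ ∈ NN r 𝒰 := by
  set l : Ci X K := Ci.cj x β with hl
  have m0 : mkP r 𝒰 (lv (pos l (Fin.castSucc 0))) ∈ NN r 𝒰 := NN_c 𝒰 l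
  have hst : ∀ (i : Fin 8), i ≠ 7 → mkP r 𝒰 (hw (top r l i)) ∈ NN r 𝒰 →
      mkP r 𝒰 (lv (pos l i.castSucc)) ∈ NN r 𝒰 → mkP r 𝒰 (lv (pos l i.succ)) ∈ NN r 𝒰 := by
    intro i hi h1 h2
    rw [strip' 𝒰 l i hi]
    exact Subgroup.mul_mem _ (Subgroup.mul_mem _ (Subgroup.inv_mem _ (NN_bot 𝒰 i)) h2) h1
  have m1 : mkP r 𝒰 (lv (Vt.w l 0)) ∈ NN r 𝒰 := hst 0 (by decide) (NN_hb 𝒰 _ _) m0
  have m2 : mkP r 𝒰 (lv (Vt.w l 1)) ∈ NN r 𝒰 := hst 1 (by decide) (NN_hb 𝒰 _ _) m1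
  have m3 : mkP r 𝒰 (lv (Vt.w l 2)) ∈ NN r 𝒰 := hst 2 (by decide) (NN_hb 𝒰 _ _) m2
  have m4 : mkP r 𝒰 (lv (Vt.w l 3)) ∈ NN r 𝒰 := hst 3 (by decide) (NN_hb 𝒰 _ _) m3
  have s4 : mkP r 𝒰 (lv (Vt.w l 4)) = (mkP r 𝒰 (hw (bot 4)))⁻¹ * mkP r 𝒰 (lv (Vt.w l 3)) *
    mkP r 𝒰 (hw (Sum.inl x.1, x.2)) := strip' 𝒰 l 4 (by decide)
  have s5 : mkP r 𝒰 (lv (Vt.w l 5)) = (mkP r 𝒰 (hw (bot 5)))⁻¹ * mkP r 𝒰 (lv (Vt.w l 4)) *
    mkP r 𝒰 (lh (Sum.inr β)) := strip' 𝒰 l 5 (by decide)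
  have s6 : mkP r 𝒰 (lv (Vt.w l 6)) = (mkP r 𝒰 (hw (bot 6)))⁻¹ * mkP r 𝒰 (lv (Vt.w l 5)) *
    mkP r 𝒰 (hw (hinv (Sum.inl x.1, x.2))) := strip' 𝒰 l 6 (by decide)
  have s7 : mkP r 𝒰 (lv (Vt.w l 6)) * mkP r 𝒰 (lh (Sum.inr Bt.f)) =
      mkP r 𝒰 (hw (bot 7)) * mkP r 𝒰 (lv (Vt.c l)) * mkP r 𝒰 (if (7 : Fin 8) = 7 then corr l else 1) :=
    strip 𝒰 l 7
  have hc : mkP r 𝒰 (if (7 : Fin 8) = 7 then corr l else 1) = 1 := by
    rw [if_pos rfl]
    exact map_one _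
  rw [hc, mul_one] at s7
  have m7 : mkP r 𝒰 (lv (Vt.w l 6)) ∈ NN r 𝒰 := by
    have : mkP r 𝒰 (lv (Vt.w l 6)) = mkP r 𝒰 (hw (bot 7)) * mkP r 𝒰 (lv (Vt.c l)) *
        (mkP r 𝒰 (lh (Sum.inr Bt.f)))⁻¹ := by
      rw [← s7]
      group
    rw [this]
    exact Subgroup.mul_mem _ (Subgroup.mul_mem _ (NN_bot 𝒰 7) (NN_c 𝒰 l))
      (Subgroup.inv_mem _ (NN_b 𝒰 _))
  rw [hw_inv, map_inv] at s6
  have e : mkP r 𝒰 (hw (Sum.inl x.1, x.2)) * mkP r 𝒰 (lh (Sum.inr β)) *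
      (mkP r 𝒰 (hw (Sum.inl x.1, x.2)))⁻¹ = (mkP r 𝒰 (lv (Vt.w l 3)))⁻¹ * mkP r 𝒰 (hw (bot 4)) *
      mkP r 𝒰 (hw (bot 5)) * mkP r 𝒰 (hw (bot 6)) * mkP r 𝒰 (lv (Vt.w l 6)) := by
    rw [s6, s5, s4]
    group
  rw [e]
  exact Subgroup.mul_mem _ (Subgroup.mul_mem _ (Subgroup.mul_mem _ (Subgroup.mul_mem _
    (Subgroup.inv_mem _ m4) (NN_bot 𝒰 4)) (NN_bot 𝒰 5)) (NN_bot 𝒰 6)) m7

end PPs

end Pool.Agent.TH95
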