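import Pool.Agent.TH95.SD.Pres

/-!
The presentation of the fibre product, continued.
-/

set_option autoImplicit false

set_option linter.unusedSectionVars false

noncomputable section

namespace Pool.Agent.TH95

variable {X K : Type} {r : K → List (X × Bool)} (𝒰 : Set (Seq X K))

theorem mem_normalizer_of {G : Type} [Group G] (N : Subgroup G) (g : G)
    (h1 : ∀ n ∈ N, g * n * g⁻¹ ∈ N) (h2 : ∀ n ∈ N, g⁻¹ * n * g ∈ N) :
    g ∈ Subgroup.normalizer (N : Set G) := by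
  rw [Subgroup.mem_normalizer_iff]
  intro n
  constructor
  · exact h1 n
  · intro h
    have := h2 _ h
    have e : g⁻¹ * (g * n * g⁻¹) * g = n := by group
    rwa [e] at this

theorem conj_x (x : X × Bool) (n : PP r 𝒰) (hn : n ∈ NN r 𝒰) :
    mkP r 𝒰 (hw (Sum.inl x.1, x.2)) * n * (mkP r 𝒰 (hw (Sum.inl x.1, x.2)))⁻¹ ∈ NN r 𝒰 := by
  unfold NN at hn
  induction hn using Subgroup.closure_induction with
  | mem y hy =>
    rcases hy with ⟨β, rfl⟩ | ⟨l, rfl⟩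
    · exact conj_b 𝒰 β x
    · exact conj_c 𝒰 l x
  | one => simp
  | mul a b _ _ ha hb =>
    have := Subgroup.mul_mem _ ha hb
    simpa [mul_assoc] using this
  | inv a _ ha =>
    have := Subgroup.inv_mem _ ha
    simpa [mul_assoc] using this

theorem norm_x (h : HD X) : mkP r 𝒰 (hw h) ∈ Subgroup.normalizer (NN r 𝒰 : Set (PP r 𝒰)) := by
  obtain ⟨x | β, s⟩ := h
  · apply mem_normalizer_of
    · exact conj_x 𝒰 (x, s)
    · intro n hn
      have h1 := conj_x 𝒰 (x, !s) n hn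
      have h2 : (hw (Sum.inl x, !s) : FreeGroup (Lt X K)) = (hw (Sum.inl x, s))⁻¹ :=
        hw_inv (K := K) (Sum.inl x, s)
      simp only [h2, map_inv, inv_inv] at h1
      exact h1
  · exact Subgroup.le_normalizer (NN_hb 𝒰 β s)

theorem comm_N (k : K) (n : PP r 𝒰) (hn : n ∈ NN r 𝒰) :
    mkP r 𝒰 (lz k) * n = n * mkP r 𝒰 (lz k) := by
  unfold NN at hn
  induction hn using Subgroup.closure_induction with
  | mem y hy =>
    rcases hy with ⟨β, rfl⟩ | ⟨l, rfl⟩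
    · have h := mkP_rel (r := r) 𝒰 (RelT.zb (r := r) k β)
      rw [map_mul, map_inv, mul_inv_eq_one] at h
      simpa only [map_mul] using h
    · have h := mkP_rel (r := r) 𝒰 (RelT.zc (r := r) k l)
      rw [map_mul, map_inv, mul_inv_eq_one] at h
      simpa only [map_mul] using h
  | one => simp
  | mul a b _ _ ha hb => rw [← mul_assoc, ha, mul_assoc, hb, mul_assoc]
  | inv a _ ha => exact ((show Commute _ _ from ha).inv_right).eq

theorem norm_z (k : K) : mkP r 𝒰 (lz k) ∈ Subgroup.normalizer (NN r 𝒰 : Set (PP r 𝒰)) := by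
  apply mem_normalizer_of
  · intro n hn
    rw [comm_N 𝒰 k n hn]
    simpa using hn
  · intro n hn
    rw [mul_assoc, ← comm_N 𝒰 k n hn]
    simpa using hn

theorem norm_pos (l : Ci X K) (i : Fin 8) :
    mkP r 𝒰 (lv (pos l i.castSucc)) ∈ Subgroup.normalizer (NN r 𝒰 : Set (PP r 𝒰)) := by
  have h0 : mkP r 𝒰 (lv (Vt.c l)) ∈ Subgroup.normalizer (NN r 𝒰 : Set (PP r 𝒰)) :=
    Subgroup.le_normalizer (NN_c 𝒰 l)
  have hst : ∀ (i : Fin 8), i ≠ 7 →
      mkP r 𝒰 (lv (pos l i.castSucc)) ∈ Subgroup.normalizer (NN r 𝒰 : Set (PP r 𝒰)) →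
      mkP r 𝒰 (lv (pos l i.succ)) ∈ Subgroup.normalizer (NN r 𝒰 : Set (PP r 𝒰)) := by
    intro i hi h2
    rw [strip' 𝒰 l i hi]
    exact Subgroup.mul_mem _ (Subgroup.mul_mem _ (Subgroup.inv_mem _ (norm_x 𝒰 _)) h2)
      (norm_x 𝒰 _)
  have h1 := hst 0 (by decide) h0
  have h2 := hst 1 (by decide) h1
  have h3 := hst 2 (by decide) h2
  have h4 := hst 3 (by decide) h3
  have h5 := hst 4 (by decide) h4
  have h6 := hst 5 (by decide) h5
  have h7 := hst 6 (by decide) h6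
  fin_cases i
  · exact h0
  · exact h1
  · exact h2
  · exact h3
  · exact h4
  · exact h5
  · exact h6
  · exact h7

theorem norm_v (v : Vt X K) :
    mkP r 𝒰 (lv v) ∈ Subgroup.normalizer (NN r 𝒰 : Set (PP r 𝒰)) := by
  cases v with
  | c l => exact Subgroup.le_normalizer (NN_c 𝒰 l)
  | d l x => exact Subgroup.le_normalizer (d_mem 𝒰 l x)
  | w l i =>
    fin_cases i
    · exact norm_pos 𝒰 l 1
    · exact norm_pos 𝒰 l 2
    · exact norm_pos 𝒰 l 3
    · exact norm_pos 𝒰 l 4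
    · exact norm_pos 𝒰 l 5
    · exact norm_pos 𝒰 l 6
    · exact norm_pos 𝒰 l 7

theorem norm_all (w : FreeGroup (Lt X K)) :
    mkP r 𝒰 w ∈ Subgroup.normalizer (NN r 𝒰 : Set (PP r 𝒰)) := by
  induction w using FreeGroup.induction_on with
  | C1 => simp
  | of a =>
    rcases a with v | h | k
    · exact norm_v 𝒰 v
    · exact norm_x 𝒰 (h, true)
    · exact norm_z 𝒰 k
  | inv_of a ih => rw [map_inv]; exact Subgroup.inv_mem _ ih
  | mul a b ha hb => rw [map_mul]; exact Subgroup.mul_mem _ ha hb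

theorem mkP_surjective : Function.Surjective (mkP r 𝒰) := PresentedGroup.mk_surjective _

/-- `N` is a normal subgroup -/
theorem NN_normal : (NN r 𝒰).Normal := by
  rw [← Subgroup.normalizer_eq_top_iff, eq_top_iff]
  intro p _
  obtain ⟨w, rfl⟩ := mkP_surjective 𝒰 p
  exact norm_all 𝒰 w

theorem zP_map {P P' : Type} [Group P] [Group P'] (f : P →* P') (h : FreeGroup X →* P) (z : K → P)
    (u : Seq X K) : f (zP h z u) = zP (f.comp h) (fun k => f (z k)) u := by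
  have : f.comp (zP h z) = zP (f.comp h) (fun k => f (z k)) := by
    ext p
    simp
  exact DFunLike.congr_fun this u

theorem pF_hat (w : FreeGroup X) : pF r (hat (K := K) w) = w := by
  have : (pF r).comp (hat (K := K)) = MonoidHom.id _ := by
    ext x
    simp only [hat, MonoidHom.comp_apply, FreeGroup.map.of]
    exact pF_x r x
  exact DFunLike.congr_fun this w

theorem pF_zhat (u : Seq X K) : pF r (zhat u) = rho (rW r) u := by
  unfold zhat
  rw [zP_map]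
  have : zP ((pF r).comp hat) (fun k => pF r (lz k)) = rho (rW r) := by
    ext p
    simp [pF_hat]
  rw [this]

/-- the second projection on the presented group -/
def phiP (hlen : ∀ k, (r k).length ≤ 6) (hU : ∀ u ∈ 𝒰, rho (rW r) u = 1) :
    PP r 𝒰 →* FreeGroup X :=
  QuotientGroup.lift (Subgroup.normalClosure (allRel r 𝒰)) (pF r) (by
    show Subgroup.normalClosure (allRel r 𝒰) ≤ (pF r).ker
    apply Subgroup.normalClosure_le_normal
    rintro _ (h | ⟨u, hu, rfl⟩)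
    · exact pF_rel r hlen _ h
    · show pF r (zhat u) = 1
      rw [pF_zhat]
      exact hU u hu)

section phi

variable (hlen : ∀ k, (r k).length ≤ 6) (hU : ∀ u ∈ 𝒰, rho (rW r) u = 1)

theorem phiP_mk (w : FreeGroup (Lt X K)) : phiP 𝒰 hlen hU (mkP r 𝒰 w) = pF r w := rfl

/-- the inclusion of the letters `X` in the presented group -/
def hatP (r : K → List (X × Bool)) (𝒰 : Set (Seq X K)) : FreeGroup X →* PP r 𝒰 :=
  (mkP r 𝒰).comp hat

theorem phiP_hatP (w : FreeGroup X) : phiP 𝒰 hlen hU (hatP r 𝒰 w) = w := pF_hat w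

theorem hatP_hX (h : HD X) : (hatP r 𝒰 (hX h))⁻¹ * mkP r 𝒰 (hw h) ∈ NN r 𝒰 := by
  obtain ⟨x | β, s⟩ := h
  · have : hatP r 𝒰 (hX (Sum.inl x, s)) = mkP r 𝒰 (hw (Sum.inl x, s)) := by
      cases s
      · show mkP r 𝒰 (hat (FreeGroup.of x)⁻¹) = mkP r 𝒰 (lh (Sum.inl x))⁻¹
        congr 1
      · show mkP r 𝒰 (hat (FreeGroup.of x)) = mkP r 𝒰 (lh (Sum.inl x))
        congr 1
    rw [this, inv_mul_cancel]
    exact Subgroup.one_mem _
  · have : hatP r 𝒰 (hX (Sum.inr β, s)) = 1 := map_one _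
    rw [this, inv_one, one_mul]
    exact NN_hb 𝒰 β s

/-- congruence modulo `N` of a letter with the image of its projection -/
theorem mod_pos (l : Ci X K) (i : Fin 8) :
    (hatP r 𝒰 (preN r l i.val))⁻¹ * mkP r 𝒰 (lv (pos l i.castSucc)) ∈ NN r 𝒰 := by
  have hN := NN_normal (r := r) 𝒰
  have h0 : (hatP r 𝒰 (preN r l 0))⁻¹ * mkP r 𝒰 (lv (Vt.c l)) ∈ NN r 𝒰 := by
    show (hatP r 𝒰 1)⁻¹ * _ ∈ _
    rw [map_one, inv_one, one_mul]
    exact NN_c 𝒰 l
  have hst : ∀ (i : Fin 8), i ≠ 7 →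
      (hatP r 𝒰 (preN r l i.val))⁻¹ * mkP r 𝒰 (lv (pos l i.castSucc)) ∈ NN r 𝒰 →
      (hatP r 𝒰 (preN r l (i.val + 1)))⁻¹ * mkP r 𝒰 (lv (pos l i.succ)) ∈ NN r 𝒰 := by
    intro i hi h2
    rw [preN_succ, strip' 𝒰 l i hi, map_mul]
    have h3 := NN_bot (r := r) 𝒰 i
    have h4 := hatP_hX (r := r) 𝒰 (top r l i)
    set A := hatP r 𝒰 (preN r l i.val)
    set B := hatP r 𝒰 (hX (top r l i))
    set C := mkP r 𝒰 (lv (pos l i.castSucc))
    set D := mkP r 𝒰 (hw (bot i))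
    set E := mkP r 𝒰 (hw (top r l i))
    have e : (A * B)⁻¹ * (D⁻¹ * C * E) = (B⁻¹ * ((A⁻¹ * D⁻¹ * A) * (A⁻¹ * C)) * B) * (B⁻¹ * E) := by
      group
    rw [e]
    apply Subgroup.mul_mem _ _ h4
    have h5 : A⁻¹ * D⁻¹ * A ∈ NN r 𝒰 := by
      have := hN.conj_mem _ (Subgroup.inv_mem _ h3) A⁻¹
      simpa using this
    have := hN.conj_mem _ (Subgroup.mul_mem _ h5 h2) B⁻¹
    simpa using this
  have h1 := hst 0 (by decide) h0
  have h2 := hst 1 (by decide) h1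
  have h3 := hst 2 (by decide) h2
  have h4 := hst 3 (by decide) h3
  have h5 := hst 4 (by decide) h4
  have h6 := hst 5 (by decide) h5
  have h7 := hst 6 (by decide) h6
  fin_cases i
  · exact h0
  · exact h1
  · exact h2
  · exact h3
  · exact h4
  · exact h5
  · exact h6
  · exact h7

include hlen in
theorem mod_of (a : Lt X K) :
    (hatP r 𝒰 (pF r (FreeGroup.of a)))⁻¹ * mkP r 𝒰 (FreeGroup.of a) ∈ NN r 𝒰 := by
  have hN := NN_normal (r := r) 𝒰
  rcases a with v | h | k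
  · show (hatP r 𝒰 (pF r (lv v)))⁻¹ * mkP r 𝒰 (lv v) ∈ NN r 𝒰
    cases v with
    | c l => rw [pF_c, map_one, inv_one, one_mul]; exact NN_c 𝒰 l
    | d l x => rw [pF_d, map_one, inv_one, one_mul]; exact d_mem 𝒰 l x
    | w l i =>
      rw [pF_w]
      fin_cases i
      · exact mod_pos 𝒰 l 1
      · exact mod_pos 𝒰 l 2
      · exact mod_pos 𝒰 l 3
      · exact mod_pos 𝒰 l 4
      · exact mod_pos 𝒰 l 5
      · exact mod_pos 𝒰 l 6
      · exact mod_pos 𝒰 l 7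
  · have h1 := hatP_hX (r := r) 𝒰 (h, true)
    rw [← pF_hw (r := r)] at h1
    exact h1
  · show (hatP r 𝒰 (pF r (lz k)))⁻¹ * mkP r 𝒰 (lz k) ∈ NN r 𝒰
    have h1 := strip (r := r) 𝒰 (Ci.rel k) 7
    rw [if_pos rfl] at h1
    have h2 := mod_pos (r := r) 𝒰 (Ci.rel k) 7
    have h3 : pF r (lz k) = preN r (Ci.rel k) 7 := by
      have h4 := preN_eight r hlen (Ci.rel k)
      have h5 : preN r (Ci.rel k) 8 = preN r (Ci.rel k) 7 * hX (top r (Ci.rel k) 7) := rfl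
      have h6 : hX (top r (Ci.rel k) 7) = 1 := rfl
      rw [h5, h6, mul_one] at h4
      exact h4.symm
    rw [h3]
    have h7 : mkP r 𝒰 (hw (top r (Ci.rel k) 7)) ∈ NN r 𝒰 := NN_b 𝒰 Bt.f
    have h8 : mkP r 𝒰 (hw (bot 7)) ∈ NN r 𝒰 := NN_bot 𝒰 7
    have h9 : mkP r 𝒰 (lv (pos (Ci.rel k : Ci X K) (Fin.succ 7))) ∈ NN r 𝒰 := NN_c 𝒰 _
    have h10 : mkP r 𝒰 (corr (Ci.rel k : Ci X K)) = mkP r 𝒰 (lz k) := rfl
    rw [h10] at h1
    set A := hatP r 𝒰 (preN r (Ci.rel k) 7)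
    set C := mkP r 𝒰 (lv (pos (Ci.rel k : Ci X K) (Fin.castSucc 7)))
    set D := mkP r 𝒰 (hw (top r (Ci.rel k) 7))
    set E := mkP r 𝒰 (hw (bot (X := X) 7))
    set F := mkP r 𝒰 (lv (pos (Ci.rel k : Ci X K) (Fin.succ 7)))
    set Z := mkP r 𝒰 (lz k)
    have e : A⁻¹ * Z = (A⁻¹ * (E * F)⁻¹ * A) * (A⁻¹ * C) * D := by
      have : Z = (E * F)⁻¹ * (C * D) := by rw [h1]; group
      rw [this]
      group
    rw [e]
    refine Subgroup.mul_mem _ (Subgroup.mul_mem _ ?_ h2) h7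
    have := hN.conj_mem _ (Subgroup.inv_mem _ (Subgroup.mul_mem _ h8 h9)) A⁻¹
    simpa using this

include hlen in
theorem mod_all (w : FreeGroup (Lt X K)) :
    (hatP r 𝒰 (pF r w))⁻¹ * mkP r 𝒰 w ∈ NN r 𝒰 := by
  have hN := NN_normal (r := r) 𝒰
  have hN' : Subgroup.Normal (NN r 𝒰) := hN
  have key : (QuotientGroup.mk' (NN r 𝒰)).comp ((hatP r 𝒰).comp (pF r)) =
      (QuotientGroup.mk' (NN r 𝒰)).comp (mkP r 𝒰) := by
    ext a
    simp only [MonoidHom.comp_apply]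
    exact QuotientGroup.eq.mpr (mod_of 𝒰 hlen a)
  have h1 := DFunLike.congr_fun key w
  exact QuotientGroup.eq.mp h1

/-- the kernel of the second projection -/
theorem ker_phi (p : PP r 𝒰) (hp : phiP 𝒰 hlen hU p = 1) : p ∈ NN r 𝒰 := by
  obtain ⟨w, rfl⟩ := mkP_surjective 𝒰 p
  have h1 := mod_all 𝒰 hlen w
  rw [phiP_mk] at hp
  rw [hp] at h1
  simpa using h1

/-- values of formal products commute with `N` -/
theorem zP_comm (u : Seq X K) (n : PP r 𝒰) (hn : n ∈ NN r 𝒰) :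
    zP (hatP r 𝒰) (fun k => mkP r 𝒰 (lz k)) u * n =
      n * zP (hatP r 𝒰) (fun k => mkP r 𝒰 (lz k)) u := by
  have hN := NN_normal (r := r) 𝒰
  induction u using FreeGroup.induction_on with
  | C1 => simp
  | of p =>
    rw [zP_of]
    have h6 : (hatP r 𝒰 p.1)⁻¹ * n * hatP r 𝒰 p.1 ∈ NN r 𝒰 := by
      have := hN.conj_mem _ hn (hatP r 𝒰 p.1)⁻¹
      simpa using this
    have h7 := comm_N 𝒰 p.2 _ h6
    calc hatP r 𝒰 p.1 * mkP r 𝒰 (lz p.2) * (hatP r 𝒰 p.1)⁻¹ * n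
        = hatP r 𝒰 p.1 * (mkP r 𝒰 (lz p.2) * ((hatP r 𝒰 p.1)⁻¹ * n * hatP r 𝒰 p.1)) *
            (hatP r 𝒰 p.1)⁻¹ := by group
      _ = hatP r 𝒰 p.1 * (((hatP r 𝒰 p.1)⁻¹ * n * hatP r 𝒰 p.1) * mkP r 𝒰 (lz p.2)) *
            (hatP r 𝒰 p.1)⁻¹ := by rw [h7]
      _ = n * (hatP r 𝒰 p.1 * mkP r 𝒰 (lz p.2) * (hatP r 𝒰 p.1)⁻¹) := by group
  | inv_of p ih =>
    rw [map_inv]
    exact ((show Commute (zP (hatP r 𝒰) (fun k => mkP r 𝒰 (lz k)) (FreeGroup.of p)) n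
      from ih).inv_left).eq
  | mul x y hx hy => rw [map_mul, mul_assoc, hy, ← mul_assoc, hx, mul_assoc]

include hlen hU in
theorem zP_conj (p : PP r 𝒰) (u : Seq X K) :
    p * zP (hatP r 𝒰) (fun k => mkP r 𝒰 (lz k)) u * p⁻¹ =
      zP (hatP r 𝒰) (fun k => mkP r 𝒰 (lz k)) (cj (phiP 𝒰 hlen hU p) u) := by
  have h1 : p * (hatP r 𝒰 (phiP 𝒰 hlen hU p))⁻¹ ∈ NN r 𝒰 := by
    apply ker_phi 𝒰 hlen hU
    rw [map_mul, map_inv, phiP_hatP, mul_inv_cancel]
  rw [zP_cj]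
  have h2 := zP_comm 𝒰 (cj (phiP 𝒰 hlen hU p) u) _ h1
  rw [zP_cj] at h2
  set g := hatP r 𝒰 (phiP 𝒰 hlen hU p)
  set Z := zP (hatP r 𝒰) (fun k => mkP r 𝒰 (lz k)) u
  have h3 : p * Z * p⁻¹ = (p * g⁻¹) * (g * Z * g⁻¹) * (p * g⁻¹)⁻¹ := by group
  rw [h3, ← h2, mul_inv_cancel_right]

end phi

/-! ### The kernel of the first projection -/

section ker

variable (hg : Good r)

theorem pA_zhat (u : Seq X K) : pA hg (zhat u) = 1 := by
  unfold zhat
  rw [zP_map]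
  have : zP ((pA hg).comp hat) (fun k => pA hg (lz k)) = 1 := by
    ext p
    simp
  rw [this]
  rfl

/-- the first projection on the presented group -/
def alP : PP r 𝒰 →* AG hg :=
  QuotientGroup.lift (Subgroup.normalClosure (allRel r 𝒰)) (pA hg) (by
    show Subgroup.normalClosure (allRel r 𝒰) ≤ (pA hg).ker
    apply Subgroup.normalClosure_le_normal
    rintro _ (h | ⟨u, hu, rfl⟩)
    · exact pA_rel hg _ h
    · exact pA_zhat hg u)

theorem alP_mk (w : FreeGroup (Lt X K)) : alP 𝒰 hg (mkP r 𝒰 w) = pA hg w := rfl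

/-- the normal closure of the letters `z` -/
def Kz (r : K → List (X × Bool)) (𝒰 : Set (Seq X K)) : Subgroup (PP r 𝒰) :=
  Subgroup.normalClosure {p | ∃ k : K, p = mkP r 𝒰 (lz k)}

instance : (Kz r 𝒰).Normal := Subgroup.normalClosure_normal

theorem Kz_corr (l : Ci X K) (i : Fin 8) :
    mkP r 𝒰 (if i = 7 then corr l else 1) ∈ Kz r 𝒰 := by
  split_ifs
  · cases l with
    | cj x β =>
      show mkP r 𝒰 1 ∈ _
      rw [map_one]
      exact Subgroup.one_mem _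
    | rel k => exact Subgroup.subset_normalClosure ⟨k, rfl⟩
  · rw [map_one]
    exact Subgroup.one_mem _

/-- the quotient map modulo the letters `z` -/
def qz (r : K → List (X × Bool)) (𝒰 : Set (Seq X K)) : FreeGroup (Lt X K) →* PP r 𝒰 ⧸ Kz r 𝒰 :=
  (QuotientGroup.mk' (Kz r 𝒰)).comp (mkP r 𝒰)

theorem qz_sq0 {v v' : Vt X K} {h h' : HD X} (hs : Sq0 r v h' h v') :
    qz r 𝒰 (lv v) * qz r 𝒰 (hw h) = qz r 𝒰 (hw h') * qz r 𝒰 (lv v') := by
  have h1 : ∀ {w : FreeGroup (Lt X K)}, RelT r w → qz r 𝒰 w = 1 := by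
    intro w hw
    show QuotientGroup.mk' (Kz r 𝒰) (mkP r 𝒰 w) = 1
    rw [mkP_rel 𝒰 hw, map_one]
  cases hs with
  | p1 l x =>
    have := h1 (RelT.p1 (r := r) l x)
    rw [map_mul, map_inv, mul_inv_eq_one] at this
    simpa only [map_mul] using this
  | p2 l x =>
    have := h1 (RelT.p2 (r := r) l x)
    rw [map_mul, map_inv, mul_inv_eq_one] at this
    simp only [map_mul] at this
    exact this
  | s l i =>
    have := h1 (RelT.s (r := r) l i)
    have hc : qz r 𝒰 (if i = 7 then corr l else 1) = 1 :=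
      (QuotientGroup.eq_one_iff _).mpr (Kz_corr 𝒰 l i)
    rw [map_mul, map_inv, mul_inv_eq_one] at this
    simp only [map_mul, hc, mul_one] at this
    exact this

theorem qz_hinv (h : HD X) : qz r 𝒰 (hw (hinv h)) = (qz r 𝒰 (hw h))⁻¹ := by
  rw [hw_inv, map_inv]

theorem qz_sq {v v' : Vt X K} {h h' : HD X} (hs : Sq r v h' h v') :
    qz r 𝒰 (lv v) * qz r 𝒰 (hw h) = qz r 𝒰 (hw h') * qz r 𝒰 (lv v') := by
  rcases hs with hs | hs
  · exact qz_sq0 𝒰 hs
  · have h1 := qz_sq0 𝒰 hs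
    rw [qz_hinv, qz_hinv] at h1
    rw [eq_inv_mul_iff_mul_eq, ← mul_assoc, mul_inv_eq_iff_eq_mul] at h1
    exact h1.symm

/-- the inverse of the first projection modulo the letters `z` -/
def bet : AG hg →* PP r 𝒰 ⧸ Kz r 𝒰 :=
  (ripsVH hg).lift (fun v => qz r 𝒰 (lv v)) (fun h => qz r 𝒰 (hw h))
    (fun h => qz_hinv 𝒰 h)
    (fun _ _ _ _ hs => qz_sq 𝒰 (sr_sq ((ripsVH_up hg _ _ _ _).mp hs)))

theorem bet_pA (w : FreeGroup (Lt X K)) : bet 𝒰 hg (pA hg w) = qz r 𝒰 w := by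
  have : (bet 𝒰 hg).comp (pA hg) = qz r 𝒰 := by
    ext a
    rcases a with v | h | k
    · show bet 𝒰 hg (pA hg (lv v)) = qz r 𝒰 (lv v)
      rw [pA_v]
      exact VH.lift_gv _ _ _ _ _ _
    · show bet 𝒰 hg (pA hg (lh h)) = qz r 𝒰 (lh h)
      rw [pA_b]
      exact VH.lift_gh _ _ _ _ _ _
    · show bet 𝒰 hg (pA hg (lz k)) = qz r 𝒰 (lz k)
      rw [pA_z, map_one]
      symm
      exact (QuotientGroup.eq_one_iff _).mpr (Subgroup.subset_normalClosure ⟨k, rfl⟩)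
  exact DFunLike.congr_fun this w

/-- the kernel of the first projection -/
theorem ker_al (w : FreeGroup (Lt X K)) (hw : pA hg w = 1) : mkP r 𝒰 w ∈ Kz r 𝒰 := by
  have h1 := bet_pA 𝒰 hg w
  rw [hw, map_one] at h1
  exact (QuotientGroup.eq_one_iff _).mp h1.symm

/-- the values of formal products form the normal closure of the letters `z` -/
theorem Kz_le (hlen : ∀ k, (r k).length ≤ 6) (hU : ∀ u ∈ 𝒰, rho (rW r) u = 1) (p : PP r 𝒰)
    (hp : p ∈ Kz r 𝒰) : ∃ u : Seq X K, zP (hatP r 𝒰) (fun k => mkP r 𝒰 (lz k)) u = p := by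
  unfold Kz Subgroup.normalClosure at hp
  induction hp using Subgroup.closure_induction with
  | mem x hx =>
    obtain ⟨y, ⟨k, rfl⟩, hc⟩ := Group.mem_conjugatesOfSet_iff.mp hx
    obtain ⟨c, hc⟩ := isConj_iff.mp hc
    refine ⟨cj (phiP 𝒰 hlen hU c) (FreeGroup.of (1, k)), ?_⟩
    rw [← zP_conj 𝒰 hlen hU c, zP_of, ← hc]
    simp
  | one => exact ⟨1, by simp⟩
  | mul a b _ _ ha hb =>
    obtain ⟨u, rfl⟩ := ha
    obtain ⟨v, rfl⟩ := hb
    exact ⟨u * v, by simp⟩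
  | inv a _ ha =>
    obtain ⟨u, rfl⟩ := ha
    exact ⟨u⁻¹, by simp⟩

end ker

/-- the presentation of the fibre product -/
theorem fibre [Fintype K] {Q : Type} [Group Q] (g : X → Q)
    (hsur : Function.Surjective (FreeGroup.lift g))
    (hker : ∀ w, FreeGroup.lift g w = 1 → w ∈ Subgroup.normalClosure (Set.range (rW r)))
    (hrel : ∀ k, FreeGroup.lift g (rW r k) = 1)
    (hg : Good r) (hlen : ∀ k, (r k).length ≤ 6) (hU : ∀ u ∈ 𝒰, rho (rW r) u = 1)
    (hgen : ∀ β : K → ZR Q, bd (rW r) g β = 0 → β ∈ Submodule.span (ZR Q) (chn g '' 𝒰))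
    (w : FreeGroup (Lt X K)) (h1 : pA hg w = 1) (h2 : pF r w = 1) :
    w ∈ Subgroup.normalClosure (allRel r 𝒰) := by
  have hN := NN_normal (r := r) 𝒰
  obtain ⟨u, hu⟩ := Kz_le 𝒰 hlen hU _ (ker_al 𝒰 hg w h1)
  have h3 : rho (rW r) u = 1 := by
    have h4 : phiP 𝒰 hlen hU (mkP r 𝒰 w) = 1 := h2
    rw [← hu, zP_map] at h4
    have h5 : zP ((phiP 𝒰 hlen hU).comp (hatP r 𝒰)) (fun k => phiP 𝒰 hlen hU (mkP r 𝒰 (lz k))) =
        rho (rW r) := by
      ext p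
      simp only [MonoidHom.comp_apply, zP_of, phiP_hatP, phiP_mk, pF_z, rho_of]
    rw [h5] at h4
    exact h4
  have h6 : zP (hatP r 𝒰) (fun k => mkP r 𝒰 (lz k)) u = 1 := by
    apply central (rW r) g hsur hker (hatP r 𝒰) (fun k => mkP r 𝒰 (lz k)) (NN r 𝒰)
      (phiP 𝒰 hlen hU) (phiP_hatP 𝒰 hlen hU) (fun k => pF_z r k) (ker_phi 𝒰 hlen hU)
      (fun k n hn => comm_N 𝒰 k n hn) (fun p n hn => hN.conj_mem n hn p) 𝒰 _ u h3
    · apply hgen
      rw [← fox_rho (rW r) g hrel, h3, fox_one]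
    · intro v hv
      refine ⟨hU v hv, ?_⟩
      have := mkP_U (r := r) 𝒰 hv
      unfold zhat at this
      rw [zP_map] at this
      exact this
  rw [h6] at hu
  exact (QuotientGroup.eq_one_iff w).mp hu.symm

end Pool.Agent.TH95
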