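import Pool.Agent.TH95.SD.Pres2

/-!
The group `Q`: a tower of extensions of HNN type.
-/

set_option autoImplicit false

set_option linter.unusedSectionVars false

noncomputable section

namespace Pool.Agent.TH95

/-- the ten letters -/
inductive Lx
  | a (j : Fin 2)
  | t (i : Fin 2)
  | s
  | u (i : Fin 2)
  | p
  | v
  | y
  deriving DecidableEq, Fintype

/-- the letters of the first group -/
inductive L1
  | a (j : Fin 2)
  | t (i : Fin 2)
  | s
  deriving DecidableEq, Fintype

/-- the letters of the free group of rank three -/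
inductive L3
  | u (i : Fin 2)
  | p
  deriving DecidableEq, Fintype

/-- the letters of the first group as letters -/
def L1.x : L1 → Lx
  | .a j => .a j
  | .t i => .t i
  | .s => .s

/-- the letters of the free group of rank three as letters -/
def L3.x : L3 → Lx
  | .u i => .u i
  | .p => .p

/-- the indices of the relators with a given top letter -/
def Ix : Lx → Type
  | .a _ => Empty
  | .t _ => Fin 2
  | .s => Fin 2
  | .u _ => L1
  | .p => L1
  | .v => L1 ⊕ L3
  | .y => Option L1

instance : ∀ x, Fintype (Ix x)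
  | .a _ => inferInstanceAs (Fintype Empty)
  | .t _ => inferInstanceAs (Fintype (Fin 2))
  | .s => inferInstanceAs (Fintype (Fin 2))
  | .u _ => inferInstanceAs (Fintype L1)
  | .p => inferInstanceAs (Fintype L1)
  | .v => inferInstanceAs (Fintype (L1 ⊕ L3))
  | .y => inferInstanceAs (Fintype (Option L1))

instance : ∀ x, DecidableEq (Ix x)
  | .a _ => inferInstanceAs (DecidableEq Empty)
  | .t _ => inferInstanceAs (DecidableEq (Fin 2))
  | .s => inferInstanceAs (DecidableEq (Fin 2))
  | .u _ => inferInstanceAs (DecidableEq L1)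
  | .p => inferInstanceAs (DecidableEq L1)
  | .v => inferInstanceAs (DecidableEq (L1 ⊕ L3))
  | .y => inferInstanceAs (DecidableEq (Option L1))

/-- the Fibonacci automorphism: `x0 ↦ x0 x1`, `x1 ↦ x0` -/
def fb {α : Type} (x : Fin 2 → α) (j : Fin 2) : List α := if j = 0 then [x 0, x 1] else [x 0]

/-- the words centralized by `y` -/
def yl : Option L1 → List Lx
  | none => [.p]
  | some (.a j) => [.a j]
  | some (.t i) => [.t i, .u i]
  | some .s => [.s, .v]

/-- the words `h` -/
def hl : ∀ x, Ix x → List Lx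
  | .t _, (j : Fin 2) => [.a j]
  | .s, (i : Fin 2) => [.t i]
  | .u _, (x : L1) => [x.x]
  | .p, (x : L1) => [x.x]
  | .v, Sum.inl x => [x.x]
  | .v, Sum.inr z => [z.x]
  | .y, (o : Option L1) => yl o

/-- the words `k` -/
def kl : ∀ x, Ix x → List Lx
  | .t _, (j : Fin 2) => fb Lx.a j
  | .s, (i : Fin 2) => fb Lx.t i
  | .u _, (x : L1) => [x.x]
  | .p, (x : L1) => [x.x]
  | .v, Sum.inl x => [x.x]
  | .v, Sum.inr (.u i) => fb Lx.u i
  | .v, Sum.inr .p => [.p]
  | .y, (o : Option L1) => yl o

/-- the indices of the relators -/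
abbrev Kx : Type := Σ x, Ix x

/-- the relator words -/
def rl (q : Kx) : List (Lx × Bool) :=
  (q.1, true) :: ((hl q.1 q.2).map (fun z => (z, true)) ++
    (q.1, false) :: (kl q.1 q.2).reverse.map (fun z => (z, false)))

/-- positive words -/
def pw {α : Type} (l : List α) : FreeGroup α := FreeGroup.mk (l.map (fun z => (z, true)))

theorem pw_inv {α : Type} (l : List α) :
    (pw l)⁻¹ = FreeGroup.mk (l.reverse.map (fun z => (z, false))) := by
  unfold pw
  rw [FreeGroup.inv_mk]
  simp [FreeGroup.invRev, Function.comp_def]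

/-- the words `h` as elements -/
def hx (x : Lx) (i : Ix x) : FreeGroup Lx := pw (hl x i)

/-- the words `k` as elements -/
def kx (x : Lx) (i : Ix x) : FreeGroup Lx := pw (kl x i)

theorem rW_rl : rW rl = trel hx kx := by
  funext q
  unfold rW rl trel hx kx
  rw [pw_inv]
  have e1 : (FreeGroup.of q.1)⁻¹ = FreeGroup.mk [(q.1, false)] := by
    simp [FreeGroup.of, FreeGroup.invRev]
  rw [e1]
  unfold FreeGroup.of pw
  rw [FreeGroup.mul_mk, FreeGroup.mul_mk, FreeGroup.mul_mk]
  congr 1
  simp

theorem pw_nil {α : Type} : (pw [] : FreeGroup α) = 1 := FreeGroup.one_eq_mk.symm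

theorem pw_cons {α : Type} (a : α) (l : List α) : pw (a :: l) = FreeGroup.of a * pw l := by
  unfold pw FreeGroup.of
  rw [FreeGroup.mul_mk]
  rfl

/-- the rank of a letter -/
def rkx : Lx → ℕ
  | .a _ => 0
  | .t _ => 1
  | .s => 2
  | .u _ => 3
  | .p => 3
  | .v => 4
  | .y => 5

theorem pw_mem {α : Type} (S : Set α) (l : List α) (h : ∀ z ∈ l, z ∈ S) :
    pw l ∈ Subgroup.closure (FreeGroup.of '' S) := by
  induction l with
  | nil => rw [pw_nil]; exact Subgroup.one_mem _
  | cons a l ih =>
    rw [pw_cons]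
    refine Subgroup.mul_mem _ (Subgroup.subset_closure ⟨a, h a (by simp), rfl⟩) (ih ?_)
    intro z hz
    exact h z (by simp [hz])

theorem yl_rk (o : Option L1) : ∀ z ∈ yl o, rkx z < 5 := by
  rcases o with _ | ⟨j | i | _⟩ <;> simp [yl, rkx]

theorem L1_rk (x : L1) : rkx x.x < 3 := by
  cases x <;> simp [L1.x, rkx]

theorem L3_rk (x : L3) : rkx x.x = 3 := by
  cases x <;> simp [L3.x, rkx]

theorem fb_mem {α : Type} (x : Fin 2 → α) (j : Fin 2) : ∀ z ∈ fb x j, ∃ i, z = x i := by
  intro z hz
  unfold fb at hz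
  split_ifs at hz
  · simp only [List.mem_cons, List.not_mem_nil, or_false] at hz
    rcases hz with rfl | rfl
    · exact ⟨0, rfl⟩
    · exact ⟨1, rfl⟩
  · simp only [List.mem_cons, List.not_mem_nil, or_false] at hz
    exact ⟨0, hz⟩

theorem hl_rk : ∀ (x : Lx) (i : Ix x), ∀ z ∈ hl x i, rkx z < rkx x
  | .t _, (j : Fin 2) => by simp [hl, rkx]
  | .s, (i : Fin 2) => by simp [hl, rkx]
  | .u _, (x : L1) => by
    intro z hz
    simp only [hl, List.mem_singleton] at hz
    rw [hz]
    exact L1_rk x
  | .p, (x : L1) => by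
    intro z hz
    simp only [hl, List.mem_singleton] at hz
    rw [hz]
    exact L1_rk x
  | .v, Sum.inl x => by
    intro z hz
    simp only [hl, List.mem_singleton] at hz
    rw [hz]
    exact (L1_rk x).trans (by simp [rkx])
  | .v, Sum.inr z => by
    intro z' hz
    simp only [hl, List.mem_singleton] at hz
    rw [hz, L3_rk]
    simp [rkx]
  | .y, (o : Option L1) => yl_rk o

theorem kl_rk : ∀ (x : Lx) (i : Ix x), ∀ z ∈ kl x i, rkx z < rkx x
  | .t _, (j : Fin 2) => by
    intro z hz
    obtain ⟨i, rfl⟩ := fb_mem _ j z hz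
    simp [rkx]
  | .s, (i : Fin 2) => by
    intro z hz
    obtain ⟨i, rfl⟩ := fb_mem _ i z hz
    simp [rkx]
  | .u _, (x : L1) => by
    intro z hz
    simp only [kl, List.mem_singleton] at hz
    rw [hz]
    exact L1_rk x
  | .p, (x : L1) => by
    intro z hz
    simp only [kl, List.mem_singleton] at hz
    rw [hz]
    exact L1_rk x
  | .v, Sum.inl x => by
    intro z hz
    simp only [kl, List.mem_singleton] at hz
    rw [hz]
    exact (L1_rk x).trans (by simp [rkx])
  | .v, Sum.inr (.u i) => by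
    intro z hz
    obtain ⟨i, rfl⟩ := fb_mem _ i z hz
    simp [rkx]
  | .v, Sum.inr .p => by simp [kl, rkx]
  | .y, (o : Option L1) => yl_rk o

theorem hx_mem (x : Lx) (i : Ix x) : hx x i ∈ Subgroup.closure (FreeGroup.of '' {z | rkx z < rkx x}) :=
  pw_mem _ _ (hl_rk x i)

theorem kx_mem (x : Lx) (i : Ix x) : kx x i ∈ Subgroup.closure (FreeGroup.of '' {z | rkx z < rkx x}) :=
  pw_mem _ _ (kl_rk x i)

theorem yl_len (o : Option L1) : (yl o).length ≤ 2 := by
  rcases o with _ | ⟨j | i | _⟩ <;> simp [yl]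

theorem fb_len {α : Type} (x : Fin 2 → α) (j : Fin 2) : (fb x j).length ≤ 2 := by
  unfold fb
  split_ifs <;> simp

theorem hl_len : ∀ (x : Lx) (i : Ix x), (hl x i).length ≤ 2
  | .t _, (j : Fin 2) => by simp [hl]
  | .s, (i : Fin 2) => by simp [hl]
  | .u _, (x : L1) => by simp [hl]
  | .p, (x : L1) => by simp [hl]
  | .v, Sum.inl x => by simp [hl]
  | .v, Sum.inr z => by simp [hl]
  | .y, (o : Option L1) => yl_len o

theorem kl_len : ∀ (x : Lx) (i : Ix x), (kl x i).length ≤ 2
  | .t _, (j : Fin 2) => fb_len _ j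
  | .s, (i : Fin 2) => fb_len _ i
  | .u _, (x : L1) => by simp [kl]
  | .p, (x : L1) => by simp [kl]
  | .v, Sum.inl x => by simp [kl]
  | .v, Sum.inr (.u i) => fb_len _ i
  | .v, Sum.inr .p => by simp [kl]
  | .y, (o : Option L1) => yl_len o

theorem rl_len (q : Kx) : (rl q).length ≤ 6 := by
  have h1 := hl_len q.1 q.2
  have h2 := kl_len q.1 q.2
  simp only [rl, List.length_cons, List.length_append, List.length_map, List.length_reverse]
  omega

theorem rl_red (q : Kx) : FreeGroup.IsReduced (rl q) := by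
  unfold rl FreeGroup.IsReduced
  obtain ⟨x, i⟩ := q
  match x, i with
  | .t i0, (j : Fin 2) =>
    fin_cases j <;> simp [hl, kl, fb]
  | .s, (i : Fin 2) =>
    fin_cases i <;> simp [hl, kl, fb]
  | .u i, (x : L1) => cases x <;> simp [hl, kl, L1.x]
  | .p, (x : L1) => cases x <;> simp [hl, kl, L1.x]
  | .v, Sum.inl x => cases x <;> simp [hl, kl, L1.x]
  | .v, Sum.inr (.u i) => fin_cases i <;> simp [hl, kl, fb, L3.x]
  | .v, Sum.inr .p => simp [hl, kl, L3.x]
  | .y, none => simp [hl, kl, yl]
  | .y, some (.a j) => simp [hl, kl, yl]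
  | .y, some (.t j) => simp [hl, kl, yl]
  | .y, some .s => simp [hl, kl, yl]

/-- the words are good -/
theorem goodx : Good rl := good_of rl_len rl_red

/-- the group `Q` -/
abbrev Qx : Type := PresentedGroup (Set.range (trel hx kx))

/-- the generators of `Q` -/
def gx (x : Lx) : Qx := PresentedGroup.of x

theorem lift_gx (w : FreeGroup Lx) : FreeGroup.lift gx w = PresentedGroup.mk _ w := by
  have : FreeGroup.lift gx = PresentedGroup.mk (Set.range (trel hx kx)) := by
    ext x
    simp [gx, PresentedGroup.of]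
  rw [this]

theorem gx_sur : Function.Surjective (FreeGroup.lift gx) := by
  intro q
  obtain ⟨w, hw⟩ := PresentedGroup.mk_surjective (Set.range (trel hx kx)) q
  exact ⟨w, by rw [lift_gx, hw]⟩

theorem gx_ker (w : FreeGroup Lx) (h : FreeGroup.lift gx w = 1) :
    w ∈ Subgroup.normalClosure (Set.range (trel hx kx)) := by
  rw [lift_gx] at h
  exact PresentedGroup.mk_eq_one_iff.mp h

theorem gx_rel (q : Kx) : FreeGroup.lift gx (trel hx kx q) = 1 := by
  rw [lift_gx]
  exact PresentedGroup.one_of_mem ⟨q, rfl⟩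

end Pool.Agent.TH95
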