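import Pool.Agent.TH95.SD.QDef

/-!
The hypotheses of the tower theorem for the group `Q`.
-/

set_option autoImplicit false

set_option linter.unusedSectionVars false

noncomputable section

namespace Pool.Agent.TH95

theorem lift_pw {α G : Type} [Group G] (f : α → G) (l : List α) :
    FreeGroup.lift f (pw l) = (l.map f).prod := by
  induction l with
  | nil => simp [pw_nil]
  | cons a l ih => rw [pw_cons, map_mul, ih]; simp

/-- homomorphisms out of `Q` -/
theorem exists_hom {G : Type} [Group G] (f : Lx → G)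
    (h : ∀ x i, f x * FreeGroup.lift f (hx x i) * (f x)⁻¹ = FreeGroup.lift f (kx x i)) :
    ∃ F : Qx →* G, ∀ w, F (FreeGroup.lift gx w) = FreeGroup.lift f w := by
  have h1 : ∀ r ∈ Set.range (trel hx kx), FreeGroup.lift f r = 1 := by
    rintro _ ⟨q, rfl⟩
    unfold trel
    rw [map_mul, map_mul, map_mul, map_inv, map_inv, FreeGroup.lift_apply_of, h, mul_inv_cancel]
  refine ⟨PresentedGroup.toGroup h1, fun w => ?_⟩
  have : (PresentedGroup.toGroup h1).comp (FreeGroup.lift gx) = FreeGroup.lift f := by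
    ext x
    simp only [MonoidHom.comp_apply, FreeGroup.lift_apply_of, gx]
    exact PresentedGroup.toGroup.of h1
  exact DFunLike.congr_fun this w

theorem lift_lift {α β G : Type} [Group G] (f : β → FreeGroup α) (g : α → G) (w : FreeGroup β) :
    FreeGroup.lift g (FreeGroup.lift f w) = FreeGroup.lift (fun b => FreeGroup.lift g (f b)) w := by
  have : (FreeGroup.lift g).comp (FreeGroup.lift f) =
      FreeGroup.lift (fun b => FreeGroup.lift g (f b)) := by
    ext b
    simp
  exact DFunLike.congr_fun this w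

theorem map_lift {β G G' : Type} [Group G] [Group G'] (f : β → G) (F : G →* G') (w : FreeGroup β) :
    F (FreeGroup.lift f w) = FreeGroup.lift (fun b => F (f b)) w := by
  have : F.comp (FreeGroup.lift f) = FreeGroup.lift (fun b => F (f b)) := by
    ext b
    simp
  exact DFunLike.congr_fun this w

theorem commute_lift {α β G : Type} [Group G] (f : α → G) (g : β → G)
    (h : ∀ a b, Commute (f a) (g b)) (u : FreeGroup α) (v : FreeGroup β) :
    Commute (FreeGroup.lift f u) (FreeGroup.lift g v) := by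
  have h1 : ∀ (a : α) (v : FreeGroup β), Commute (f a) (FreeGroup.lift g v) := by
    intro a v
    induction v using FreeGroup.induction_on with
    | C1 => simp
    | of b => simpa using h a b
    | inv_of b ih => rw [map_inv]; exact ih.inv_right
    | mul x y hx hy => rw [map_mul]; exact hx.mul_right hy
  induction u using FreeGroup.induction_on with
  | C1 => simp
  | of b => simpa using h1 b v
  | inv_of b ih => rw [map_inv]; exact ih.inv_left
  | mul x y hx hy => rw [map_mul]; exact hx.mul_left hy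

/-! ### The Fibonacci automorphisms -/

/-- the free group of rank two -/
abbrev F2 : Type := FreeGroup (Fin 2)

/-- the Fibonacci automorphism of the free group of rank two -/
def fbE : MulAut F2 := MonoidHom.toMulEquiv (FreeGroup.lift (fun j => pw (fb id j)))
  (FreeGroup.lift (fun j => if j = 0 then FreeGroup.of 1 else (FreeGroup.of 1)⁻¹ * FreeGroup.of 0))
  (by
    ext j
    fin_cases j <;> simp [fb, pw_cons, pw_nil])
  (by
    ext j
    fin_cases j <;> simp [fb, pw_cons, pw_nil])

theorem fbE_of (j : Fin 2) : fbE (FreeGroup.of j) = pw (fb id j) := by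
  show FreeGroup.lift (fun j => pw (fb id j)) (FreeGroup.of j) = _
  simp

/-- the images of the letters -/
def fb3 : L3 → FreeGroup L3
  | .u i => pw (fb L3.u i)
  | .p => FreeGroup.of .p

/-- the images of the letters under the inverse -/
def fb3i : L3 → FreeGroup L3
  | .u i => if i = 0 then FreeGroup.of (.u 1) else (FreeGroup.of (.u 1))⁻¹ * FreeGroup.of (.u 0)
  | .p => FreeGroup.of .p

/-- the Fibonacci automorphism of the free group of rank three -/
def fbE3 : MulAut (FreeGroup L3) := MonoidHom.toMulEquiv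
  (FreeGroup.lift fb3) (FreeGroup.lift fb3i)
  (by
    ext z
    rcases z with i | _
    · fin_cases i <;> simp [fb3, fb3i, fb, pw_cons, pw_nil]
    · simp [fb3, fb3i])
  (by
    ext z
    rcases z with i | _
    · fin_cases i <;> simp [fb3, fb3i, fb, pw_cons, pw_nil]
    · simp [fb3, fb3i])

theorem fbE3_u (i : Fin 2) : fbE3 (FreeGroup.of (.u i)) = pw (fb L3.u i) := by
  show FreeGroup.lift fb3 (FreeGroup.of (L3.u i)) = _
  simp [fb3]

theorem fbE3_p : fbE3 (FreeGroup.of .p) = FreeGroup.of .p := by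
  show FreeGroup.lift fb3 (FreeGroup.of L3.p) = _
  simp [fb3]

/-! ### Actions of `Q` -/

/-- the exponent sum -/
def ex : F2 →* Multiplicative ℤ := FreeGroup.lift (fun _ => Multiplicative.ofAdd 1)

/-- the exponent sum -/
def exZ (w : F2) : ℤ := Multiplicative.toAdd (ex w)

theorem exZ_mul (v w : F2) : exZ (v * w) = exZ v + exZ w := by simp [exZ]
theorem exZ_inv (w : F2) : exZ w⁻¹ = -exZ w := by simp [exZ]
@[simp] theorem exZ_one : exZ 1 = 0 := by simp [exZ]
@[simp] theorem exZ_of (j : Fin 2) : exZ (FreeGroup.of j) = 1 := by simp [exZ, ex]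

/-- the space -/
abbrev Om : Type := F2 × F2

/-- the action of the letters `t` -/
def actT : F2 →* Equiv.Perm Om where
  toFun w := ⟨fun p => (w * p.1, p.2), fun p => (w⁻¹ * p.1, p.2), fun p => by simp, fun p => by simp⟩
  map_one' := by ext p <;> simp
  map_mul' u v := by ext p <;> simp [mul_assoc]

/-- the action of the letters `a` -/
def actA : F2 →* Equiv.Perm Om where
  toFun w := ⟨fun p => (p.1, (fbE ^ (-exZ p.1)) w * p.2), fun p => (p.1, ((fbE ^ (-exZ p.1)) w)⁻¹ * p.2),
    fun p => by simp, fun p => by simp⟩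
  map_one' := by ext p <;> simp
  map_mul' u v := by ext p <;> simp [mul_assoc]

/-- the action of the letter `s` -/
def actS : Equiv.Perm Om :=
  ⟨fun p => (fbE p.1, p.2), fun p => (fbE⁻¹ p.1, p.2), fun p => by
    ext1
    · exact fbE.symm_apply_apply p.1
    · rfl, fun p => by
    ext1
    · exact fbE.apply_symm_apply p.1
    · rfl⟩

theorem actT_apply (w : F2) (p : Om) : actT w p = (w * p.1, p.2) := rfl
theorem actA_apply (w : F2) (p : Om) : actA w p = (p.1, (fbE ^ (-exZ p.1)) w * p.2) := rfl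
theorem actS_apply (p : Om) : actS p = (fbE p.1, p.2) := rfl

/-- the action on the letters -/
def xi : Lx → Equiv.Perm Om
  | .a j => actA (FreeGroup.of j)
  | .t i => actT (FreeGroup.of i)
  | .s => actS
  | _ => 1

theorem actT_A (i : Fin 2) (w : F2) :
    actT (FreeGroup.of i) * actA w = actA (fbE w) * actT (FreeGroup.of i) := by
  ext1 p
  show actT (FreeGroup.of i) (actA w p) = actA (fbE w) (actT (FreeGroup.of i) p)
  rw [actA_apply, actT_apply, actT_apply, actA_apply]
  simp only [exZ_mul, exZ_of]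
  have : (fbE ^ (-(1 + exZ p.1))) (fbE w) = (fbE ^ (-exZ p.1)) w := by
    rw [← MulAut.mul_apply, ← zpow_add_one]
    congr 2
    ring
  rw [this]

theorem actS_T (w : F2) : actS * actT w = actT (fbE w) * actS := by
  ext1 p
  show actS (actT w p) = actT (fbE w) (actS p)
  rw [actT_apply, actS_apply, actS_apply, actT_apply, map_mul]

theorem hom_pw {α G : Type} [Group G] (F : FreeGroup α →* G) (l : List α) :
    F (pw l) = (l.map (fun a => F (FreeGroup.of a))).prod := by
  induction l with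
  | nil => simp [pw_nil]
  | cons a l ih => rw [pw_cons, map_mul, ih]; simp

theorem xi_fba (j : Fin 2) : FreeGroup.lift xi (pw (fb Lx.a j)) = actA (fbE (FreeGroup.of j)) := by
  rw [fbE_of, lift_pw, hom_pw]
  fin_cases j <;> simp [fb, xi]

theorem xi_fbt (j : Fin 2) : FreeGroup.lift xi (pw (fb Lx.t j)) = actT (fbE (FreeGroup.of j)) := by
  rw [fbE_of, lift_pw, hom_pw]
  fin_cases j <;> simp [fb, xi]

theorem xi_rel : ∀ (x : Lx) (i : Ix x),
    xi x * FreeGroup.lift xi (hx x i) * (xi x)⁻¹ = FreeGroup.lift xi (kx x i)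
  | .t i, (j : Fin 2) => by
    show xi (.t i) * FreeGroup.lift xi (pw [Lx.a j]) * (xi (.t i))⁻¹ =
      FreeGroup.lift xi (pw (fb Lx.a j))
    rw [xi_fba, lift_pw, mul_inv_eq_iff_eq_mul]
    simpa [xi] using actT_A i (FreeGroup.of j)
  | .s, (j : Fin 2) => by
    show xi .s * FreeGroup.lift xi (pw [Lx.t j]) * (xi .s)⁻¹ =
      FreeGroup.lift xi (pw (fb Lx.t j))
    rw [xi_fbt, lift_pw, mul_inv_eq_iff_eq_mul]
    simpa [xi] using actS_T (FreeGroup.of j)
  | .u _, (x : L1) => by
    show (1 : Equiv.Perm Om) * _ * 1⁻¹ = _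
    rw [one_mul, inv_one, mul_one]
    rfl
  | .p, (x : L1) => by
    show (1 : Equiv.Perm Om) * _ * 1⁻¹ = _
    rw [one_mul, inv_one, mul_one]
    rfl
  | .v, Sum.inl x => by
    show (1 : Equiv.Perm Om) * _ * 1⁻¹ = _
    rw [one_mul, inv_one, mul_one]
    rfl
  | .v, Sum.inr (.u i) => by
    show (1 : Equiv.Perm Om) * FreeGroup.lift xi (pw [Lx.u i]) * 1⁻¹ =
      FreeGroup.lift xi (pw (fb Lx.u i))
    rw [lift_pw, lift_pw]
    fin_cases i <;> simp [fb, xi]
  | .v, Sum.inr .p => by
    show (1 : Equiv.Perm Om) * _ * 1⁻¹ = _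
    rw [one_mul, inv_one, mul_one]
    rfl
  | .y, (o : Option L1) => by
    show (1 : Equiv.Perm Om) * _ * 1⁻¹ = _
    rw [one_mul, inv_one, mul_one]
    rfl

/-- left translations -/
def lm (G : Type) [Group G] : G →* Equiv.Perm G where
  toFun w := Equiv.mulLeft w
  map_one' := by ext p; simp
  map_mul' u v := by ext p; simp

theorem lm_inj (G : Type) [Group G] (w : G) (h : lm G w = 1) : w = 1 := by
  have := congrArg (fun e : Equiv.Perm G => e 1) h
  simpa [lm] using this

/-- the action on the free group of rank three -/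
def xi3 : Lx → Equiv.Perm (FreeGroup L3)
  | .u i => lm _ (FreeGroup.of (.u i))
  | .p => lm _ (FreeGroup.of .p)
  | .v => fbE3.toEquiv
  | _ => 1

theorem fbE3_lm (w : FreeGroup L3) :
    (fbE3.toEquiv : Equiv.Perm (FreeGroup L3)) * lm _ w = lm _ (fbE3 w) * fbE3.toEquiv := by
  ext1 p
  show fbE3 (w * p) = fbE3 w * fbE3 p
  rw [map_mul]

theorem xi3_fb (i : Fin 2) : FreeGroup.lift xi3 (pw (fb Lx.u i)) =
    lm _ (fbE3 (FreeGroup.of (.u i))) := by
  rw [fbE3_u, lift_pw, hom_pw]
  fin_cases i <;> simp [fb, xi3]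

theorem xi3_rel : ∀ (x : Lx) (i : Ix x),
    xi3 x * FreeGroup.lift xi3 (hx x i) * (xi3 x)⁻¹ = FreeGroup.lift xi3 (kx x i)
  | .t i, (j : Fin 2) => by
    show (1 : Equiv.Perm (FreeGroup L3)) * FreeGroup.lift xi3 (pw [Lx.a j]) * 1⁻¹ =
      FreeGroup.lift xi3 (pw (fb Lx.a j))
    rw [lift_pw, lift_pw]
    fin_cases j <;> simp [fb, xi3]
  | .s, (j : Fin 2) => by
    show (1 : Equiv.Perm (FreeGroup L3)) * FreeGroup.lift xi3 (pw [Lx.t j]) * 1⁻¹ =
      FreeGroup.lift xi3 (pw (fb Lx.t j))
    rw [lift_pw, lift_pw]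
    fin_cases j <;> simp [fb, xi3]
  | .u i, (x : L1) => by
    show xi3 (.u i) * FreeGroup.lift xi3 (pw [x.x]) * (xi3 (.u i))⁻¹ =
      FreeGroup.lift xi3 (pw [x.x])
    rw [lift_pw]
    cases x <;> simp [xi3, L1.x]
  | .p, (x : L1) => by
    show xi3 .p * FreeGroup.lift xi3 (pw [x.x]) * (xi3 .p)⁻¹ =
      FreeGroup.lift xi3 (pw [x.x])
    rw [lift_pw]
    cases x <;> simp [xi3, L1.x]
  | .v, Sum.inl x => by
    show xi3 .v * FreeGroup.lift xi3 (pw [x.x]) * (xi3 .v)⁻¹ =
      FreeGroup.lift xi3 (pw [x.x])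
    rw [lift_pw]
    cases x <;> simp [xi3, L1.x]
  | .v, Sum.inr (.u i) => by
    show xi3 .v * FreeGroup.lift xi3 (pw [Lx.u i]) * (xi3 .v)⁻¹ =
      FreeGroup.lift xi3 (pw (fb Lx.u i))
    rw [xi3_fb, lift_pw, mul_inv_eq_iff_eq_mul]
    simpa [xi3] using fbE3_lm (FreeGroup.of (.u i))
  | .v, Sum.inr .p => by
    show xi3 .v * FreeGroup.lift xi3 (pw [Lx.p]) * (xi3 .v)⁻¹ = FreeGroup.lift xi3 (pw [Lx.p])
    rw [lift_pw, mul_inv_eq_iff_eq_mul]
    have := fbE3_lm (FreeGroup.of .p)
    rw [fbE3_p] at this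
    simpa [xi3] using this
  | .y, (o : Option L1) => by
    show (1 : Equiv.Perm (FreeGroup L3)) * _ * 1⁻¹ = _
    rw [one_mul, inv_one, mul_one]
    rfl

/-! ### The first group -/

/-- the indices of the relators of the first group -/
inductive R1i
  | t (i j : Fin 2)
  | s (i : Fin 2)
  deriving DecidableEq, Fintype

/-- the relators of the first group -/
def R1 {α : Type} (c : L1 → FreeGroup α) : R1i → FreeGroup α
  | .t i j => c (.t i) * c (.a j) * (c (.t i))⁻¹ * (((fb (fun j => c (.a j)) j)).prod)⁻¹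
  | .s i => c .s * c (.t i) * (c .s)⁻¹ * (((fb (fun j => c (.t j)) i)).prod)⁻¹

theorem map_fb {α β : Type} (f : α → β) (x : Fin 2 → α) (j : Fin 2) :
    (fb x j).map f = fb (fun j => f (x j)) j := by
  unfold fb
  split_ifs <;> simp

theorem lift_R1 {α β : Type} (f : α → FreeGroup β) (c : L1 → FreeGroup α) (q : R1i) :
    FreeGroup.lift f (R1 c q) = R1 (fun x => FreeGroup.lift f (c x)) q := by
  cases q with
  | t i j => simp [R1, map_list_prod, map_fb]
  | s i => simp [R1, map_list_prod, map_fb]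

/-- the first group -/
abbrev X1 : Type := PresentedGroup (Set.range (R1 FreeGroup.of))

/-- the retraction to the first group on letters -/
def xi1 : Lx → X1
  | .a j => PresentedGroup.of (.a j)
  | .t i => PresentedGroup.of (.t i)
  | .s => PresentedGroup.of .s
  | _ => 1

theorem X1_t (i j : Fin 2) : (PresentedGroup.of (.t i) : X1) * PresentedGroup.of (.a j) *
    (PresentedGroup.of (.t i))⁻¹ = (fb (fun j => (PresentedGroup.of (L1.a j) : X1)) j).prod := by
  have h : PresentedGroup.mk (Set.range (R1 FreeGroup.of)) (R1 FreeGroup.of (.t i j)) = 1 :=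
    PresentedGroup.one_of_mem ⟨_, rfl⟩
  simp only [R1, map_mul, map_inv, map_list_prod, map_fb] at h
  exact mul_inv_eq_one.mp h

theorem X1_s (i : Fin 2) : (PresentedGroup.of .s : X1) * PresentedGroup.of (.t i) *
    (PresentedGroup.of .s)⁻¹ = (fb (fun j => (PresentedGroup.of (L1.t j) : X1)) i).prod := by
  have h : PresentedGroup.mk (Set.range (R1 FreeGroup.of)) (R1 FreeGroup.of (.s i)) = 1 :=
    PresentedGroup.one_of_mem ⟨_, rfl⟩
  simp only [R1, map_mul, map_inv, map_list_prod, map_fb] at h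
  exact mul_inv_eq_one.mp h

theorem xi1_rel : ∀ (x : Lx) (i : Ix x),
    xi1 x * FreeGroup.lift xi1 (hx x i) * (xi1 x)⁻¹ = FreeGroup.lift xi1 (kx x i)
  | .t i, (j : Fin 2) => by
    show xi1 (.t i) * FreeGroup.lift xi1 (pw [Lx.a j]) * (xi1 (.t i))⁻¹ =
      FreeGroup.lift xi1 (pw (fb Lx.a j))
    rw [lift_pw, lift_pw, map_fb]
    simpa [xi1] using X1_t i j
  | .s, (j : Fin 2) => by
    show xi1 .s * FreeGroup.lift xi1 (pw [Lx.t j]) * (xi1 .s)⁻¹ =
      FreeGroup.lift xi1 (pw (fb Lx.t j))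
    rw [lift_pw, lift_pw, map_fb]
    simpa [xi1] using X1_s j
  | .u _, (x : L1) => by
    show (1 : X1) * _ * 1⁻¹ = _
    rw [one_mul, inv_one, mul_one]
    rfl
  | .p, (x : L1) => by
    show (1 : X1) * _ * 1⁻¹ = _
    rw [one_mul, inv_one, mul_one]
    rfl
  | .v, Sum.inl x => by
    show (1 : X1) * _ * 1⁻¹ = _
    rw [one_mul, inv_one, mul_one]
    rfl
  | .v, Sum.inr (.u i) => by
    show (1 : X1) * FreeGroup.lift xi1 (pw [Lx.u i]) * 1⁻¹ =
      FreeGroup.lift xi1 (pw (fb Lx.u i))
    rw [lift_pw, lift_pw]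
    fin_cases i <;> simp [fb, xi1]
  | .v, Sum.inr .p => by
    show (1 : X1) * _ * 1⁻¹ = _
    rw [one_mul, inv_one, mul_one]
    rfl
  | .y, (o : Option L1) => by
    show (1 : X1) * _ * 1⁻¹ = _
    rw [one_mul, inv_one, mul_one]
    rfl

end Pool.Agent.TH95
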