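import Pool.Agent.TH95.SD.QW

/-!
The hypotheses of the tower theorem for the group `Q`, continued.
-/

set_option autoImplicit false

set_option linter.unusedSectionVars false

noncomputable section

namespace Pool.Agent.TH95

/-- commutators -/
def cm {G : Type} [Group G] (a b : G) : G := a * b * a⁻¹ * b⁻¹

theorem cm_eq_one {G : Type} [Group G] {a b : G} : cm a b = 1 ↔ Commute a b := by
  unfold cm
  rw [mul_inv_eq_one, mul_inv_eq_iff_eq_mul]
  exact Iff.rfl

/-- the relators of the subgroup of the letter `v` -/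
def Wv : Set (FreeGroup (L1 ⊕ L3)) :=
  Set.range (R1 (α := L1 ⊕ L3) (fun x => FreeGroup.of (Sum.inl x))) ∪
      {w | ∃ (z : L3) (x : L1), w = cm (FreeGroup.of (Sum.inr z)) (FreeGroup.of (Sum.inl x))}

/-- the relators of the subgroup of the letter `y` -/
def Wy : Set (FreeGroup (Option L1)) :=
  Set.range (R1 (α := Option L1) (fun x => FreeGroup.of (some x))) ∪
      ({w | ∃ j : Fin 2, w = cm (FreeGroup.of none) (FreeGroup.of (some (L1.a j)))} ∪
        {cm (FreeGroup.of none) (FreeGroup.of (some L1.s))})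

/-- the relators of the subgroups -/
def Wx : ∀ x, Set (FreeGroup (Ix x))
  | .a _ => ∅
  | .t _ => ∅
  | .s => ∅
  | .u _ => Set.range (R1 (α := L1) FreeGroup.of)
  | .p => Set.range (R1 (α := L1) FreeGroup.of)
  | .v => Wv
  | .y => Wy

/-- the homomorphism of the subgroup -/
abbrev kg (x : Lx) : FreeGroup (Ix x) →* Qx :=
  FreeGroup.lift (fun i => FreeGroup.lift gx (kx x i))

theorem hom_kg {G : Type} [Group G] (f : Lx → G) (F : Qx →* G)
    (hF : ∀ w, F (FreeGroup.lift gx w) = FreeGroup.lift f w) (x : Lx) (w : FreeGroup (Ix x)) :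
    F (kg x w) = FreeGroup.lift (fun i => FreeGroup.lift f (kx x i)) w := by
  rw [map_lift]
  simp only [hF]

theorem hW_t (i : Fin 2) (w : FreeGroup (Fin 2)) (h : kg (.t i) w = 1) : w = 1 := by
  obtain ⟨F, hF⟩ := exists_hom xi xi_rel
  have h1 := hom_kg xi F hF (.t i) w
  rw [h, map_one] at h1
  have h2 : FreeGroup.lift (fun j : Fin 2 => FreeGroup.lift xi (pw (fb Lx.a j))) w =
      actA (fbE w) := by
    simp only [xi_fba]
    have e : FreeGroup.lift (fun j => actA (fbE (FreeGroup.of j))) =
        actA.comp fbE.toMonoidHom := by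
      ext1 j
      simp
    exact DFunLike.congr_fun e w
  have h3 : actA (fbE w) = 1 := h2.symm.trans h1.symm
  have h4 := congrArg (fun e : Equiv.Perm Om => e (1, 1)) h3
  simp only [actA_apply, exZ_one, neg_zero, zpow_zero, MulAut.one_apply, mul_one,
    Equiv.Perm.coe_one, id_eq, Prod.mk.injEq, true_and] at h4
  exact (map_eq_one_iff fbE fbE.injective).mp h4

theorem hW_s (w : FreeGroup (Fin 2)) (h : kg .s w = 1) : w = 1 := by
  obtain ⟨F, hF⟩ := exists_hom xi xi_rel
  have h1 := hom_kg xi F hF .s w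
  rw [h, map_one] at h1
  have h2 : FreeGroup.lift (fun j : Fin 2 => FreeGroup.lift xi (pw (fb Lx.t j))) w =
      actT (fbE w) := by
    simp only [xi_fbt]
    have e : FreeGroup.lift (fun j => actT (fbE (FreeGroup.of j))) =
        actT.comp fbE.toMonoidHom := by
      ext1 j
      simp
    exact DFunLike.congr_fun e w
  have h3 : actT (fbE w) = 1 := h2.symm.trans h1.symm
  have h4 := congrArg (fun e : Equiv.Perm Om => e (1, 1)) h3
  simp only [actT_apply, mul_one, Equiv.Perm.coe_one, id_eq, Prod.mk.injEq, and_true] at h4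
  exact (map_eq_one_iff fbE fbE.injective).mp h4

theorem xi1_x (x : L1) : xi1 x.x = PresentedGroup.of x := by
  cases x <;> rfl

theorem hW_1 (w : FreeGroup L1)
    (h : FreeGroup.lift (fun x : L1 => FreeGroup.lift gx (pw [x.x])) w = 1) :
    w ∈ Subgroup.normalClosure (Set.range (R1 FreeGroup.of)) := by
  obtain ⟨F, hF⟩ := exists_hom xi1 xi1_rel
  have h1 : F (FreeGroup.lift (fun x : L1 => FreeGroup.lift gx (pw [x.x])) w) =
      PresentedGroup.mk _ w := by
    rw [map_lift]
    simp only [hF]
    simp only [lift_pw, List.map_cons, List.map_nil, List.prod_cons, List.prod_nil, mul_one,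
      xi1_x]
    have : FreeGroup.lift (fun x : L1 => (PresentedGroup.of x : X1)) =
      PresentedGroup.mk (Set.range (R1 FreeGroup.of)) := by
      ext x
      simp [PresentedGroup.of]
    exact DFunLike.congr_fun this w
  rw [h, map_one] at h1
  exact PresentedGroup.mk_eq_one_iff.mp h1.symm

/-- normal closures under homomorphisms -/
theorem nc_map {G H : Type} [Group G] [Group H] (f : G →* H) (S : Set G) (T : Set H)
    (h : ∀ s ∈ S, f s ∈ Subgroup.normalClosure T) (w : G) (hw : w ∈ Subgroup.normalClosure S) :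
    f w ∈ Subgroup.normalClosure T := by
  have : Subgroup.normalClosure S ≤ (Subgroup.normalClosure T).comap f :=
    Subgroup.normalClosure_le_normal h
  exact this hw

/-- homomorphisms which kill the relators kill the normal closure -/
theorem nc_one {G H : Type} [Group G] [Group H] (f : G →* H) (S : Set G)
    (h : ∀ s ∈ S, f s = 1) (w : G) (hw : w ∈ Subgroup.normalClosure S) : f w = 1 := by
  have : Subgroup.normalClosure S ≤ f.ker := Subgroup.normalClosure_le_normal h
  exact this hw

theorem hW_v (w : FreeGroup (L1 ⊕ L3)) (h : kg .v w = 1) :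
    w ∈ Subgroup.normalClosure Wv := by
  -- the two projections
  obtain ⟨F, hF⟩ := exists_hom xi1 xi1_rel
  have h1 := hom_kg xi1 F hF .v w
  rw [h, map_one] at h1
  obtain ⟨F3, hF3⟩ := exists_hom xi3 xi3_rel
  have h2 := hom_kg xi3 F3 hF3 .v w
  rw [h, map_one] at h2
  let w1 : FreeGroup L1 := FreeGroup.lift (Sum.elim FreeGroup.of (fun _ => 1)) w
  let w3 : FreeGroup L3 := FreeGroup.lift (Sum.elim (fun _ => 1) FreeGroup.of) w
  have h3 : PresentedGroup.mk (Set.range (R1 FreeGroup.of)) w1 = 1 := by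
    rw [h1]
    show PresentedGroup.mk (Set.range (R1 FreeGroup.of)) (FreeGroup.lift _ w) = _
    rw [map_lift]
    congr 1
    congr 1
    funext i
    rcases i with x | z
    · show PresentedGroup.mk _ (FreeGroup.of x) = FreeGroup.lift xi1 (pw [x.x])
      rw [lift_pw]
      simp [xi1_x, PresentedGroup.of]
    · show PresentedGroup.mk _ 1 = FreeGroup.lift xi1 (kx .v (Sum.inr z))
      rcases z with i | _
      · show PresentedGroup.mk _ 1 = FreeGroup.lift xi1 (pw (fb Lx.u i))
        rw [lift_pw, map_fb]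
        unfold fb
        split_ifs <;> simp [xi1]
      · show PresentedGroup.mk _ 1 = FreeGroup.lift xi1 (pw [Lx.p])
        rw [lift_pw]
        simp [xi1]
  have h4 : w3 = 1 := by
    have h5 : lm _ (fbE3 w3) = 1 := by
      rw [h2]
      show ((lm _).comp fbE3.toMonoidHom) (FreeGroup.lift _ w) = _
      rw [map_lift]
      congr 1
      congr 1
      funext i
      rcases i with x | z
      · show lm _ (fbE3 1) = FreeGroup.lift xi3 (pw [x.x])
        rw [lift_pw]
        cases x <;> simp [L1.x, xi3]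
      · show lm _ (fbE3 (FreeGroup.of z)) = FreeGroup.lift xi3 (kx .v (Sum.inr z))
        rcases z with i | _
        · exact (xi3_fb i).symm
        · show lm _ (fbE3 (FreeGroup.of .p)) = FreeGroup.lift xi3 (pw [Lx.p])
          rw [lift_pw, fbE3_p]
          simp [xi3]
    exact (map_eq_one_iff fbE3 fbE3.injective).mp (lm_inj _ _ h5)
  have h5 := PresentedGroup.mk_eq_one_iff.mp h3
  -- the product decomposition
  set Φ : FreeGroup (L1 ⊕ L3) →* PresentedGroup Wv := PresentedGroup.mk Wv with hΦ
  have hR : ∀ ρ ∈ Wv, Φ ρ = 1 := fun ρ hρ => PresentedGroup.one_of_mem hρ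
  have hc : ∀ (z : L3) (x : L1),
      Commute (Φ (FreeGroup.of (Sum.inr z))) (Φ (FreeGroup.of (Sum.inl x))) := by
    intro z x
    have := hR (cm (FreeGroup.of (Sum.inr z)) (FreeGroup.of (Sum.inl x))) (Or.inr ⟨z, x, rfl⟩)
    rw [← cm_eq_one, ← this]
    simp [cm]
  have key : ∀ w : FreeGroup (L1 ⊕ L3), Φ w =
      FreeGroup.lift (fun x => Φ (FreeGroup.of (Sum.inl x)))
        (FreeGroup.lift (Sum.elim FreeGroup.of (fun _ => 1)) w : FreeGroup L1) *
      FreeGroup.lift (fun z => Φ (FreeGroup.of (Sum.inr z)))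
        (FreeGroup.lift (Sum.elim (fun _ => 1) FreeGroup.of) w : FreeGroup L3) := by
    have hcc := commute_lift (fun z => Φ (FreeGroup.of (Sum.inr z)))
      (fun x => Φ (FreeGroup.of (Sum.inl x))) hc
    intro w
    induction w using FreeGroup.induction_on with
    | C1 => simp
    | of a => rcases a with x | z <;> simp
    | inv_of a ih => rcases a with x | z <;> simp
    | mul a b ha hb =>
      rw [map_mul, map_mul, map_mul, map_mul, map_mul, ha, hb]
      have := hcc (FreeGroup.lift (Sum.elim (fun _ => 1) FreeGroup.of) a)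
        (FreeGroup.lift (Sum.elim FreeGroup.of (fun _ => 1)) b)
      rw [mul_assoc, mul_assoc]
      congr 1
      rw [← mul_assoc, ← mul_assoc]
      congr 1
  have h6 := key w
  have h7 : FreeGroup.lift (fun z => Φ (FreeGroup.of (Sum.inr z))) w3 = 1 := by rw [h4, map_one]
  have h8 : FreeGroup.lift (fun x => Φ (FreeGroup.of (Sum.inl x))) w1 = 1 := by
    apply nc_one _ (Set.range (R1 FreeGroup.of)) _ _ h5
    rintro _ ⟨q, rfl⟩
    have := hR (R1 (fun x => FreeGroup.of (Sum.inl x)) q) (Or.inl ⟨q, rfl⟩)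
    rw [← this]
    have e : FreeGroup.lift (fun x => Φ (FreeGroup.of (Sum.inl x))) =
        Φ.comp (FreeGroup.lift (fun x : L1 => FreeGroup.of (Sum.inl x))) := by
      ext x
      simp
    rw [e, MonoidHom.comp_apply, lift_R1]
    simp
  have h9 : Φ w = 1 := by
    rw [h6]
    exact (congrArg₂ (· * ·) h8 h7).trans (one_mul 1)
  exact PresentedGroup.mk_eq_one_iff.mp h9

/-! ### The relations in the subgroups hold -/

/-- the group of the relators of rank less than `n` -/
abbrev Qn (n : ℕ) : Type := PresentedGroup (trel hx kx '' {q | rkx q.1 < n})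

/-- the generators -/
def gn (n : ℕ) : FreeGroup Lx →* Qn n := PresentedGroup.mk _

theorem gn_iff (n : ℕ) (w : FreeGroup Lx) : gn n w = 1 ↔
    w ∈ Subgroup.normalClosure (trel hx kx '' {q | rkx q.1 < n}) := PresentedGroup.mk_eq_one_iff

theorem gn_rel {n : ℕ} (x : Lx) (hn : rkx x < n) (i : Ix x) :
    gn n (FreeGroup.of x) * gn n (hx x i) * (gn n (FreeGroup.of x))⁻¹ = gn n (kx x i) := by
  have : gn n (trel hx kx ⟨x, i⟩) = 1 := PresentedGroup.one_of_mem ⟨⟨x, i⟩, hn, rfl⟩
  have e : trel hx kx ⟨x, i⟩ = FreeGroup.of x * hx x i * (FreeGroup.of x)⁻¹ * (kx x i)⁻¹ := rfl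
  rw [e, map_mul, map_mul, map_mul, map_inv, map_inv, mul_inv_eq_one] at this
  exact this

theorem pw_one {α : Type} (a : α) : pw [a] = FreeGroup.of a := by
  rw [pw_cons, pw_nil, mul_one]

/-- abbreviations for letters -/
abbrev lo (x : Lx) : FreeGroup Lx := FreeGroup.of x

theorem gn_t {n : ℕ} (hn : 1 < n) (i j : Fin 2) :
    gn n (lo (.t i)) * gn n (lo (.a j)) * (gn n (lo (.t i)))⁻¹ = gn n (pw (fb Lx.a j)) := by
  have := gn_rel (n := n) (.t i) hn j
  have e : hx (.t i) j = FreeGroup.of (.a j) := pw_one _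
  rw [e] at this
  exact this

theorem gn_s {n : ℕ} (hn : 2 < n) (i : Fin 2) :
    gn n (lo .s) * gn n (lo (.t i)) * (gn n (lo .s))⁻¹ = gn n (pw (fb Lx.t i)) := by
  have := gn_rel (n := n) .s hn i
  have e : hx .s i = FreeGroup.of (.t i) := pw_one _
  rw [e] at this
  exact this

theorem gn_u {n : ℕ} (hn : 3 < n) (i : Fin 2) (x : L1) :
    Commute (gn n (lo (.u i))) (gn n (lo x.x)) := by
  have := gn_rel (n := n) (.u i) hn x
  have e : hx (.u i) x = FreeGroup.of x.x := pw_one _
  have e' : kx (.u i) x = FreeGroup.of x.x := pw_one _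
  rw [e, e', mul_inv_eq_iff_eq_mul] at this
  exact this

theorem gn_p {n : ℕ} (hn : 3 < n) (x : L1) :
    Commute (gn n (lo .p)) (gn n (lo x.x)) := by
  have := gn_rel (n := n) .p hn x
  have e : hx .p x = FreeGroup.of x.x := pw_one _
  have e' : kx .p x = FreeGroup.of x.x := pw_one _
  rw [e, e', mul_inv_eq_iff_eq_mul] at this
  exact this

theorem gn_v {n : ℕ} (hn : 4 < n) (x : L1) :
    Commute (gn n (lo .v)) (gn n (lo x.x)) := by
  have := gn_rel (n := n) .v hn (Sum.inl x)
  have e : hx .v (Sum.inl x) = FreeGroup.of x.x := pw_one _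
  have e' : kx .v (Sum.inl x) = FreeGroup.of x.x := pw_one _
  rw [e, e', mul_inv_eq_iff_eq_mul] at this
  exact this

theorem gn_vp {n : ℕ} (hn : 4 < n) : Commute (gn n (lo .v)) (gn n (lo .p)) := by
  have := gn_rel (n := n) .v hn (Sum.inr .p)
  have e : hx .v (Sum.inr .p) = FreeGroup.of .p := pw_one _
  have e' : kx .v (Sum.inr .p) = FreeGroup.of .p := pw_one _
  rw [e, e', mul_inv_eq_iff_eq_mul] at this
  exact this

theorem gn_vu {n : ℕ} (hn : 4 < n) (i : Fin 2) :
    gn n (lo .v) * gn n (lo (.u i)) * (gn n (lo .v))⁻¹ = gn n (pw (fb Lx.u i)) := by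
  have := gn_rel (n := n) .v hn (Sum.inr (.u i))
  have e : hx .v (Sum.inr (.u i)) = FreeGroup.of (.u i) := pw_one _
  rw [e] at this
  exact this

/-- the relators of the first group hold -/
theorem gn_R1 {n : ℕ} (hn : 2 < n) (q : R1i) : gn n (R1 (fun x => lo x.x) q) = 1 := by
  cases q with
  | t i j =>
    have h := gn_t (n := n) (by omega) i j
    simp only [R1, map_mul, map_inv]
    rw [mul_inv_eq_one]
    refine h.trans ?_
    congr 1
    fin_cases j <;> simp [fb, pw_cons, pw_nil, lo, L1.x]
  | s i =>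
    have h := gn_s (n := n) hn i
    simp only [R1, map_mul, map_inv]
    rw [mul_inv_eq_one]
    refine h.trans ?_
    congr 1
    fin_cases i <;> simp [fb, pw_cons, pw_nil, lo, L1.x]

theorem hx_L1 : (fun x : L1 => pw [x.x]) = fun x => lo x.x := by
  funext x
  exact pw_one _

/-- the letters of the subgroup of `y` -/
theorem hx_y (o : Option L1) : hx .y o = pw (yl o) := rfl

theorem gn_R1y {n : ℕ} (hn : 4 < n) (q : R1i) :
    gn n (R1 (fun x => pw (yl (some x))) q) = 1 := by
  cases q with
  | t i j =>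
    have h := gn_t (n := n) (by omega) i j
    have hc := gn_u (n := n) (by omega) i (.a j)
    simp only [R1, map_mul, map_inv]
    rw [mul_inv_eq_one]
    have e1 : pw (yl (some (L1.t i))) = lo (.t i) * lo (.u i) := by
      simp [yl, pw_cons, pw_nil, lo]
    have e2 : pw (yl (some (L1.a j))) = lo (.a j) := pw_one _
    have e3 : (fb (fun j => pw (yl (some (L1.a j)))) j).prod = pw (fb Lx.a j) := by
      fin_cases j <;> simp [fb, pw_cons, pw_nil, yl]
    rw [e1, e2, e3, map_mul, ← h]
    have hc' : gn n (lo (.u i)) * gn n (lo (.a j)) = gn n (lo (.a j)) * gn n (lo (.u i)) := hc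
    calc gn n (lo (.t i)) * gn n (lo (.u i)) * gn n (lo (.a j)) *
          (gn n (lo (.t i)) * gn n (lo (.u i)))⁻¹
        = gn n (lo (.t i)) * (gn n (lo (.u i)) * gn n (lo (.a j))) *
          (gn n (lo (.t i)) * gn n (lo (.u i)))⁻¹ := by group
      _ = _ := by rw [hc']; group
  | s i =>
    have h := gn_s (n := n) (by omega) i
    have hv := gn_vu (n := n) hn i
    have c1 := gn_v (n := n) hn (.t i)
    have c2 : ∀ j : Fin 2, Commute (gn n (lo .s)) (gn n (lo (.u j))) :=
      fun j => (gn_u (n := n) (by omega) j .s).symm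
    have c2' : Commute (gn n (lo .s)) (gn n (pw (fb Lx.u i))) := by
      have : ∀ l : List (Fin 2), Commute (gn n (lo .s)) (gn n (pw (l.map Lx.u))) := by
        intro l
        induction l with
        | nil => simp [pw_nil]
        | cons a l ih =>
          rw [List.map_cons, pw_cons, map_mul]
          exact (c2 a).mul_right ih
      have h1 := this (fb id i)
      rw [map_fb] at h1
      exact h1
    simp only [R1, map_mul, map_inv]
    rw [mul_inv_eq_one]
    have e1 : pw (yl (some (L1.t i))) = lo (.t i) * lo (.u i) := by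
      simp [yl, pw_cons, pw_nil, lo]
    have e2 : pw (yl (some L1.s)) = lo .s * lo .v := by
      simp [yl, pw_cons, pw_nil, lo]
    have e3 : gn n (fb (fun j => pw (yl (some (L1.t j)))) i).prod =
        gn n (pw (fb Lx.t i)) * gn n (pw (fb Lx.u i)) := by
      fin_cases i
      · have c3 : gn n (lo (.u 0)) * gn n (lo (.t 1)) = gn n (lo (.t 1)) * gn n (lo (.u 0)) :=
          gn_u (n := n) (by omega) 0 (.t 1)
        simp only [fb, yl, pw_cons, pw_nil, mul_one, map_mul, Fin.zero_eta, ↓reduceIte,
          List.prod_cons, List.prod_nil]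
        simp only [lo] at c3
        simp only [mul_assoc]
        congr 1
        rw [← mul_assoc, c3, mul_assoc]
      · simp [fb, yl, pw_cons, pw_nil]
    rw [e1, e2, e3, map_mul, map_mul, ← h, ← hv]
    rw [← hv] at c2'
    set S := gn n (lo .s)
    set V := gn n (lo .v)
    set T := gn n (lo (.t i))
    set U := gn n (lo (.u i))
    have c1' : V * T = T * V := c1
    have c2'' : S * (V * U * V⁻¹) = (V * U * V⁻¹) * S := c2'
    calc S * V * (T * U) * (S * V)⁻¹ = S * (V * T) * U * V⁻¹ * S⁻¹ := by group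
      _ = S * T * ((V * U * V⁻¹) * S⁻¹) := by rw [c1']; group
      _ = S * T * (S⁻¹ * (V * U * V⁻¹)) := by
          congr 1
          rw [mul_inv_eq_iff_eq_mul, mul_assoc S⁻¹, ← c2'', inv_mul_cancel_left]
      _ = _ := by group

/-- the words `h` of the letter `v` -/
def hv : L1 ⊕ L3 → FreeGroup Lx := hx .v
/-- the words `k` of the letter `v` -/
def kv : L1 ⊕ L3 → FreeGroup Lx := kx .v
/-- the words of the letter `y` -/
def hy : Option L1 → FreeGroup Lx := hx .y

theorem hv_inl (x : L1) : hv (Sum.inl x) = lo x.x := pw_one _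
theorem hv_inr (z : L3) : hv (Sum.inr z) = lo z.x := pw_one _
theorem kv_inl (x : L1) : kv (Sum.inl x) = lo x.x := pw_one _

/-- the words `k` of the letter `v` -/
def kvl : L3 → List L3
  | .u i => fb L3.u i
  | .p => [.p]

theorem kv_inr (z : L3) : kv (Sum.inr z) = pw ((kvl z).map L3.x) := by
  rcases z with i | _
  · show pw (fb Lx.u i) = pw ((fb L3.u i).map L3.x)
    rw [map_fb]
    rfl
  · rfl

theorem hy_apply (o : Option L1) : hy o = pw (yl o) := rfl

/-- the relators of the subgroup of `v` hold -/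
theorem gn_Wv_h (w : FreeGroup (L1 ⊕ L3)) (hw : w ∈ Wv) :
    gn 4 (FreeGroup.lift hv w) = 1 := by
  rcases hw with ⟨q, rfl⟩ | ⟨z, x, rfl⟩
  · rw [lift_R1]
    simp only [FreeGroup.lift_apply_of, hv_inl]
    exact gn_R1 (by omega) q
  · have h1 : gn 4 (cm (lo z.x) (lo x.x)) = 1 := by
      have : Commute (gn 4 (lo z.x)) (gn 4 (lo x.x)) := by
        rcases z with i | _
        · exact gn_u (by omega) i x
        · exact gn_p (by omega) x
      rw [← cm_eq_one] at this
      rw [← this]
      simp only [cm, map_mul, map_inv]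
    have e : FreeGroup.lift hv (cm (FreeGroup.of (Sum.inr z)) (FreeGroup.of (Sum.inl x))) =
        cm (lo z.x) (lo x.x) := by
      unfold cm
      simp only [map_mul, map_inv, FreeGroup.lift_apply_of, hv_inl, hv_inr]
    rw [e]
    exact h1

theorem gn_pw_comm {n : ℕ} (hn : 3 < n) (l : List L3) (x : L1) :
    Commute (gn n (pw (l.map L3.x))) (gn n (lo x.x)) := by
  induction l with
  | nil => simp [pw_nil]
  | cons a l ih =>
    rw [List.map_cons, pw_cons, map_mul]
    refine Commute.mul_left ?_ ih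
    rcases a with i | _
    · exact gn_u hn i x
    · exact gn_p hn x

theorem gn_Wv_k (w : FreeGroup (L1 ⊕ L3)) (hw : w ∈ Wv) :
    gn 4 (FreeGroup.lift kv w) = 1 := by
  rcases hw with ⟨q, rfl⟩ | ⟨z, x, rfl⟩
  · rw [lift_R1]
    simp only [FreeGroup.lift_apply_of, kv_inl]
    exact gn_R1 (by omega) q
  · have h1 : gn 4 (cm (pw ((kvl z).map L3.x)) (lo x.x)) = 1 := by
      have := gn_pw_comm (n := 4) (by omega) (kvl z) x
      rw [← cm_eq_one] at this
      rw [← this]
      simp only [cm, map_mul, map_inv]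
    have e : FreeGroup.lift kv (cm (FreeGroup.of (Sum.inr z)) (FreeGroup.of (Sum.inl x))) =
        cm (pw ((kvl z).map L3.x)) (lo x.x) := by
      unfold cm
      simp only [map_mul, map_inv, FreeGroup.lift_apply_of, kv_inl, kv_inr]
    rw [e]
    exact h1

theorem gn_Wy (w : FreeGroup (Option L1)) (hw : w ∈ Wy) :
    gn 5 (FreeGroup.lift hy w) = 1 := by
  rcases hw with ⟨q, rfl⟩ | ⟨j, rfl⟩ | rfl
  · rw [lift_R1]
    simp only [FreeGroup.lift_apply_of, hy_apply]
    exact gn_R1y (by omega) q
  · have h1 : gn 5 (cm (lo .p) (lo (.a j))) = 1 := by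
      have := gn_p (n := 5) (by omega) (.a j)
      rw [← cm_eq_one] at this
      rw [← this]
      simp only [cm, map_mul, map_inv, L1.x]
    have e : FreeGroup.lift hy (cm (FreeGroup.of none) (FreeGroup.of (some (L1.a j)))) =
        cm (lo .p) (lo (.a j)) := by
      unfold cm
      simp only [map_mul, map_inv, FreeGroup.lift_apply_of, hy_apply, yl, pw_one]
    rw [e]
    exact h1
  · have h1 : gn 5 (cm (lo .p) (lo .s * lo .v)) = 1 := by
      have c1 := gn_p (n := 5) (by omega) .s
      have c2 := (gn_vp (n := 5) (by omega)).symm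
      have := c1.mul_right c2
      rw [← cm_eq_one] at this
      rw [← this]
      simp only [cm, map_mul, map_inv, L1.x]
    have e : FreeGroup.lift hy (cm (FreeGroup.of none) (FreeGroup.of (some L1.s))) =
        cm (lo .p) (lo .s * lo .v) := by
      unfold cm
      simp only [map_mul, map_inv, FreeGroup.lift_apply_of, hy_apply, yl, pw_cons, pw_nil, mul_one]
    rw [e]
    exact h1

/-! ### The subgroup centralized by `y` -/

/-- the homomorphism of the subgroup of `y` -/
abbrev kgy : FreeGroup (Option L1) →* Qx := FreeGroup.lift (fun o => FreeGroup.lift gx (hy o))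

/-- the relators of the subgroup of `y` hold in `Q` -/
theorem kg_Wy (w : FreeGroup (Option L1)) (hw : w ∈ Wy) : kgy w = 1 := by
  have h1 := (gn_iff 5 _).mp (gn_Wy w hw)
  have h2 : FreeGroup.lift gx (FreeGroup.lift hy w) = 1 := by
    apply nc_one _ _ _ _ h1
    rintro _ ⟨q, _, rfl⟩
    exact gx_rel q
  rw [lift_lift] at h2
  exact h2

end Pool.Agent.TH95
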