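import Pool.Agent.TH95.SD.QW2

/-!
The hypotheses of the tower theorem for the group `Q`: the subgroup centralized by `y`, and the
conclusion.
-/

set_option autoImplicit false

set_option linter.unusedSectionVars false

noncomputable section

namespace Pool.Agent.TH95

/-- the group of the relators of the subgroup centralized by `y` -/
abbrev HyG : Type := PresentedGroup Wy

/-- the quotient map -/
def Ph : FreeGroup (Option L1) →* HyG := PresentedGroup.mk Wy

theorem Ph_rel {w : FreeGroup (Option L1)} (h : w ∈ Wy) : Ph w = 1 := PresentedGroup.one_of_mem h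

/-- the subgroup of the letters `t` -/
def iT : F2 →* HyG := FreeGroup.lift (fun i => Ph (FreeGroup.of (some (.t i))))
/-- the subgroup of the letters `a` -/
def iA : F2 →* HyG := FreeGroup.lift (fun i => Ph (FreeGroup.of (some (.a i))))
/-- the letter `s` -/
def hs : HyG := Ph (FreeGroup.of (some .s))
/-- the letter `p` -/
def hp : HyG := Ph (FreeGroup.of none)

theorem iT_of (i : Fin 2) : iT (FreeGroup.of i) = Ph (FreeGroup.of (some (.t i))) := by simp [iT]
theorem iA_of (i : Fin 2) : iA (FreeGroup.of i) = Ph (FreeGroup.of (some (.a i))) := by simp [iA]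

theorem iT_A (i : Fin 2) (w : F2) :
    iT (FreeGroup.of i) * iA w * (iT (FreeGroup.of i))⁻¹ = iA (fbE w) := by
  have e : (MulAut.conj (iT (FreeGroup.of i))).toMonoidHom.comp iA = iA.comp fbE.toMonoidHom := by
    ext j
    show iT (FreeGroup.of i) * iA (FreeGroup.of j) * (iT (FreeGroup.of i))⁻¹ =
      iA (fbE (FreeGroup.of j))
    rw [fbE_of, hom_pw, iT_of]
    have h : Ph (R1 (fun x => FreeGroup.of (some x)) (.t i j)) = 1 := Ph_rel (Or.inl ⟨_, rfl⟩)
    simp only [R1, map_mul, map_inv, map_list_prod, map_fb] at h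
    rw [mul_inv_eq_one] at h
    rw [iA_of, h, map_fb]
    congr 1
  exact DFunLike.congr_fun e w

theorem iS_T (w : F2) : hs * iT w * hs⁻¹ = iT (fbE w) := by
  have e : (MulAut.conj hs).toMonoidHom.comp iT = iT.comp fbE.toMonoidHom := by
    ext j
    show hs * iT (FreeGroup.of j) * hs⁻¹ = iT (fbE (FreeGroup.of j))
    rw [fbE_of, hom_pw]
    have h : Ph (R1 (fun x => FreeGroup.of (some x)) (.s j)) = 1 := Ph_rel (Or.inl ⟨_, rfl⟩)
    simp only [R1, map_mul, map_inv, map_list_prod, map_fb] at h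
    rw [mul_inv_eq_one] at h
    rw [iT_of, hs, h, map_fb]
    congr 1
  exact DFunLike.congr_fun e w

theorem hp_A (w : F2) : Commute hp (iA w) := by
  have h1 : ∀ j, Commute hp (Ph (FreeGroup.of (some (.a j)))) := by
    intro j
    have h : Ph (cm (FreeGroup.of none) (FreeGroup.of (some (L1.a j)))) = 1 :=
      Ph_rel (Or.inr (Or.inl ⟨j, rfl⟩))
    rw [← cm_eq_one, ← h]
    unfold cm
    simp only [map_mul, map_inv]
    rfl
  have := commute_lift (fun _ : Unit => hp) (fun i => Ph (FreeGroup.of (some (.a i))))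
    (fun _ j => h1 j) (FreeGroup.of ()) w
  simpa [iA] using this

theorem hp_s : Commute hp hs := by
  have h : Ph (cm (FreeGroup.of none) (FreeGroup.of (some L1.s))) = 1 :=
    Ph_rel (Or.inr (Or.inr rfl))
  rw [← cm_eq_one, ← h]
  unfold cm
  simp only [map_mul, map_inv]
  rfl

theorem iT_A' (τ : F2) : ∀ w : F2, iT τ * iA w * (iT τ)⁻¹ = iA ((fbE ^ exZ τ) w) := by
  induction τ using FreeGroup.induction_on with
  | C1 => intro w; simp
  | of i => intro w; rw [iT_A]; simp
  | inv_of i ih =>
    intro w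
    have h := iT_A i (fbE⁻¹ w)
    have e : fbE (fbE⁻¹ w) = w := by rw [← MulAut.mul_apply, mul_inv_cancel, MulAut.one_apply]
    rw [e] at h
    rw [exZ_inv, exZ_of, zpow_neg_one, map_inv, ← h]
    group
  | mul x y hx hy =>
    intro w
    rw [map_mul, exZ_mul, zpow_add, MulAut.mul_apply, ← hx, ← hy]
    group

/-- the conjugates of `p` -/
def cp (τ : F2) : HyG := iT τ * hp * (iT τ)⁻¹

/-- the normal closure of `p` -/
def Kp : Subgroup HyG := Subgroup.closure (Set.range cp)

theorem cp_mem (τ : F2) : cp τ ∈ Kp := Subgroup.subset_closure ⟨τ, rfl⟩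

theorem cp_T (σ τ : F2) : iT σ * cp τ * (iT σ)⁻¹ = cp (σ * τ) := by
  unfold cp
  rw [map_mul]
  group

theorem cp_A (w τ : F2) : Commute (iA w) (cp τ) := by
  have h := iT_A' τ ((fbE ^ exZ τ)⁻¹ w)
  have e : (fbE ^ exZ τ) ((fbE ^ exZ τ)⁻¹ w) = w := by
    rw [← MulAut.mul_apply, mul_inv_cancel, MulAut.one_apply]
  rw [e] at h
  rw [← h]
  unfold cp
  exact Commute.conj (hp_A _).symm _

theorem cp_s (τ : F2) : hs * cp τ * hs⁻¹ = cp (fbE τ) := by
  unfold cp
  rw [← iS_T]
  have h : hs * hp = hp * hs := hp_s.symm.eq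
  calc hs * (iT τ * hp * (iT τ)⁻¹) * hs⁻¹ = hs * iT τ * (hs⁻¹ * (hs * hp)) * (iT τ)⁻¹ * hs⁻¹ := by
        group
    _ = hs * iT τ * (hs⁻¹ * (hp * hs)) * (iT τ)⁻¹ * hs⁻¹ := by rw [h]
    _ = _ := by group

theorem norm_of (g : HyG) (h1 : ∀ τ, g * cp τ * g⁻¹ ∈ Kp) (h2 : ∀ τ, g⁻¹ * cp τ * g ∈ Kp) :
    g ∈ Subgroup.normalizer (Kp : Set HyG) := by
  apply mem_normalizer_of
  · intro n hn
    unfold Kp at hn
    induction hn using Subgroup.closure_induction with
    | mem y hy =>
      obtain ⟨τ, rfl⟩ := hy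
      exact h1 τ
    | one => simp
    | mul a b _ _ ha hb =>
      have := Subgroup.mul_mem _ ha hb
      simpa [mul_assoc] using this
    | inv a _ ha =>
      have := Subgroup.inv_mem _ ha
      simpa [mul_assoc] using this
  · intro n hn
    unfold Kp at hn
    induction hn using Subgroup.closure_induction with
    | mem y hy =>
      obtain ⟨τ, rfl⟩ := hy
      exact h2 τ
    | one => simp
    | mul a b _ _ ha hb =>
      have := Subgroup.mul_mem _ ha hb
      simpa [mul_assoc] using this
    | inv a _ ha =>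
      have := Subgroup.inv_mem _ ha
      simpa [mul_assoc] using this

theorem Kp_all (w : FreeGroup (Option L1)) : Ph w ∈ Subgroup.normalizer (Kp : Set HyG) := by
  induction w using FreeGroup.induction_on with
  | C1 => simp
  | of o =>
    rcases o with _ | ⟨j | i | _⟩
    · apply Subgroup.le_normalizer
      have := cp_mem 1
      rw [cp, map_one, one_mul, inv_one, mul_one] at this
      exact this
    · apply norm_of
      · intro τ
        have h := cp_A (FreeGroup.of j) τ
        rw [iA_of] at h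
        rw [h.eq, mul_inv_cancel_right]
        exact cp_mem τ
      · intro τ
        have h := cp_A (FreeGroup.of j) τ
        rw [iA_of] at h
        rw [mul_assoc, ← h.eq, inv_mul_cancel_left]
        exact cp_mem τ
    · apply norm_of
      · intro τ
        have h := cp_T (FreeGroup.of i) τ
        rw [iT_of] at h
        rw [h]
        exact cp_mem _
      · intro τ
        have h := cp_T (FreeGroup.of i)⁻¹ τ
        rw [map_inv, iT_of, inv_inv] at h
        rw [h]
        exact cp_mem _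
    · apply norm_of
      · intro τ
        have h := cp_s τ
        rw [hs] at h
        rw [h]
        exact cp_mem _
      · intro τ
        have h := cp_s (fbE⁻¹ τ)
        have e : fbE (fbE⁻¹ τ) = τ := by rw [← MulAut.mul_apply, mul_inv_cancel, MulAut.one_apply]
        rw [hs, e] at h
        rw [← h]
        have := cp_mem (fbE⁻¹ τ)
        have e2 : (Ph (FreeGroup.of (some L1.s)))⁻¹ * (Ph (FreeGroup.of (some L1.s)) *
          cp (fbE⁻¹ τ) * (Ph (FreeGroup.of (some L1.s)))⁻¹) * Ph (FreeGroup.of (some L1.s)) =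
            cp (fbE⁻¹ τ) := by group
        rw [e2]
        exact this
  | inv_of a ih => rw [map_inv]; exact Subgroup.inv_mem _ ih
  | mul a b ha hb => rw [map_mul]; exact Subgroup.mul_mem _ ha hb

theorem Kp_normal : Kp.Normal := by
  rw [← Subgroup.normalizer_eq_top_iff, eq_top_iff]
  intro p _
  obtain ⟨w, rfl⟩ := PresentedGroup.mk_surjective Wy p
  exact Kp_all w

theorem hW_y (w : FreeGroup (Option L1)) (h : kgy w = 1) :
    w ∈ Subgroup.normalClosure Wy := by
  have hN := Kp_normal
  -- the projection to the first group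
  obtain ⟨F, hF⟩ := exists_hom xi1 xi1_rel
  let w1 : FreeGroup L1 := FreeGroup.lift (fun o : Option L1 => o.elim 1 FreeGroup.of) w
  have h3 : PresentedGroup.mk (Set.range (R1 FreeGroup.of)) w1 = 1 := by
    have h1 : F (kgy w) = 1 := by rw [h, map_one]
    rw [map_lift] at h1
    simp only [hF] at h1
    rw [← h1]
    show PresentedGroup.mk (Set.range (R1 FreeGroup.of)) (FreeGroup.lift _ w) = _
    rw [map_lift]
    congr 1
    congr 1
    funext o
    rw [hy_apply, lift_pw]
    rcases o with _ | ⟨j | i | _⟩ <;> simp [yl, xi1, PresentedGroup.of]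
  have h5 := PresentedGroup.mk_eq_one_iff.mp h3
  have h6 : Ph (FreeGroup.lift (fun x : L1 => FreeGroup.of (some x)) w1) = 1 := by
    apply nc_one (Ph.comp (FreeGroup.lift (fun x : L1 => FreeGroup.of (some x))))
      (Set.range (R1 FreeGroup.of)) _ _ h5
    rintro _ ⟨q, rfl⟩
    rw [MonoidHom.comp_apply, lift_R1]
    simp only [FreeGroup.lift_apply_of]
    exact Ph_rel (Or.inl ⟨q, rfl⟩)
  have h7 : Ph w ∈ Kp := by
    have e : (QuotientGroup.mk' Kp).comp Ph = (QuotientGroup.mk' Kp).comp
        (Ph.comp ((FreeGroup.lift (fun x : L1 => FreeGroup.of (some x))).comp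
          (FreeGroup.lift (fun o : Option L1 => o.elim 1 FreeGroup.of)))) := by
      ext o
      rcases o with _ | x
      · simp only [MonoidHom.comp_apply, FreeGroup.lift_apply_of, Option.elim_none, map_one]
        have := cp_mem 1
        rw [cp, map_one, one_mul, inv_one, mul_one, hp] at this
        exact (QuotientGroup.eq_one_iff _).mpr this
      · simp
    have h8 := DFunLike.congr_fun e w
    have h9 : (QuotientGroup.mk' Kp) (Ph w) = 1 := by
      refine h8.trans ?_
      show (QuotientGroup.mk' Kp) (Ph (FreeGroup.lift _ w1)) = 1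
      rw [h6, map_one]
    exact (QuotientGroup.eq_one_iff _).mp h9
  -- the free subgroup
  let f3 : L3 → HyG := fun z => match z with
    | .u i => Ph (FreeGroup.of (some (.t i)))
    | .p => hp
  let i3 : FreeGroup L3 →* HyG := FreeGroup.lift f3
  have h8 : Kp ≤ i3.range := by
    unfold Kp
    rw [Subgroup.closure_le]
    rintro _ ⟨τ, rfl⟩
    have e : ∀ τ, i3 (FreeGroup.lift (fun i => FreeGroup.of (.u i)) τ) = iT τ := by
      intro τ
      have : i3.comp (FreeGroup.lift (fun i => FreeGroup.of (.u i))) = iT := by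
        ext i
        simp [i3, f3, iT]
      exact DFunLike.congr_fun this τ
    refine ⟨FreeGroup.lift (fun i => FreeGroup.of (.u i)) τ * FreeGroup.of .p *
      (FreeGroup.lift (fun i => FreeGroup.of (.u i)) τ)⁻¹, ?_⟩
    rw [map_mul, map_mul, map_inv, e]
    have e2 : i3 (FreeGroup.of .p) = hp := by simp [i3, f3]
    rw [e2]
    rfl
  obtain ⟨ω, hω⟩ := h8 h7
  obtain ⟨F3, hF3⟩ := exists_hom xi3 xi3_rel
  have hrel : ∀ r ∈ Wy, FreeGroup.lift (fun o => F3 (FreeGroup.lift gx (hy o))) r = 1 := by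
    intro r hr
    rw [← map_lift, kg_Wy r hr, map_one]
  let Ξ : HyG →* Equiv.Perm (FreeGroup L3) := PresentedGroup.toGroup hrel
  have hΞ : ∀ o, Ξ (Ph (FreeGroup.of o)) = F3 (FreeGroup.lift gx (hy o)) := by
    intro o
    exact PresentedGroup.toGroup.of hrel
  have hΞ2 : ∀ w, Ξ (Ph w) = F3 (kgy w) := by
    intro w
    have : Ξ.comp Ph = F3.comp kgy := by
      ext1 o
      rw [MonoidHom.comp_apply, hΞ, MonoidHom.comp_apply, FreeGroup.lift_apply_of]
    exact DFunLike.congr_fun this w
  have h9 : Ξ (i3 ω) = lm _ ω := by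
    have : Ξ.comp i3 = lm (FreeGroup L3) := by
      ext1 z
      rcases z with i | _
      · have : Ξ (Ph (FreeGroup.of (some (.t i)))) = lm _ (FreeGroup.of (.u i)) := by
          rw [hΞ, hF3, hy_apply, lift_pw]
          simp [yl, xi3]
        simpa [i3, f3] using this
      · have : Ξ (Ph (FreeGroup.of none)) = lm _ (FreeGroup.of .p) := by
          rw [hΞ, hF3, hy_apply, lift_pw]
          simp [yl, xi3]
        simpa [i3, f3, hp] using this
    exact DFunLike.congr_fun this ω
  rw [hω, hΞ2, h, map_one] at h9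
  have h10 : ω = 1 := lm_inj _ _ h9.symm
  rw [h10, map_one] at hω
  exact PresentedGroup.mk_eq_one_iff.mp hω.symm

/-- the hypothesis on the kernels -/
theorem hWx : ∀ (x : Lx) (w : FreeGroup (Ix x)), kg x w = 1 → w ∈ Subgroup.normalClosure (Wx x)
  | .a _, w, _ => by
    have : w = 1 := by
      have : IsEmpty (Ix (.a 0)) := inferInstanceAs (IsEmpty Empty)
      exact @Subsingleton.elim (FreeGroup Empty) inferInstance w 1
    rw [this]
    exact Subgroup.one_mem _
  | .t i, w, h => by
    have : w = 1 := hW_t i w h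
    rw [this]
    exact Subgroup.one_mem _
  | .s, w, h => by
    have : w = 1 := hW_s w h
    rw [this]
    exact Subgroup.one_mem _
  | .u _, w, h => hW_1 w h
  | .p, w, h => hW_1 w h
  | .v, w, h => hW_v w h
  | .y, w, h => hW_y w h

theorem lift_L1 (w : FreeGroup L1) (hw : w ∈ Set.range (R1 (α := L1) FreeGroup.of)) :
    gn 3 (FreeGroup.lift (fun x : L1 => pw [x.x]) w) = 1 := by
  obtain ⟨q, rfl⟩ := hw
  rw [lift_R1]
  simp only [FreeGroup.lift_apply_of, pw_one]
  exact gn_R1 (by omega) q

/-- the hypothesis on the relators -/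
theorem hWx1 : ∀ (x : Lx) (w : FreeGroup (Ix x)), w ∈ Wx x →
    FreeGroup.lift (hx x) w ∈ Subgroup.normalClosure (trel hx kx '' {q | rkx q.1 < rkx x})
  | .u _, w, hw => (gn_iff 3 _).mp (lift_L1 w hw)
  | .p, w, hw => (gn_iff 3 _).mp (lift_L1 w hw)
  | .v, w, hw => (gn_iff 4 _).mp (gn_Wv_h w hw)
  | .y, w, hw => (gn_iff 5 _).mp (gn_Wy w hw)
  | .a _, _, hw => absurd hw (Set.notMem_empty _)
  | .t _, _, hw => absurd hw (Set.notMem_empty _)
  | .s, _, hw => absurd hw (Set.notMem_empty _)

/-- the hypothesis on the relators -/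
theorem hWx2 : ∀ (x : Lx) (w : FreeGroup (Ix x)), w ∈ Wx x →
    FreeGroup.lift (kx x) w ∈ Subgroup.normalClosure (trel hx kx '' {q | rkx q.1 < rkx x})
  | .u _, w, hw => (gn_iff 3 _).mp (lift_L1 w hw)
  | .p, w, hw => (gn_iff 3 _).mp (lift_L1 w hw)
  | .v, w, hw => (gn_iff 4 _).mp (gn_Wv_k w hw)
  | .y, w, hw => (gn_iff 5 _).mp (gn_Wy w hw)
  | .a _, _, hw => absurd hw (Set.notMem_empty _)
  | .t _, _, hw => absurd hw (Set.notMem_empty _)
  | .s, _, hw => absurd hw (Set.notMem_empty _)

/-- the identity sequences of the tower generate -/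
theorem towerx :
    ∃ U : ∀ x, FreeGroup (Ix x) → Seq Lx Kx,
      (∀ x, ∀ w ∈ Wx x, rho (trel hx kx) (U x w) = 1 ∧
        (∀ i, chn gx (U x w) ⟨x, i⟩ = fox (fun i => FreeGroup.lift gx (kx x i)) w i) ∧
        ∀ (z : Lx) (j : Ix z), z ≠ x → rkx x ≤ rkx z → chn gx (U x w) ⟨z, j⟩ = 0) ∧
      ∀ β : Kx → ZR Qx, bd (trel hx kx) gx β = 0 →
        β ∈ Submodule.span (ZR Qx) {γ | ∃ x, ∃ w ∈ Wx x, γ = chn gx (U x w)} :=
  tower hx kx rkx gx gx_rel hx_mem kx_mem Wx hWx hWx1 hWx2

end Pool.Agent.TH95
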