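import Mathlib
import Pool.Agent.W387.SqMedian
import Pool.Agent.W387.Join

/-!
A Rips-Wise type construction with one-vertex square complexes: definitions.

The data are a finite set `X` of letters, a finite set `K` of indices and reduced words `r k` of
length at most six.
-/

set_option autoImplicit false

set_option linter.unusedSectionVars false

namespace Pool.Agent.TH95

/-! ### Square complexes of vertical and horizontal edges -/

/-- A one-vertex square complex with vertical edges `V` (oriented) and horizontal darts `H`;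
`up v h' = some (h, v')` and `dn v h = some (h', v')` both say that there is a square `v h = h' v'`. -/
structure VH (V H : Type) where
  /-- the reversed dart -/
  inv : H → H
  inv_inv : ∀ h, inv (inv h) = h
  /-- the squares given by their left and bottom edges -/
  up : V → H → Option (H × V)
  /-- the squares given by their left and top edges -/
  dn : V → H → Option (H × V)
  up_dn : ∀ v h' h v', up v h' = some (h, v') ↔ dn v h = some (h', v')
  refl : ∀ v h' h v', up v h' = some (h, v') → up v' (inv h') = some (inv h, v)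

/-- The conclusion about the geometry: `G` acts freely and with finitely many orbits on a locally
finite median graph which contains no `4`-dimensional cube. -/
def ActsOnMedian3 (G : Type) [Group G] : Prop :=
  ∃ (V : Type) (_ : MulAction G V) (Γ : SimpleGraph V),
    Nonempty V ∧ Γ.Connected ∧
    (∀ v : V, (Γ.neighborSet v).Finite) ∧
    (∀ x y z : V, ∃! m : V,
        Γ.dist x m + Γ.dist m y = Γ.dist x y ∧
        Γ.dist y m + Γ.dist m z = Γ.dist y z ∧
        Γ.dist x m + Γ.dist m z = Γ.dist x z) ∧
    (∀ (g : G) (u v : V), Γ.Adj u v → Γ.Adj (g • u) (g • v)) ∧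
    (∀ (g : G) (v : V), g • v = v → g = 1) ∧
    (∃ S : Finset V, ∀ v : V, ∃ g : G, ∃ s ∈ S, g • s = v) ∧
    ¬ ∃ q : (Fin 4 → Bool) → V, Function.Injective q ∧
      ∀ (x : Fin 4 → Bool) (i : Fin 4), Γ.Adj (q x) (q (Function.update x i (!x i)))

/-! ### The letters -/

/-- the letters generating, with the letters `c`, the kernel -/
inductive Bt (X : Type)
  | b (x : X × Bool)
  | e
  | f
  | g
  deriving DecidableEq

/-- the indices of the vertical letters `c` -/
inductive Ci (X K : Type)
  | cj (x : X × Bool) (β : Bt X)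
  | rel (k : K)
  deriving DecidableEq

/-- the vertical letters -/
inductive Vt (X K : Type)
  | c (l : Ci X K)
  | d (l : Ci X K) (x : X × Bool)
  | w (l : Ci X K) (i : Fin 7)
  deriving DecidableEq

/-- the horizontal letters -/
abbrev Ht (X : Type) : Type := X ⊕ Bt X

/-- the horizontal darts -/
abbrev HD (X : Type) : Type := Ht X × Bool

/-- reversed darts -/
def hinv {X : Type} (h : HD X) : HD X := (h.1, !h.2)

section words

variable {X K : Type} (r : K → List (X × Bool))

/-- the six inner letters of the top of the strip with index `l` -/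
def inner : Ci X K → Fin 6 → HD X
  | Ci.cj x β => ![(Sum.inr Bt.g, true), (Sum.inr Bt.g, true), (Sum.inr Bt.g, true),
      (Sum.inl x.1, x.2), (Sum.inr β, true), (Sum.inl x.1, !x.2)]
  | Ci.rel k => fun i =>
      if i.val + (r k).length < 6 then (Sum.inr Bt.g, true)
      else ((r k).map (fun p => ((Sum.inl p.1, p.2) : HD X))).getD (i.val + (r k).length - 6)
        (Sum.inr Bt.g, true)

/-- the top of the strip with index `l` -/
def top (l : Ci X K) : Fin 8 → HD X :=
  Fin.cons (Sum.inr Bt.e, true) (Fin.snoc (α := fun _ => HD X) (inner r l) (Sum.inr Bt.f, true))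

/-- the bottom of all strips -/
def bot : Fin 8 → HD X := fun i => if i = 7 then (Sum.inr Bt.f, true) else (Sum.inr Bt.e, true)

/-- the vertical letters of the strip with index `l` -/
def pos (l : Ci X K) : Fin 9 → Vt X K :=
  Fin.cons (Vt.c l) (Fin.snoc (α := fun _ => Vt X K) (fun i => Vt.w l i) (Vt.c l))

/-- the squares `v h = h' v'` with left edge `v`, bottom `h'`, top `h` and right edge `v'` -/
inductive Sq0 : Vt X K → HD X → HD X → Vt X K → Prop
  | p1 (l : Ci X K) (x : X × Bool) :
      Sq0 (Vt.c l) (Sum.inl x.1, x.2) (Sum.inl x.1, x.2) (Vt.d l x)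
  | p2 (l : Ci X K) (x : X × Bool) :
      Sq0 (Vt.d l x) (Sum.inr (Bt.b x), true) (Sum.inr (Bt.b x), true) (Vt.c l)
  | s (l : Ci X K) (i : Fin 8) : Sq0 (pos l i.castSucc) (bot i) (top r l i) (pos l i.succ)

/-- the squares and their reflections -/
def Sq (v : Vt X K) (h' h : HD X) (v' : Vt X K) : Prop :=
  Sq0 r v h' h v' ∨ Sq0 r v' (hinv h') (hinv h) v

/-! ### The presentation -/

/-- the letters of the presentation: vertical letters, horizontal letters, letters `z` -/
abbrev Lt (X K : Type) : Type := Vt X K ⊕ Ht X ⊕ K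

/-- vertical letters -/
def lv (v : Vt X K) : FreeGroup (Lt X K) := FreeGroup.of (Sum.inl v)

/-- horizontal letters -/
def lh (h : Ht X) : FreeGroup (Lt X K) := FreeGroup.of (Sum.inr (Sum.inl h))

/-- letters `z` -/
def lz (k : K) : FreeGroup (Lt X K) := FreeGroup.of (Sum.inr (Sum.inr k))

/-- the word of a horizontal dart -/
def hw (h : HD X) : FreeGroup (Lt X K) := if h.2 then lh h.1 else (lh h.1)⁻¹

/-- the correction terms -/
def corr : Ci X K → FreeGroup (Lt X K)
  | Ci.cj _ _ => 1
  | Ci.rel k => lz k

/-- the relators of the strips and the commutation relators of the letters `z` -/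
inductive RelT : FreeGroup (Lt X K) → Prop
  | p1 (l : Ci X K) (x : X × Bool) : RelT (lv (Vt.c l) * hw (Sum.inl x.1, x.2) *
      (hw (Sum.inl x.1, x.2) * lv (Vt.d l x))⁻¹)
  | p2 (l : Ci X K) (x : X × Bool) : RelT (lv (Vt.d l x) * lh (Sum.inr (Bt.b x)) *
      (lh (Sum.inr (Bt.b x)) * lv (Vt.c l))⁻¹)
  | s (l : Ci X K) (i : Fin 8) : RelT (lv (pos l i.castSucc) * hw (top r l i) *
      (hw (bot i) * lv (pos l i.succ) * (if i = 7 then corr l else 1))⁻¹)
  | zb (k : K) (β : Bt X) : RelT (lz k * lh (Sum.inr β) * (lh (Sum.inr β) * lz k)⁻¹)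
  | zc (k : K) (l : Ci X K) : RelT (lz k * lv (Vt.c l) * (lv (Vt.c l) * lz k)⁻¹)

end words

end Pool.Agent.TH95
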