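import Pool.Agent.TH95.SD.VHsys

/-!
The square complex of the Rips-Wise type construction.
-/

set_option autoImplicit false

set_option linter.unusedSectionVars false

namespace Pool.Agent.TH95

section

variable {X K : Type} (r : K → List (X × Bool))

/-- the squares, in a form suitable for case distinctions -/
inductive Sr : Vt X K → HD X → HD X → Vt X K → Prop
  | a (l : Ci X K) (x : X) (s : Bool) : Sr (Vt.c l) (Sum.inl x, s) (Sum.inl x, s) (Vt.d l (x, s))
  | a' (l : Ci X K) (x : X × Bool) :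
      Sr (Vt.d l x) (Sum.inr (Bt.b x), true) (Sum.inr (Bt.b x), true) (Vt.c l)
  | z (l : Ci X K) : Sr (Vt.c l) (Sum.inr Bt.e, true) (Sum.inr Bt.e, true) (Vt.w l 0)
  | m (l : Ci X K) (i : Fin 6) :
      Sr (Vt.w l i.castSucc) (Sum.inr Bt.e, true) (inner r l i) (Vt.w l i.succ)
  | y (l : Ci X K) : Sr (Vt.w l 6) (Sum.inr Bt.f, true) (Sum.inr Bt.f, true) (Vt.c l)
  | ar (l : Ci X K) (x : X) (s : Bool) :
      Sr (Vt.d l (x, s)) (Sum.inl x, !s) (Sum.inl x, !s) (Vt.c l)
  | ar' (l : Ci X K) (x : X × Bool) :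
      Sr (Vt.c l) (Sum.inr (Bt.b x), false) (Sum.inr (Bt.b x), false) (Vt.d l x)
  | zr (l : Ci X K) : Sr (Vt.w l 0) (Sum.inr Bt.e, false) (Sum.inr Bt.e, false) (Vt.c l)
  | mr (l : Ci X K) (i : Fin 6) :
      Sr (Vt.w l i.succ) (Sum.inr Bt.e, false) (hinv (inner r l i)) (Vt.w l i.castSucc)
  | yr (l : Ci X K) : Sr (Vt.c l) (Sum.inr Bt.f, false) (Sum.inr Bt.f, false) (Vt.w l 6)

@[simp] theorem hinv_hinv (h : HD X) : hinv (hinv h) = h := by
  obtain ⟨a, s⟩ := h
  simp [hinv]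

theorem hinv_inj {h h' : HD X} (e : hinv h = hinv h') : h = h' := by
  rw [← hinv_hinv h, e, hinv_hinv]

variable {r}

theorem Sr.refl {v v' : Vt X K} {h h' : HD X} (hs : Sr r v h' h v') :
    Sr r v' (hinv h') (hinv h) v := by
  cases hs with
  | a l x s => exact Sr.ar l x s
  | a' l x => exact Sr.ar' l x
  | z l => exact Sr.zr l
  | m l i => exact Sr.mr l i
  | y l => exact Sr.yr l
  | ar l x s =>
    have := Sr.a (r := r) l x s
    simpa [hinv] using this
  | ar' l x => exact Sr.a' l x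
  | zr l => exact Sr.z l
  | mr l i =>
    rw [hinv_hinv]
    exact Sr.m (r := r) l i
  | yr l => exact Sr.y l

theorem sq0_sr {v v' : Vt X K} {h h' : HD X} (hs : Sq0 r v h' h v') : Sr r v h' h v' := by
  cases hs with
  | p1 l x => exact Sr.a l x.1 x.2
  | p2 l x => exact Sr.a' l x
  | s l i =>
    fin_cases i
    · exact Sr.z l
    · exact Sr.m l 0
    · exact Sr.m l 1
    · exact Sr.m l 2
    · exact Sr.m l 3
    · exact Sr.m l 4
    · exact Sr.m l 5
    · exact Sr.y l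

theorem sr_sq {v v' : Vt X K} {h h' : HD X} (hs : Sr r v h' h v') : Sq r v h' h v' := by
  cases hs with
  | a l x s => exact Or.inl (Sq0.p1 l (x, s))
  | a' l x => exact Or.inl (Sq0.p2 l x)
  | z l => exact Or.inl (Sq0.s l 0)
  | m l i =>
    left
    fin_cases i
    · exact Sq0.s l 1
    · exact Sq0.s l 2
    · exact Sq0.s l 3
    · exact Sq0.s l 4
    · exact Sq0.s l 5
    · exact Sq0.s l 6
  | y l => exact Or.inl (Sq0.s l 7)
  | ar l x s =>
    right
    have := Sq0.p1 (r := r) l (x, s)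
    simpa [hinv] using this
  | ar' l x => exact Or.inr (Sq0.p2 l x)
  | zr l => exact Or.inr (Sq0.s l 0)
  | mr l i =>
    right
    rw [hinv_hinv]
    fin_cases i
    · exact Sq0.s l 1
    · exact Sq0.s l 2
    · exact Sq0.s l 3
    · exact Sq0.s l 4
    · exact Sq0.s l 5
    · exact Sq0.s l 6
  | yr l => exact Or.inr (Sq0.s l 7)

theorem sq_iff_sr {v v' : Vt X K} {h h' : HD X} : Sq r v h' h v' ↔ Sr r v h' h v' := by
  constructor
  · rintro (hs | hs)
    · exact sq0_sr hs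
    · have := (sq0_sr hs).refl
      simpa using this
  · exact sr_sq

/-- the conditions on the inner words -/
structure Good (r : K → List (X × Bool)) : Prop where
  c0 : ∀ l : Ci X K, inner r l 0 ≠ (Sum.inr Bt.e, false)
  c5 : ∀ l : Ci X K, inner r l 5 ≠ (Sum.inr Bt.f, false)
  cm : ∀ (l : Ci X K) (i : Fin 5), inner r l i.succ ≠ hinv (inner r l i.castSucc)

theorem Sr.elim {v v' : Vt X K} {h h' : HD X} (hs : Sr r v h' h v') :
    (∃ l x s, v = Vt.c l ∧ h' = (Sum.inl x, s) ∧ h = (Sum.inl x, s) ∧ v' = Vt.d l (x, s)) ∨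
    (∃ l x, v = Vt.d l x ∧ h' = (Sum.inr (Bt.b x), true) ∧ h = (Sum.inr (Bt.b x), true) ∧
      v' = Vt.c l) ∨
    (∃ l, v = Vt.c l ∧ h' = (Sum.inr Bt.e, true) ∧ h = (Sum.inr Bt.e, true) ∧ v' = Vt.w l 0) ∨
    (∃ l, ∃ i : Fin 6, v = Vt.w l i.castSucc ∧ h' = (Sum.inr Bt.e, true) ∧ h = inner r l i ∧
      v' = Vt.w l i.succ) ∨
    (∃ l, v = Vt.w l 6 ∧ h' = (Sum.inr Bt.f, true) ∧ h = (Sum.inr Bt.f, true) ∧ v' = Vt.c l) ∨
    (∃ l x s, v = Vt.d l (x, s) ∧ h' = (Sum.inl x, !s) ∧ h = (Sum.inl x, !s) ∧ v' = Vt.c l) ∨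
    (∃ l x, v = Vt.c l ∧ h' = (Sum.inr (Bt.b x), false) ∧ h = (Sum.inr (Bt.b x), false) ∧
      v' = Vt.d l x) ∨
    (∃ l, v = Vt.w l 0 ∧ h' = (Sum.inr Bt.e, false) ∧ h = (Sum.inr Bt.e, false) ∧ v' = Vt.c l) ∨
    (∃ l, ∃ i : Fin 6, v = Vt.w l i.succ ∧ h' = (Sum.inr Bt.e, false) ∧ h = hinv (inner r l i) ∧
      v' = Vt.w l i.castSucc) ∨
    (∃ l, v = Vt.c l ∧ h' = (Sum.inr Bt.f, false) ∧ h = (Sum.inr Bt.f, false) ∧
      v' = Vt.w l 6) := by
  cases hs with
  | a l x s => exact Or.inl ⟨l, x, s, rfl, rfl, rfl, rfl⟩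
  | a' l x => exact Or.inr (Or.inl ⟨l, x, rfl, rfl, rfl, rfl⟩)
  | z l => exact Or.inr (Or.inr (Or.inl ⟨l, rfl, rfl, rfl, rfl⟩))
  | m l i => exact Or.inr (Or.inr (Or.inr (Or.inl ⟨l, i, rfl, rfl, rfl, rfl⟩)))
  | y l => exact Or.inr (Or.inr (Or.inr (Or.inr (Or.inl ⟨l, rfl, rfl, rfl, rfl⟩))))
  | ar l x s =>
    exact Or.inr (Or.inr (Or.inr (Or.inr (Or.inr (Or.inl ⟨l, x, s, rfl, rfl, rfl, rfl⟩)))))
  | ar' l x =>
    exact Or.inr (Or.inr (Or.inr (Or.inr (Or.inr (Or.inr (Or.inl ⟨l, x, rfl, rfl, rfl, rfl⟩))))))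
  | zr l => exact Or.inr (Or.inr (Or.inr (Or.inr (Or.inr (Or.inr (Or.inr
      (Or.inl ⟨l, rfl, rfl, rfl, rfl⟩)))))))
  | mr l i => exact Or.inr (Or.inr (Or.inr (Or.inr (Or.inr (Or.inr (Or.inr (Or.inr
      (Or.inl ⟨l, i, rfl, rfl, rfl, rfl⟩))))))))
  | yr l => exact Or.inr (Or.inr (Or.inr (Or.inr (Or.inr (Or.inr (Or.inr (Or.inr
      (Or.inr ⟨l, rfl, rfl, rfl, rfl⟩))))))))

theorem Sr.uniq1 {v v1 v2 : Vt X K} {h' h1 h2 : HD X} (a : Sr r v h' h1 v1)
    (b : Sr r v h' h2 v2) : h1 = h2 ∧ v1 = v2 := by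
  rcases a.elim with ⟨l, x, s, rfl, rfl, rfl, rfl⟩ | ⟨l, x, rfl, rfl, rfl, rfl⟩ |
    ⟨l, rfl, rfl, rfl, rfl⟩ | ⟨l, i, rfl, rfl, rfl, rfl⟩ | ⟨l, rfl, rfl, rfl, rfl⟩ |
    ⟨l, x, s, rfl, rfl, rfl, rfl⟩ | ⟨l, x, rfl, rfl, rfl, rfl⟩ |
    ⟨l, rfl, rfl, rfl, rfl⟩ | ⟨l, i, rfl, rfl, rfl, rfl⟩ | ⟨l, rfl, rfl, rfl, rfl⟩ <;>
  rcases b.elim with ⟨l', x', s', e1, e2, e3, e4⟩ | ⟨l', x', e1, e2, e3, e4⟩ |
    ⟨l', e1, e2, e3, e4⟩ | ⟨l', i', e1, e2, e3, e4⟩ | ⟨l', e1, e2, e3, e4⟩ |
    ⟨l', x', s', e1, e2, e3, e4⟩ | ⟨l', x', e1, e2, e3, e4⟩ |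
    ⟨l', e1, e2, e3, e4⟩ | ⟨l', i', e1, e2, e3, e4⟩ | ⟨l', e1, e2, e3, e4⟩ <;>
  simp only [Vt.c.injEq, Vt.d.injEq, Vt.w.injEq, Prod.mk.injEq, Sum.inl.injEq, Sum.inr.injEq,
    Bt.b.injEq, reduceCtorEq, and_true, and_false, false_and, Fin.castSucc_inj,
    Fin.succ_inj, Bool.true_eq_false, Bool.false_eq_true] at e1 e2 <;>
  first
  | (subst_vars; simp_all; done)
  | exact absurd e1.2.symm (Fin.succ_ne_zero _)

theorem Good.aux (hg : Good r) (l : Ci X K) (i i' : Fin 6) (h : i.castSucc = i'.succ) :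
    inner r l i ≠ hinv (inner r l i') := by
  have h1 := congrArg Fin.val h
  simp only [Fin.val_castSucc, Fin.val_succ] at h1
  have h2 : i'.val < 5 := by
    have := i.2
    omega
  obtain ⟨j, rfl⟩ : ∃ j : Fin 5, i' = j.castSucc := ⟨⟨i'.val, h2⟩, Fin.ext (by simp)⟩
  obtain rfl : i = j.succ := Fin.ext (by simpa using h1)
  exact hg.cm l _

theorem Sr.uniq2 (hg : Good r) {v v1 v2 : Vt X K} {h h1 h2 : HD X} (a : Sr r v h1 h v1)
    (b : Sr r v h2 h v2) : h1 = h2 ∧ v1 = v2 := by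
  have g0 := hg.c0
  have g5 := hg.c5
  have gm := hg.cm
  rcases a.elim with ⟨l, x, s, rfl, rfl, rfl, rfl⟩ | ⟨l, x, rfl, rfl, rfl, rfl⟩ |
    ⟨l, rfl, rfl, rfl, rfl⟩ | ⟨l, i, rfl, rfl, rfl, rfl⟩ | ⟨l, rfl, rfl, rfl, rfl⟩ |
    ⟨l, x, s, rfl, rfl, rfl, rfl⟩ | ⟨l, x, rfl, rfl, rfl, rfl⟩ |
    ⟨l, rfl, rfl, rfl, rfl⟩ | ⟨l, i, rfl, rfl, rfl, rfl⟩ | ⟨l, rfl, rfl, rfl, rfl⟩ <;>
  rcases b.elim with ⟨l', x', s', e1, e3, e2, e4⟩ | ⟨l', x', e1, e3, e2, e4⟩ |
    ⟨l', e1, e3, e2, e4⟩ | ⟨l', i', e1, e3, e2, e4⟩ | ⟨l', e1, e3, e2, e4⟩ |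
    ⟨l', x', s', e1, e3, e2, e4⟩ | ⟨l', x', e1, e3, e2, e4⟩ |
    ⟨l', e1, e3, e2, e4⟩ | ⟨l', i', e1, e3, e2, e4⟩ | ⟨l', e1, e3, e2, e4⟩ <;>
  simp only [Vt.c.injEq, Vt.d.injEq, Vt.w.injEq, Prod.mk.injEq, Sum.inl.injEq, Sum.inr.injEq,
    Bt.b.injEq, reduceCtorEq, and_true, and_false, false_and, Fin.castSucc_inj,
    Fin.succ_inj, Bool.true_eq_false, Bool.false_eq_true] at e1 e2 <;>
  first
  | (subst_vars; simp_all; done)
  | skip
  · exfalso
    have := i.2
    have := congrArg Fin.val e1.2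
    simp at this
    omega
  · exfalso
    obtain ⟨rfl, e1⟩ := e1
    exact hg.aux _ _ _ e1 e2
  · exfalso
    have := i'.2
    have := congrArg Fin.val e1.2
    simp at this
    omega
  · exfalso
    obtain ⟨rfl, e1⟩ := e1
    obtain rfl : i' = 5 := Fin.ext (by
      have := congrArg Fin.val e1
      simp at this
      omega)
    exact g5 l (by rw [← hinv_hinv (inner r l 5), ← e2]; rfl)
  · exfalso
    obtain ⟨rfl, e1⟩ := e1
    obtain rfl : i' = 0 := Fin.ext (by
      have := congrArg Fin.val e1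
      simp at this
      omega)
    exact g0 l e2.symm
  · exfalso
    have := congrArg Fin.val e1.2
    simp at this
  · exfalso
    obtain ⟨rfl, e1⟩ := e1
    exact hg.aux _ _ _ e1.symm e2.symm
  · exfalso
    obtain ⟨rfl, e1⟩ := e1
    obtain rfl : i = 5 := Fin.ext (by
      have := congrArg Fin.val e1
      simp at this
      omega)
    exact g5 l (by rw [← hinv_hinv (inner r l 5), e2]; rfl)

open Classical in
/-- the square complex -/
noncomputable def ripsVH (hg : Good r) : VH (Vt X K) (HD X) where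
  inv := hinv
  inv_inv := hinv_hinv
  up := fun v h' => if hs : ∃ p : HD X × Vt X K, Sr r v h' p.1 p.2 then some hs.choose else none
  dn := fun v h => if hs : ∃ p : HD X × Vt X K, Sr r v p.1 h p.2 then some hs.choose else none
  up_dn := by
    intro v h' h v'
    have e1 : ∀ v h' h v', ((if hs : ∃ p : HD X × Vt X K, Sr r v h' p.1 p.2 then some hs.choose
        else none) = some (h, v')) ↔ Sr r v h' h v' := by
      intro v h' h v'
      constructor
      · intro h1
        split_ifs at h1 with hs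
        have h2 := hs.choose_spec
        rw [Option.some.inj h1] at h2
        exact h2
      · intro h1
        have hs : ∃ p : HD X × Vt X K, Sr r v h' p.1 p.2 := ⟨(h, v'), h1⟩
        rw [dif_pos hs]
        congr 1
        obtain ⟨h3, h4⟩ := hs.choose_spec.uniq1 h1
        exact Prod.ext h3 h4
    have e2 : ∀ v h' h v', ((if hs : ∃ p : HD X × Vt X K, Sr r v p.1 h p.2 then some hs.choose
        else none) = some (h', v')) ↔ Sr r v h' h v' := by
      intro v h' h v'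
      constructor
      · intro h1
        split_ifs at h1 with hs
        have h2 := hs.choose_spec
        rw [Option.some.inj h1] at h2
        exact h2
      · intro h1
        have hs : ∃ p : HD X × Vt X K, Sr r v p.1 h p.2 := ⟨(h', v'), h1⟩
        rw [dif_pos hs]
        congr 1
        obtain ⟨h3, h4⟩ := hs.choose_spec.uniq2 hg h1
        exact Prod.ext h3 h4
    rw [e1, e2]
  refl := by
    have e1 : ∀ v h' h v', ((if hs : ∃ p : HD X × Vt X K, Sr r v h' p.1 p.2 then some hs.choose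
        else none) = some (h, v')) ↔ Sr r v h' h v' := by
      intro v h' h v'
      constructor
      · intro h1
        split_ifs at h1 with hs
        have h2 := hs.choose_spec
        rw [Option.some.inj h1] at h2
        exact h2
      · intro h1
        have hs : ∃ p : HD X × Vt X K, Sr r v h' p.1 p.2 := ⟨(h, v'), h1⟩
        rw [dif_pos hs]
        congr 1
        obtain ⟨h3, h4⟩ := hs.choose_spec.uniq1 h1
        exact Prod.ext h3 h4
    intro v h' h v' h1
    rw [e1] at h1 ⊢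
    exact h1.refl

theorem ripsVH_up (hg : Good r) (v : Vt X K) (h' h : HD X) (v' : Vt X K) :
    (ripsVH hg).up v h' = some (h, v') ↔ Sr r v h' h v' := by
  classical
  show ((if hs : ∃ p : HD X × Vt X K, Sr r v h' p.1 p.2 then some hs.choose
        else none) = some (h, v')) ↔ Sr r v h' h v'
  constructor
  · intro h1
    split_ifs at h1 with hs
    have h2 := hs.choose_spec
    rw [Option.some.inj h1] at h2
    exact h2
  · intro h1
    have hs : ∃ p : HD X × Vt X K, Sr r v h' p.1 p.2 := ⟨(h, v'), h1⟩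
    rw [dif_pos hs]
    congr 1
    obtain ⟨h3, h4⟩ := hs.choose_spec.uniq1 h1
    exact Prod.ext h3 h4

/-- the words are good if they are reduced of length at most six -/
theorem good_of (hlen : ∀ k, (r k).length ≤ 6)
    (hred : ∀ k, FreeGroup.IsReduced (r k)) : Good r where
  c0 := by
    rintro (⟨x, β⟩ | k)
    · show (Sum.inr Bt.g, true) ≠ _
      simp
    · simp only [inner]
      split_ifs with h
      · simp
      · rw [List.getD_eq_getElem?_getD, List.getElem?_map]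
        rcases (r k)[(0 : Fin 6).val + (r k).length - 6]? with _ | a
        · simp
        · simp
  c5 := by
    rintro (⟨x, β⟩ | k)
    · show (Sum.inl x.1, !x.2) ≠ _
      simp
    · simp only [inner]
      split_ifs with h
      · simp
      · rw [List.getD_eq_getElem?_getD, List.getElem?_map]
        rcases (r k)[(5 : Fin 6).val + (r k).length - 6]? with _ | a
        · simp
        · simp
  cm := by
    rintro (⟨x, β⟩ | k) i
    · fin_cases i
      · show (Sum.inr Bt.g, true) ≠ hinv (Sum.inr Bt.g, true)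
        simp [hinv]
      · show (Sum.inr Bt.g, true) ≠ hinv (Sum.inr Bt.g, true)
        simp [hinv]
      · show (Sum.inl x.1, x.2) ≠ hinv (Sum.inr Bt.g, true)
        simp [hinv]
      · show (Sum.inr β, true) ≠ hinv (Sum.inl x.1, x.2)
        simp [hinv]
      · show (Sum.inl x.1, !x.2) ≠ hinv (Sum.inr β, true)
        simp [hinv]
    · simp only [inner, Fin.val_succ, Fin.val_castSucc]
      have hl := hlen k
      split_ifs with h1 h2 h3
      · simp [hinv]
      · omega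
      · -- the first letter of the word
        rw [List.getD_eq_getElem?_getD, List.getElem?_map]
        rcases (r k)[i.val + 1 + (r k).length - 6]? with _ | a
        · simp [hinv]
        · simp [hinv]
      · have hn : i.val + (r k).length - 6 + 1 < (r k).length := by
          have := i.2
          omega
        have e1 : i.val + 1 + (r k).length - 6 = i.val + (r k).length - 6 + 1 := by omega
        rw [e1, List.getD_eq_getElem?_getD, List.getD_eq_getElem?_getD, List.getElem?_map,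
          List.getElem?_map, List.getElem?_eq_getElem hn,
          List.getElem?_eq_getElem (Nat.lt_of_succ_lt hn)]
        simp only [Option.map_some, Option.getD_some]
        have h4 := hred k
        rw [FreeGroup.IsReduced, List.isChain_iff_getElem] at h4
        have h5 := h4 (i.val + (r k).length - 6) hn
        intro h6
        simp only [hinv, Prod.mk.injEq, Sum.inl.injEq] at h6
        have h7 := h5 h6.1.symm
        rw [h7] at h6
        simp at h6

end

end Pool.Agent.TH95
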