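import Pool.Agent.TH95.SD.Fox

/-!
Exactness for towers of extensions of HNN type.
-/

set_option autoImplicit false

set_option linter.unusedSectionVars false

noncomputable section

namespace Pool.Agent.TH95

section exact

variable {Q I : Type} [Group Q]

theorem fox_conj (g : I → Q) (u w : FreeGroup I) (hw : FreeGroup.lift g w = 1) :
    fox g (u * w * u⁻¹) = el (FreeGroup.lift g u) • fox g w := by
  rw [fox_mul, fox_mul, fox_inv, map_mul, hw, mul_one, smul_neg, smul_smul, el_mul_inv, one_smul]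
  abel

/-- the derivatives of elements of the normal closure -/
theorem fox_mem_span (g : I → Q) (W : Set (FreeGroup I)) (hW : ∀ w ∈ W, FreeGroup.lift g w = 1)
    (w : FreeGroup I) (hw : w ∈ Subgroup.normalClosure W) :
    fox g w ∈ Submodule.span (ZR Q) (fox g '' W) := by
  have h1 : ∀ w ∈ Subgroup.normalClosure W, FreeGroup.lift g w = 1 := by
    intro w hw
    have : Subgroup.normalClosure W ≤ (FreeGroup.lift g).ker :=
      Subgroup.normalClosure_le_normal (fun w hw => hW w hw)
    exact this hw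
  unfold Subgroup.normalClosure at hw
  induction hw using Subgroup.closure_induction with
  | mem x hx =>
    obtain ⟨r, hr, hc⟩ := Group.mem_conjugatesOfSet_iff.mp hx
    obtain ⟨c, hc⟩ := isConj_iff.mp hc
    rw [← hc, fox_conj g c r (hW r hr)]
    exact Submodule.smul_mem _ _ (Submodule.subset_span ⟨r, hr, rfl⟩)
  | one => simp
  | mul x y hx' hy' hx hy =>
    rw [fox_mul, h1 x hx', el_one, one_smul]
    exact Submodule.add_mem _ hx hy
  | inv x hx' hx =>
    rw [fox_inv, h1 x hx', inv_one, el_one, one_smul]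
    exact Submodule.neg_mem _ hx

/-- exactness for the presentation of a subgroup -/
theorem ex_fox [Fintype I] (g : I → Q) (W : Set (FreeGroup I))
    (hW : ∀ w ∈ W, FreeGroup.lift g w = 1)
    (hW' : ∀ w, FreeGroup.lift g w = 1 → w ∈ Subgroup.normalClosure W)
    (γ : I → ZR Q) (hγ : ∑ i, γ i * (1 - el (g i)) = 0) :
    γ ∈ Submodule.span (ZR Q) (fox g '' W) := by
  classical
  -- the subgroup and its cosets
  set H : Subgroup Q := (FreeGroup.lift g).range with hH
  have hq : ∀ q : Q, ∃ w : FreeGroup I, q = (QuotientGroup.mk q : Q ⧸ H).out * FreeGroup.lift g w := by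
    intro q
    have h1 : (QuotientGroup.mk ((QuotientGroup.mk q : Q ⧸ H).out) : Q ⧸ H) = QuotientGroup.mk q :=
      Quotient.out_eq _
    rw [QuotientGroup.eq] at h1
    obtain ⟨w, hw⟩ := h1
    exact ⟨w, by rw [hw]; simp⟩
  choose σ hσ using hq
  let Ψ : Q → (I → ZR Q) := fun q => el ((QuotientGroup.mk q : Q ⧸ H).out) • fox g (σ q)
  let L0 : (Q →₀ ℤ) →+ (I → ZR Q) := Finsupp.liftAddHom (fun q =>
    (AddMonoidHom.flip (smulAddHom ℤ (I → ZR Q)) (Ψ q)))
  let L : ZR Q →+ (I → ZR Q) := L0.comp MonoidAlgebra.coeffAddEquiv.toAddMonoidHom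
  have hL : ∀ (q : Q) (n : ℤ), L (MonoidAlgebra.single q n) = n • Ψ q := by
    intro q n
    show L0 (MonoidAlgebra.single q n).coeff = _
    rw [MonoidAlgebra.coeff_single]
    exact Finsupp.liftAddHom_apply_single _ q n
  set S := Submodule.span (ZR Q) (fox g '' W) with hS
  have hco : ∀ (q : Q) (i : I), (QuotientGroup.mk (q * g i) : Q ⧸ H) = QuotientGroup.mk q := by
    intro q i
    rw [QuotientGroup.eq]
    refine ⟨(FreeGroup.of i)⁻¹, ?_⟩
    simp
  have key : ∀ (i : I) (q : Q), (Pi.single i (el q) : I → ZR Q) + Ψ q - Ψ (q * g i) ∈ S := by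
    intro i q
    have h1 : FreeGroup.lift g (σ q * FreeGroup.of i * (σ (q * g i))⁻¹) = 1 := by
      have h2 := hσ q
      have h3 := hσ (q * g i)
      rw [hco] at h3
      rw [map_mul, map_mul, map_inv, FreeGroup.lift_apply_of, mul_inv_eq_one]
      have h4 : (QuotientGroup.mk q : Q ⧸ H).out * (FreeGroup.lift g (σ q) * g i) =
          (QuotientGroup.mk q : Q ⧸ H).out * FreeGroup.lift g (σ (q * g i)) := by
        rw [← h3, ← mul_assoc, ← h2]
      exact mul_left_cancel h4
    have h5 := fox_mem_span g W hW _ (hW' _ h1)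
    have h6 : (Pi.single i (el q) : I → ZR Q) + Ψ q - Ψ (q * g i) =
        el ((QuotientGroup.mk q : Q ⧸ H).out) •
          fox g (σ q * FreeGroup.of i * (σ (q * g i))⁻¹) := by
      have h7 : FreeGroup.lift g (σ q * FreeGroup.of i) * (FreeGroup.lift g (σ (q * g i)))⁻¹ = 1 := by
        rw [← map_inv, ← map_mul]
        exact h1
      rw [fox_mul, fox_mul, fox_inv, smul_neg, smul_smul, ← el_mul, h7, el_one, one_smul, fox_of]
      simp only [Ψ]
      rw [hco, smul_add, smul_add, smul_neg, smul_smul, ← el_mul, ← hσ q]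
      have h8 : el q • (Pi.single i 1 : I → ZR Q) = Pi.single i (el q) := by
        ext j
        by_cases hj : j = i
        · subst hj; simp
        · simp [hj]
      rw [h8]
      abel
    rw [h6]
    exact Submodule.smul_mem _ _ h5
  have key2 : ∀ (i : I) (c : ZR Q), (Pi.single i c : I → ZR Q) + L c - L (c * el (g i)) ∈ S := by
    intro i c
    induction c using MonoidAlgebra.induction_linear with
    | zero => simp
    | add a b ha hb =>
      have e : (Pi.single i (a + b) : I → ZR Q) + L (a + b) - L ((a + b) * el (g i)) =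
          ((Pi.single i a : I → ZR Q) + L a - L (a * el (g i))) +
          ((Pi.single i b : I → ZR Q) + L b - L (b * el (g i))) := by
        rw [Pi.single_add, map_add, add_mul, map_add]
        abel
      rw [e]
      exact Submodule.add_mem _ ha hb
    | single q n =>
      have e : (Pi.single i (MonoidAlgebra.single q n) : I → ZR Q) + L (MonoidAlgebra.single q n) -
          L (MonoidAlgebra.single q n * el (g i)) =
          n • ((Pi.single i (el q) : I → ZR Q) + Ψ q - Ψ (q * g i)) := by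
        unfold el
        rw [MonoidAlgebra.single_mul_single, mul_one, hL, hL, smul_sub, smul_add]
        congr 2
        ext j x
        by_cases hj : j = i
        · subst hj
          simp
        · simp [hj]
      rw [e]
      exact Submodule.smul_of_tower_mem _ n (key i q)
  have h1 : ∑ i, ((Pi.single i (γ i) : I → ZR Q) + L (γ i) - L (γ i * el (g i))) ∈ S :=
    Submodule.sum_mem _ (fun i _ => key2 i (γ i))
  have h2 : ∑ i, ((Pi.single i (γ i) : I → ZR Q) + L (γ i) - L (γ i * el (g i))) = γ := by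
    have h3 : ∀ i, ((Pi.single i (γ i) : I → ZR Q) + L (γ i) - L (γ i * el (g i))) =
        Pi.single i (γ i) + L (γ i * (1 - el (g i))) := by
      intro i
      rw [mul_sub, map_sub, mul_one]
      abel
    simp only [h3]
    rw [Finset.sum_add_distrib, ← map_sum, hγ, map_zero, add_zero]
    exact Finset.univ_sum_single γ
  rw [h2] at h1
  exact h1

end exact

section seq

variable {X K Q : Type} [Group Q] (r : K → FreeGroup X)

/-- conjugation of formal products -/
def cj (g : FreeGroup X) : Seq X K →* Seq X K := FreeGroup.map (fun p => (g * p.1, p.2))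

theorem rho_cj (g : FreeGroup X) (u : Seq X K) : rho r (cj g u) = g * rho r u * g⁻¹ := by
  induction u using FreeGroup.induction_on with
  | C1 => simp
  | of p => simp [cj, mul_assoc]
  | inv_of p ih => rw [map_inv, map_inv, ih, map_inv]; group
  | mul x y hx hy => rw [map_mul, map_mul, hx, hy, map_mul]; group

theorem chn_cj (g : X → Q) (w : FreeGroup X) (u : Seq X K) :
    chn g (cj w u) = el (FreeGroup.lift g w) • chn g u := by
  classical
  induction u using FreeGroup.induction_on with
  | C1 => simp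
  | of p =>
    simp only [cj, FreeGroup.map.of, chn_of, map_mul]
    ext k
    by_cases hk : k = p.2
    · subst hk
      simp [el_mul]
    · simp [hk]
  | inv_of p ih => rw [map_inv, chn_inv, ih, chn_inv, smul_neg]
  | mul x y hx hy => rw [map_mul, chn_mul, hx, hy, chn_mul, smul_add]

/-- elements of the normal closure are values of formal products -/
theorem exists_seq (g : X → Q) (S : Set K) (w : FreeGroup X)
    (hw : w ∈ Subgroup.normalClosure (r '' S)) :
    ∃ c : Seq X K, rho r c = w ∧ ∀ k ∉ S, chn g c k = 0 := by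
  classical
  unfold Subgroup.normalClosure at hw
  induction hw using Subgroup.closure_induction with
  | mem x hx =>
    obtain ⟨s, ⟨k, hk, rfl⟩, hc⟩ := Group.mem_conjugatesOfSet_iff.mp hx
    obtain ⟨c, hc⟩ := isConj_iff.mp hc
    refine ⟨FreeGroup.of (c, k), by simp [hc], ?_⟩
    intro k' hk'
    rw [chn_of]
    have : k' ≠ k := fun h => hk' (h ▸ hk)
    simp [this]
  | one => exact ⟨1, by simp, by simp⟩
  | mul x y _ _ hx hy =>
    obtain ⟨c, h1, h2⟩ := hx
    obtain ⟨d, h3, h4⟩ := hy
    refine ⟨c * d, by rw [map_mul, h1, h3], ?_⟩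
    intro k hk
    rw [chn_mul, Pi.add_apply, h2 k hk, h4 k hk, add_zero]
  | inv x _ hx =>
    obtain ⟨c, h1, h2⟩ := hx
    refine ⟨c⁻¹, by rw [map_inv, h1], ?_⟩
    intro k hk
    rw [chn_inv, Pi.neg_apply, h2 k hk, neg_zero]

end seq

/-! ### Towers -/

section tower

variable {X : Type} {I : X → Type}

/-- the relators of a tower: `x h x⁻¹ = k` -/
def trel (h k : ∀ x, I x → FreeGroup X) (p : Σ x, I x) : FreeGroup X :=
  FreeGroup.of p.1 * h p.1 p.2 * (FreeGroup.of p.1)⁻¹ * (k p.1 p.2)⁻¹

variable {Q : Type} [Group Q]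

theorem fox_eq_zero (g : X → Q) (S : Set X) (x : X) (hx : x ∉ S) (w : FreeGroup X)
    (hw : w ∈ Subgroup.closure (FreeGroup.of '' S)) : fox g w x = 0 := by
  induction hw using Subgroup.closure_induction with
  | mem y hy =>
    obtain ⟨z, hz, rfl⟩ := hy
    apply fox_of_ne
    intro h
    exact hx (h ▸ hz)
  | one => simp
  | mul a b _ _ ha hb => rw [fox_mul, Pi.add_apply, Pi.smul_apply, ha, hb]; simp
  | inv a _ ha => rw [fox_inv, Pi.neg_apply, Pi.smul_apply, ha]; simp

variable (h k : ∀ x, I x → FreeGroup X) (rk : X → ℕ)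

theorem fox_trel (g : X → Q) (x : X) (i : I x) (hrel : FreeGroup.lift g (trel h k ⟨x, i⟩) = 1)
    (hh : h x i ∈ Subgroup.closure (FreeGroup.of '' {y | rk y < rk x}))
    (hk : k x i ∈ Subgroup.closure (FreeGroup.of '' {y | rk y < rk x})) :
    fox g (trel h k ⟨x, i⟩) x = 1 - el (FreeGroup.lift g (k x i)) := by
  have hx : x ∉ {y | rk y < rk x} := fun h => lt_irrefl (rk x) h
  have h1 := fox_eq_zero g _ x hx _ hh
  have h2 := fox_eq_zero g _ x hx _ hk
  unfold trel at hrel ⊢
  simp only at hrel ⊢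
  rw [fox_mul, fox_mul, fox_mul, fox_inv, fox_inv]
  simp only [Pi.add_apply, Pi.smul_apply, Pi.neg_apply, h1, h2, fox_of_self, smul_eq_mul, mul_zero,
    add_zero, neg_zero, mul_one, mul_neg]
  rw [← el_mul]
  have h3 : FreeGroup.lift g (FreeGroup.of x * h x i) * (FreeGroup.lift g (FreeGroup.of x))⁻¹ =
      FreeGroup.lift g (k x i) := by
    rw [map_mul, map_inv, mul_inv_eq_one] at hrel
    rw [← hrel]
    simp only [map_mul, map_inv]
  rw [h3, sub_eq_add_neg]

theorem fox_trel_ne (g : X → Q) (x y : X) (i : I x) (hne : y ≠ x) (hr : rk x ≤ rk y)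
    (hh : h x i ∈ Subgroup.closure (FreeGroup.of '' {y | rk y < rk x}))
    (hk : k x i ∈ Subgroup.closure (FreeGroup.of '' {y | rk y < rk x})) :
    fox g (trel h k ⟨x, i⟩) y = 0 := by
  have hx : y ∉ {z | rk z < rk x} := fun h => by
    have h' : rk y < rk x := h
    omega
  have h1 := fox_eq_zero g _ y hx _ hh
  have h2 := fox_eq_zero g _ y hx _ hk
  unfold trel
  simp only
  rw [fox_mul, fox_mul, fox_mul, fox_inv, fox_inv]
  simp only [Pi.add_apply, Pi.smul_apply, Pi.neg_apply, h1, h2, fox_of_ne g hne, smul_eq_mul,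
    mul_zero, add_zero, neg_zero]

/-- the formal product realizing `x w(h) x⁻¹ w(k)⁻¹` -/
theorem exists_strip (g : X → Q) (x : X)
    (w : FreeGroup (I x)) :
    ∃ c : Seq X (Σ x, I x), rho (trel h k) c = FreeGroup.of x * FreeGroup.lift (h x) w *
      (FreeGroup.of x)⁻¹ * (FreeGroup.lift (k x) w)⁻¹ ∧
      (∀ i, chn g c ⟨x, i⟩ = fox (fun i => FreeGroup.lift g (k x i)) w i) ∧
      ∀ (y : X) (j : I y), y ≠ x → chn g c ⟨y, j⟩ = 0 := by
  classical
  have hl : ∀ w : FreeGroup (I x), FreeGroup.lift (fun i => FreeGroup.lift g (k x i)) w =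
      FreeGroup.lift g (FreeGroup.lift (k x) w) := by
    intro w
    have : FreeGroup.lift (fun i => FreeGroup.lift g (k x i)) =
        (FreeGroup.lift g).comp (FreeGroup.lift (k x)) := by
      ext i
      simp
    rw [this]
    rfl
  induction w using FreeGroup.induction_on with
  | C1 => exact ⟨1, by simp, by simp, by simp⟩
  | of i =>
    refine ⟨FreeGroup.of (1, ⟨x, i⟩), by simp [trel], ?_, ?_⟩
    · intro j
      rw [chn_of, fox_of]
      by_cases hj : j = i
      · subst hj
        simp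
      · have : (⟨x, j⟩ : Σ x, I x) ≠ ⟨x, i⟩ := by
          intro h
          exact hj (by simpa using h)
        simp [this, hj]
    · intro y j hy
      rw [chn_of]
      have : (⟨y, j⟩ : Σ x, I x) ≠ ⟨x, i⟩ := by
        intro h
        exact hy (congrArg Sigma.fst h)
      simp [this]
  | inv_of i ih =>
    obtain ⟨c, h1, h2, h3⟩ := ih
    refine ⟨cj (FreeGroup.lift (k x) (FreeGroup.of i))⁻¹ c⁻¹, ?_, ?_, ?_⟩
    · rw [rho_cj, map_inv, h1]
      simp only [map_inv]
      group
    · intro j
      rw [chn_cj, chn_inv, fox_inv, Pi.smul_apply, Pi.neg_apply, Pi.neg_apply, Pi.smul_apply, h2,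
        hl, map_inv, smul_neg]
    · intro y j hy
      rw [chn_cj, chn_inv, Pi.smul_apply, Pi.neg_apply, h3 y j hy]
      simp
  | mul u v hu hv =>
    obtain ⟨c, h1, h2, h3⟩ := hu
    obtain ⟨d, h4, h5, h6⟩ := hv
    refine ⟨c * cj (FreeGroup.lift (k x) u) d, ?_, ?_, ?_⟩
    · rw [map_mul, rho_cj, h1, h4, map_mul, map_mul]
      group
    · intro j
      rw [chn_mul, chn_cj, fox_mul, Pi.add_apply, Pi.add_apply, Pi.smul_apply, Pi.smul_apply, h2,
        h5, hl]
    · intro y j hy
      rw [chn_mul, chn_cj, Pi.add_apply, Pi.smul_apply, h3 y j hy, h6 y j hy]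
      simp

/-- the identity sequence of a relator of the subgroup -/
theorem exists_ident (g : X → Q) (x : X)
    (w : FreeGroup (I x))
    (w1 : FreeGroup.lift (h x) w ∈ Subgroup.normalClosure (trel h k '' {p | rk p.1 < rk x}))
    (w2 : FreeGroup.lift (k x) w ∈ Subgroup.normalClosure (trel h k '' {p | rk p.1 < rk x})) :
    ∃ c : Seq X (Σ x, I x), rho (trel h k) c = 1 ∧
      (∀ i, chn g c ⟨x, i⟩ = fox (fun i => FreeGroup.lift g (k x i)) w i) ∧
      ∀ (y : X) (j : I y), y ≠ x → rk x ≤ rk y → chn g c ⟨y, j⟩ = 0 := by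
  obtain ⟨c, h1, h2, h3⟩ := exists_strip h k g x w
  obtain ⟨c1, a1, a2⟩ := exists_seq (trel h k) g _ _ w1
  obtain ⟨c2, b1, b2⟩ := exists_seq (trel h k) g _ _ w2
  refine ⟨c * c2 * (cj (FreeGroup.of x) c1)⁻¹, ?_, ?_, ?_⟩
  · rw [map_mul, map_mul, map_inv, rho_cj, h1, a1, b1]
    group
  · intro i
    have hn : (⟨x, i⟩ : Σ x, I x) ∉ {p : Σ x, I x | rk p.1 < rk x} := fun h => lt_irrefl (rk x) h
    rw [chn_mul, chn_mul, chn_inv, chn_cj, Pi.add_apply, Pi.add_apply, Pi.neg_apply, Pi.smul_apply,
      h2, a2 _ hn, b2 _ hn]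
    simp
  · intro y j hy hr
    have hn : (⟨y, j⟩ : Σ x, I x) ∉ {p : Σ x, I x | rk p.1 < rk x} := fun h => by
      have h' : rk y < rk x := h
      omega
    rw [chn_mul, chn_mul, chn_inv, chn_cj, Pi.add_apply, Pi.add_apply, Pi.neg_apply, Pi.smul_apply,
      h3 y j hy, a2 _ hn, b2 _ hn]
    simp

variable [Fintype X] [∀ x, Fintype (I x)]

/-- the tower theorem: generation of the identities by the identities of the subgroups -/
theorem tower (g : X → Q) (hrel : ∀ p, FreeGroup.lift g (trel h k p) = 1)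
    (hh : ∀ x i, h x i ∈ Subgroup.closure (FreeGroup.of '' {y | rk y < rk x}))
    (hk : ∀ x i, k x i ∈ Subgroup.closure (FreeGroup.of '' {y | rk y < rk x}))
    (W : ∀ x, Set (FreeGroup (I x)))
    (hW : ∀ x, ∀ w, FreeGroup.lift (fun i => FreeGroup.lift g (k x i)) w = 1 →
      w ∈ Subgroup.normalClosure (W x))
    (hW1 : ∀ x, ∀ w ∈ W x,
      FreeGroup.lift (h x) w ∈ Subgroup.normalClosure (trel h k '' {p | rk p.1 < rk x}))
    (hW2 : ∀ x, ∀ w ∈ W x,
      FreeGroup.lift (k x) w ∈ Subgroup.normalClosure (trel h k '' {p | rk p.1 < rk x})) :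
    ∃ U : ∀ x, FreeGroup (I x) → Seq X (Σ x, I x),
      (∀ x, ∀ w ∈ W x, rho (trel h k) (U x w) = 1 ∧
        (∀ i, chn g (U x w) ⟨x, i⟩ = fox (fun i => FreeGroup.lift g (k x i)) w i) ∧
        ∀ (y : X) (j : I y), y ≠ x → rk x ≤ rk y → chn g (U x w) ⟨y, j⟩ = 0) ∧
      ∀ β : (Σ x, I x) → ZR Q, bd (trel h k) g β = 0 →
        β ∈ Submodule.span (ZR Q) {γ | ∃ x, ∃ w ∈ W x, γ = chn g (U x w)} := by
  classical
  have hex : ∀ x, ∀ w : FreeGroup (I x), ∃ c : Seq X (Σ x, I x), w ∈ W x →
      (rho (trel h k) c = 1 ∧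
      (∀ i, chn g c ⟨x, i⟩ = fox (fun i => FreeGroup.lift g (k x i)) w i) ∧
      ∀ (y : X) (j : I y), y ≠ x → rk x ≤ rk y → chn g c ⟨y, j⟩ = 0) := by
    intro x w
    by_cases hw : w ∈ W x
    · obtain ⟨c, hc⟩ := exists_ident h k rk g x w (hW1 x w hw) (hW2 x w hw)
      exact ⟨c, fun _ => hc⟩
    · exact ⟨1, fun h => absurd h hw⟩
  choose U hU using hex
  refine ⟨U, fun x w hw => hU x w hw, ?_⟩
  have hlr : ∀ c : Seq X (Σ x, I x), bd (trel h k) g (chn g c) = fox g (rho (trel h k) c) :=
    fun c => (fox_rho (trel h k) g hrel c).symm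
  have hWg : ∀ x, ∀ w ∈ W x, FreeGroup.lift (fun i => FreeGroup.lift g (k x i)) w = 1 := by
    intro x w hw
    have h1 := hW2 x w hw
    have h2 : Subgroup.normalClosure (trel h k '' {p | rk p.1 < rk x}) ≤ (FreeGroup.lift g).ker := by
      apply Subgroup.normalClosure_le_normal
      rintro _ ⟨p, _, rfl⟩
      exact hrel p
    have h3 : FreeGroup.lift g (FreeGroup.lift (k x) w) = 1 := h2 h1
    have : FreeGroup.lift (fun i => FreeGroup.lift g (k x i)) =
        (FreeGroup.lift g).comp (FreeGroup.lift (k x)) := by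
      ext i
      simp
    rw [this]
    exact h3
  -- the span of the chains of one letter
  let Sp : X → Submodule (ZR Q) ((Σ x, I x) → ZR Q) := fun x =>
    Submodule.span (ZR Q) {γ | ∃ w ∈ W x, γ = chn g (U x w)}
  have hSp1 : ∀ x, ∀ δ ∈ Sp x, bd (trel h k) g δ = 0 ∧
      ∀ (y : X) (j : I y), y ≠ x → rk x ≤ rk y → δ ⟨y, j⟩ = 0 := by
    intro x δ hδ
    induction hδ using Submodule.span_induction with
    | mem γ hγ =>
      obtain ⟨w, hw, rfl⟩ := hγ
      refine ⟨?_, (hU x w hw).2.2⟩
      rw [hlr, (hU x w hw).1, fox_one]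
    | zero => exact ⟨bd_zero _ _, fun _ _ _ _ => rfl⟩
    | add a b _ _ ha hb =>
      refine ⟨by rw [bd_add, ha.1, hb.1, add_zero], fun y j h1 h2 => ?_⟩
      rw [Pi.add_apply, ha.2 y j h1 h2, hb.2 y j h1 h2, add_zero]
    | smul c a _ ha =>
      refine ⟨by rw [bd_smul, ha.1, smul_zero], fun y j h1 h2 => ?_⟩
      rw [Pi.smul_apply, ha.2 y j h1 h2, smul_zero]
  have hSp2 : ∀ x, ∀ γ ∈ Submodule.span (ZR Q)
      (fox (fun i => FreeGroup.lift g (k x i)) '' (W x)), ∃ δ ∈ Sp x, ∀ i, δ ⟨x, i⟩ = γ i := by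
    intro x γ hγ
    induction hγ using Submodule.span_induction with
    | mem γ hγ =>
      obtain ⟨w, hw, rfl⟩ := hγ
      exact ⟨chn g (U x w), Submodule.subset_span ⟨w, hw, rfl⟩, (hU x w hw).2.1⟩
    | zero => exact ⟨0, Submodule.zero_mem _, fun _ => rfl⟩
    | add a b _ _ ha hb =>
      obtain ⟨δ, h1, h2⟩ := ha
      obtain ⟨δ', h3, h4⟩ := hb
      exact ⟨δ + δ', Submodule.add_mem _ h1 h3, fun i => by
        rw [Pi.add_apply, h2, h4, Pi.add_apply]⟩
    | smul c a _ ha =>
      obtain ⟨δ, h1, h2⟩ := ha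
      exact ⟨c • δ, Submodule.smul_mem _ _ h1, fun i => by
        rw [Pi.smul_apply, h2, Pi.smul_apply]⟩
  have hle : ∀ x, Sp x ≤ Submodule.span (ZR Q) {γ | ∃ x, ∃ w ∈ W x, γ = chn g (U x w)} := by
    intro x
    apply Submodule.span_mono
    rintro γ ⟨w, hw, rfl⟩
    exact ⟨x, w, hw, rfl⟩
  have main : ∀ n : ℕ, ∀ β : (Σ x, I x) → ZR Q, bd (trel h k) g β = 0 →
      (∀ p, n ≤ rk p.1 → β p = 0) →
      β ∈ Submodule.span (ZR Q) {γ | ∃ x, ∃ w ∈ W x, γ = chn g (U x w)} := by
    intro n
    induction n with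
    | zero =>
      intro β _ h0
      have : β = 0 := by
        ext1 p
        exact h0 p (Nat.zero_le _)
      rw [this]
      exact Submodule.zero_mem _
    | succ n IH =>
      intro β hβ h0
      have hst : ∀ x, rk x = n → ∃ δ ∈ Sp x, ∀ i, δ ⟨x, i⟩ = β ⟨x, i⟩ := by
        intro x hx
        apply hSp2 x (fun i => β ⟨x, i⟩)
        apply ex_fox (fun i => FreeGroup.lift g (k x i)) (W x) (hWg x) (hW x)
        have h1 := congrFun hβ x
        rw [bd, Finset.sum_apply, Pi.zero_apply] at h1
        rw [← Finset.univ_sigma_univ, Finset.sum_sigma] at h1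
        rw [Finset.sum_eq_single x] at h1
        · rw [← h1]
          apply Finset.sum_congr rfl
          intro i _
          rw [Pi.smul_apply, fox_trel h k rk g x i (hrel _) (hh x i) (hk x i), smul_eq_mul]
        · intro y _ hy
          apply Finset.sum_eq_zero
          intro i _
          rw [Pi.smul_apply]
          rcases Nat.lt_or_ge n (rk y) with h2 | h2
          · rw [h0 ⟨y, i⟩ h2, zero_smul]
          · rw [fox_trel_ne h k rk g y x i (Ne.symm hy) (by omega) (hh y i) (hk y i), smul_zero]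
        · intro h
          exact absurd (Finset.mem_univ _) h
      have hst' : ∀ x, ∃ δ ∈ Sp x, rk x = n → ∀ i, δ ⟨x, i⟩ = β ⟨x, i⟩ := by
        intro x
        by_cases hx : rk x = n
        · obtain ⟨δ, h1, h2⟩ := hst x hx
          exact ⟨δ, h1, fun _ => h2⟩
        · exact ⟨0, Submodule.zero_mem _, fun h => absurd h hx⟩
      choose δ hδ1 hδ2 using hst'
      set D := ∑ x ∈ Finset.univ.filter (fun x => rk x = n), δ x with hD
      have hDm : D ∈ Submodule.span (ZR Q) {γ | ∃ x, ∃ w ∈ W x, γ = chn g (U x w)} :=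
        Submodule.sum_mem _ (fun x _ => hle x (hδ1 x))
      have hDb : bd (trel h k) g D = 0 := by
        have : ∀ s : Finset X, bd (trel h k) g (∑ x ∈ s, δ x) = 0 := by
          intro s
          induction s using Finset.induction_on with
          | empty => simp [bd_zero]
          | insert a s ha ih =>
            rw [Finset.sum_insert ha, bd_add, ih, (hSp1 a _ (hδ1 a)).1, add_zero]
        exact this _
      have h2 := IH (β - D) (by rw [bd_sub, hβ, hDb, sub_zero]) (by
        rintro ⟨y, j⟩ hy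
        simp only at hy
        rw [Pi.sub_apply, hD, Finset.sum_apply]
        rcases Nat.lt_or_ge n (rk y) with h3 | h3
        · rw [h0 ⟨y, j⟩ h3, zero_sub, neg_eq_zero]
          apply Finset.sum_eq_zero
          intro x hx
          simp only [Finset.mem_filter, Finset.mem_univ, true_and] at hx
          refine (hSp1 x _ (hδ1 x)).2 y j ?_ (by omega)
          intro h
          subst h
          omega
        · have hyn : rk y = n := by omega
          rw [Finset.sum_eq_single y]
          · rw [hδ2 y hyn, sub_self]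
          · intro x hx hxy
            simp only [Finset.mem_filter, Finset.mem_univ, true_and] at hx
            exact (hSp1 x _ (hδ1 x)).2 y j (Ne.symm hxy) (by omega)
          · intro h
            exact absurd (by simp [hyn]) h)
      have h3 := Submodule.add_mem _ h2 hDm
      rwa [sub_add_cancel] at h3
  intro β hβ
  obtain ⟨N, hN⟩ : ∃ N, ∀ x, rk x < N := by
    refine ⟨(Finset.univ.sup rk) + 1, fun x => ?_⟩
    exact Nat.lt_succ_of_le (Finset.le_sup (f := rk) (Finset.mem_univ x))
  exact main N β hβ (fun p hp => absurd hp (by have := hN p.1; omega))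

end tower

end Pool.Agent.TH95
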