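import Pool.Agent.TH95.SD.Rips

/-!
The square system of a complex with vertical and horizontal edges.
-/

set_option autoImplicit false

set_option linter.unusedSectionVars false

namespace Pool.Agent.TH95

open Pool.Agent.W387

variable {V H : Type}

namespace VH

/-- darts -/
abbrev Da (V H : Type) : Type := (V × Bool) ⊕ H

/-- the squares -/
def sq (T : VH V H) : Da V H → Da V H → Option (Da V H × Da V H)
  | Sum.inl (v, true), Sum.inr h => (T.up v h).map (fun p => (Sum.inr p.1, Sum.inl (p.2, true)))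
  | Sum.inl (v, false), Sum.inr h => (T.dn v h).map (fun p => (Sum.inr p.1, Sum.inl (p.2, false)))
  | Sum.inr h, Sum.inl (v, true) => (T.up v h).map (fun p => (Sum.inl (p.2, true), Sum.inr p.1))
  | Sum.inr h, Sum.inl (v, false) => (T.dn v h).map (fun p => (Sum.inl (p.2, false), Sum.inr p.1))
  | Sum.inl _, Sum.inl _ => none
  | Sum.inr _, Sum.inr _ => none

/-- the inverse of a dart -/
def dinv (T : VH V H) : Da V H → Da V H
  | Sum.inl (v, s) => Sum.inl (v, !s)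
  | Sum.inr h => Sum.inr (T.inv h)

theorem sq_iff (T : VH V H) (a b p q : Da V H) : T.sq a b = some (p, q) ↔
    (∃ v h h' v', T.up v h' = some (h, v') ∧
      ((a = Sum.inl (v, true) ∧ b = Sum.inr h' ∧ p = Sum.inr h ∧ q = Sum.inl (v', true)) ∨
       (b = Sum.inl (v, true) ∧ a = Sum.inr h' ∧ q = Sum.inr h ∧ p = Sum.inl (v', true)) ∨
       (a = Sum.inl (v, false) ∧ b = Sum.inr h ∧ p = Sum.inr h' ∧ q = Sum.inl (v', false)) ∨
       (b = Sum.inl (v, false) ∧ a = Sum.inr h ∧ q = Sum.inr h' ∧ p = Sum.inl (v', false)))) := by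
  constructor
  · intro hs
    rcases a with ⟨v, _ | _⟩ | h <;> rcases b with ⟨v2, _ | _⟩ | h2 <;>
      simp only [sq, Option.map_eq_some_iff, Prod.mk.injEq, Prod.exists, reduceCtorEq] at hs
    · obtain ⟨h', v', h1, rfl, rfl⟩ := hs
      exact ⟨v, h2, h', v', (T.up_dn _ _ _ _).mpr h1, by simp⟩
    · obtain ⟨h', v', h1, rfl, rfl⟩ := hs
      exact ⟨v, h', h2, v', h1, by simp⟩
    · obtain ⟨h', v', h1, rfl, rfl⟩ := hs
      exact ⟨v2, h, h', v', (T.up_dn _ _ _ _).mpr h1, by simp⟩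
    · obtain ⟨h', v', h1, rfl, rfl⟩ := hs
      exact ⟨v2, h', h, v', h1, by simp⟩
  · rintro ⟨v, h, h', v', hu, H⟩
    have hd := (T.up_dn _ _ _ _).mp hu
    rcases H with ⟨rfl, rfl, rfl, rfl⟩ | ⟨rfl, rfl, rfl, rfl⟩ | ⟨rfl, rfl, rfl, rfl⟩ |
      ⟨rfl, rfl, rfl, rfl⟩ <;> simp [sq, hu, hd]

/-- the square system -/
def sys (T : VH V H) : SqSys (Da V H) where
  inv := T.dinv
  inv_inv := by
    rintro (⟨v, s⟩ | h)
    · simp [dinv]
    · simp [dinv, T.inv_inv]
  sq := T.sq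
  symm := by
    intro a b p q h
    rw [sq_iff] at h ⊢
    obtain ⟨v, h, h', v', hu, H⟩ := h
    refine ⟨v, h, h', v', hu, ?_⟩
    rcases H with ⟨rfl, rfl, rfl, rfl⟩ | ⟨rfl, rfl, rfl, rfl⟩ | ⟨rfl, rfl, rfl, rfl⟩ |
      ⟨rfl, rfl, rfl, rfl⟩ <;> simp
  rot := by
    intro a b p q h
    rw [sq_iff] at h ⊢
    obtain ⟨v, h, h', v', hu, H⟩ := h
    have hr := T.refl _ _ _ _ hu
    rcases H with ⟨rfl, rfl, rfl, rfl⟩ | ⟨rfl, rfl, rfl, rfl⟩ | ⟨rfl, rfl, rfl, rfl⟩ |
      ⟨rfl, rfl, rfl, rfl⟩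
    · exact ⟨v, h, h', v', hu, by simp [dinv]⟩
    · exact ⟨v', _, _, v, hr, by simp [dinv]⟩
    · exact ⟨v, h, h', v', hu, by simp [dinv]⟩
    · exact ⟨v', _, _, v, hr, by simp [dinv]⟩
  irrefl := by
    rintro (⟨v, _ | _⟩ | h) <;> rfl
  cube := by
    intro a b c b1 a1 c1 b2 c2 a2 h1 h2 h3
    exfalso
    rcases a with ⟨v, _ | _⟩ | h <;> rcases b with ⟨v2, _ | _⟩ | h2 <;>
      rcases c with ⟨v3, _ | _⟩ | h3 <;>
      simp only [sq, reduceCtorEq] at h1 h2 h3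

/-- the group -/
abbrev Grp (T : VH V H) : Type := T.sys.Grp

/-- the element of a vertical edge -/
def gv (T : VH V H) (v : V) : T.Grp := T.sys.gn (Sum.inl (v, true))

/-- the element of a horizontal dart -/
def gh (T : VH V H) (h : H) : T.Grp := T.sys.gn (Sum.inr h)

theorem gh_inv (T : VH V H) (h : H) : T.gh (T.inv h) = (T.gh h)⁻¹ :=
  SqSys.gn_inv (S := T.sys) (Sum.inr h)

theorem gsq (T : VH V H) {v v' : V} {h h' : H} (hs : T.up v h' = some (h, v')) :
    T.gv v * T.gh h = T.gh h' * T.gv v' := by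
  apply SqSys.gn_sq (S := T.sys)
  exact (T.sq_iff _ _ _ _).mpr ⟨v, h, h', v', hs, Or.inl ⟨rfl, rfl, rfl, rfl⟩⟩

/-- homomorphisms out of the group -/
def lift (T : VH V H) {G : Type} [Group G] (fv : V → G) (fh : H → G)
    (h1 : ∀ h, fh (T.inv h) = (fh h)⁻¹)
    (h2 : ∀ v h' h v', T.up v h' = some (h, v') → fv v * fh h = fh h' * fv v') : T.Grp →* G :=
  SqSys.lift (S := T.sys)
    (Sum.elim (fun p => if p.2 then fv p.1 else (fv p.1)⁻¹) fh)
    (by
      rintro (⟨v, _ | _⟩ | h)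
      · simp [sys, dinv]
      · simp [sys, dinv]
      · exact h1 h)
    (by
      intro a b p q h
      obtain ⟨v, h, h', v', hu, H⟩ := (T.sq_iff _ _ _ _).mp h
      have := h2 _ _ _ _ hu
      rcases H with ⟨rfl, rfl, rfl, rfl⟩ | ⟨rfl, rfl, rfl, rfl⟩ | ⟨rfl, rfl, rfl, rfl⟩ |
        ⟨rfl, rfl, rfl, rfl⟩
      · simpa using this
      · simpa using this.symm
      · simp only [Sum.elim_inl, Sum.elim_inr, Bool.false_eq_true, ↓reduceIte]
        rw [inv_mul_eq_iff_eq_mul, ← mul_assoc, this]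
        simp
      · simp only [Sum.elim_inl, Sum.elim_inr, Bool.false_eq_true, ↓reduceIte]
        rw [eq_inv_mul_iff_mul_eq, ← mul_assoc, this]
        simp)

@[simp] theorem lift_gv (T : VH V H) {G : Type} [Group G] (fv : V → G) (fh : H → G)
    (h1 : ∀ h, fh (T.inv h) = (fh h)⁻¹)
    (h2 : ∀ v h' h v', T.up v h' = some (h, v') → fv v * fh h = fh h' * fv v') (v : V) :
    T.lift fv fh h1 h2 (T.gv v) = fv v := by
  unfold lift gv
  rw [SqSys.lift_gn]
  simp

@[simp] theorem lift_gh (T : VH V H) {G : Type} [Group G] (fv : V → G) (fh : H → G)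
    (h1 : ∀ h, fh (T.inv h) = (fh h)⁻¹)
    (h2 : ∀ v h' h v', T.up v h' = some (h, v') → fv v * fh h = fh h' * fv v') (h : H) :
    T.lift fv fh h1 h2 (T.gh h) = fh h := by
  unfold lift gh
  rw [SqSys.lift_gn]
  simp

end VH

end Pool.Agent.TH95
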